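import Pool.Agent.Lib.MP_c37a72_al.NR.IDA

/-!
# CEN: every nonzero element divides a nonzero central element
-/

set_option autoImplicit false

namespace Pool.Agent.Lib.MP_c37a72_al

universe u v w

open Module

namespace CENM

theorem eval_charpoly {K V : Type*} [Field K] [AddCommGroup V] [Module K V] [Module.Finite K V]
    (f : V →ₗ[K] V) (t : K) : f.charpoly.eval t = LinearMap.det (t • LinearMap.id - f) := by
  set b := Free.chooseBasis K V
  rw [← LinearMap.charpoly_toMatrix f b, Matrix.eval_charpoly, ← LinearMap.det_toMatrix b]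
  congr 1
  rw [map_sub, map_smul, LinearMap.toMatrix_id]
  congr 1
  ext i j
  simp [Matrix.smul_apply, Matrix.one_apply, Matrix.diagonal_apply]

/-- a polynomial with vector coefficients which takes values in `W` has its coefficients in `W` -/
theorem coeff_mem {k V : Type*} [Field k] [Infinite k] [AddCommGroup V] [Module k V]
    (W : Submodule k V) (N : ℕ) (a : ℕ → V) (h : ∀ t : k, ∑ i ∈ Finset.range N, t ^ i • a i ∈ W) :
    ∀ i ∈ Finset.range N, a i ∈ W := by
  intro i hi
  rw [← Submodule.Quotient.mk_eq_zero W]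
  rw [← forall_dual_apply_eq_zero_iff k]
  intro φ
  set P : Polynomial k := ∑ j ∈ Finset.range N,
    Polynomial.monomial j (φ (Submodule.Quotient.mk (a j))) with hP
  have hP0 : P = 0 := by
    apply Polynomial.funext
    intro t
    rw [hP, Polynomial.eval_finsetSum, Polynomial.eval_zero]
    have h1 : (Submodule.Quotient.mk (∑ j ∈ Finset.range N, t ^ j • a j) : V ⧸ W) = 0 :=
      (Submodule.Quotient.mk_eq_zero W).2 (h t)
    have h2 := congrArg φ h1
    rw [map_zero] at h2
    rw [← h2, ← Submodule.mkQ_apply, map_sum, map_sum]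
    apply Finset.sum_congr rfl
    intro j _
    rw [Polynomial.eval_monomial, map_smul, map_smul, smul_eq_mul, mul_comm]
    rfl
  have h3 := congrArg (fun p => Polynomial.coeff p i) hP0
  simp only [hP, Polynomial.finsetSum_coeff, Polynomial.coeff_monomial, Polynomial.coeff_zero] at h3
  rw [Finset.sum_ite_eq' (Finset.range N) i] at h3
  rw [if_pos hi] at h3
  exact h3

/-- the span of the elements `u c(x;y) v` -/
noncomputable def GG {k : Type u} {Q : Type v} [Field k] [DivisionRing Q] [Algebra k Q] (n : ℕ)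
    (X : Subalgebra k Q) : Submodule k Q :=
  Submodule.span k {z | ∃ u v : Q, ∃ x y : Fin n → Q, u ∈ X ∧ v ∈ X ∧ (∀ j, x j ∈ X) ∧
    (∀ j, y j ∈ X) ∧ z = u * capelli n x y * v}

section

variable {k : Type u} {Q : Type v} [Field k] [DivisionRing Q] [Algebra k Q] {n : ℕ}
    {X : Subalgebra k Q}

theorem cap_mem {x y : Fin n → Q} (hx : ∀ j, x j ∈ X) (hy : ∀ j, y j ∈ X) :
    capelli n x y ∈ X := by
  have := CAPM.capelli_mem X.toSubring n x y (fun j => Subalgebra.mem_toSubring.2 (hx j))
    (fun j => Subalgebra.mem_toSubring.2 (hy j))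
  exact Subalgebra.mem_toSubring.1 this

theorem GG_le {g : Q} (hg : g ∈ GG n X) : g ∈ X := by
  have h : GG n X ≤ Subalgebra.toSubmodule X := by
    unfold GG
    rw [Submodule.span_le]
    rintro z ⟨u, v, x, y, hu, hv, hx, hy, rfl⟩
    exact X.mul_mem (X.mul_mem hu (cap_mem hx hy)) hv
  exact h hg

theorem GG_gen {x y : Fin n → Q} {u v : Q} (hu : u ∈ X) (hv : v ∈ X) (hx : ∀ j, x j ∈ X)
    (hy : ∀ j, y j ∈ X) : u * capelli n x y * v ∈ GG n X :=
  Submodule.subset_span ⟨u, v, x, y, hu, hv, hx, hy, rfl⟩

theorem GG_mul_left {w g : Q} (hw : w ∈ X) (hg : g ∈ GG n X) : w * g ∈ GG n X := by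
  unfold GG at hg
  induction hg using Submodule.span_induction with
  | mem z hz =>
    obtain ⟨u, v, x, y, hu, hv, hx, hy, rfl⟩ := hz
    rw [← mul_assoc, ← mul_assoc]
    exact GG_gen (X.mul_mem hw hu) hv hx hy
  | zero => rw [mul_zero]; exact Submodule.zero_mem _
  | add a b _ _ ha hb => rw [mul_add]; exact Submodule.add_mem _ ha hb
  | smul c a _ ha => rw [mul_smul_comm]; exact Submodule.smul_mem _ _ ha

end

/-- the coefficients of the characteristic polynomials act on `GG` -/
theorem GG_coeff {k : Type u} {Q : Type v} [Field k] [Infinite k] [DivisionRing Q] [Algebra k Q]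
    [Module.Finite (Subring.center Q) Q] (hCAP : SpecCAP.{v}) {X : Subalgebra k Q} {a g : Q}
    (ha : a ∈ X) (hg : g ∈ GG (finrank (Subring.center Q) Q) X) :
    ∀ i ∈ Finset.range (finrank (Subring.center Q) Q + 1),
      (LinearMap.mulLeft (Subring.center Q) a).charpoly.coeff i • g ∈
        GG (finrank (Subring.center Q) Q) X := by
  set χ := (LinearMap.mulLeft (Subring.center Q) a).charpoly with hχ
  have hdeg : χ.natDegree = finrank (Subring.center Q) Q := LinearMap.charpoly_natDegree _
  apply coeff_mem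
  intro t
  -- `t` as an element of the centre
  have htz : algebraMap k Q t ∈ Subring.center Q := by
    rw [Subring.mem_center_iff]
    intro q
    exact (Algebra.commutes t q).symm
  set tz : Subring.center Q := ⟨algebraMap k Q t, htz⟩ with htzdef
  have hsm : ∀ q : Q, tz • q = t • q := by
    intro q
    rw [Algebra.smul_def t q]
    rfl
  have hsum : ∑ i ∈ Finset.range (finrank (Subring.center Q) Q + 1), t ^ i • χ.coeff i • g =
      χ.eval tz • g := by
    rw [Polynomial.eval_eq_sum_range, hdeg, Finset.sum_smul]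
    apply Finset.sum_congr rfl
    intro i _
    have h1 : ∀ (j : ℕ) (q : Q), tz ^ j • q = t ^ j • q := by
      intro j
      induction j with
      | zero => intro q; simp
      | succ j ih => intro q; rw [pow_succ, mul_smul, hsm, ih, pow_succ, mul_smul]
    rw [mul_comm, mul_smul, h1]
  rw [hsum, hχ, eval_charpoly]
  set φ : Q →ₗ[Subring.center Q] Q :=
    tz • LinearMap.id - LinearMap.mulLeft (Subring.center Q) a with hφ
  have hφx : ∀ q ∈ X, φ q ∈ X := by
    intro q hq
    have e : φ q = t • q - a * q := by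
      rw [hφ, LinearMap.sub_apply, LinearMap.smul_apply, LinearMap.id_apply, hsm,
        LinearMap.mulLeft_apply]
    rw [e]
    exact X.sub_mem (X.smul_mem hq t) (X.mul_mem ha hq)
  clear hsum
  unfold GG at hg
  induction hg using Submodule.span_induction with
  | mem z hz =>
    obtain ⟨u, v, x, y, hu, hv, hx, hy, rfl⟩ := hz
    rw [← smul_mul_assoc, ← mul_smul_comm, ← hCAP.2 Q φ x y]
    exact GG_gen hu hv (fun j => hφx _ (hx j)) hy
  | zero => rw [smul_zero]; exact Submodule.zero_mem _
  | add a b _ _ ha hb => rw [smul_add]; exact Submodule.add_mem _ ha hb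
  | smul c b _ hb =>
    rw [Algebra.smul_def c b, ← mul_smul_comm, ← Algebra.smul_def]
    exact Submodule.smul_mem _ _ hb

theorem coeff_zero_ne {Q : Type v} [DivisionRing Q] [Module.Finite (Subring.center Q) Q] {w : Q}
    (hw : w ≠ 0) : (LinearMap.mulLeft (Subring.center Q) w).charpoly.coeff 0 ≠ 0 := by
  intro h0
  have h1 := LinearMap.det_eq_sign_charpoly_coeff (LinearMap.mulLeft (Subring.center Q) w)
  rw [h0, mul_zero] at h1
  have h2 : LinearMap.mulLeft (Subring.center Q) w ∘ₗ LinearMap.mulLeft (Subring.center Q) w⁻¹ =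
      LinearMap.id := by
    ext q
    simp [mul_inv_cancel_left₀ hw]
  have h3 := congrArg LinearMap.det h2
  rw [LinearMap.det_comp, h1, zero_mul, LinearMap.det_id] at h3
  exact zero_ne_one h3

theorem cayley {Q : Type v} [DivisionRing Q] [Module.Finite (Subring.center Q) Q] (w : Q) :
    ∑ i ∈ Finset.range (finrank (Subring.center Q) Q + 1),
      (LinearMap.mulLeft (Subring.center Q) w).charpoly.coeff i • w ^ i = 0 := by
  have h1 := LinearMap.aeval_self_charpoly (LinearMap.mulLeft (Subring.center Q) w)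
  set χ := (LinearMap.mulLeft (Subring.center Q) w).charpoly with hχ
  have hdeg : χ.natDegree = finrank (Subring.center Q) Q := LinearMap.charpoly_natDegree _
  have h2 : LinearMap.mulLeft (Subring.center Q) w = Algebra.lmul (Subring.center Q) Q w := rfl
  rw [h2, Polynomial.aeval_algHom_apply] at h1
  have h3 : Polynomial.aeval w χ * 1 = 0 :=
    congrArg (fun f : Q →ₗ[Subring.center Q] Q => f 1) h1
  rw [mul_one, Polynomial.aeval_eq_sum_range, hdeg] at h3
  exact h3

end CENM

open CENM in
theorem specCEN (hCAP : SpecCAP.{v}) : SpecCEN.{u, v} := by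
  classical
  intro k H Q _ _ _ _ _ _ _ ι hfr hfin a ha
  set X : Subalgebra k Q := ι.range with hXdef
  have hmemX : ∀ h : H, ι h ∈ X := fun h => ⟨h, rfl⟩
  have hι0 : ∀ s : H, s ≠ 0 → ι s ≠ 0 := by
    intro s hs h0
    exact hs (hfr.inj (by rw [h0, map_zero]))
  have hX : ∀ c : Q, (∀ x ∈ X.toSubring, x * c = c * x) → c ∈ Subring.center Q := by
    intro c hc
    rw [Subring.mem_center_iff]
    intro q
    obtain ⟨s, h, hs, e⟩ := hfr.left q
    have e1 : ι s * c = c * ι s := hc _ (hmemX s)
    have e2 : ι h * c = c * ι h := hc _ (hmemX h)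
    have e3 : ι s * (q * c) = ι s * (c * q) := by
      rw [← mul_assoc, e, e2, ← mul_assoc, e1, mul_assoc, e]
    exact mul_left_cancel₀ (hι0 s hs) e3
  -- common denominators
  have hden : ∀ S : Finset Q, ∃ s : H, s ≠ 0 ∧ ∀ q ∈ S, ι s * q ∈ X := by
    intro S
    induction S using Finset.induction_on with
    | empty => exact ⟨1, one_ne_zero, by simp⟩
    | insert q S _ ih =>
      obtain ⟨s, hs, h1⟩ := ih
      obtain ⟨s', h', hs', e'⟩ := hfr.left (ι s * q)
      refine ⟨s' * s, mul_ne_zero hs' hs, ?_⟩
      intro q' hq'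
      rw [map_mul, mul_assoc]
      rcases Finset.mem_insert.1 hq' with rfl | hq''
      · rw [e']; exact hmemX _
      · exact X.mul_mem (hmemX s') (h1 q' hq'')
  set n := finrank (Subring.center Q) Q with hn
  set e := Module.finBasis (Subring.center Q) Q with he
  obtain ⟨s, hs, hsX⟩ := hden (Finset.univ.image (fun j => e j))
  set x : Fin n → Q := fun j => ι s * e j with hx
  have hxX : ∀ j, x j ∈ X := fun j => hsX _ (Finset.mem_image_of_mem _ (Finset.mem_univ j))
  have hlin : LinearIndependent (Subring.center Q) x := by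
    have h1 := e.linearIndependent.map' (LinearMap.mulLeft (Subring.center Q) (ι s)) (by
      rw [LinearMap.ker_eq_bot]
      intro p q hpq
      exact mul_left_cancel₀ (hι0 s hs) hpq)
    exact h1
  obtain ⟨y, hy, hne⟩ := hCAP.1 Q X.toSubring hX n x hlin hxX
  set u : Q := capelli n x y with hu
  have huG : u ∈ GG n X := by
    have := GG_gen (n := n) (X := X) (u := 1) (v := 1) X.one_mem X.one_mem hxX hy
    rwa [one_mul, mul_one] at this
  set w : Q := ι a * u with hw
  have hwX : w ∈ X := X.mul_mem (hmemX a) (GG_le huG)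
  have hw0 : w ≠ 0 := mul_ne_zero (hι0 a ha) hne
  have hch := cayley w
  set χ := (LinearMap.mulLeft (Subring.center Q) w).charpoly with hχ
  rw [← hn, Finset.sum_range_succ'] at hch
  set B : Q := ∑ i ∈ Finset.range n, (χ.coeff (i + 1) • u) * w ^ i with hB
  have hBX : B ∈ X := by
    rw [hB]
    apply X.sum_mem
    intro i hi
    apply X.mul_mem _ (X.pow_mem hwX i)
    apply GG_le
    exact GG_coeff hCAP hwX huG (i + 1) (by
      rw [Finset.mem_range] at hi ⊢
      omega)
  obtain ⟨b, hb⟩ := hBX
  have hb' : ι b = B := hb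
  have haB : ι a * B = -(χ.coeff 0 • (1 : Q)) := by
    have e1 : ι a * B = ∑ i ∈ Finset.range n, χ.coeff (i + 1) • w ^ (i + 1) := by
      rw [hB, Finset.mul_sum]
      apply Finset.sum_congr rfl
      intro i _
      rw [pow_succ', smul_mul_assoc, mul_smul_comm, ← mul_assoc]
    rw [e1, eq_neg_iff_add_eq_zero]
    rw [pow_zero] at hch
    exact hch
  refine ⟨b, a * b, rfl, ?_, ?_⟩
  · intro h0
    have h1 : ι (a * b) = 0 := by rw [h0, map_zero]
    rw [map_mul, hb', haB, neg_eq_zero, smul_eq_zero] at h1
    rcases h1 with h1 | h1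
    · exact coeff_zero_ne hw0 h1
    · exact one_ne_zero h1
  · intro z
    apply hfr.inj
    rw [map_mul, map_mul ι (a * b) z, map_mul ι a b, hb', haB]
    rw [mul_neg, neg_mul, mul_smul_comm, smul_mul_assoc, mul_one, one_mul]

end Pool.Agent.Lib.MP_c37a72_al
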