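import Pool.Agent.Lib.MP_c37a72_al.Place

section
/-!
# MP_c37a72_al, block G: the Gauss extension of a place

* `Plc k Z`: a place of the field `Z` with residue field `k`: a subalgebra `V` of `Z`, `α : V → k`,
  for every `z` either `z ∈ V` or `z⁻¹ ∈ V` and `α z⁻¹ = 0`.
* `Plc.content`: every nonzero `t ∈ Z ⊗ B` is `c • t'` with `t' ∈ V ⊗ B` of nonzero residue in `B`.
* `noZeroDivisors_tensor`: `A ⊗ B` has no zero divisors (`k` algebraically closed, `A` a commutative
  domain, `B` any ring without zero divisors).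
* `Plc.gauss : Plc k Z → Plc L F`, `F = Frac (Z ⊗ L)`.
* `CPlc`: places compatible with a character of `H ⊆ Q`; `CPlc.gauss_compat`.
-/
set_option autoImplicit false
set_option linter.unusedSectionVars false

namespace Pool.Agent.Lib.MP_c37a72_al

open Finset TensorProduct

universe u v w

/-- a place of `Z` with residue field `k` -/
structure Plc (k : Type u) (Z : Type v) [Field k] [Field Z] [Algebra k Z] where
  V : Subalgebra k Z
  α : V →ₐ[k] k
  dich : ∀ z : Z, z ∈ V ∨ ∃ h : z⁻¹ ∈ V, α ⟨z⁻¹, h⟩ = 0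

namespace Plc

section basic

variable {k : Type u} {Z : Type v} [Field k] [Field Z] [Algebra k Z] (P : Plc k Z)

theorem inv_mem {z : Z} (h : z ∈ P.V) (h0 : P.α ⟨z, h⟩ ≠ 0) : z⁻¹ ∈ P.V := by
  rcases P.dich z⁻¹ with h1 | ⟨h1, h2⟩
  · exact h1
  · exfalso
    apply h0
    have : (⟨z, h⟩ : P.V) = ⟨z⁻¹⁻¹, h1⟩ := by
      apply Subtype.ext; simp
    rw [this]; exact h2

theorem not_inv_mem {z : Z} (h : z ∈ P.V) (h0 : P.α ⟨z, h⟩ = 0) (hz : z ≠ 0) : z⁻¹ ∉ P.V := by
  intro h1
  have : (⟨z, h⟩ : P.V) * ⟨z⁻¹, h1⟩ = 1 := by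
    apply Subtype.ext
    show z * z⁻¹ = 1
    exact mul_inv_cancel₀ hz
  have := congrArg P.α this
  rw [map_mul, h0, zero_mul, map_one] at this
  exact zero_ne_one this

theorem div_or (x y : Z) : x / y ∈ P.V ∨ y / x ∈ P.V := by
  rcases P.dich (x / y) with h | ⟨h, -⟩
  · exact Or.inl h
  · right; rwa [inv_div] at h

theorem exists_dominating {ι : Type*} (s : Finset ι) (hs : s.Nonempty) (c : ι → Z)
    (hc : ∀ i ∈ s, c i ≠ 0) : ∃ j ∈ s, ∀ i ∈ s, c i / c j ∈ P.V := by
  induction hs using Finset.Nonempty.cons_induction with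
  | singleton a =>
    refine ⟨a, Finset.mem_singleton_self a, fun i hi => ?_⟩
    rw [Finset.mem_singleton] at hi
    subst hi
    rw [div_self (hc i (Finset.mem_singleton_self _))]
    exact one_mem _
  | cons a s ha hs ih =>
    obtain ⟨j, hj, hj'⟩ := ih (fun i hi => hc i (Finset.mem_cons_of_mem hi))
    have hca := hc a (Finset.mem_cons_self a s)
    have hcj := hc j (Finset.mem_cons_of_mem hj)
    rcases P.div_or (c a) (c j) with h | h
    · refine ⟨j, Finset.mem_cons_of_mem hj, fun i hi => ?_⟩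
      rcases Finset.mem_cons.1 hi with rfl | hi
      · exact h
      · exact hj' i hi
    · refine ⟨a, Finset.mem_cons_self a s, fun i hi => ?_⟩
      rcases Finset.mem_cons.1 hi with rfl | hi
      · rw [div_self hca]; exact one_mem _
      · have : c i / c a = (c i / c j) * (c j / c a) := by field_simp
        rw [this]
        exact mul_mem (hj' i hi) h

end basic

section content

variable {k : Type u} {Z : Type v} [Field k] [Field Z] [Algebra k Z] (P : Plc k Z)
variable (B : Type w) [Ring B] [Algebra k B]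

/-- evaluation `V ⊗ B → B` -/
noncomputable def ev : P.V ⊗[k] B →ₐ[k] B :=
  Algebra.TensorProduct.lift ((Algebra.ofId k B).comp P.α) (AlgHom.id k B)
    (fun x y => by
      rw [AlgHom.comp_apply, Algebra.ofId_apply]
      exact Algebra.commute_algebraMap_left _ _)

/-- inclusion `V ⊗ B → Z ⊗ B` -/
noncomputable def incl : P.V ⊗[k] B →ₐ[k] Z ⊗[k] B :=
  Algebra.TensorProduct.map P.V.val (AlgHom.id k B)

@[simp] theorem ev_tmul (v : P.V) (b : B) : P.ev B (v ⊗ₜ b) = P.α v • b := by
  unfold ev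
  rw [Algebra.TensorProduct.lift_tmul]
  simp [Algebra.ofId_apply, Algebra.smul_def]

@[simp] theorem incl_tmul (v : P.V) (b : B) : P.incl B (v ⊗ₜ b) = (v : Z) ⊗ₜ b := by
  unfold incl
  rw [Algebra.TensorProduct.map_tmul]
  rfl

theorem incl_injective : Function.Injective (P.incl B) := by
  have h : Function.Injective (LinearMap.rTensor B P.V.val.toLinearMap) :=
    Module.Flat.rTensor_preserves_injective_linearMap _ Subtype.val_injective
  intro x y hxy
  apply h
  exact hxy

/-- the content lemma -/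
theorem content {t : Z ⊗[k] B} (ht : t ≠ 0) :
    ∃ (c : Z) (t' : P.V ⊗[k] B), c ≠ 0 ∧ P.ev B t' ≠ 0 ∧ t = c • P.incl B t' := by
  classical
  let b := Module.Basis.ofVectorSpace k B
  let bb := Algebra.TensorProduct.basis Z b
  set r := bb.repr t with hr
  have hr0 : r ≠ 0 := by
    intro h
    apply ht
    have : bb.repr t = 0 := h
    exact (LinearEquiv.map_eq_zero_iff _).1 this
  have hne : r.support.Nonempty := Finsupp.support_nonempty_iff.2 hr0
  obtain ⟨j, hj, hj'⟩ := P.exists_dominating r.support hne r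
    (fun i hi => Finsupp.mem_support_iff.1 hi)
  have hcj : r j ≠ 0 := Finsupp.mem_support_iff.1 hj
  refine ⟨r j, ∑ i ∈ r.support.attach, (⟨r i / r j, hj' i i.2⟩ : P.V) ⊗ₜ b i, hcj, ?_, ?_⟩
  · rw [map_sum]
    simp only [ev_tmul]
    intro h0
    have h1 := congrArg (fun x => b.repr x j) h0
    simp only [map_sum, map_zero, Finsupp.coe_zero, Pi.zero_apply, map_smul,
      Finsupp.coe_finsetSum, Finset.sum_apply, Finsupp.smul_apply, Module.Basis.repr_self] at h1
    rw [Finset.sum_eq_single ⟨j, hj⟩] at h1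
    · simp only [Finsupp.single_eq_same, smul_eq_mul, mul_one] at h1
      have e : (⟨r j / r j, hj' j hj⟩ : P.V) = 1 := by
        apply Subtype.ext
        show r j / r j = 1
        exact div_self hcj
      rw [e, map_one] at h1
      exact one_ne_zero h1
    · intro i _ hij
      have : (i : _) ≠ j := fun h => hij (Subtype.ext h)
      rw [Finsupp.single_eq_of_ne (by simpa using this.symm), smul_zero]
    · intro h; exact absurd (Finset.mem_attach _ _) h
  · rw [map_sum]
    simp only [incl_tmul]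
    have h2 : t = ∑ i ∈ r.support, r i ⊗ₜ[k] b i := by
      conv_lhs => rw [← bb.linearCombination_repr t]
      rw [Finsupp.linearCombination_apply, Finsupp.sum]
      refine Finset.sum_congr rfl fun i _ => ?_
      exact Algebra.TensorProduct.basis_repr_symm_apply' b _ i
    rw [Finset.smul_sum, Finset.sum_attach r.support
      (fun i => r j • ((r i / r j) ⊗ₜ[k] b i))]
    conv_lhs => rw [h2]
    refine Finset.sum_congr rfl fun i _ => ?_
    rw [TensorProduct.smul_tmul', smul_eq_mul, mul_div_cancel₀ _ hcj]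

include P in
theorem noZeroDivisors [NoZeroDivisors B] : NoZeroDivisors (Z ⊗[k] B) := by
  constructor
  intro x y hxy
  by_contra hcon
  rw [not_or] at hcon
  obtain ⟨hx, hy⟩ := hcon
  obtain ⟨c, x', hc, hx', ex⟩ := P.content B hx
  obtain ⟨d, y', hd, hy', ey⟩ := P.content B hy
  have h1 : P.incl B (x' * y') = 0 := by
    have : (c * d) • P.incl B (x' * y') = 0 := by
      rw [map_mul, ← smul_mul_smul_comm, ← ex, ← ey]
      exact hxy
    exact (smul_eq_zero.1 this).resolve_left (mul_ne_zero hc hd)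
  have h2 : x' * y' = 0 := P.incl_injective B (by rw [h1, map_zero])
  have h3 := congrArg (P.ev B) h2
  rw [map_mul, map_zero] at h3
  rcases mul_eq_zero.1 h3 with h | h
  · exact hx' h
  · exact hy' h

end content

end Plc

/-- a place compatible with a character of `H ⊆ Q` -/
structure CPlc {k : Type u} {Z : Type v} {Q : Type w} [Field k] [Field Z] [Ring Q] [Algebra k Z]
    [Algebra Z Q] [Algebra k Q] (H : Subalgebra k Q) (φ : H →ₐ[k] k) extends Plc k Z where
  ψ : Q →ₗ[k] k
  ψ_mul : ∀ (h : H) (v : V), ψ ((h : Q) * algebraMap Z Q v) = φ h * α v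

theorem exists_cplc {k : Type u} {Z : Type v} {Q : Type w} [Field k] [IsAlgClosed k] [Field Z]
    [Ring Q] [Algebra k Z] [Algebra Z Q] [Algebra k Q] [IsScalarTower k Z Q] (H : Subalgebra k Q)
    (φ : H →ₐ[k] k) : Nonempty (CPlc (Z := Z) H φ) := by
  classical
  obtain ⟨V, α, hk, hα, hc⟩ := exists_place (Z := Z) H φ
  let VA : Subalgebra k Z :=
    { V.toSubring.toSubsemiring with
      algebraMap_mem' := fun c => (hk c).1 }
  let αA : VA →ₐ[k] k :=
    { toFun := fun v => α ⟨v.1, v.2⟩
      map_one' := α.map_one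
      map_zero' := α.map_zero
      map_mul' := fun a b => α.map_mul ⟨a.1, a.2⟩ ⟨b.1, b.2⟩
      map_add' := fun a b => α.map_add ⟨a.1, a.2⟩ ⟨b.1, b.2⟩
      commutes' := fun c => (hk c).2 }
  have hdich : ∀ z : Z, z ∈ VA ∨ ∃ h : z⁻¹ ∈ VA, αA ⟨z⁻¹, h⟩ = 0 := by
    intro z
    by_cases hz : z ∈ V
    · exact Or.inl hz
    · right
      have hz' : z⁻¹ ∈ V := (V.mem_or_inv_mem z).resolve_left hz
      refine ⟨hz', ?_⟩
      show α ⟨z⁻¹, hz'⟩ = 0
      rw [hα]
      intro hu
      apply hz
      obtain ⟨w, hw⟩ := hu.exists_right_inv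
      have e : z⁻¹ * (w : Z) = 1 := congrArg Subtype.val hw
      have : z = (w : Z) := by
        have hz0 : z ≠ 0 := by
          rintro rfl
          rw [inv_zero, zero_mul] at e
          exact zero_ne_one e
        field_simp at e
        exact e.symm
      rw [this]; exact w.2
  -- the two linear maps on `H ⊗ VA`
  let μ : H ⊗[k] VA →ₗ[k] Q := TensorProduct.lift
    { toFun := fun h =>
        { toFun := fun v => (h : Q) * algebraMap Z Q v
          map_add' := fun a b => by simp [mul_add]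
          map_smul' := fun c a => by
            simp only [RingHom.id_apply]
            show (h : Q) * algebraMap Z Q (c • (a : Z)) = c • ((h : Q) * algebraMap Z Q a)
            rw [Algebra.smul_def, map_mul, ← IsScalarTower.algebraMap_apply k Z Q,
              ← Algebra.smul_def, mul_smul_comm] }
      map_add' := fun a b => by ext v; simp [add_mul]
      map_smul' := fun c a => by ext v; simp }
  let lam : H ⊗[k] VA →ₗ[k] k := TensorProduct.lift
    { toFun := fun h =>
        { toFun := fun v => φ h * αA v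
          map_add' := fun a b => by rw [map_add, mul_add]
          map_smul' := fun c a => by
            simp only [RingHom.id_apply]
            rw [map_smul, smul_eq_mul, smul_eq_mul]; ring }
      map_add' := fun a b => by ext v; simp [add_mul]
      map_smul' := fun c a => by ext v; simp [mul_assoc] }
  have hμ : ∀ (h : H) (v : VA), μ (h ⊗ₜ v) = (h : Q) * algebraMap Z Q v := fun h v => rfl
  have hlam : ∀ (h : H) (v : VA), lam (h ⊗ₜ v) = φ h * αA v := fun h v => rfl
  have hker : LinearMap.ker μ ≤ LinearMap.ker lam := by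
    intro t ht
    rw [LinearMap.mem_ker] at ht ⊢
    obtain ⟨n, a, b, rfl⟩ : ∃ (n : ℕ) (a : Fin n → H) (b : Fin n → VA),
        t = ∑ i, a i ⊗ₜ[k] b i := by
      obtain ⟨s, hs⟩ := TensorProduct.exists_multiset t
      clear ht
      revert t
      induction s using Multiset.induction_on with
      | empty => intro t ht; exact ⟨0, fun i => i.elim0, fun i => i.elim0, by simpa using ht⟩
      | cons p s ih =>
        intro t ht
        obtain ⟨n, a, b, h⟩ := ih rfl
        refine ⟨n + 1, Fin.cons p.1 a, Fin.cons p.2 b, ?_⟩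
        rw [ht, Multiset.map_cons, Multiset.sum_cons, Fin.sum_univ_succ, h]
        simp
    rw [map_sum] at ht ⊢
    simp only [hμ, hlam] at ht ⊢
    -- transport to the index type `ℕ`-free statement of `exists_place`
    have := hc (Fin n) Finset.univ a (fun i => ⟨(b i : Z), (b i).2⟩) ht
    exact this
  obtain ⟨ψ, hψ⟩ : ∃ ψ : Q →ₗ[k] k, ∀ t, ψ (μ t) = lam t := by
    let ψ0 : LinearMap.range μ →ₗ[k] k :=
      ((LinearMap.ker μ).liftQ lam hker).comp μ.quotKerEquivRange.symm.toLinearMap
    obtain ⟨ψ, hψ⟩ := LinearMap.exists_extend ψ0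
    refine ⟨ψ, fun t => ?_⟩
    have h1 := congrArg (fun g => g ⟨μ t, LinearMap.mem_range_self μ t⟩) hψ
    have h2 : ψ0 ⟨μ t, LinearMap.mem_range_self μ t⟩ = lam t := by
      show ((LinearMap.ker μ).liftQ lam hker) (μ.quotKerEquivRange.symm ⟨μ t, _⟩) = lam t
      rw [LinearMap.quotKerEquivRange_symm_apply_image μ t]
      rfl
    rw [← h2, ← h1]
    rfl
  exact ⟨⟨⟨VA, αA, hdich⟩, ψ, fun h v => hψ (h ⊗ₜ v)⟩⟩

/-- over an algebraically closed field every field extension has a place -/
theorem exists_plc (k : Type u) (Z : Type v) [Field k] [IsAlgClosed k] [Field Z] [Algebra k Z] :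
    Nonempty (Plc k Z) := by
  obtain ⟨P⟩ := exists_cplc (Z := Z) (⊥ : Subalgebra k Z) (Algebra.botEquiv k Z).toAlgHom
  exact ⟨P.toPlc⟩

/-- `A ⊗ B` has no zero divisors: `k` algebraically closed, `A` a commutative domain, `B` a ring
without zero divisors -/
theorem noZeroDivisors_tensor (k : Type u) (A : Type v) (B : Type w) [Field k] [IsAlgClosed k]
    [CommRing A] [IsDomain A] [Algebra k A] [Ring B] [Algebra k B] [NoZeroDivisors B] :
    NoZeroDivisors (A ⊗[k] B) := by
  obtain ⟨P⟩ := exists_plc k (FractionRing A)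
  have h : NoZeroDivisors (FractionRing A ⊗[k] B) := P.noZeroDivisors B
  let f : A ⊗[k] B →ₐ[k] FractionRing A ⊗[k] B :=
    Algebra.TensorProduct.map (IsScalarTower.toAlgHom k A (FractionRing A)) (AlgHom.id k B)
  have hf : Function.Injective f := by
    have h : Function.Injective (LinearMap.rTensor B
        (IsScalarTower.toAlgHom k A (FractionRing A)).toLinearMap) :=
      Module.Flat.rTensor_preserves_injective_linearMap _ (IsFractionRing.injective A _)
    intro x y hxy
    exact h hxy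
  exact hf.noZeroDivisors f (map_zero f) (map_mul f)

/-! ### the Gauss extension -/

namespace Plc

section gauss

variable {k : Type u} {Z : Type v} [Field k] [Field Z] [Algebra k Z] (P : Plc k Z)
variable (L : Type w) [Field L] [Algebra k L]
variable (F : Type*) [Field F] [Algebra (Z ⊗[k] L) F] [IsFractionRing (Z ⊗[k] L) F]

/-- `V ⊗ L → F` -/
noncomputable def io : P.V ⊗[k] L →+* F :=
  (algebraMap (Z ⊗[k] L) F).comp (P.incl L).toRingHom

theorem io_apply (a : P.V ⊗[k] L) : P.io L F a = algebraMap (Z ⊗[k] L) F (P.incl L a) := rfl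

theorem io_injective : Function.Injective (P.io L F) := fun _ _ h =>
  P.incl_injective L (IsFractionRing.injective (Z ⊗[k] L) F h)

theorem io_ne {b : P.V ⊗[k] L} (hb : P.ev L b ≠ 0) : P.io L F b ≠ 0 := by
  intro h
  apply hb
  have : b = 0 := P.io_injective L F (by rw [h, map_zero])
  rw [this, map_zero]

variable {L F}

theorem gauss_uniq {f : F} {a b a' b' : P.V ⊗[k] L} (h : f * P.io L F b = P.io L F a)
    (h' : f * P.io L F b' = P.io L F a') : P.ev L a * P.ev L b' = P.ev L a' * P.ev L b := by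
  have : a * b' = a' * b := by
    apply P.io_injective L F
    rw [map_mul, map_mul, ← h, ← h']; ring
  rw [← map_mul, ← map_mul, this]

variable (L F) in
/-- the set of Gauss-integral elements -/
def GO : Set F := {f | ∃ a b : P.V ⊗[k] L, P.ev L b ≠ 0 ∧ f * P.io L F b = P.io L F a}

/-- the numerator -/
noncomputable def num {f : F} (h : f ∈ P.GO L F) : P.V ⊗[k] L := h.choose
/-- the denominator -/
noncomputable def den {f : F} (h : f ∈ P.GO L F) : P.V ⊗[k] L := h.choose_spec.choose

theorem den_ne {f : F} (h : f ∈ P.GO L F) : P.ev L (P.den h) ≠ 0 := h.choose_spec.choose_spec.1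

theorem num_den {f : F} (h : f ∈ P.GO L F) : f * P.io L F (P.den h) = P.io L F (P.num h) :=
  h.choose_spec.choose_spec.2

/-- the residue -/
noncomputable def res {f : F} (h : f ∈ P.GO L F) : L := P.ev L (P.num h) / P.ev L (P.den h)

theorem res_mul {f : F} (h : f ∈ P.GO L F) {a b : P.V ⊗[k] L} (hf : f * P.io L F b = P.io L F a) :
    P.res h * P.ev L b = P.ev L a := by
  have h1 := P.gauss_uniq (P.num_den h) hf
  unfold res
  rw [div_mul_eq_mul_div, div_eq_iff (P.den_ne h)]
  exact h1

theorem res_eq {f : F} (h : f ∈ P.GO L F) {a b : P.V ⊗[k] L} (hb : P.ev L b ≠ 0)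
    (hf : f * P.io L F b = P.io L F a) : P.res h = P.ev L a / P.ev L b := by
  rw [eq_div_iff hb]; exact P.res_mul h hf

theorem mem_GO {f : F} {a b : P.V ⊗[k] L} (hb : P.ev L b ≠ 0)
    (hf : f * P.io L F b = P.io L F a) : f ∈ P.GO L F := ⟨a, b, hb, hf⟩

theorem io_mem (a : P.V ⊗[k] L) : P.io L F a ∈ P.GO L F :=
  ⟨a, 1, by rw [map_one]; exact one_ne_zero, by rw [map_one, mul_one]⟩

theorem res_io (a : P.V ⊗[k] L) : P.res (P.io_mem (F := F) a) = P.ev L a := by
  have := P.res_mul (P.io_mem (F := F) a) (a := a) (b := 1) (by rw [map_one, mul_one])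
  rwa [map_one, mul_one] at this

theorem mul_mem_GO {f g : F} (hf : f ∈ P.GO L F) (hg : g ∈ P.GO L F) : f * g ∈ P.GO L F := by
  refine ⟨P.num hf * P.num hg, P.den hf * P.den hg, ?_, ?_⟩
  · rw [map_mul]; exact mul_ne_zero (P.den_ne hf) (P.den_ne hg)
  · rw [map_mul, map_mul, ← P.num_den hf, ← P.num_den hg]; ring

theorem res_mul_res {f g : F} (hf : f ∈ P.GO L F) (hg : g ∈ P.GO L F) :
    P.res (P.mul_mem_GO hf hg) = P.res hf * P.res hg := by
  rw [P.res_eq (P.mul_mem_GO hf hg) (a := P.num hf * P.num hg) (b := P.den hf * P.den hg)]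
  · unfold res
    rw [map_mul, map_mul, mul_div_mul_comm]
  · rw [map_mul]; exact mul_ne_zero (P.den_ne hf) (P.den_ne hg)
  · rw [map_mul, map_mul, ← P.num_den hf, ← P.num_den hg]; ring

theorem add_mem_GO {f g : F} (hf : f ∈ P.GO L F) (hg : g ∈ P.GO L F) : f + g ∈ P.GO L F := by
  refine ⟨P.num hf * P.den hg + P.num hg * P.den hf, P.den hf * P.den hg, ?_, ?_⟩
  · rw [map_mul]; exact mul_ne_zero (P.den_ne hf) (P.den_ne hg)
  · rw [map_mul, map_add, map_mul, map_mul, ← P.num_den hf, ← P.num_den hg]; ring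

theorem res_add_res {f g : F} (hf : f ∈ P.GO L F) (hg : g ∈ P.GO L F) :
    P.res (P.add_mem_GO hf hg) = P.res hf + P.res hg := by
  rw [P.res_eq (P.add_mem_GO hf hg) (a := P.num hf * P.den hg + P.num hg * P.den hf)
    (b := P.den hf * P.den hg)]
  · unfold res
    rw [map_mul, map_add, map_mul, map_mul, div_add_div _ _ (P.den_ne hf) (P.den_ne hg)]
    ring
  · rw [map_mul]; exact mul_ne_zero (P.den_ne hf) (P.den_ne hg)
  · rw [map_mul, map_add, map_mul, map_mul, ← P.num_den hf, ← P.num_den hg]; ring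

variable (L F)

/-- **the Gauss extension** of a place: residue field `L` -/
noncomputable def gauss [Algebra L F]
    (hL : ∀ l : L, algebraMap L F l = algebraMap (Z ⊗[k] L) F (1 ⊗ₜ l)) : Plc L F where
  V :=
    { carrier := P.GO L F
      mul_mem' := P.mul_mem_GO
      add_mem' := P.add_mem_GO
      algebraMap_mem' := fun l => by
        rw [hL]
        have := P.io_mem (F := F) ((1 : P.V) ⊗ₜ[k] l)
        rwa [io_apply, incl_tmul] at this }
  α :=
    { toFun := fun f => P.res f.2
      map_one' := by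
        have h : (1 : F) ∈ P.GO L F := by
          have := P.io_mem (F := F) (1 : P.V ⊗[k] L)
          rwa [map_one] at this
        have e := P.res_eq h (a := 1) (b := 1) (by rw [map_one]; exact one_ne_zero)
          (by rw [map_one, mul_one])
        rw [div_self (by rw [map_one]; exact one_ne_zero)] at e
        exact e
      map_mul' := fun f g => P.res_mul_res f.2 g.2
      map_zero' := by
        have h : (0 : F) ∈ P.GO L F := by
          have := P.io_mem (F := F) (0 : P.V ⊗[k] L)
          rwa [map_zero] at this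
        have e := P.res_eq h (a := 0) (b := 1) (by rw [map_one]; exact one_ne_zero)
          (by rw [map_one, map_zero, mul_one])
        rw [map_zero, zero_div] at e
        exact e
      map_add' := fun f g => P.res_add_res f.2 g.2
      commutes' := fun l => by
        have h : algebraMap L F l ∈ P.GO L F := by
          rw [hL]
          have := P.io_mem (F := F) ((1 : P.V) ⊗ₜ[k] l)
          rwa [io_apply, incl_tmul] at this
        have e := P.res_eq h (a := (1 : P.V) ⊗ₜ[k] l) (b := 1) (by rw [map_one]; exact one_ne_zero)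
          (by rw [map_one, mul_one, hL, io_apply, incl_tmul]; rfl)
        rw [map_one, div_one, ev_tmul, map_one, one_smul] at e
        exact e }
  dich := by
    intro f
    obtain ⟨x, y, hy, rfl⟩ := IsFractionRing.div_surjective (A := Z ⊗[k] L) f
    rcases eq_or_ne x 0 with rfl | hx
    · left
      show algebraMap (Z ⊗[k] L) F 0 / algebraMap (Z ⊗[k] L) F y ∈ P.GO L F
      rw [map_zero, zero_div]
      have := P.io_mem (F := F) (0 : P.V ⊗[k] L)
      rwa [map_zero] at this
    · have hy0 : y ≠ 0 := nonZeroDivisors.ne_zero hy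
      obtain ⟨c, x', hc, hx', ex⟩ := P.content L hx
      obtain ⟨d, y', hd, hy', ey⟩ := P.content L hy0
      have hsm : ∀ (z : Z) (t : Z ⊗[k] L), algebraMap (Z ⊗[k] L) F (z • t)
          = algebraMap (Z ⊗[k] L) F (z ⊗ₜ 1) * algebraMap (Z ⊗[k] L) F t := by
        intro z t
        rw [← map_mul]
        congr 1
        rw [Algebra.smul_def]
        rfl
      have hne : ∀ z : Z, z ≠ 0 → algebraMap (Z ⊗[k] L) F (z ⊗ₜ 1) ≠ 0 := by
        intro z hz h
        have h1 : (z ⊗ₜ[k] (1 : L)) = 0 := IsFractionRing.injective (Z ⊗[k] L) F (by rw [h, map_zero])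
        have h2 : (z⁻¹ ⊗ₜ[k] (1 : L)) * (z ⊗ₜ[k] (1 : L)) = 1 := by
          rw [Algebra.TensorProduct.tmul_mul_tmul, inv_mul_cancel₀ hz, mul_one]; rfl
        rw [h1, mul_zero] at h2
        have h3 : (0 : F) = 1 := by rw [← map_zero (algebraMap (Z ⊗[k] L) F), h2, map_one]
        exact zero_ne_one h3
      have hsplit : ∀ (z w : Z), algebraMap (Z ⊗[k] L) F ((z * w) ⊗ₜ 1)
          = algebraMap (Z ⊗[k] L) F (z ⊗ₜ 1) * algebraMap (Z ⊗[k] L) F (w ⊗ₜ 1) := by
        intro z w
        rw [← map_mul, Algebra.TensorProduct.tmul_mul_tmul, mul_one]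
      have key : ∀ (c d : Z) (x' y' : P.V ⊗[k] L) (_ : c ≠ 0) (_ : d ≠ 0) (_ : P.ev L y' ≠ 0)
          (h : c / d ∈ P.V), (algebraMap (Z ⊗[k] L) F (c • P.incl L x')
            / algebraMap (Z ⊗[k] L) F (d • P.incl L y')) * P.io L F y'
            = P.io L F (((⟨c / d, h⟩ : P.V) ⊗ₜ[k] (1 : L)) * x') := by
        intro c d x' y' hc hd hy' h
        have hy'' := P.io_ne L F hy'
        have hd' := hne d hd
        rw [hsm, hsm, map_mul, ← io_apply, ← io_apply]
        have e1 : P.io L F ((⟨c / d, h⟩ : P.V) ⊗ₜ[k] (1 : L))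
            = algebraMap (Z ⊗[k] L) F ((c / d) ⊗ₜ 1) := by
          rw [io_apply, incl_tmul]
        have e2 : algebraMap (Z ⊗[k] L) F ((c / d) ⊗ₜ 1) * algebraMap (Z ⊗[k] L) F (d ⊗ₜ 1)
            = algebraMap (Z ⊗[k] L) F (c ⊗ₜ 1) := by
          rw [← hsplit, div_mul_cancel₀ _ hd]
        rw [e1, ← e2]
        field_simp
      rcases P.dich (c / d) with h | ⟨h, h0⟩
      · left
        rw [ex, ey]
        exact P.mem_GO hy' (key c d x' y' hc hd hy' h)
      · right
        have hdc : d / c ∈ P.V := by rwa [inv_div] at h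
        have hα : P.α ⟨d / c, hdc⟩ = 0 := by
          have e : (⟨d / c, hdc⟩ : P.V) = ⟨(c / d)⁻¹, h⟩ := Subtype.ext (inv_div c d).symm
          rw [e]; exact h0
        have hk := key d c y' x' hd hc hx' hdc
        rw [ex, ey, inv_div]
        have hm := P.mem_GO hx' hk
        refine ⟨hm, ?_⟩
        show P.res hm = 0
        rw [P.res_eq hm hx' hk, map_mul, ev_tmul, hα, zero_smul, zero_mul, zero_div]

variable {L F}

theorem gauss_mem [Algebra L F]
    (hL : ∀ l : L, algebraMap L F l = algebraMap (Z ⊗[k] L) F (1 ⊗ₜ l)) {f : F}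
    {a b : P.V ⊗[k] L} (hb : P.ev L b ≠ 0) (hf : f * P.io L F b = P.io L F a) :
    f ∈ (P.gauss L F hL).V := P.mem_GO hb hf

theorem gauss_α [Algebra L F]
    (hL : ∀ l : L, algebraMap L F l = algebraMap (Z ⊗[k] L) F (1 ⊗ₜ l)) (f : (P.gauss L F hL).V)
    {a b : P.V ⊗[k] L} (hf : (f : F) * P.io L F b = P.io L F a) :
    (P.gauss L F hL).α f * P.ev L b = P.ev L a := P.res_mul f.2 hf

theorem gauss_exists [Algebra L F]
    (hL : ∀ l : L, algebraMap L F l = algebraMap (Z ⊗[k] L) F (1 ⊗ₜ l)) (f : (P.gauss L F hL).V) :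
    ∃ a b : P.V ⊗[k] L, P.ev L b ≠ 0 ∧ (f : F) * P.io L F b = P.io L F a ∧
      (P.gauss L F hL).α f * P.ev L b = P.ev L a :=
  ⟨P.num f.2, P.den f.2, P.den_ne f.2, P.num_den f.2, P.res_mul f.2 (P.num_den f.2)⟩

end gauss

end Plc

/-! ### compatibility -/

namespace CPlc

section compat

variable {k : Type u} {Z : Type v} {Q : Type w} [Field k] [Field Z] [Ring Q] [Algebra k Z]
  [Algebra Z Q] [Algebra k Q] [IsScalarTower k Z Q] {H : Subalgebra k Q} {φ : H →ₐ[k] k}
  (P : CPlc (Z := Z) H φ)
variable {L : Type*} [Field L] [Algebra k L] {F : Type*} [Field F] [Algebra (Z ⊗[k] L) F]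
  [IsFractionRing (Z ⊗[k] L) F] [Algebra L F]
  (hL : ∀ l : L, algebraMap L F l = algebraMap (Z ⊗[k] L) F (1 ⊗ₜ l))
variable {Q' : Type*} [Ring Q'] [Algebra k Q'] [Algebra L Q'] [IsScalarTower k L Q']

variable (φ Q') in
/-- `H ⊗ Q' → Q'`, `h ⊗ q ↦ φ h • q` -/
noncomputable def eH : H ⊗[k] Q' →ₐ[k] Q' :=
  Algebra.TensorProduct.lift ((Algebra.ofId k Q').comp φ) (AlgHom.id k Q')
    (fun x y => by
      rw [AlgHom.comp_apply, Algebra.ofId_apply]
      exact Algebra.commute_algebraMap_left _ _)

@[simp] theorem eH_tmul (h : H) (q : Q') : eH φ Q' (h ⊗ₜ q) = φ h • q := by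
  unfold eH
  rw [Algebra.TensorProduct.lift_tmul]
  simp [Algebra.ofId_apply, Algebra.smul_def]

variable (H Q') in
/-- `H ⊗ Q' → Q ⊗ Q'` -/
noncomputable def iH : H ⊗[k] Q' →ₐ[k] Q ⊗[k] Q' :=
  Algebra.TensorProduct.map H.val (AlgHom.id k Q')

@[simp] theorem iH_tmul (h : H) (q : Q') : iH H Q' (h ⊗ₜ q) = (h : Q) ⊗ₜ q := by
  unfold iH
  rw [Algebra.TensorProduct.map_tmul]
  rfl

variable (Q') in
/-- `V ⊗ L → Q ⊗ Q'` -/
noncomputable def iV : P.V ⊗[k] L →ₐ[k] Q ⊗[k] Q' :=
  Algebra.TensorProduct.map ((IsScalarTower.toAlgHom k Z Q).comp P.V.val)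
    (IsScalarTower.toAlgHom k L Q')

@[simp] theorem iV_tmul (v : P.V) (l : L) :
    P.iV Q' (v ⊗ₜ l) = algebraMap Z Q v ⊗ₜ algebraMap L Q' l := by
  unfold iV
  rw [Algebra.TensorProduct.map_tmul]
  rfl

variable (Q') in
/-- `Q ⊗ Q' → Q'`, `q ⊗ q' ↦ ψ q • q'` -/
noncomputable def Psi : Q ⊗[k] Q' →ₗ[k] Q' :=
  TensorProduct.lift ((LinearMap.lsmul k Q').comp P.ψ)

@[simp] theorem Psi_tmul (q : Q) (q' : Q') : P.Psi Q' (q ⊗ₜ q') = P.ψ q • q' := rfl

theorem Psi_mul (a : P.V ⊗[k] L) (x : H ⊗[k] Q') :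
    P.Psi Q' (P.iV Q' a * iH H Q' x) = algebraMap L Q' (P.ev L a) * eH φ Q' x := by
  induction a using TensorProduct.induction_on with
  | zero => simp
  | add a b ha hb => rw [map_add, add_mul, map_add, ha, hb, map_add, map_add, add_mul]
  | tmul v l =>
    induction x using TensorProduct.induction_on with
    | zero => simp
    | add x y hx hy => rw [map_add, mul_add, map_add, hx, hy, map_add, mul_add]
    | tmul h q =>
      rw [iV_tmul, iH_tmul, Algebra.TensorProduct.tmul_mul_tmul, Psi_tmul, Plc.ev_tmul, eH_tmul,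
        Algebra.commutes, P.ψ_mul]
      rw [Algebra.smul_def (P.α v) l, map_mul, ← IsScalarTower.algebraMap_apply k L Q',
        mul_smul_comm, mul_smul, Algebra.smul_def (P.α v), mul_assoc]

include hL in
/-- **compatibility of the Gauss place with the character**: a relation `∑ f_i x_i = 0`,
`f_i` Gauss-integral, `x_i ∈ H ⊗ Q'`, can be evaluated -/
theorem gauss_compat {R : Type*} [Ring R] [Algebra F R] (j : Q ⊗[k] Q' →+* R)
    (hj : Function.Injective j)
    (hjF : ∀ (z : Z) (l : L), j (algebraMap Z Q z ⊗ₜ algebraMap L Q' l)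
      = algebraMap F R (algebraMap (Z ⊗[k] L) F (z ⊗ₜ l)))
    {ι : Type*} (s : Finset ι) (f : ι → (P.gauss L F hL).V) (x : ι → H ⊗[k] Q')
    (h0 : ∑ i ∈ s, algebraMap F R (f i) * j (iH H Q' (x i)) = 0) :
    ∑ i ∈ s, algebraMap L Q' ((P.gauss L F hL).α (f i)) * eH φ Q' (x i) = 0 := by
  classical
  choose a b hb hf hα using fun i => P.gauss_exists hL (f i)
  -- `j ∘ iV = io`
  have hjV : ∀ t : P.V ⊗[k] L, j (P.iV Q' t) = algebraMap F R (P.io L F t) := by
    intro t
    induction t using TensorProduct.induction_on with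
    | zero => simp
    | add t u ht hu => rw [map_add, map_add, ht, hu, map_add, map_add]
    | tmul v l => rw [iV_tmul, hjF, Plc.io_apply, Plc.incl_tmul]
  -- common denominators
  let B : P.V ⊗[k] L := ∏ i ∈ s, b i
  let A : ι → P.V ⊗[k] L := fun i => a i * ∏ l ∈ s.erase i, b l
  have hB : ∀ i ∈ s, B = b i * ∏ l ∈ s.erase i, b l := fun i hi =>
    (Finset.mul_prod_erase s b hi).symm
  have hB0 : P.ev L B ≠ 0 := by
    rw [map_prod]; exact Finset.prod_ne_zero_iff.2 fun i _ => hb i
  have h1 : ∀ i ∈ s, (f i : F) * P.io L F B = P.io L F (A i) := by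
    intro i hi
    rw [hB i hi, map_mul, ← mul_assoc, hf i, ← map_mul]
  have h2 : ∀ i ∈ s, (P.gauss L F hL).α (f i) * P.ev L B = P.ev L (A i) := by
    intro i hi
    rw [hB i hi, map_mul, ← mul_assoc, hα i, ← map_mul]
  have h3 : ∑ i ∈ s, P.iV Q' (A i) * iH H Q' (x i) = 0 := by
    apply hj
    rw [map_sum, map_zero]
    have : ∑ i ∈ s, j (P.iV Q' (A i) * iH H Q' (x i))
        = algebraMap F R (P.io L F B) * ∑ i ∈ s, algebraMap F R (f i) * j (iH H Q' (x i)) := by
      rw [Finset.mul_sum]
      refine Finset.sum_congr rfl fun i hi => ?_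
      rw [map_mul, hjV, ← h1 i hi, ← mul_assoc, ← map_mul, mul_comm (f i : F)]
    rw [this, h0, mul_zero]
  have h4 := congrArg (P.Psi Q') h3
  rw [map_sum, map_zero] at h4
  simp only [Psi_mul] at h4
  have h5 : algebraMap L Q' (P.ev L B) *
      ∑ i ∈ s, algebraMap L Q' ((P.gauss L F hL).α (f i)) * eH φ Q' (x i) = 0 := by
    rw [Finset.mul_sum, ← h4]
    refine Finset.sum_congr rfl fun i hi => ?_
    rw [← mul_assoc, ← map_mul, mul_comm (P.ev L B), h2 i hi]
  have h6 : algebraMap L Q' (P.ev L B)⁻¹ * algebraMap L Q' (P.ev L B) = 1 := by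
    rw [← map_mul, inv_mul_cancel₀ hB0, map_one]
  calc _ = algebraMap L Q' (P.ev L B)⁻¹ * (algebraMap L Q' (P.ev L B) *
      ∑ i ∈ s, algebraMap L Q' ((P.gauss L F hL).α (f i)) * eH φ Q' (x i)) := by
        rw [← mul_assoc, h6, one_mul]
    _ = 0 := by rw [h5, mul_zero]

end compat

end CPlc

end Pool.Agent.Lib.MP_c37a72_al
end

section
/-!
# MP_c37a72_al: places with finitely many conditions, and descent of rational functions

* `exists_plc_of`: `k` algebraically closed, `S` a finite subset of `Z`, `r ≠ 0`: there is a place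
  with `S ⊆ V` and `α r ≠ 0`.
* `descent`: `f ∈ Frac (Z ⊗ L)` whose residues at all such places lie in a subfield `K` of `L`
  belongs to `Frac (Z ⊗ K)`.
-/
set_option autoImplicit false
set_option linter.unusedSectionVars false

namespace Pool.Agent.Lib.MP_c37a72_al

open Finset TensorProduct

universe u v w

theorem exists_plc_of (k : Type u) (Z : Type v) [Field k] [IsAlgClosed k] [Field Z] [Algebra k Z]
    (S : Finset Z) (r : Z) (hr : r ≠ 0) :
    ∃ P : Plc k Z, (∀ z ∈ S, z ∈ P.V) ∧ ∃ h : r ∈ P.V, P.α ⟨r, h⟩ ≠ 0 := by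
  classical
  let T : Finset Z := insert r⁻¹ (insert r S)
  let H : Subalgebra k Z := Algebra.adjoin k (T : Set Z)
  have hft : Algebra.FiniteType k H := by
    rw [← Subalgebra.fg_iff_finiteType]
    exact ⟨T, rfl⟩
  obtain ⟨m, hm⟩ := Ideal.exists_maximal H
  let κ := H ⧸ m
  letI : Field κ := Ideal.Quotient.field m
  have hfin : Module.Finite k κ := finite_of_finite_type_of_isJacobsonRing k κ
  have hbij : Function.Bijective (algebraMap k κ) := IsAlgClosed.algebraMap_bijective_of_isIntegral
  let e : k ≃ₐ[k] κ := AlgEquiv.ofBijective (Algebra.ofId k κ) hbij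
  let φ : H →ₐ[k] k := e.symm.toAlgHom.comp (Ideal.Quotient.mkₐ k m)
  obtain ⟨P⟩ := exists_cplc (Z := Z) H φ
  have h1 : P.ψ 1 = 1 := by
    have := P.ψ_mul 1 1
    simpa using this
  have hval : ∀ h : H, ∃ hh : (h : Z) ∈ P.V, P.α ⟨h, hh⟩ = φ h := by
    intro h
    have hin : (h : Z) ∈ P.V := by
      rcases P.dich (h : Z) with hh | ⟨hh, h0⟩
      · exact hh
      · rcases eq_or_ne (h : Z) 0 with hz | hz
        · rw [hz]; exact zero_mem _
        · exfalso
          have e1 := P.ψ_mul h ⟨(h : Z)⁻¹, hh⟩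
          simp only [Algebra.algebraMap_self, RingHom.id_apply] at e1
          rw [mul_inv_cancel₀ hz, h1, h0, mul_zero] at e1
          exact one_ne_zero e1
    refine ⟨hin, ?_⟩
    have e1 := P.ψ_mul h 1
    have e2 := P.ψ_mul 1 ⟨(h : Z), hin⟩
    simp only [map_one, one_mul, mul_one, OneMemClass.coe_one, Algebra.algebraMap_self,
      RingHom.id_apply] at e1 e2
    rw [← e2, e1]
  have hmem : ∀ z ∈ T, z ∈ H := fun z hz => Algebra.subset_adjoin hz
  have hr1 : r ∈ H := hmem r (by simp [T])
  have hr2 : r⁻¹ ∈ H := hmem r⁻¹ (by simp [T])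
  refine ⟨P.toPlc, fun z hz => ?_, ?_⟩
  · obtain ⟨h, -⟩ := hval ⟨z, hmem z (by simp [T, hz])⟩
    exact h
  · obtain ⟨h, he⟩ := hval ⟨r, hr1⟩
    refine ⟨h, ?_⟩
    rw [he]
    intro h0
    have : (⟨r, hr1⟩ : H) * ⟨r⁻¹, hr2⟩ = 1 := Subtype.ext (mul_inv_cancel₀ hr)
    have := congrArg φ this
    rw [map_mul, h0, zero_mul, map_one] at this
    exact zero_ne_one this

/-- a homogeneous linear system over `K` (possibly infinite) with a nonzero solution over `L ⊇ K`
has a nonzero solution over `K` -/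
theorem exists_sol {K L : Type*} [Field K] [Field L] [Algebra K L] {n : Type*} [Fintype n]
    (R : Set (n → K)) (y : n → L) (hy : y ≠ 0)
    (h : ∀ r ∈ R, ∑ i, algebraMap K L (r i) * y i = 0) :
    ∃ x : n → K, x ≠ 0 ∧ ∀ r ∈ R, ∑ i, r i * x i = 0 := by
  classical
  by_contra hcon
  push Not at hcon
  -- the rows span everything
  have htop : Submodule.span K R = ⊤ := by
    by_contra hne
    obtain ⟨f, hf, hf'⟩ := Submodule.exists_le_ker_of_lt_top _ (lt_top_iff_ne_top.2 hne)
    let x : n → K := fun i => f (Pi.single i 1)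
    have hfx : ∀ r : n → K, f r = ∑ i, r i * x i := by
      intro r
      have : r = ∑ i, r i • (Pi.single i (1 : K) : n → K) := by
        ext j
        simp [Finset.sum_apply, Pi.single_apply]
      conv_lhs => rw [this]
      rw [map_sum]
      exact Finset.sum_congr rfl fun i _ => by rw [map_smul, smul_eq_mul]
    have hx : x ≠ 0 := by
      intro h0
      apply hf
      ext r
      simp only [LinearMap.coe_comp, Function.comp_apply, LinearMap.coe_single, LinearMap.zero_apply]
      exact congrFun h0 r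
    obtain ⟨r, hr, hr'⟩ := hcon x hx
    apply hr'
    rw [← hfx]
    exact hf' (Submodule.subset_span hr)
  -- so `y` is orthogonal to everything
  have hall : ∀ r : n → K, ∑ i, algebraMap K L (r i) * y i = 0 := by
    intro r
    have hr : r ∈ Submodule.span K R := by rw [htop]; trivial
    refine Submodule.span_induction (p := fun r _ => ∑ i, algebraMap K L (r i) * y i = 0)
      (fun r hr => h r hr) (by simp) ?_ ?_ hr
    · intro a b _ _ ha hb
      simp only [Pi.add_apply, map_add, add_mul, Finset.sum_add_distrib, ha, hb, add_zero]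
    · intro c a _ ha
      simp only [Pi.smul_apply, smul_eq_mul, map_mul, mul_assoc, ← Finset.mul_sum, ha, mul_zero]
  apply hy
  ext j
  have := hall (Pi.single j 1)
  rw [Finset.sum_eq_single j] at this
  · simpa using this
  · intro i _ hij
    rw [Pi.single_eq_of_ne hij, map_zero, zero_mul]
  · intro hj; exact absurd (Finset.mem_univ _) hj

end Pool.Agent.Lib.MP_c37a72_al
end
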