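import Pool.Agent.Lib.MP_c37a72_al.SpecH

/-!
# MP_c37a72_al, module INT: integrals of a finite-dimensional Hopf algebra
-/

set_option autoImplicit false

open scoped TensorProduct
open Coalgebra HopfAlgebra

namespace Pool.Agent.Lib.MP_c37a72_al

universe u v w

namespace INTM

section
variable {k : Type u} {U : Type v} [Field k] [Ring U] [HopfAlgebra k U]

/-- `v ↦ f(v₁) v₂` -/
noncomputable def rho (f : U →ₗ[k] k) : U →ₗ[k] U :=
  (TensorProduct.lid k U).toLinearMap ∘ₗ f.rTensor U ∘ₗ comul (R := k)

theorem rho_apply (f : U →ₗ[k] k) (v : U) :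
    rho f v = TensorProduct.lid k U (f.rTensor U (comul (R := k) v)) := rfl

theorem rho_counit (v : U) : rho (counit (R := k) (A := U)) v = v := by
  rw [rho_apply, rTensor_counit_comul, TensorProduct.lid_tmul, one_smul]

theorem rho_comp (f g : U →ₗ[k] k) (w : U) : rho (g ∘ₗ rho f) w = rho g (rho f w) := by
  have h1 : ∀ t : U ⊗[k] U, TensorProduct.lid k U ((g ∘ₗ rho f).rTensor U t) =
      TensorProduct.lid k U (g.rTensor U (TensorProduct.lid k (U ⊗[k] U)
        (f.rTensor (U ⊗[k] U) (TensorProduct.assoc k U U U ((comul (R := k)).rTensor U t))))) := by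
    intro t
    induction t using TensorProduct.induction_on with
    | zero => simp
    | tmul a b =>
      rw [LinearMap.rTensor_tmul, LinearMap.rTensor_tmul, LinearMap.comp_apply, rho_apply]
      generalize comul (R := k) a = s
      induction s using TensorProduct.induction_on with
      | zero => simp
      | tmul c d => simp [mul_smul]
      | add s t hs ht => simp only [TensorProduct.add_tmul, map_add, hs, ht]
    | add s t hs ht => simp only [map_add, hs, ht]
  have h2 : ∀ t : U ⊗[k] U, comul (R := k) (TensorProduct.lid k U (f.rTensor U t)) =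
      TensorProduct.lid k (U ⊗[k] U)
        (f.rTensor (U ⊗[k] U) ((comul (R := k)).lTensor U t)) := by
    intro t
    induction t using TensorProduct.induction_on with
    | zero => simp
    | tmul a b => simp
    | add s t hs ht => simp only [map_add, hs, ht]
  rw [rho_apply, h1, rho_apply g, rho_apply f, h2, coassoc_apply]

theorem rho_add (f g : U →ₗ[k] k) : rho (f + g) = rho f + rho g := by
  ext v
  rw [LinearMap.add_apply, rho_apply, rho_apply, rho_apply, LinearMap.rTensor_add,
    LinearMap.add_apply, map_add]

theorem rho_zero : rho (0 : U →ₗ[k] k) = 0 := by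
  ext v
  rw [rho_apply, LinearMap.rTensor_zero, LinearMap.zero_apply, map_zero, LinearMap.zero_apply]

theorem rho_sum {ι : Type} (s : Finset ι) (f : ι → U →ₗ[k] k) :
    rho (∑ i ∈ s, f i) = ∑ i ∈ s, rho (f i) := by
  classical
  induction s using Finset.induction_on with
  | empty => simp [rho_zero]
  | insert a s ha ih => rw [Finset.sum_insert ha, Finset.sum_insert ha, rho_add, ih]

variable {ι : Type} [Fintype ι] (b : Module.Basis ι k U)

theorem expand (w : U) : ∑ i, b.coord i w • b i = w := b.sum_repr w

theorem expand_dual (g : U →ₗ[k] k) : g = ∑ l, g (b l) • b.coord l := by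
  classical
  refine b.ext fun i => ?_
  rw [LinearMap.sum_apply]
  simp [Finsupp.single_apply]

theorem expand2 (t : U ⊗[k] U) : ∑ j, ∑ i,
    b.coord i (TensorProduct.lid k U ((b.coord j).rTensor U t)) • (b j ⊗ₜ[k] b i) = t := by
  induction t using TensorProduct.induction_on with
  | zero => simp
  | tmul x y =>
    conv_rhs => rw [← expand b x, ← expand b y, TensorProduct.sum_tmul]
    refine Finset.sum_congr rfl fun j _ => ?_
    rw [TensorProduct.tmul_sum]
    refine Finset.sum_congr rfl fun i _ => ?_
    rw [LinearMap.rTensor_tmul, TensorProduct.lid_tmul, map_smul, smul_eq_mul,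
      TensorProduct.smul_tmul_smul]
  | add s t hs ht =>
    conv_rhs => rw [← hs, ← ht, ← Finset.sum_add_distrib]
    refine Finset.sum_congr rfl fun j _ => ?_
    rw [← Finset.sum_add_distrib]
    refine Finset.sum_congr rfl fun i _ => ?_
    rw [map_add, map_add, map_add, add_smul]

/-- coassociativity of the coaction, in coordinates -/
theorem coact {X : Type w} [AddCommGroup X] [Module k X] (f : U →ₗ[k] k)
    (T : U ⊗[k] U →ₗ[k] U ⊗[k] X) :
    ∑ j, ∑ i, (b.coord i ∘ₗ rho (b.coord j ∘ₗ rho f)).rTensor X (T (b j ⊗ₜ[k] b i)) =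
      ∑ l, (b.coord l ∘ₗ rho f).rTensor X (T (comul (R := k) (b l))) := by
  have h1 : ∀ j i, b.coord i ∘ₗ rho (b.coord j ∘ₗ rho f) =
      ∑ l, b.coord i (rho (b.coord j) (b l)) • (b.coord l ∘ₗ rho f) := by
    intro j i
    have h2 : b.coord i ∘ₗ rho (b.coord j ∘ₗ rho f) =
        (b.coord i ∘ₗ rho (b.coord j)) ∘ₗ rho f := by
      ext w
      rw [LinearMap.comp_apply, rho_comp]
      rfl
    rw [h2]
    conv_lhs => rw [expand_dual b (b.coord i ∘ₗ rho (b.coord j))]
    ext w
    simp only [LinearMap.comp_apply, LinearMap.sum_apply, LinearMap.smul_apply]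
  have h3 : ∀ (s : Finset ι) (g : ι → U →ₗ[k] k) (t : U ⊗[k] X),
      (∑ l ∈ s, g l).rTensor X t = ∑ l ∈ s, (g l).rTensor X t := by
    intro s g t
    classical
    induction s using Finset.induction_on with
    | empty => simp
    | insert a s ha ih => rw [Finset.sum_insert ha, Finset.sum_insert ha, LinearMap.rTensor_add,
        LinearMap.add_apply, ih]
  calc ∑ j, ∑ i, (b.coord i ∘ₗ rho (b.coord j ∘ₗ rho f)).rTensor X (T (b j ⊗ₜ[k] b i))
      = ∑ j, ∑ i, ∑ l, (b.coord l ∘ₗ rho f).rTensor X
          (T (b.coord i (rho (b.coord j) (b l)) • (b j ⊗ₜ[k] b i))) := by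
        refine Finset.sum_congr rfl fun j _ => Finset.sum_congr rfl fun i _ => ?_
        rw [h1, h3]
        refine Finset.sum_congr rfl fun l _ => ?_
        rw [LinearMap.rTensor_smul, LinearMap.smul_apply, map_smul, map_smul]
    _ = ∑ l, ∑ j, ∑ i, (b.coord l ∘ₗ rho f).rTensor X
          (T (b.coord i (rho (b.coord j) (b l)) • (b j ⊗ₜ[k] b i))) := by
        rw [Finset.sum_comm]
        rw [show (∑ l, ∑ j, ∑ i, (b.coord l ∘ₗ rho f).rTensor X
          (T (b.coord i (rho (b.coord j) (b l)) • (b j ⊗ₜ[k] b i)))) =
          ∑ l, ∑ i, ∑ j, (b.coord l ∘ₗ rho f).rTensor X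
          (T (b.coord i (rho (b.coord j) (b l)) • (b j ⊗ₜ[k] b i))) from
          Finset.sum_congr rfl fun l _ => Finset.sum_comm]
        rw [Finset.sum_comm (s := Finset.univ) (t := Finset.univ) (f := fun l i => ∑ j,
          (b.coord l ∘ₗ rho f).rTensor X
          (T (b.coord i (rho (b.coord j) (b l)) • (b j ⊗ₜ[k] b i))))]
        refine Finset.sum_congr rfl fun i _ => Finset.sum_comm
    _ = _ := by
        refine Finset.sum_congr rfl fun l _ => ?_
        rw [← expand2 b (comul (R := k) (b l))]
        simp only [map_sum]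
        rfl

/-- compatibility of the action with the coaction -/
theorem compat (hHAN : ∀ a : U, comul (R := k) (antipode k a) =
      TensorProduct.comm k U U (TensorProduct.map (antipode k) (antipode k) (comul (R := k) a)))
    (g : U →ₗ[k] k) (x v : U) :
    rho (g ∘ₗ LinearMap.mulLeft k (antipode k x)) v =
      LinearMap.mul' k U ((rho g ∘ₗ LinearMap.mulRight k v ∘ₗ antipode k).lTensor U
        (comul (R := k) x)) := by
  -- for a fixed tensor `t` instead of `Δ v`
  set M : U ⊗[k] U → U ⊗[k] U →ₗ[k] U := fun t =>
    (TensorProduct.lid k U).toLinearMap ∘ₗ g.rTensor U ∘ₗ LinearMap.mulRight k t ∘ₗ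
      (TensorProduct.comm k U U).toLinearMap ∘ₗ TensorProduct.map (antipode k) (antipode k) with hM
  have h1 : rho g ∘ₗ LinearMap.mulRight k v ∘ₗ antipode k =
      M (comul (R := k) v) ∘ₗ comul (R := k) := by
    ext c
    simp only [hM, LinearMap.comp_apply, LinearMap.mulRight_apply, rho_apply,
      Bialgebra.comul_mul, hHAN, LinearEquiv.coe_coe]
  rw [h1, LinearMap.lTensor_comp, LinearMap.comp_apply, ← coassoc_apply, rho_apply]
  have h2 : ∀ t : U ⊗[k] U, ∀ s : U ⊗[k] U, LinearMap.mul' k U ((M t).lTensor U
      (TensorProduct.assoc k U U U ((comul (R := k)).rTensor U s))) =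
      TensorProduct.lid k U ((g ∘ₗ LinearMap.mulLeft k (antipode k
        (TensorProduct.lid k U ((counit (R := k)).rTensor U s)))).rTensor U t) := by
    intro t s
    induction t using TensorProduct.induction_on with
    | zero =>
      have : M 0 = 0 := by
        ext a c
        simp [hM]
      rw [this]
      simp
    | add t t' ht ht' =>
      have : M (t + t') = M t + M t' := by
        refine TensorProduct.ext' fun a c => ?_
        simp [hM, mul_add]
      rw [this, LinearMap.lTensor_add, LinearMap.add_apply, map_add, ht, ht', map_add, map_add]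
    | tmul p q =>
      induction s using TensorProduct.induction_on with
      | zero => simp
      | add s s' hs hs' =>
        simp only [map_add, hs, hs']
        rw [LinearMap.rTensor_tmul, LinearMap.rTensor_tmul, LinearMap.rTensor_tmul]
        simp only [LinearMap.comp_apply, LinearMap.mulLeft_apply, add_mul, map_add,
          TensorProduct.add_tmul]
      | tmul a c =>
        rw [LinearMap.rTensor_tmul, LinearMap.rTensor_tmul, LinearMap.rTensor_tmul]
        have h3 : ∀ r : U ⊗[k] U, LinearMap.mul' k U ((M (p ⊗ₜ[k] q)).lTensor U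
            (TensorProduct.assoc k U U U (r ⊗ₜ[k] c))) =
            g (antipode k c * p) • (LinearMap.mul' k U ((antipode k).lTensor U r) * q) := by
          intro r
          induction r using TensorProduct.induction_on with
          | zero => simp
          | tmul a b => simp [hM, mul_assoc]
          | add r r' hr hr' =>
            simp only [TensorProduct.add_tmul, map_add, hr, hr', add_mul, smul_add]
        rw [h3, mul_antipode_lTensor_comul_apply]
        simp [Algebra.algebraMap_eq_smul_one, smul_smul, mul_comm]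
  have h4 := h2 (comul (R := k) v) (comul (R := k) x)
  rw [rTensor_counit_comul, TensorProduct.lid_tmul, one_smul] at h4
  exact h4.symm

/-- projection to the coinvariants -/
noncomputable def P (f : U →ₗ[k] k) : U →ₗ[k] k :=
  ∑ j, (b.coord j ∘ₗ rho f) ∘ₗ LinearMap.mulLeft k (antipode k (antipode k (b j)))

/-- `(p ⊗ q) ⊗ c ↦ S²(p) v ⊗ S(q) c` -/
noncomputable def T' (v : U) : (U ⊗[k] U) ⊗[k] U →ₗ[k] U ⊗[k] U :=
  TensorProduct.map (LinearMap.mulRight k v ∘ₗ antipode k ∘ₗ antipode k)
    (LinearMap.mul' k U ∘ₗ (antipode k).rTensor U) ∘ₗ (TensorProduct.assoc k U U U).toLinearMap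

theorem P_coinv (hHAN : ∀ a : U, comul (R := k) (antipode k a) =
      TensorProduct.comm k U U (TensorProduct.map (antipode k) (antipode k) (comul (R := k) a)))
    (f : U →ₗ[k] k) (v : U) : rho (P b f) v = P b f v • (1 : U) := by
  have h1 : ∀ (g : U →ₗ[k] k) (s : U ⊗[k] U), LinearMap.mul' k U
      ((rho g ∘ₗ LinearMap.mulRight k v ∘ₗ antipode k).lTensor U
        (TensorProduct.comm k U U (TensorProduct.map (antipode k) (antipode k) s))) =
      ∑ i, TensorProduct.lid k U ((b.coord i ∘ₗ rho g).rTensor U (T' v (s ⊗ₜ[k] b i))) := by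
    intro g s
    induction s using TensorProduct.induction_on with
    | zero => simp
    | add s s' hs hs' =>
      simp only [map_add, TensorProduct.add_tmul, hs, hs', Finset.sum_add_distrib]
    | tmul p q =>
      simp only [T', TensorProduct.map_tmul, TensorProduct.comm_tmul, LinearMap.lTensor_tmul,
        LinearMap.mul'_apply, LinearMap.comp_apply, LinearEquiv.coe_coe,
        TensorProduct.assoc_tmul, LinearMap.rTensor_tmul, LinearMap.mulRight_apply,
        TensorProduct.lid_tmul]
      conv_lhs => rw [← expand b (rho g (antipode k (antipode k p) * v)), Finset.mul_sum]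
      refine Finset.sum_congr rfl fun i _ => ?_
      rw [mul_smul_comm]
  have h2 : ∀ a : U, T' v ((comul (R := k)).rTensor U (comul (R := k) a)) =
      (antipode k (antipode k a) * v) ⊗ₜ[k] (1 : U) := by
    intro a
    have h3 : ∀ s : U ⊗[k] U, TensorProduct.map (LinearMap.mulRight k v ∘ₗ antipode k ∘ₗ
        antipode k) (LinearMap.mul' k U ∘ₗ (antipode k).rTensor U)
        ((comul (R := k)).lTensor U s) =
        TensorProduct.map (LinearMap.mulRight k v ∘ₗ antipode k ∘ₗ antipode k)
          (Algebra.linearMap k U) ((counit (R := k)).lTensor U s) := by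
      intro s
      induction s using TensorProduct.induction_on with
      | zero => simp
      | add s s' hs hs' => simp only [map_add, hs, hs']
      | tmul p q =>
        rw [LinearMap.lTensor_tmul, LinearMap.lTensor_tmul, TensorProduct.map_tmul,
          TensorProduct.map_tmul, LinearMap.comp_apply (LinearMap.mul' k U),
          mul_antipode_rTensor_comul_apply]
        rfl
    rw [T', LinearMap.comp_apply, LinearEquiv.coe_coe, coassoc_apply, h3, lTensor_counit_comul,
      TensorProduct.map_tmul]
    simp
  rw [P, rho_sum, LinearMap.sum_apply]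
  have h4 : ∀ j, rho ((b.coord j ∘ₗ rho f) ∘ₗ LinearMap.mulLeft k (antipode k
      (antipode k (b j)))) v = ∑ i, TensorProduct.lid k U ((b.coord i ∘ₗ
        rho (b.coord j ∘ₗ rho f)).rTensor U ((T' v ∘ₗ (comul (R := k)).rTensor U)
          (b j ⊗ₜ[k] b i))) := by
    intro j
    rw [compat hHAN, hHAN, h1]
    rfl
  simp only [h4, ← map_sum]
  rw [coact b f (T' v ∘ₗ (comul (R := k)).rTensor U)]
  simp only [LinearMap.comp_apply (T' v), h2, map_sum, LinearMap.rTensor_tmul,
    TensorProduct.lid_tmul, ← Finset.sum_smul]
  rw [LinearMap.sum_apply]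
  rfl

theorem P_sum (v : U) : ∑ i, P b (b.coord i) (antipode k (b i) * v) = counit (R := k) v := by
  -- `a ⊗ c ↦ S(a S(c)) v`
  set T : U ⊗[k] U →ₗ[k] U ⊗[k] k := (TensorProduct.rid k U).symm.toLinearMap ∘ₗ
    LinearMap.mulRight k v ∘ₗ antipode k ∘ₗ LinearMap.mul' k U ∘ₗ (antipode k).lTensor U with hT
  have hid : ∀ j, b.coord j ∘ₗ rho (counit (R := k) (A := U)) = b.coord j := by
    intro j
    ext w
    rw [LinearMap.comp_apply, rho_counit]
  have h1 := coact b (counit (R := k) (A := U)) T
  simp only [hid] at h1
  have h2 := congrArg (TensorProduct.lid k k) h1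
  simp only [map_sum] at h2
  have h3 : ∀ i j, TensorProduct.lid k k ((b.coord i ∘ₗ rho (b.coord j)).rTensor k
      (T (b j ⊗ₜ[k] b i))) = b.coord i (rho (b.coord j)
        (antipode k (antipode k (b i)) * (antipode k (b j) * v))) := by
    intro i j
    rw [hT]
    simp [antipode_mul_antidistrib, mul_assoc]
  have h4 : ∀ l, TensorProduct.lid k k ((b.coord l).rTensor k (T (comul (R := k) (b l)))) =
      counit (R := k) (b l) * b.coord l v := by
    intro l
    have h5 : T (comul (R := k) (b l)) = (counit (R := k) (b l) • v) ⊗ₜ[k] (1 : k) := by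
      rw [hT]
      simp only [LinearMap.comp_apply, LinearEquiv.coe_coe, mul_antipode_lTensor_comul_apply]
      simp [Algebra.algebraMap_eq_smul_one, antipode_one, TensorProduct.smul_tmul']
    rw [h5]
    simp
  simp only [h3, h4] at h2
  have h5 : ∑ l, counit (R := k) (b l) * b.coord l v = counit (R := k) v := by
    conv_rhs => rw [← expand b v, map_sum]
    refine Finset.sum_congr rfl fun l _ => ?_
    rw [map_smul, smul_eq_mul, mul_comm]
  rw [h5] at h2
  rw [← h2]
  refine Finset.sum_congr rfl fun i _ => ?_
  rw [P, LinearMap.sum_apply]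
  rfl

end

end INTM

open INTM in
theorem specINT (hHAN : SpecHAN.{u, v}) : SpecINT.{u, v} := by
  intro k U _ _ _ _
  set b := Module.finBasis k U
  refine ⟨Module.finrank k U, fun i => P b (b.coord i), fun i => antipode k (b i), ?_, ?_⟩
  · intro i v
    exact P_coinv b (hHAN k U) (b.coord i) v
  · intro v
    exact P_sum b v

end Pool.Agent.Lib.MP_c37a72_al
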