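import Pool.Agent.Lib.MP_c37a72_al.SpecH

/-!
# Module QFD: the finite-dimensional quotient `H / H N₁⁺`
-/

set_option autoImplicit false

open scoped TensorProduct
open Coalgebra HopfAlgebra

namespace Pool.Agent.Lib.MP_c37a72_al

universe u v w

namespace QFDM

section
variable {k : Type u} {H Q : Type v} [Field k] [Ring H] [HopfAlgebra k H]
  [DivisionRing Q] [Algebra k Q] (ι : H →ₐ[k] Q)

/-- the projection `H → H / H N₁⁺` as a `k`-linear map -/
noncomputable def pr (k : Type u) (H : Type v) [Field k] [Ring H] [HopfAlgebra k H] :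
    H →ₗ[k] (H ⧸ IN1 k H) where
  toFun := fun h => Submodule.Quotient.mk h
  map_add' _ _ := rfl
  map_smul' _ _ := rfl

theorem pr_eq_zero {h : H} (hh : h ∈ IN1 k H) : pr k H h = 0 :=
  (Submodule.Quotient.mk_eq_zero _).2 hh

theorem pr_surj : Function.Surjective (pr k H) := fun c => by
  obtain ⟨h, rfl⟩ := Submodule.Quotient.mk_surjective _ c
  exact ⟨h, rfl⟩

/-- `a ⊗ b ↦ ι b ⊗ ā` -/
noncomputable def Phi : H ⊗[k] H →ₗ[k] Q ⊗[k] (H ⧸ IN1 k H) :=
  TensorProduct.map ι.toLinearMap (pr k H) ∘ₗ (TensorProduct.comm k H H).toLinearMap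

@[simp] theorem Phi_tmul (a b : H) : Phi ι (a ⊗ₜ[k] b) = ι b ⊗ₜ[k] pr k H a := by
  simp [Phi]

/-- `a ⊗ b ↦ ε(a) b` -/
noncomputable def EE (k : Type u) (H : Type v) [Field k] [Ring H] [HopfAlgebra k H] :
    H ⊗[k] H →ₗ[k] H :=
  (TensorProduct.lid k H).toLinearMap ∘ₗ (counit (R := k) (A := H)).rTensor H

@[simp] theorem EE_tmul (a b : H) : EE k H (a ⊗ₜ[k] b) = counit (R := k) a • b := by
  simp [EE]

theorem EE_comul (s : H) : EE k H (comul (R := k) s) = s := by
  simp [EE]

theorem one_mem_N1 : (1 : H) ∈ N1 k H := (N1 k H).one_mem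

/-- modulo `H N₁⁺` an element of `N₁` acts by its counit -/
theorem pr_mul (hNST : ∀ s : H, s ∈ N1 k H → Cent s) (s : N1 k H) (a : H) :
    pr k H ((s : H) * a) = counit (R := k) (s : H) • pr k H a := by
  have h1 : (s : H) * a - counit (R := k) (s : H) • a =
      a * ((s : H) - algebraMap k H (counit (R := k) (s : H))) := by
    rw [mul_sub, hNST s s.2 a, Algebra.smul_def, Algebra.commutes]
  have h2 : (s : H) - algebraMap k H (counit (R := k) (s : H)) ∈ IN1 k H := by
    refine Ideal.subset_span ⟨(N1 k H).sub_mem s.2 ((N1 k H).algebraMap_mem _), ?_⟩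
    simp
  have h3 : (s : H) * a - counit (R := k) (s : H) • a ∈ IN1 k H := by
    rw [h1]
    exact (IN1 k H).mul_mem_left a h2
  have h4 := pr_eq_zero (k := k) h3
  rw [map_sub, map_smul, sub_eq_zero] at h4
  exact h4

theorem Phi_mul (hNST : ∀ s : H, s ∈ N1 k H → Cent s) (w : (N1 k H) ⊗[k] H) (x : H ⊗[k] H) :
    Phi ι (TensorProduct.map (N1 k H).val.toLinearMap (LinearMap.id : H →ₗ[k] H) w * x) =
      ι (EE k H (TensorProduct.map (N1 k H).val.toLinearMap (LinearMap.id : H →ₗ[k] H) w)) •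
        Phi ι x := by
  induction w using TensorProduct.induction_on with
  | zero => simp
  | add w w' h h' => rw [map_add, add_mul, map_add, h, h', map_add, map_add, add_smul]
  | tmul s b =>
    induction x using TensorProduct.induction_on with
    | zero => simp
    | add x x' h h' => rw [mul_add, map_add, h, h', map_add, smul_add]
    | tmul a c =>
      rw [TensorProduct.map_tmul, Algebra.TensorProduct.tmul_mul_tmul, Phi_tmul, Phi_tmul,
        EE_tmul]
      change ι (b * c) ⊗ₜ[k] pr k H ((s : H) * a) = ι (counit (R := k) (s : H) • b) •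
        (ι c ⊗ₜ[k] pr k H a)
      rw [pr_mul hNST, TensorProduct.smul_tmul', map_mul, map_smul, TensorProduct.tmul_smul,
        smul_eq_mul, smul_mul_assoc, TensorProduct.smul_tmul']

/-- `φ(h) = h₂ ⊗ h̄₁` -/
noncomputable def phi : H →ₗ[k] Q ⊗[k] (H ⧸ IN1 k H) := Phi ι ∘ₗ comul

theorem phi_mul (hNST : SpecNST.{u, v}) {s : H} (hs : s ∈ N1 k H) (h : H) :
    phi ι (s * h) = ι s • phi ι h := by
  obtain ⟨-, ⟨w, hw⟩, -⟩ := hNST k H s hs
  have := Phi_mul ι (fun s hs => (hNST k H s hs).1) w (comul (R := k) h)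
  rw [hw, EE_comul, ← Bialgebra.comul_mul] at this
  exact this

variable (hS : Function.Bijective (antipode k (A := H)))

/-- inverse of the antipode -/
noncomputable def Sinv : H →ₗ[k] H := (LinearEquiv.ofBijective (antipode k (A := H)) hS).symm

theorem S_Sinv (x : H) : antipode k (Sinv hS x) = x :=
  (LinearEquiv.ofBijective (antipode k (A := H)) hS).apply_symm_apply x

/-- `a ⊗ b ↦ S⁻¹(b) a` -/
noncomputable def MS : H ⊗[k] H →ₗ[k] H :=
  LinearMap.mul' k H ∘ₗ (TensorProduct.map (Sinv hS) LinearMap.id) ∘ₗ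
    (TensorProduct.comm k H H).toLinearMap

@[simp] theorem MS_tmul (a b : H) : MS hS (a ⊗ₜ[k] b) = Sinv hS b * a := by
  simp [MS]

theorem MS_comul (h : H) : MS hS (comul (R := k) h) = counit (R := k) h • (1 : H) := by
  apply hS.1
  have h1 : (antipode k (A := H)) ∘ₗ MS hS =
      LinearMap.mul' k H ∘ₗ (antipode k (A := H)).rTensor H := by
    apply TensorProduct.ext'
    intro a b
    simp only [LinearMap.comp_apply, MS_tmul, LinearMap.rTensor_tmul, LinearMap.mul'_apply]
    rw [antipode_mul_antidistrib, S_Sinv]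
  have h2 := LinearMap.congr_fun h1 (comul (R := k) h)
  simp only [LinearMap.comp_apply, mul_antipode_rTensor_comul_apply] at h2
  rw [h2, map_smul, antipode_one, Algebra.smul_def, mul_one]

/-- `a ⊗ (b ⊗ c) ↦ S⁻¹(c) b ⊗ ā` -/
noncomputable def Th3 : H ⊗[k] (H ⊗[k] H) →ₗ[k] Q ⊗[k] (H ⧸ IN1 k H) :=
  TensorProduct.map (ι.toLinearMap ∘ₗ MS hS) (pr k H) ∘ₗ
    (TensorProduct.comm k H (H ⊗[k] H)).toLinearMap

@[simp] theorem Th3_tmul (a : H) (x : H ⊗[k] H) :
    Th3 ι hS (a ⊗ₜ[k] x) = ι (MS hS x) ⊗ₜ[k] pr k H a := by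
  simp [Th3]

theorem Th3_comul (h : H) :
    Th3 ι hS ((comul (R := k) (A := H)).lTensor H (comul (R := k) h)) = 1 ⊗ₜ[k] pr k H h := by
  have h1 : Th3 ι hS ∘ₗ (comul (R := k) (A := H)).lTensor H =
      (TensorProduct.mk k Q (H ⧸ IN1 k H) 1) ∘ₗ (pr k H) ∘ₗ
        (TensorProduct.rid k H).toLinearMap ∘ₗ (counit (R := k) (A := H)).lTensor H := by
    apply TensorProduct.ext'
    intro a b
    simp only [LinearMap.comp_apply, LinearMap.lTensor_tmul, Th3_tmul, MS_comul,
      LinearEquiv.coe_coe, TensorProduct.rid_tmul, TensorProduct.mk_apply, map_smul, map_one,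
      TensorProduct.smul_tmul']
  have h2 := LinearMap.congr_fun h1 (comul (R := k) h)
  simp only [LinearMap.comp_apply, lTensor_counit_comul, LinearEquiv.coe_coe,
    TensorProduct.rid_tmul, one_smul, TensorProduct.mk_apply] at h2
  exact h2

theorem Th3_mem (x : (H ⊗[k] H)) :
    Th3 ι hS (TensorProduct.assoc k H H H ((comul (R := k) (A := H)).rTensor H x)) ∈
      Submodule.span Q (Set.range (phi ι)) := by
  induction x using TensorProduct.induction_on with
  | zero => simp
  | add x x' h h' =>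
    rw [map_add, map_add, map_add]
    exact Submodule.add_mem _ h h'
  | tmul a c =>
    have h1 : ∀ y : H ⊗[k] H, Th3 ι hS (TensorProduct.assoc k H H H (y ⊗ₜ[k] c)) =
        ι (Sinv hS c) • Phi ι y := by
      intro y
      induction y using TensorProduct.induction_on with
      | zero => simp
      | add y y' h h' => rw [TensorProduct.add_tmul, map_add, map_add, h, h', map_add, smul_add]
      | tmul a b =>
        rw [TensorProduct.assoc_tmul, Th3_tmul, MS_tmul, Phi_tmul, TensorProduct.smul_tmul',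
          map_mul, smul_eq_mul]
    rw [LinearMap.rTensor_tmul, h1]
    exact Submodule.smul_mem _ _ (Submodule.subset_span ⟨a, rfl⟩)

include hS in
theorem span_phi : Submodule.span Q (Set.range (phi ι)) = ⊤ := by
  have h1 : ∀ c : H ⧸ IN1 k H, (1 : Q) ⊗ₜ[k] c ∈ Submodule.span Q (Set.range (phi ι)) := by
    intro c
    obtain ⟨h, rfl⟩ := pr_surj (k := k) c
    rw [← Th3_comul ι hS h, ← coassoc_apply]
    exact Th3_mem ι hS _
  rw [eq_top_iff]
  intro x _
  induction x using TensorProduct.induction_on with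
  | zero => exact Submodule.zero_mem _
  | add x x' h h' => exact Submodule.add_mem _ (h trivial) (h' trivial)
  | tmul q c =>
    have h2 : q ⊗ₜ[k] c = q • ((1 : Q) ⊗ₜ[k] c) := by
      rw [TensorProduct.smul_tmul', smul_eq_mul, mul_one]
    rw [h2]
    exact Submodule.smul_mem _ _ (h1 c)

end

end QFDM

open QFDM in
theorem specQFD (hNST : SpecNST.{u, v}) : SpecQFD.{u, v} := by
  intro k H Q _ _ _ _ _ _ ι hι hS n hdep
  obtain ⟨b, hb, hspan, hli⟩ := exists_linearIndependent Q (Set.range (phi ι))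
  rw [span_phi ι hS] at hspan
  have hfin : b.Finite := by
    by_contra hinf
    have hinf' : b.Infinite := hinf
    have : Infinite b := hinf'.to_subtype
    let f : Fin (n + 1) → b := fun i => Infinite.natEmbedding b i
    have hf : Function.Injective f := fun i j hij =>
      Fin.ext ((Infinite.natEmbedding b).injective hij)
    have hx : ∀ i, ∃ x : H, phi ι x = (f i : Q ⊗[k] (H ⧸ IN1 k H)) := fun i => hb (f i).2
    choose x hx using hx
    obtain ⟨c, hc, ⟨i, hi⟩, hsum⟩ := hdep x
    have h1 : ∑ i, ι (c i) • (f i : Q ⊗[k] (H ⧸ IN1 k H)) = 0 := by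
      rw [← map_zero (phi ι), ← hsum, map_sum]
      refine Finset.sum_congr rfl fun i _ => ?_
      rw [phi_mul ι hNST (hc i), hx i]
    have h2 := Fintype.linearIndependent_iff.1 (hli.comp f hf) (fun i => ι (c i)) h1 i
    exact hi (hι (by rw [h2, map_zero]))
  have : Module.Finite Q (Q ⊗[k] (H ⧸ IN1 k H)) :=
    ⟨⟨hfin.toFinset, by rw [Set.Finite.coe_toFinset, hspan]⟩⟩
  let B := Module.Free.chooseBasis k (H ⧸ IN1 k H)
  have := Module.Finite.finite_basis (Algebra.TensorProduct.basis Q B)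
  exact Module.Finite.of_basis B

end Pool.Agent.Lib.MP_c37a72_al
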