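import Pool.Agent.Lib.MP_c37a72_al.SpecH
import Pool.Agent.Lib.MP_c37a72_al.EG.Spec
import Pool.Agent.Lib.MP_c37a72_al.EG.RET
import Pool.Agent.Lib.MP_c37a72_al.EG.NUA
import Pool.Agent.Lib.MP_c37a72_al.QFD
import Pool.Agent.Lib.MP_c37a72_al.INT

section
/-!
# HAN: the antipode is an anti-homomorphism of coalgebras
-/
set_option autoImplicit false

open scoped TensorProduct
open Coalgebra HopfAlgebra TensorProduct

namespace Pool.Agent.Lib.MP_c37a72_al

universe u v w

namespace HANM

variable {k : Type u} {H : Type v} [Field k] [Ring H] [HopfAlgebra k H]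

lemma quad : (TensorProduct.map (comul (R := k) (A := H)) (comul (R := k) (A := H))) ∘ₗ
    comul (R := k) (A := H) =
    (TensorProduct.assoc k H H (H ⊗[k] H)).symm.toLinearMap ∘ₗ
      (TensorProduct.map LinearMap.id
        ((TensorProduct.assoc k H H H).toLinearMap ∘ₗ
          (TensorProduct.map (comul (R := k) (A := H)) LinearMap.id) ∘ₗ comul (R := k) (A := H))) ∘ₗ
      comul (R := k) (A := H) := by
  simp only [coassoc_simps]

/-- the map `(x ⊗ y) ⊗ (z ⊗ w) ↦ S(y) z ⊗ S(x) w` -/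
noncomputable def F4 (k : Type u) (H : Type v) [Field k] [Ring H] [HopfAlgebra k H] :
    (H ⊗[k] H) ⊗[k] (H ⊗[k] H) →ₗ[k] H ⊗[k] H :=
  LinearMap.mul' k (H ⊗[k] H) ∘ₗ TensorProduct.map
    ((TensorProduct.comm k H H).toLinearMap ∘ₗ TensorProduct.map (antipode k) (antipode k))
    LinearMap.id

lemma F4_comp : F4 k H ∘ₗ (TensorProduct.assoc k H H (H ⊗[k] H)).symm.toLinearMap ∘ₗ
      (TensorProduct.map LinearMap.id
        ((TensorProduct.assoc k H H H).toLinearMap ∘ₗ
          (TensorProduct.map (comul (R := k) (A := H)) LinearMap.id))) =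
    (TensorProduct.mk k H H 1) ∘ₗ LinearMap.mul' k H ∘ₗ
      TensorProduct.map (antipode k) (LinearMap.id : H →ₗ[k] H) ∘ₗ
      TensorProduct.map LinearMap.id ((TensorProduct.lid k H).toLinearMap ∘ₗ
        TensorProduct.map (counit (R := k) (A := H)) (LinearMap.id : H →ₗ[k] H)) := by
  ext x b w
  have h : ∀ u : H ⊗[k] H, F4 k H ((TensorProduct.assoc k H H (H ⊗[k] H)).symm
      (x ⊗ₜ[k] (TensorProduct.assoc k H H H) (u ⊗ₜ[k] w))) =
      (LinearMap.mul' k H (TensorProduct.map (antipode k) (LinearMap.id : H →ₗ[k] H) u)) ⊗ₜ[k]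
        (antipode k x * w) := by
    intro u
    induction u with
    | zero => simp
    | tmul y z => simp [F4]
    | add u v hu hv => rw [TensorProduct.add_tmul, map_add, TensorProduct.tmul_add, map_add,
        map_add, hu, hv, map_add, map_add, TensorProduct.add_tmul]
  have h2 := h (comul (R := k) b)
  simp only [TensorProduct.AlgebraTensorModule.curry_apply, TensorProduct.curry_apply,
    LinearMap.coe_restrictScalars, LinearMap.coe_comp, Function.comp_apply,
    LinearEquiv.coe_coe, TensorProduct.map_tmul, LinearMap.id_coe, id_eq,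
    TensorProduct.lid_tmul, LinearMap.mul'_apply, TensorProduct.mk_apply]
  rw [h2]
  have h3 := mul_antipode_rTensor_comul_apply (R := k) b
  rw [LinearMap.rTensor_def] at h3
  rw [h3, Algebra.algebraMap_eq_smul_one, TensorProduct.smul_tmul, mul_smul_comm]

end HANM

open HANM in
/-- **HAN**. -/
theorem specHAN : SpecHAN := by
  intro k H _ _ _ a
  have h1 : WithConv.toConv ((TensorProduct.comm k H H).toLinearMap ∘ₗ
      TensorProduct.map (antipode k) (antipode k) ∘ₗ comul (R := k) (A := H)) *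
      WithConv.toConv (comul (R := k) (A := H)) = 1 := by
    apply WithConv.ext
    simp only [LinearMap.convMul_def, LinearMap.convOne_def, WithConv.ofConv_toConv]
    have e1 : TensorProduct.map
        ((TensorProduct.comm k H H).toLinearMap ∘ₗ
          TensorProduct.map (antipode k) (antipode k) ∘ₗ comul (R := k) (A := H))
        (comul (R := k) (A := H)) =
        TensorProduct.map ((TensorProduct.comm k H H).toLinearMap ∘ₗ
          TensorProduct.map (antipode k) (antipode k)) LinearMap.id ∘ₗ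
        TensorProduct.map (comul (R := k) (A := H)) (comul (R := k) (A := H)) := by
      rw [← TensorProduct.map_comp, LinearMap.id_comp, LinearMap.comp_assoc]
    have e2 : TensorProduct.map (LinearMap.id : H →ₗ[k] H)
        ((TensorProduct.assoc k H H H).toLinearMap ∘ₗ
          (TensorProduct.map (comul (R := k) (A := H)) LinearMap.id) ∘ₗ
            comul (R := k) (A := H)) =
        TensorProduct.map LinearMap.id ((TensorProduct.assoc k H H H).toLinearMap ∘ₗ
          (TensorProduct.map (comul (R := k) (A := H)) LinearMap.id)) ∘ₗ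
        TensorProduct.map LinearMap.id (comul (R := k) (A := H)) := by
      rw [← TensorProduct.map_comp, LinearMap.id_comp, LinearMap.comp_assoc]
    have e3 : TensorProduct.map (LinearMap.id : H →ₗ[k] H) ((TensorProduct.lid k H).toLinearMap ∘ₗ
        TensorProduct.map (counit (R := k) (A := H)) (LinearMap.id : H →ₗ[k] H)) ∘ₗ
        TensorProduct.map LinearMap.id (comul (R := k) (A := H)) = LinearMap.id := by
      rw [← TensorProduct.map_comp, LinearMap.id_comp, LinearMap.comp_assoc,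
        ← LinearMap.rTensor_def, rTensor_counit_comp_comul]
      ext x y
      simp
    have e4 : LinearMap.mul' k H ∘ₗ TensorProduct.map (antipode k) (LinearMap.id : H →ₗ[k] H) ∘ₗ
        comul (R := k) (A := H) = Algebra.linearMap k H ∘ₗ counit (R := k) := by
      rw [← LinearMap.rTensor_def]
      exact mul_antipode_rTensor_comul
    calc
      LinearMap.mul' k (H ⊗[k] H) ∘ₗ TensorProduct.map
        ((TensorProduct.comm k H H).toLinearMap ∘ₗ
          TensorProduct.map (antipode k) (antipode k) ∘ₗ comul (R := k) (A := H))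
        (comul (R := k) (A := H)) ∘ₗ comul (R := k) (A := H)
        = F4 k H ∘ₗ (TensorProduct.map (comul (R := k) (A := H)) (comul (R := k) (A := H)) ∘ₗ
            comul (R := k) (A := H)) := by
          rw [e1]
          unfold F4
          simp only [LinearMap.comp_assoc]
      _ = (F4 k H ∘ₗ (TensorProduct.assoc k H H (H ⊗[k] H)).symm.toLinearMap ∘ₗ
      (TensorProduct.map LinearMap.id
        ((TensorProduct.assoc k H H H).toLinearMap ∘ₗ
          (TensorProduct.map (comul (R := k) (A := H)) LinearMap.id)))) ∘ₗ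
          (TensorProduct.map LinearMap.id (comul (R := k) (A := H)) ∘ₗ
            comul (R := k) (A := H)) := by
          rw [quad, e2]
          simp only [LinearMap.comp_assoc]
      _ = (TensorProduct.mk k H H 1) ∘ₗ LinearMap.mul' k H ∘ₗ
          TensorProduct.map (antipode k) (LinearMap.id : H →ₗ[k] H) ∘ₗ
          (TensorProduct.map LinearMap.id ((TensorProduct.lid k H).toLinearMap ∘ₗ
            TensorProduct.map (counit (R := k) (A := H)) (LinearMap.id : H →ₗ[k] H)) ∘ₗ
          TensorProduct.map LinearMap.id (comul (R := k) (A := H))) ∘ₗ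
            comul (R := k) (A := H) := by
          rw [F4_comp]
          simp only [LinearMap.comp_assoc]
      _ = (TensorProduct.mk k H H 1) ∘ₗ (LinearMap.mul' k H ∘ₗ
          TensorProduct.map (antipode k) (LinearMap.id : H →ₗ[k] H) ∘ₗ
            comul (R := k) (A := H)) := by
          rw [e3, LinearMap.id_comp]
      _ = Algebra.linearMap k (H ⊗[k] H) ∘ₗ counit (R := k) := by
          rw [e4]
          ext x
          simp [Algebra.algebraMap_eq_smul_one,
            Algebra.TensorProduct.one_def, TensorProduct.smul_tmul']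
  have h2 := left_inv_eq_right_inv h1 (LinearMap.comul_right_inv (R := k) (C := H))
  have h3 := WithConv.toConv_injective h2
  exact (LinearMap.congr_fun h3 a).symm

end Pool.Agent.Lib.MP_c37a72_al
end

section
/-!
# NST: structure of `N₁`
-/
set_option autoImplicit false

open scoped TensorProduct
open Coalgebra HopfAlgebra

namespace Pool.Agent.Lib.MP_c37a72_al

universe u v w

namespace NSTM

variable {k : Type u} {H : Type v} [Field k] [Ring H] [HopfAlgebra k H]

/-- `id ⊗ φ` -/
noncomputable def sl (φ : H →ₗ[k] k) : H ⊗[k] H →ₗ[k] H :=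
  (TensorProduct.rid k H).toLinearMap ∘ₗ LinearMap.lTensor H φ

lemma sl_tmul (φ : H →ₗ[k] k) (a b : H) : sl φ (a ⊗ₜ[k] b) = φ b • a := by
  simp [sl]

lemma sl_left (φ : H →ₗ[k] k) (h : H) (w : H ⊗[k] H) :
    sl φ ((h ⊗ₜ[k] (1 : H)) * w) = h * sl φ w := by
  induction w with
  | zero => simp
  | tmul a b => simp [sl_tmul]
  | add x y hx hy => rw [mul_add, map_add, hx, hy, map_add, mul_add]

lemma sl_right (φ : H →ₗ[k] k) (h : H) (w : H ⊗[k] H) :
    sl φ (w * (h ⊗ₜ[k] (1 : H))) = sl φ w * h := by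
  induction w with
  | zero => simp
  | tmul a b => simp [sl_tmul]
  | add x y hx hy => rw [add_mul, map_add, hx, hy, map_add, add_mul]

lemma lT_left (ψ : H →ₗ[k] H) (h : H) (w : H ⊗[k] H) :
    LinearMap.lTensor H ψ ((h ⊗ₜ[k] (1 : H)) * w) = (h ⊗ₜ[k] (1 : H)) * LinearMap.lTensor H ψ w := by
  induction w with
  | zero => simp
  | tmul a b => simp
  | add x y hx hy => rw [mul_add, map_add, hx, hy, map_add, mul_add]

lemma lT_right (ψ : H →ₗ[k] H) (h : H) (w : H ⊗[k] H) :
    LinearMap.lTensor H ψ (w * (h ⊗ₜ[k] (1 : H))) = LinearMap.lTensor H ψ w * (h ⊗ₜ[k] (1 : H)) := by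
  induction w with
  | zero => simp
  | tmul a b => simp
  | add x y hx hy => rw [add_mul, map_add, hx, hy, map_add, add_mul]

lemma comul_sl (φ : H →ₗ[k] k) (s : H) : comul (R := k) (sl φ (comul (R := k) s)) =
    LinearMap.lTensor H (sl φ ∘ₗ comul (R := k) (A := H)) (comul (R := k) s) := by
  have h0 : ∀ (u : H ⊗[k] H) (b : H), LinearMap.lTensor H (sl φ)
      (TensorProduct.assoc k H H H (u ⊗ₜ[k] b)) = φ b • u := by
    intro u b
    induction u with
    | zero => simp
    | tmul x y => simp [sl_tmul]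
    | add x y hx hy => rw [TensorProduct.add_tmul, map_add, map_add, hx, hy, smul_add]
  have h1 : ∀ w : H ⊗[k] H, comul (R := k) (sl φ w) = LinearMap.lTensor H (sl φ)
      (TensorProduct.assoc k H H H (LinearMap.rTensor H (comul (R := k) (A := H)) w)) := by
    intro w
    induction w with
    | zero => simp
    | tmul a b => rw [sl_tmul, LinearMap.rTensor_tmul, h0, map_smul]
    | add x y hx hy => simp only [map_add, hx, hy]
  rw [h1, coassoc_apply, ← LinearMap.lTensor_comp_apply]

lemma cent_sl {s : H} (hs : s ∈ N1 k H) (φ : H →ₗ[k] k) : Cent (sl φ (comul (R := k) s)) := by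
  intro h
  rw [← sl_left, ← sl_right]
  exact congrArg _ (hs h)

lemma sl_mem {s : H} (hs : s ∈ N1 k H) (φ : H →ₗ[k] k) : sl φ (comul (R := k) s) ∈ N1 k H := by
  intro h
  rw [comul_sl, ← lT_left, ← lT_right]
  exact congrArg _ (hs h)

lemma sl_counit (s : H) : sl (counit (R := k)) (comul (R := k) s) = s := by
  unfold sl
  rw [LinearMap.comp_apply, lTensor_counit_comul]
  simp

lemma cent {s : H} (hs : s ∈ N1 k H) : Cent s := by
  have h := cent_sl hs (counit (R := k))
  rwa [sl_counit] at h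

lemma coideal {s : H} (hs : s ∈ N1 k H) : comul (R := k) s ∈ LinearMap.range
    (TensorProduct.map (N1 k H).val.toLinearMap (LinearMap.id : H →ₗ[k] H)) := by
  classical
  set B := Module.Basis.ofVectorSpace k H
  have h1 : (TensorProduct.equivFinsuppOfBasisRight B).symm
      (TensorProduct.equivFinsuppOfBasisRight B (comul (R := k) s)) = comul (R := k) s :=
    LinearEquiv.symm_apply_apply _ _
  rw [TensorProduct.equivFinsuppOfBasisRight_symm_apply] at h1
  rw [← h1]
  apply Submodule.sum_mem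
  intro i _
  rw [TensorProduct.equivFinsuppOfBasisRight_apply]
  exact ⟨(⟨sl (B.coord i) (comul (R := k) s), sl_mem hs _⟩ : N1 k H) ⊗ₜ[k] B i, rfl⟩

/-- the bilinear map in the definition of `ad` -/
noncomputable def Lad (k : Type u) (H : Type v) [Field k] [Ring H] [HopfAlgebra k H] :
    H ⊗[k] H →ₗ[k] H →ₗ[k] H :=
  TensorProduct.lift (LinearMap.mk₂ k
    (fun a b : H => LinearMap.mulRight k (antipode k b) ∘ₗ LinearMap.mulLeft k a)
    (fun a a' b => by ext x; simp [add_mul])
    (fun c a b => by ext x; simp)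
    (fun a b b' => by ext x; simp [mul_add])
    (fun c a b => by ext x; simp))

lemma Lad_tmul (a b x : H) : Lad k H (a ⊗ₜ[k] b) x = a * x * antipode k b := by
  simp [Lad]

lemma adL_eq (s x : H) : adL k H s x = Lad k H (comul (R := k) s) x := rfl

lemma Lad_N1 (u : N1 k H ⊗[k] H) (x : H) :
    Lad k H (TensorProduct.map (N1 k H).val.toLinearMap (LinearMap.id : H →ₗ[k] H) u) x =
      x * LinearMap.mul' k H (LinearMap.lTensor H (antipode k)
        (TensorProduct.map (N1 k H).val.toLinearMap (LinearMap.id : H →ₗ[k] H) u)) := by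
  induction u with
  | zero => simp
  | tmul n b =>
    have h : x * (n : H) = (n : H) * x := cent n.2 x
    simp only [TensorProduct.map_tmul, LinearMap.id_coe, id_eq, Lad_tmul, LinearMap.lTensor_tmul,
      LinearMap.mul'_apply]
    change (n : H) * x * _ = x * ((n : H) * _)
    rw [← mul_assoc, h]
  | add a b ha hb => simp only [map_add, LinearMap.add_apply, ha, hb, mul_add]

lemma ad_N1 {s : H} (hs : s ∈ N1 k H) (x : H) : adL k H s x = counit (R := k) s • x := by
  obtain ⟨u, hu⟩ := coideal hs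
  rw [adL_eq, ← hu, Lad_N1, hu, mul_antipode_lTensor_comul_apply, Algebra.algebraMap_eq_smul_one,
    mul_smul_comm, mul_one]

end NSTM

open NSTM in
/-- **NST**. -/
theorem specNST : SpecNST := by
  intro k H _ _ _ s hs
  exact ⟨cent hs, coideal hs, fun x => ad_N1 hs x⟩

end Pool.Agent.Lib.MP_c37a72_al
end

section
/-!
# Module NFA: facts on the subalgebra `N`
-/
set_option autoImplicit false

open scoped TensorProduct
open Coalgebra HopfAlgebra

namespace Pool.Agent.Lib.MP_c37a72_al.EG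

universe u v w

namespace NFAM

section general

variable {k : Type u} {A : Type w} {H : Type v} [Field k] [Ring A] [Algebra k A] [Ring H]
  [Algebra k H]

/-- `id ⊗ φ` -/
noncomputable def sq (φ : H →ₗ[k] k) : A ⊗[k] H →ₗ[k] A :=
  (TensorProduct.rid k A).toLinearMap ∘ₗ LinearMap.lTensor A φ

lemma sq_tmul (φ : H →ₗ[k] k) (a : A) (b : H) : sq φ (a ⊗ₜ[k] b) = φ b • a := by
  simp [sq]

lemma sq_left (φ : H →ₗ[k] k) (x : A) (w : A ⊗[k] H) :
    sq φ ((x ⊗ₜ[k] (1 : H)) * w) = x * sq φ w := by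
  induction w with
  | zero => simp
  | tmul a b => simp [sq_tmul]
  | add s t hs ht => rw [mul_add, map_add, hs, ht, map_add, mul_add]

lemma sq_right (φ : H →ₗ[k] k) (x : A) (w : A ⊗[k] H) :
    sq φ (w * (x ⊗ₜ[k] (1 : H))) = sq φ w * x := by
  induction w with
  | zero => simp
  | tmul a b => simp [sq_tmul]
  | add s t hs ht => rw [add_mul, map_add, hs, ht, map_add, add_mul]

lemma lT_left (ψ : H →ₗ[k] H) (x : A) (w : A ⊗[k] H) :
    LinearMap.lTensor A ψ ((x ⊗ₜ[k] (1 : H)) * w) = (x ⊗ₜ[k] (1 : H)) * LinearMap.lTensor A ψ w := by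
  induction w with
  | zero => simp
  | tmul a b => simp
  | add s t hs ht => rw [mul_add, map_add, hs, ht, map_add, mul_add]

lemma lT_right (ψ : H →ₗ[k] H) (x : A) (w : A ⊗[k] H) :
    LinearMap.lTensor A ψ (w * (x ⊗ₜ[k] (1 : H))) = LinearMap.lTensor A ψ w * (x ⊗ₜ[k] (1 : H)) := by
  induction w with
  | zero => simp
  | tmul a b => simp
  | add s t hs ht => rw [add_mul, map_add, hs, ht, map_add, add_mul]

/-- every tensor is a finite sum -/
lemma exists_fin (t : A ⊗[k] H) : ∃ (n : ℕ) (x : Fin n → A) (y : Fin n → H),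
    t = ∑ i, x i ⊗ₜ[k] y i := by
  induction t with
  | zero => exact ⟨0, Fin.elim0, Fin.elim0, by simp⟩
  | tmul a b => exact ⟨1, fun _ => a, fun _ => b, by simp⟩
  | add s t hs ht =>
    obtain ⟨n, x, y, e⟩ := hs
    obtain ⟨m, x', y', e'⟩ := ht
    refine ⟨n + m, Fin.append x x', Fin.append y y', ?_⟩
    rw [Fin.sum_univ_add, e, e']
    simp

end general

section hopf

variable {k : Type u} {H : Type v} [Field k] [Ring H] [HopfAlgebra k H]

/-- the bilinear map of the right adjoint action: `La (a ⊗ b) x = S(a) x b` -/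
noncomputable def La (k : Type u) (H : Type v) [Field k] [Ring H] [HopfAlgebra k H] :
    H ⊗[k] H →ₗ[k] H →ₗ[k] H :=
  TensorProduct.lift (LinearMap.mk₂ k
    (fun a b : H => LinearMap.mulRight k b ∘ₗ LinearMap.mulLeft k (antipode k a))
    (fun a a' b => by ext x; simp [add_mul])
    (fun c a b => by ext x; simp)
    (fun a b b' => by ext x; simp [mul_add])
    (fun c a b => by ext x; simp))

lemma La_tmul (a b x : H) : La k H (a ⊗ₜ[k] b) x = antipode k a * x * b := by
  simp [La]

lemma adRH_La (h x : H) : adRH k H h x = La k H (comul (R := k) h) x := rfl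

/-- `(s ⊗ t) ↦ flip(S ⊗ S)(s) * w * t` -/
noncomputable def Th (w : H ⊗[k] H) : (H ⊗[k] H) ⊗[k] (H ⊗[k] H) →ₗ[k] H ⊗[k] H :=
  LinearMap.mul' k (H ⊗[k] H) ∘ₗ TensorProduct.map
    (LinearMap.mulRight k w ∘ₗ (TensorProduct.comm k H H).toLinearMap ∘ₗ
      TensorProduct.map (antipode k) (antipode k)) LinearMap.id

lemma Th_tmul (w s t : H ⊗[k] H) : Th w (s ⊗ₜ[k] t) =
    TensorProduct.comm k H H (TensorProduct.map (antipode k) (antipode k) s) * w * t := by
  simp [Th]

/-- `p ⊗ (q ⊗ r) ↦ (q acting on the right, S(p) _ r)` applied to `w` -/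
noncomputable def Ps (w : H ⊗[k] H) (p : H) : H ⊗[k] H →ₗ[k] H ⊗[k] H :=
  TensorProduct.lift (LinearMap.mk₂ k
    (fun q r : H => TensorProduct.map (adRH k H q)
      (LinearMap.mulRight k r ∘ₗ LinearMap.mulLeft k (antipode k p)) w)
    (fun q q' r => by
      rw [map_add, TensorProduct.map_add_left, LinearMap.add_apply])
    (fun c q r => by
      rw [map_smul, TensorProduct.map_smul_left, LinearMap.smul_apply])
    (fun q r r' => by
      rw [← LinearMap.add_apply, ← TensorProduct.map_add_right]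
      congr 2
      ext x
      simp [mul_add])
    (fun c q r => by
      rw [← LinearMap.smul_apply, ← TensorProduct.map_smul_right]
      congr 2
      ext x
      simp))

lemma Ps_tmul (w : H ⊗[k] H) (p q r : H) : Ps w p (q ⊗ₜ[k] r) = TensorProduct.map (adRH k H q)
      (LinearMap.mulRight k r ∘ₗ LinearMap.mulLeft k (antipode k p)) w := by
  simp [Ps]

lemma Th_assoc (w u : H ⊗[k] H) (p r : H) :
    Th w ((TensorProduct.assoc k H H (H ⊗[k] H)).symm
      (p ⊗ₜ[k] (TensorProduct.assoc k H H H) (u ⊗ₜ[k] r))) =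
    TensorProduct.map (La k H u)
      (LinearMap.mulRight k r ∘ₗ LinearMap.mulLeft k (antipode k p)) w := by
  induction u with
  | zero => simp
  | tmul y z =>
    rw [TensorProduct.assoc_tmul, TensorProduct.assoc_symm_tmul, Th_tmul]
    induction w with
    | zero => simp
    | tmul a b =>
      rw [TensorProduct.map_tmul, TensorProduct.comm_tmul, Algebra.TensorProduct.tmul_mul_tmul,
        Algebra.TensorProduct.tmul_mul_tmul, TensorProduct.map_tmul, La_tmul]
      rfl
    | add s t hs ht => rw [mul_add, add_mul, hs, ht, map_add]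
  | add s t hs ht =>
    rw [TensorProduct.add_tmul, map_add, TensorProduct.tmul_add, map_add, map_add, hs, ht, map_add,
      TensorProduct.map_add_left, LinearMap.add_apply]

/-- the coproduct of `h ◁ g` -/
lemma comul_adRH (g h : H) : ∃ (n : ℕ) (p : Fin n → H) (T : Fin n → H ⊗[k] H),
    comul (R := k) (adRH k H g h) = ∑ i, Ps (comul (R := k) h) (p i) (T i) := by
  obtain ⟨n, p, q, e⟩ := exists_fin (comul (R := k) g)
  refine ⟨n, p, fun i => comul (R := k) (q i), ?_⟩
  have h1 : comul (R := k) (adRH k H g h) = Th (comul (R := k) h)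
      (TensorProduct.map (comul (R := k) (A := H)) (comul (R := k) (A := H))
        (comul (R := k) g)) := by
    rw [e, adRH_La, e]
    simp only [map_sum, LinearMap.sum_apply, TensorProduct.map_tmul]
    refine Finset.sum_congr rfl fun i _ => ?_
    rw [La_tmul, Bialgebra.comul_mul, Bialgebra.comul_mul, specHAN k H (p i), Th_tmul]
  have h2 : TensorProduct.map (comul (R := k) (A := H)) (comul (R := k) (A := H))
        (comul (R := k) g) = ∑ i, (TensorProduct.assoc k H H (H ⊗[k] H)).symm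
      (p i ⊗ₜ[k] (TensorProduct.assoc k H H H)
        (TensorProduct.map (comul (R := k) (A := H)) LinearMap.id (comul (R := k) (q i)))) := by
    have h3 := LinearMap.congr_fun (HANM.quad (k := k) (H := H)) g
    simp only [LinearMap.comp_apply] at h3
    rw [h3]
    conv_lhs => rw [e]
    simp only [map_sum, TensorProduct.map_tmul, LinearMap.comp_apply, LinearMap.id_apply,
      LinearEquiv.coe_coe]
  rw [h1, h2, map_sum]
  refine Finset.sum_congr rfl fun i _ => ?_
  beta_reduce
  generalize comul (R := k) (q i) = t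
  induction t with
  | zero => simp
  | tmul a b =>
    rw [TensorProduct.map_tmul, LinearMap.id_apply, Th_assoc, Ps_tmul]
    rfl
  | add s t hs ht =>
    rw [map_add, map_add, TensorProduct.tmul_add, map_add, map_add, hs, ht, map_add]

end hopf

section main

variable {k : Type u} {H Z Q : Type v} [Field k] [Ring H] [HopfAlgebra k H] [Field Z]
    [Algebra k Z] [DivisionRing Q] [Algebra k Q] [Algebra Z Q] [IsScalarTower k Z Q]
    {ι : H →ₐ[k] Q}

lemma dl_eq (h : H) : dl k ι h =
    TensorProduct.map ι.toLinearMap (LinearMap.id : H →ₗ[k] H) (comul (R := k) h) := rfl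

lemma mem_NN {h : H} : h ∈ NN k Z ι ↔
    ∀ x ∈ Ol k Z ι, (x ⊗ₜ[k] (1 : H)) * dl k ι h = dl k ι h * (x ⊗ₜ[k] (1 : H)) := by
  unfold NN
  rw [Subalgebra.mem_comap, Subalgebra.mem_centralizer_iff]
  constructor
  · intro hh x hx
    exact hh _ ⟨x, hx, rfl⟩
  · rintro hh _ ⟨x, hx, rfl⟩
    exact hh x hx

lemma mem_Opp {q : Q} : q ∈ Opp k Z ι ↔ ∀ x ∈ Ol k Z ι, x * q = q * x := by
  unfold Opp
  rw [Subalgebra.mem_centralizer_iff]
  rfl

lemma sq_dl (φ : H →ₗ[k] k) (h : H) :
    sq φ (dl k ι h) = ι (NSTM.sl φ (comul (R := k) h)) := by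
  rw [dl_eq]
  generalize comul (R := k) h = w
  induction w with
  | zero => simp
  | tmul a b => simp [sq_tmul, NSTM.sl_tmul]
  | add s t hs ht => simp only [map_add, hs, ht]

lemma dl_sl (φ : H →ₗ[k] k) (h : H) : dl k ι (NSTM.sl φ (comul (R := k) h)) =
    LinearMap.lTensor Q (NSTM.sl φ ∘ₗ comul (R := k) (A := H)) (dl k ι h) := by
  rw [dl_eq, NSTM.comul_sl, dl_eq]
  generalize comul (R := k) h = w
  induction w with
  | zero => simp
  | tmul a b => simp
  | add s t hs ht => simp only [map_add, hs, ht]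

lemma sl_Opp {h : H} (hh : h ∈ NN k Z ι) (φ : H →ₗ[k] k) :
    ι (NSTM.sl φ (comul (R := k) h)) ∈ Opp k Z ι := by
  rw [mem_Opp]
  intro x hx
  rw [← sq_dl, ← sq_left, ← sq_right]
  exact congrArg _ (mem_NN.1 hh x hx)

lemma sl_NN {h : H} (hh : h ∈ NN k Z ι) (φ : H →ₗ[k] k) :
    NSTM.sl φ (comul (R := k) h) ∈ NN k Z ι := by
  rw [mem_NN]
  intro x hx
  rw [dl_sl, ← lT_left, ← lT_right]
  exact congrArg _ (mem_NN.1 hh x hx)

lemma ι_Opp {h : H} (hh : h ∈ NN k Z ι) : ι h ∈ Opp k Z ι := by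
  have := sl_Opp hh (counit (R := k))
  rwa [NSTM.sl_counit] at this

lemma coideal {h : H} (hh : h ∈ NN k Z ι) : comul (R := k) h ∈ LinearMap.range
    (TensorProduct.map (NN k Z ι).val.toLinearMap (LinearMap.id : H →ₗ[k] H)) := by
  classical
  set B := Module.Basis.ofVectorSpace k H
  have h1 : (TensorProduct.equivFinsuppOfBasisRight B).symm
      (TensorProduct.equivFinsuppOfBasisRight B (comul (R := k) h)) = comul (R := k) h :=
    LinearEquiv.symm_apply_apply _ _
  rw [TensorProduct.equivFinsuppOfBasisRight_symm_apply] at h1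
  rw [← h1]
  apply Submodule.sum_mem
  intro i _
  rw [TensorProduct.equivFinsuppOfBasisRight_apply]
  exact ⟨(⟨NSTM.sl (B.coord i) (comul (R := k) h), sl_NN hh _⟩ : NN k Z ι) ⊗ₜ[k] B i, rfl⟩

lemma crit {h : H} {n : ℕ} {x y : Fin n → H} (e : comul (R := k) h = ∑ i, x i ⊗ₜ[k] y i)
    (hx : ∀ i, ι (x i) ∈ Opp k Z ι) : h ∈ NN k Z ι := by
  rw [mem_NN]
  intro b hb
  rw [dl_eq, e, map_sum, Finset.mul_sum, Finset.sum_mul]
  refine Finset.sum_congr rfl fun i _ => ?_
  rw [TensorProduct.map_tmul, Algebra.TensorProduct.tmul_mul_tmul,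
    Algebra.TensorProduct.tmul_mul_tmul]
  have h1 : b * ι (x i) = ι (x i) * b := mem_Opp.1 (hx i) b hb
  change (b * ι (x i)) ⊗ₜ[k] _ = (ι (x i) * b) ⊗ₜ[k] _
  rw [h1, one_mul, mul_one]

lemma La_ι (t : H ⊗[k] H) (x : H) : ι (La k H t x) = lrm k Z
    (TensorProduct.map (ι.toLinearMap ∘ₗ antipode k) ι.toLinearMap t) (ι x) := by
  induction t with
  | zero => simp
  | tmul a b => simp [La_tmul]
  | add s t hs ht => simp only [map_add, LinearMap.add_apply, hs, ht]

lemma ι_adRH (g h : H) : ι (adRH k H g h) = adrQ k Z ι g (ι h) := by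
  rw [adRH_La, La_ι (Z := Z)]
  rfl

lemma triv {h : H} (hh : h ∈ NN k Z ι) {q : Q} (hq : q ∈ Ol k Z ι) :
    adlQ k Z ι h q = algebraMap k Q (counit h) * q := by
  obtain ⟨t, ht⟩ := coideal hh
  have h1 : ∀ t : (NN k Z ι) ⊗[k] H, lrm k Z (TensorProduct.map ι.toLinearMap
      (ι.toLinearMap ∘ₗ antipode k) (TensorProduct.map (NN k Z ι).val.toLinearMap
        (LinearMap.id : H →ₗ[k] H) t)) q = q * ι (LinearMap.mul' k H
      (LinearMap.lTensor H (antipode k) (TensorProduct.map (NN k Z ι).val.toLinearMap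
        (LinearMap.id : H →ₗ[k] H) t))) := by
    intro t
    induction t with
    | zero => simp
    | tmul n b =>
      have h2 : q * ι (n : H) = ι (n : H) * q := mem_Opp.1 (ι_Opp n.2) q hq
      simp only [TensorProduct.map_tmul, LinearMap.id_apply, LinearMap.lTensor_tmul,
        LinearMap.mul'_apply, LinearMap.comp_apply, lrm_tmul, AlgHom.toLinearMap_apply, map_mul]
      change ι (n : H) * q * _ = q * (ι (n : H) * _)
      rw [← mul_assoc, h2]
    | add s t hs ht => simp only [map_add, LinearMap.add_apply, hs, ht, mul_add]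
  have h3 := h1 t
  rw [ht, mul_antipode_lTensor_comul_apply] at h3
  change adlQ k Z ι h q = _ at h3
  rw [h3, AlgHom.commutes, Algebra.commutes]

lemma La_cent {c : H} (hc : ∀ x : H, x * c = c * x) (t : H ⊗[k] H) :
    La k H t c = c * LinearMap.mul' k H ((antipode k).rTensor H t) := by
  induction t with
  | zero => simp
  | tmul a b =>
    rw [La_tmul, hc, LinearMap.rTensor_tmul, LinearMap.mul'_apply, mul_assoc]
  | add s t hs ht => simp only [map_add, LinearMap.add_apply, hs, ht, mul_add]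

lemma adRH_cent {c : H} (hc : ∀ x : H, x * c = c * x) (g : H) :
    adRH k H g c = counit (R := k) g • c := by
  rw [adRH_La, La_cent hc, mul_antipode_rTensor_comul_apply, Algebra.algebraMap_eq_smul_one,
    mul_smul_comm, mul_one]

lemma Ps_comm (hOPP : ∀ (h : H), ∀ x ∈ Opp k Z ι, adrQ k Z ι h x ∈ Opp k Z ι) {h : H}
    (hh : h ∈ NN k Z ι) (p : H) (T : H ⊗[k] H) (x : Q) (hx : x ∈ Ol k Z ι) :
    (x ⊗ₜ[k] (1 : H)) * TensorProduct.map ι.toLinearMap (LinearMap.id : H →ₗ[k] H)
      (Ps (comul (R := k) h) p T) =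
    TensorProduct.map ι.toLinearMap (LinearMap.id : H →ₗ[k] H)
      (Ps (comul (R := k) h) p T) * (x ⊗ₜ[k] (1 : H)) := by
  induction T with
  | zero => simp
  | tmul q r =>
    obtain ⟨t, ht⟩ := coideal hh
    rw [Ps_tmul, ← ht]
    clear ht
    induction t with
    | zero => simp
    | tmul n b =>
      have h2 : x * ι (adRH k H q (n : H)) = ι (adRH k H q (n : H)) * x := by
        refine mem_Opp.1 ?_ x hx
        rw [ι_adRH (Z := Z)]
        exact hOPP q _ (ι_Opp n.2)
      simp only [TensorProduct.map_tmul, LinearMap.id_apply, AlgHom.toLinearMap_apply,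
        Algebra.TensorProduct.tmul_mul_tmul, one_mul, mul_one]
      change (x * ι (adRH k H q (n : H))) ⊗ₜ[k] _ = (ι (adRH k H q (n : H)) * x) ⊗ₜ[k] _
      rw [h2]
    | add s t hs ht => simp only [map_add, mul_add, add_mul, hs, ht]
  | add s t hs ht => simp only [map_add, mul_add, add_mul, hs, ht]

lemma adRH_NN (hOPP : ∀ (h : H), ∀ x ∈ Opp k Z ι, adrQ k Z ι h x ∈ Opp k Z ι) (g : H) {h : H}
    (hh : h ∈ NN k Z ι) : adRH k H g h ∈ NN k Z ι := by
  obtain ⟨n, p, T, e⟩ := comul_adRH (k := k) g h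
  rw [mem_NN]
  intro x hx
  rw [dl_eq, e, map_sum, Finset.mul_sum, Finset.sum_mul]
  exact Finset.sum_congr rfl fun i _ => Ps_comm hOPP hh (p i) (T i) x hx

end main

end NFAM

open NFAM in
/-- **NFA**. -/
theorem specNFA (hADB : SpecADB.{u, v}) (hOPP : SpecOPP.{u, v}) : SpecNFA.{u, v} := by
  intro k H Z Q _ _ _ _ _ _ _ _ _ ι hQ
  have hO := (hOPP k H Z Q ι hQ).1
  refine ⟨fun h hh => ι_Opp hh, fun h hh => coideal hh, fun h n x y e hx => crit e hx,
    fun g h hh => adRH_NN hO g hh, fun h hh q hq => triv hh hq, fun g h => ι_adRH g h, ?_, ?_⟩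
  · intro c hc g
    refine adRH_cent (fun x => ?_) g
    exact (Subalgebra.mem_center_iff.1 hc.2 x)
  · intro c hc hinv
    refine ⟨hc, ?_⟩
    rw [SetLike.mem_coe, Subalgebra.mem_center_iff]
    intro h
    obtain ⟨n, x, y, e⟩ := exists_fin (comul (R := k) h)
    obtain ⟨-, h2, -⟩ := hADB k H Z Q ι h n x y e (ι c)
    apply hQ.inj
    rw [map_mul, map_mul, h2]
    have h3 : ∀ i, adrQ k Z ι (y i) (ι c) = ι (counit (R := k) (y i) • c) := by
      intro i
      rw [← hinv, ι_adRH (Z := Z)]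
    simp only [h3, ← map_mul]
    rw [← map_sum]
    congr 1
    have h4 : ∑ i, x i * (counit (R := k) (y i) • c) = (∑ i, counit (R := k) (y i) • x i) * c := by
      rw [Finset.sum_mul]
      refine Finset.sum_congr rfl fun i _ => ?_
      rw [mul_smul_comm, smul_mul_assoc]
    rw [h4]
    congr 1
    have h5 := NSTM.sl_counit (k := k) h
    rw [e, map_sum] at h5
    simp only [NSTM.sl_tmul] at h5
    exact h5.symm

end Pool.Agent.Lib.MP_c37a72_al.EG
end

section
/-!
# Module NHN: `H` is a finitely generated right module over `N`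
-/
set_option autoImplicit false

open scoped TensorProduct
open Coalgebra HopfAlgebra

namespace Pool.Agent.Lib.MP_c37a72_al.EG

universe u v w

namespace NHNM

open NFAM

variable {k : Type u} {H Z Q : Type v} [Field k] [Ring H] [HopfAlgebra k H] [Field Z]
    [Algebra k Z] [DivisionRing Q] [Algebra k Q] [Algebra Z Q] [IsScalarTower k Z Q]
    {ι : H →ₐ[k] Q}

lemma adlQ_one (q : Q) : adlQ k Z ι 1 q = q := by
  have h : adlQ k Z ι 1 q = lrm k Z (TensorProduct.map ι.toLinearMap
    (ι.toLinearMap ∘ₗ antipode k) (comul (R := k) (1 : H))) q := rfl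
  rw [h, Bialgebra.comul_one, Algebra.TensorProduct.one_def]
  simp

lemma memOpp (hADB : SpecADB.{u, v}) (J : Ideal H) [J.IsTwoSided]
    (hJ : ∀ h ∈ J, ∀ q ∈ Ol k Z ι, adlQ k Z ι h q = 0) {y : H}
    (hy : TensorProduct.map (Ideal.Quotient.mkₐ k J).toLinearMap (LinearMap.id : H →ₗ[k] H)
        (comul (R := k) y) = 1 ⊗ₜ[k] y) : ι y ∈ Opp k Z ι := by
  rw [mem_Opp]
  intro q hq
  obtain ⟨σ, hσ⟩ := LinearMap.exists_rightInverse_of_surjective
    (Ideal.Quotient.mkₐ k J).toLinearMap
    (LinearMap.range_eq_top.2 (Ideal.Quotient.mkₐ_surjective k J))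
  have hσ' : ∀ a : H, adlQ k Z ι (σ (Ideal.Quotient.mkₐ k J a)) q = adlQ k Z ι a q := by
    intro a
    have h1 : Ideal.Quotient.mkₐ k J (σ (Ideal.Quotient.mkₐ k J a)) = Ideal.Quotient.mkₐ k J a :=
      LinearMap.congr_fun hσ (Ideal.Quotient.mkₐ k J a)
    have h2 : σ (Ideal.Quotient.mkₐ k J a) - a ∈ J := by
      rw [← Ideal.Quotient.eq_zero_iff_mem, map_sub, sub_eq_zero]
      exact h1
    have h3 := hJ _ h2 q hq
    rw [map_sub, LinearMap.sub_apply, sub_eq_zero] at h3
    exact h3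
  obtain ⟨n, a, b, e⟩ := exists_fin (comul (R := k) y)
  obtain ⟨h1, -⟩ := hADB k H Z Q ι y n a b e q
  -- the bilinear map on `H / J ⊗ H`
  set g : (H ⧸ J) →ₗ[k] Q :=
    { toFun := fun c => adlQ k Z ι (σ c) q
      map_add' := fun c d => by rw [map_add, map_add, LinearMap.add_apply]
      map_smul' := fun r c => by rw [map_smul, map_smul, LinearMap.smul_apply]; rfl } with hg
  have h2 := congrArg (fun t => LinearMap.mul' k Q (TensorProduct.map g ι.toLinearMap t)) hy
  rw [e, map_sum, map_sum, map_sum] at h2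
  simp only [TensorProduct.map_tmul, LinearMap.mul'_apply, LinearMap.id_apply,
    AlgHom.toLinearMap_apply] at h2
  have h3 : ∀ i, g (Ideal.Quotient.mkₐ k J (a i)) = adlQ k Z ι (a i) q := fun i => hσ' (a i)
  have h4 : g 1 = q := by
    have h5 := hσ' 1
    rw [map_one, adlQ_one] at h5
    exact h5
  simp only [h3, h4] at h2
  rw [h1]
  exact h2.symm

lemma sl_hat (J : Ideal H) [J.IsTwoSided] {y : H}
    (hy : TensorProduct.map (Ideal.Quotient.mkₐ k J).toLinearMap (LinearMap.id : H →ₗ[k] H)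
        (comul (R := k) y) = 1 ⊗ₜ[k] y) (φ : H →ₗ[k] k) :
    TensorProduct.map (Ideal.Quotient.mkₐ k J).toLinearMap (LinearMap.id : H →ₗ[k] H)
        (comul (R := k) (NSTM.sl φ (comul (R := k) y))) =
      1 ⊗ₜ[k] (NSTM.sl φ (comul (R := k) y)) := by
  rw [NSTM.comul_sl]
  have h1 : ∀ t : H ⊗[k] H,
      TensorProduct.map (Ideal.Quotient.mkₐ k J).toLinearMap (LinearMap.id : H →ₗ[k] H)
        (LinearMap.lTensor H (NSTM.sl φ ∘ₗ comul (R := k) (A := H)) t) =
      LinearMap.lTensor (H ⧸ J) (NSTM.sl φ ∘ₗ comul (R := k) (A := H))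
        (TensorProduct.map (Ideal.Quotient.mkₐ k J).toLinearMap (LinearMap.id : H →ₗ[k] H) t) := by
    intro t
    induction t with
    | zero => simp
    | tmul a b => simp
    | add s t hs ht => simp only [map_add, hs, ht]
  rw [h1, hy, LinearMap.lTensor_tmul, LinearMap.comp_apply]

lemma memNN (hADB : SpecADB.{u, v}) (J : Ideal H) [J.IsTwoSided]
    (hJ : ∀ h ∈ J, ∀ q ∈ Ol k Z ι, adlQ k Z ι h q = 0) {y : H}
    (hy : TensorProduct.map (Ideal.Quotient.mkₐ k J).toLinearMap (LinearMap.id : H →ₗ[k] H)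
        (comul (R := k) y) = 1 ⊗ₜ[k] y) : y ∈ NN k Z ι := by
  classical
  rw [mem_NN]
  intro x hx
  set B := Module.Basis.ofVectorSpace k H
  have h1 : (TensorProduct.equivFinsuppOfBasisRight B).symm
      (TensorProduct.equivFinsuppOfBasisRight B (comul (R := k) y)) = comul (R := k) y :=
    LinearEquiv.symm_apply_apply _ _
  rw [TensorProduct.equivFinsuppOfBasisRight_symm_apply] at h1
  rw [dl_eq, ← h1, Finsupp.sum, map_sum, Finset.mul_sum, Finset.sum_mul]
  refine Finset.sum_congr rfl fun i _ => ?_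
  rw [TensorProduct.equivFinsuppOfBasisRight_apply, TensorProduct.map_tmul,
    Algebra.TensorProduct.tmul_mul_tmul, Algebra.TensorProduct.tmul_mul_tmul, one_mul, mul_one]
  have h2 := mem_Opp.1 (memOpp hADB J hJ (sl_hat J hy (B.coord i))) x hx
  change (x * ι (NSTM.sl (B.coord i) (comul (R := k) y))) ⊗ₜ[k] _ =
    (ι (NSTM.sl (B.coord i) (comul (R := k) y)) * x) ⊗ₜ[k] _
  rw [h2]

end NHNM

open NHNM in
/-- **NHN**. -/
theorem specNHN (hADB : SpecADB.{u, v}) (hKTK : SpecKTK.{u, v}) : SpecNHN.{u, v} := by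
  intro k H Z Q _ _ _ _ _ _ _ _ _ ι hQ hS J _ _ hfin hJ
  refine ⟨fun y hy => memNN hADB J hJ hy, ?_⟩
  obtain ⟨n, g, hg⟩ := hKTK k H J hS hfin
  refine ⟨n, g, fun a => ?_⟩
  obtain ⟨c, hc, e⟩ := hg a
  exact ⟨c, fun i => memNN hADB J hJ (hc i), e⟩

end Pool.Agent.Lib.MP_c37a72_al.EG
end

section
/-!
# MP_c37a72_al, block EG, module REY: a Reynolds element
-/
set_option autoImplicit false

open scoped TensorProduct
open Coalgebra HopfAlgebra

namespace Pool.Agent.Lib.MP_c37a72_al.EG

universe u v w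

namespace REYM

section

variable {k : Type u} {Z : Type v} {H Q : Type v} [Field k] [Ring H] [HopfAlgebra k H]
  [Field Z] [Algebra k Z] [DivisionRing Q] [Algebra k Q] [Algebra Z Q] [IsScalarTower k Z Q]
  {ι : H →ₐ[k] Q} {AA : Type w} {P : Type v} [Ring AA] [Algebra k AA] [Field P] [Algebra k P]
  [Algebra Z P] [IsScalarTower k Z P] {ρ : H →ₗ[k] Module.End k AA}
  {ψ : ↥(Opp k Z ι) →ₐ[k] AA ⊗[k] P} {θ : (P ≃ₐ[Z] P) → (AA ≃ₐ[k] AA)}

theorem nontrivial_AA (hQ : IsCQ k H Z Q ι) (hC : CPkg k Z ι ρ ψ θ) : Nontrivial AA := by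
  have := hQ.fin
  have := hC.finA
  have h1 : Module.Finite Z ↥(Opp k Z ι) :=
    (inferInstance : Module.Finite Z ↥(Subalgebra.toSubmodule (Opp k Z ι)))
  have h2 : 0 < Module.finrank Z ↥(Opp k Z ι) := Module.finrank_pos
  rw [← hC.dim] at h2
  exact Module.nontrivial_of_finrank_pos h2

theorem left_inj (a b : AA) (h : a ⊗ₜ[k] (1 : P) = b ⊗ₜ[k] (1 : P)) : a = b := by
  have : Function.Injective
      (Algebra.TensorProduct.includeLeft : AA →ₐ[k] AA ⊗[k] P) :=
    Algebra.TensorProduct.includeLeft_injective (algebraMap k P).injective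
  exact this h

theorem psi_inj (hQ : IsCQ k H Z Q ι) (hC : CPkg k Z ι ρ ψ θ)
    (hinv : ∀ x ∈ Opp k Z ι, x⁻¹ ∈ Opp k Z ι) : Function.Injective ψ := by
  have := nontrivial_AA hQ hC
  rw [injective_iff_map_eq_zero]
  intro x hx
  by_contra hne
  have hx0 : (x : Q) ≠ 0 := fun h => hne (Subtype.ext h)
  have h1 : x * ⟨(x : Q)⁻¹, hinv _ x.2⟩ = 1 := Subtype.ext (mul_inv_cancel₀ hx0)
  have h2 := congrArg ψ h1
  rw [map_mul, hx, zero_mul, map_one] at h2
  have h3 : (0 : AA) ⊗ₜ[k] (1 : P) = (1 : AA) ⊗ₜ[k] (1 : P) := by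
    rw [TensorProduct.zero_tmul, h2]; rfl
  exact zero_ne_one (left_inj (P := P) _ _ h3)

theorem rho_one (hadr : ∀ h : H, adrQ k Z ι h 1 = algebraMap k Q (counit h))
    (hC : CPkg k Z ι ρ ψ θ) (h : H) : ρ h 1 = counit (R := k) h • (1 : AA) := by
  have h1 := hC.psiH h 1 (algebraMap k _ (counit (R := k) h)) (by
    rw [OneMemClass.coe_one, hadr]; rfl)
  rw [AlgHom.commutes, map_one] at h1
  apply left_inj (k := k) (P := P)
  have h2 : TensorProduct.map (ρ h) (LinearMap.id : P →ₗ[k] P) (1 : AA ⊗[k] P) =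
      ρ h 1 ⊗ₜ[k] (1 : P) := by
    rw [Algebra.TensorProduct.one_def, TensorProduct.map_tmul, LinearMap.id_apply]
  rw [← h2, ← h1, Algebra.algebraMap_eq_smul_one, Algebra.TensorProduct.one_def,
    TensorProduct.smul_tmul']

end

end REYM

theorem specREY (hADA : SpecADA.{u, v}) (hOPP : SpecOPP.{u, v}) (hNFA : SpecNFA.{u, v})
    (hCOO : SpecCOO.{u, v, w}) (hAGK : SpecAGK.{u, v, w}) : SpecREY.{u, v, w} := by
  classical
  intro k H Z Q _ _ _ _ _ _ _ _ _ _ _ ι hQ AA P _ _ _ _ _ _ ρ ψ θ hC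
  obtain ⟨-, -, -, hone⟩ := hADA k H Z Q ι
  obtain ⟨n1, -, -, n4, -, n6, -, n8⟩ := hNFA k H Z Q ι hQ
  obtain ⟨-, hinv, -⟩ := hOPP k H Z Q ι hQ
  obtain ⟨hth, hsum⟩ := hAGK k H Z Q ι hQ AA P ρ ψ θ hC
  have := hC.finP
  have hAA := REYM.nontrivial_AA hQ hC
  have hψ := REYM.psi_inj hQ hC hinv
  have hρ1 := REYM.rho_one (fun h => (hone h).2) hC
  let _ : Fintype (P ≃ₐ[Z] P) := Fintype.ofFinite _
  have hcard : ((Fintype.card (P ≃ₐ[Z] P) : ℕ) : k) ≠ 0 :=
    Nat.cast_ne_zero.2 Fintype.card_ne_zero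
  -- the averaging map
  obtain ⟨φ, hφ⟩ : ∃ φ : AA →ₗ[k] AA, ∀ a, φ a =
      ((Fintype.card (P ≃ₐ[Z] P) : ℕ) : k)⁻¹ • ∑ γ : P ≃ₐ[Z] P, θ γ a :=
    ⟨((Fintype.card (P ≃ₐ[Z] P) : ℕ) : k)⁻¹ • ∑ γ : P ≃ₐ[Z] P, (θ γ).toLinearMap,
      fun a => by simp⟩
  have hφk : ∀ a, ∃ c : k, φ a = c • (1 : AA) := by
    intro a
    obtain ⟨c, hc⟩ := hsum a
    exact ⟨((Fintype.card (P ≃ₐ[Z] P) : ℕ) : k)⁻¹ * c, by
      rw [hφ, hc, Algebra.algebraMap_eq_smul_one, smul_smul]⟩
  have hφθ : ∀ γ a, φ (θ γ a) = φ a := by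
    intro γ a
    rw [hφ, hφ]
    congr 1
    calc ∑ δ, θ δ (θ γ a) = ∑ δ, θ (γ * δ) a := Finset.sum_congr rfl fun δ _ => (hth γ δ a).symm
      _ = ∑ δ, θ δ a := Fintype.sum_equiv (Equiv.mulLeft γ) _ _ fun _ => rfl
  have hθφ : ∀ γ a, θ γ (φ a) = φ a := by
    intro γ a
    obtain ⟨c, hc⟩ := hφk a
    rw [hc, map_smul, map_one]
  obtain ⟨n, h, b, hb⟩ := hCOO k H Z Q ι hQ AA P ρ ψ θ hC φ
  have hb' : ∀ γ a, φ a = ∑ j, ρ (h j) a * θ γ (b j) := by
    intro γ a
    obtain ⟨a', rfl⟩ := (θ γ).surjective a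
    rw [hφθ, ← hθφ γ a', hb a', map_sum]
    refine Finset.sum_congr rfl fun j _ => ?_
    rw [map_mul, hC.thH]
  have hb'' : ∀ a, φ a = ∑ j, ρ (h j) a * φ (b j) := by
    intro a
    have h1 : ∑ γ : P ≃ₐ[Z] P, φ a = ∑ j, ρ (h j) a * ∑ γ : P ≃ₐ[Z] P, θ γ (b j) := by
      rw [Finset.sum_congr rfl fun γ _ => hb' γ a, Finset.sum_comm]
      exact Finset.sum_congr rfl fun j _ => (Finset.mul_sum _ _ _).symm
    rw [Finset.sum_const, Finset.card_univ] at h1
    have h2 : φ a = ((Fintype.card (P ≃ₐ[Z] P) : ℕ) : k)⁻¹ •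
        (Fintype.card (P ≃ₐ[Z] P) • φ a) := by
      rw [← Nat.cast_smul_eq_nsmul k, smul_smul, inv_mul_cancel₀ hcard, one_smul]
    rw [h2, h1, Finset.smul_sum]
    refine Finset.sum_congr rfl fun j _ => ?_
    rw [hφ (b j), mul_smul_comm]
  choose r hr using fun j => hφk (b j)
  obtain ⟨e, he⟩ : ∃ e : H, e = ∑ j, r j • h j := ⟨_, rfl⟩
  have hρe : ρ e = φ := by
    ext a
    rw [hb'' a, he, map_sum, LinearMap.sum_apply]
    refine Finset.sum_congr rfl fun j _ => ?_
    rw [hr j, map_smul, LinearMap.smul_apply, mul_smul_comm, mul_one]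
  refine ⟨e, ?_, ?_⟩
  · -- `ε(e) = 1`
    have h1 : φ 1 = 1 := by
      rw [hφ]
      simp only [map_one, Finset.sum_const, Finset.card_univ]
      rw [← Nat.cast_smul_eq_nsmul k, smul_smul, inv_mul_cancel₀ hcard, one_smul]
    have h2 : counit (R := k) e • (1 : AA) = 1 := by rw [← hρ1, hρe, h1]
    have h3 : counit (R := k) e = 1 := by
      have h4 : algebraMap k AA (counit (R := k) e) = algebraMap k AA 1 := by
        rw [map_one, Algebra.algebraMap_eq_smul_one, h2]
      exact (algebraMap k AA).injective h4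
    apply hQ.inj
    rw [n6, map_one, (hone e).2, h3, map_one]
  · intro m hm
    have hN := n4 e m hm
    refine n8 _ hN fun g => ?_
    have hN2 := n4 g _ hN
    -- lift everything to `O''`
    have e1 := hC.psiH e ⟨ι m, n1 m hm⟩ ⟨ι (adRH k H e m), n1 _ hN⟩ (n6 e m)
    have e2 := hC.psiH g ⟨ι (adRH k H e m), n1 _ hN⟩ ⟨ι (adRH k H g (adRH k H e m)), n1 _ hN2⟩
      (n6 g _)
    have e3 : (⟨ι (adRH k H g (adRH k H e m)), n1 _ hN2⟩ : ↥(Opp k Z ι)) =
        counit (R := k) g • ⟨ι (adRH k H e m), n1 _ hN⟩ := by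
      apply hψ
      rw [e2, map_smul, e1, hρe]
      have e4 : (TensorProduct.map (ρ g) (LinearMap.id : P →ₗ[k] P)) ∘ₗ
          (TensorProduct.map φ (LinearMap.id : P →ₗ[k] P)) =
          counit (R := k) g • TensorProduct.map φ (LinearMap.id : P →ₗ[k] P) := by
        apply TensorProduct.ext'
        intro a p
        obtain ⟨c, hc⟩ := hφk a
        simp only [LinearMap.comp_apply, TensorProduct.map_tmul, LinearMap.id_apply,
          LinearMap.smul_apply, hc, map_smul, hρ1]
        rw [smul_smul, mul_comm, ← smul_smul, TensorProduct.smul_tmul']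
      exact LinearMap.congr_fun e4 _
    apply hQ.inj
    rw [map_smul]
    exact congrArg Subtype.val e3

end Pool.Agent.Lib.MP_c37a72_al.EG
end

section
/-!
# MP_c37a72_al, block EG, module WEX: a finite-dimensional stable space which generates `O_l`
-/
set_option autoImplicit false

open scoped TensorProduct
open Coalgebra HopfAlgebra

namespace Pool.Agent.Lib.MP_c37a72_al.EG

universe u v w

theorem specWEX (hADA : SpecADA.{u, v}) (hOLF : SpecOLF.{u, v}) : SpecWEX.{u, v} := by
  intro k H Z Q _ _ _ _ _ _ _ _ _ ι hQ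
  obtain ⟨⟨hone, -⟩, hmul, -, -⟩ := hADA k H Z Q ι
  obtain ⟨hlf, -, -, -, hst, -⟩ := hOLF k H Z Q ι hQ
  have := hQ.fin
  have : Module.Finite Z ↥(Subalgebra.toSubmodule (Ol k Z ι)) := inferInstance
  obtain ⟨s, b, hb⟩ := (Submodule.fg_iff_exists_fin_generating_family).1
    ((Submodule.fg_iff_finiteDimensional _).2 ‹_› : (Subalgebra.toSubmodule (Ol k Z ι)).FG)
  have hbO : ∀ l, b l ∈ Ol k Z ι := fun l => by
    have : b l ∈ Subalgebra.toSubmodule (Ol k Z ι) := hb ▸ Submodule.subset_span ⟨l, rfl⟩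
    exact this
  -- the space `W₀`
  obtain ⟨W₀, hW₀⟩ : ∃ W₀ : Submodule k Q,
      W₀ = ⨆ l, Submodule.span k (Set.range fun h : H => adlQ k Z ι h (b l)) := ⟨_, rfl⟩
  have hfin : Module.Finite k W₀ := by
    rw [hW₀]
    have : ∀ l, Module.Finite k
        (Submodule.span k (Set.range fun h : H => adlQ k Z ι h (b l))) :=
      fun l => (hlf (b l)).1 (hbO l)
    exact Submodule.finiteDimensional_iSup _
  have hbW : ∀ l, b l ∈ W₀ := fun l => by
    rw [hW₀]
    refine Submodule.mem_iSup_of_mem l (Submodule.subset_span ⟨1, ?_⟩)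
    simp [hone]
  have hWO : ∀ q ∈ W₀, q ∈ Ol k Z ι := by
    intro q hq
    have hle : W₀ ≤ (Subalgebra.toSubmodule (Ol k Z ι)).restrictScalars k := by
      rw [hW₀]
      refine iSup_le fun l => Submodule.span_le.2 ?_
      rintro _ ⟨h, rfl⟩
      exact hst h _ (hbO l)
    exact hle hq
  have hWs : ∀ (g : H), ∀ q ∈ W₀, adlQ k Z ι g q ∈ W₀ := by
    intro g q hq
    have hle : W₀ ≤ W₀.comap ((adlQ k Z ι g).restrictScalars k) := by
      conv_lhs => rw [hW₀]
      refine iSup_le fun l => Submodule.span_le.2 ?_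
      rintro _ ⟨h, rfl⟩
      change adlQ k Z ι g (adlQ k Z ι h (b l)) ∈ W₀
      have : adlQ k Z ι g (adlQ k Z ι h (b l)) = adlQ k Z ι (g * h) (b l) := by
        rw [(hmul g h).1]; rfl
      rw [this, hW₀]
      exact Submodule.mem_iSup_of_mem l (Submodule.subset_span ⟨g * h, rfl⟩)
    exact hle hq
  -- a basis
  let B := Module.finBasis k W₀
  let ev : Q → (H →ₗ[k] Q) := fun q =>
    { toFun := fun h => adlQ k Z ι h q
      map_add' := fun x y => by simp
      map_smul' := fun c x => by simp }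
  let f : Fin (Module.finrank k W₀) → Fin (Module.finrank k W₀) → Module.Dual k H := fun i j =>
    (B.coord i) ∘ₗ (LinearMap.codRestrict W₀ (ev (B j : Q)) fun h => hWs h _ (B j).2)
  refine ⟨Module.finrank k W₀, fun j => (B j : Q), f, ?_, fun j => hWO _ (B j).2, ?_, ?_⟩
  · exact B.linearIndependent.map' W₀.subtype (Submodule.ker_subtype _)
  · intro h j
    have h1 := B.sum_repr ⟨adlQ k Z ι h (B j : Q), hWs h _ (B j).2⟩
    have h2 := congrArg (Subtype.val) h1
    simp only [AddSubmonoidClass.coe_finsetSum, SetLike.val_smul] at h2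
    exact h2.symm
  · intro q hq
    have hq' : q ∈ Submodule.span Z (Set.range b) := by rw [hb]; exact hq
    refine (Submodule.span_le.2 ?_ : Submodule.span Z (Set.range b) ≤ _) hq'
    rintro _ ⟨l, rfl⟩
    have h1 := B.sum_repr ⟨b l, hbW l⟩
    have h2 := congrArg (Subtype.val) h1
    simp only [AddSubmonoidClass.coe_finsetSum, SetLike.val_smul] at h2
    change b l ∈ Submodule.span Z _
    rw [← h2]
    refine Submodule.sum_mem _ fun i _ => ?_
    rw [← algebraMap_smul Z]
    exact Submodule.smul_mem _ _ (Submodule.subset_span ⟨i, rfl⟩)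

end Pool.Agent.Lib.MP_c37a72_al.EG
end

section
/-!
# MP_c37a72_al, block H, modules KTK and NUM

KTK: a Hopf algebra with bijective antipode is finitely generated over the coinvariants of a
finite-dimensional Hopf quotient (Kreimer-Takeuchi).
-/
set_option autoImplicit false

open scoped TensorProduct
open Coalgebra HopfAlgebra

namespace Pool.Agent.Lib.MP_c37a72_al

universe u v w

namespace KTKM

open QFDM EG.RETM

variable {k : Type u} {H : Type v} [Field k] [Ring H] [HopfAlgebra k H]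
  (hS : Function.Bijective (antipode k (A := H)))

/-- `x ⊗ y ↦ S⁻¹(y) F(x₁ p) x₂ q`, where `w = p ⊗ q` -/
noncomputable def Ph (F : H →ₗ[k] k) (w : H ⊗[k] H) : H ⊗[k] H →ₗ[k] H :=
  LinearMap.mul' k H ∘ₗ (TensorProduct.map (Sinv hS)
    (fl F ∘ₗ LinearMap.mulRight k w ∘ₗ (comul (R := k) (A := H)))) ∘ₗ
    (TensorProduct.comm k H H).toLinearMap

lemma Ph_tmul (F : H →ₗ[k] k) (w : H ⊗[k] H) (x y : H) :
    Ph hS F w (x ⊗ₜ[k] y) = Sinv hS y * fl F (comul (R := k) x * w) := by
  simp [Ph]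

/-- `x' ⊗ (x'' ⊗ y) ↦ F(x' p) S⁻¹(y) x'' q` -/
noncomputable def Ps (F : H →ₗ[k] k) (p q : H) : H ⊗[k] (H ⊗[k] H) →ₗ[k] H :=
  (TensorProduct.lid k H).toLinearMap ∘ₗ TensorProduct.map (F ∘ₗ LinearMap.mulRight k p)
    (LinearMap.mulRight k q ∘ₗ MS hS)

lemma Ps_tmul (F : H →ₗ[k] k) (p q x : H) (v : H ⊗[k] H) :
    Ps hS F p q (x ⊗ₜ[k] v) = F (x * p) • (MS hS v * q) := by
  simp [Ps]

lemma Ps_assoc (F : H →ₗ[k] k) (p q y : H) (v : H ⊗[k] H) :
    Ps hS F p q (TensorProduct.assoc k H H H (v ⊗ₜ[k] y)) =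
      Sinv hS y * fl F (v * (p ⊗ₜ[k] q)) := by
  induction v using TensorProduct.induction_on with
  | zero => simp
  | tmul a b =>
    rw [TensorProduct.assoc_tmul, Ps_tmul, MS_tmul, Algebra.TensorProduct.tmul_mul_tmul, fl_tmul,
      mul_smul_comm, mul_assoc]
  | add x x' h h' =>
    rw [TensorProduct.add_tmul, map_add, map_add, h, h', add_mul, map_add, mul_add]

lemma Ph_Ps (F : H →ₗ[k] k) (p q : H) (t : H ⊗[k] H) :
    Ph hS F (p ⊗ₜ[k] q) t =
      Ps hS F p q (TensorProduct.assoc k H H H ((comul (R := k) (A := H)).rTensor H t)) := by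
  induction t using TensorProduct.induction_on with
  | zero => simp
  | tmul a b => rw [Ph_tmul, LinearMap.rTensor_tmul, Ps_assoc]
  | add x x' h h' => rw [map_add, map_add, map_add, map_add, h, h']

lemma Ps_counit (F : H →ₗ[k] k) (p q : H) (t : H ⊗[k] H) :
    Ps hS F p q ((comul (R := k) (A := H)).lTensor H t) =
      F (TensorProduct.rid k H ((counit (R := k) (A := H)).lTensor H t) * p) • q := by
  induction t using TensorProduct.induction_on with
  | zero => simp
  | tmul a b =>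
    rw [LinearMap.lTensor_tmul, Ps_tmul, MS_comul, LinearMap.lTensor_tmul, TensorProduct.rid_tmul,
      smul_mul_assoc, smul_mul_assoc, one_mul, map_smul, smul_smul, smul_eq_mul, mul_comm]
  | add x x' h h' =>
    rw [map_add, map_add, map_add, map_add, h, h', add_mul, map_add, add_smul]

lemma Ph_comul (F : H →ₗ[k] k) (l : H) (w : H ⊗[k] H) :
    Ph hS F w (comul (R := k) l) = fl (F ∘ₗ LinearMap.mulLeft k l) w := by
  induction w using TensorProduct.induction_on with
  | zero =>
    have h : Ph hS F 0 = 0 := by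
      apply TensorProduct.ext'
      intro a b
      rw [Ph_tmul]
      simp
    rw [h]
    simp
  | tmul p q =>
    rw [Ph_Ps, coassoc_apply, Ps_counit, lTensor_counit_comul, TensorProduct.rid_tmul, one_smul,
      fl_tmul]
    rfl
  | add x x' h h' =>
    have e : Ph hS F (x + x') = Ph hS F x + Ph hS F x' := by
      apply TensorProduct.ext'
      intro a b
      rw [LinearMap.add_apply, Ph_tmul, Ph_tmul, Ph_tmul, mul_add, map_add, mul_add]
    rw [e, LinearMap.add_apply, h, h', map_add]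

lemma key (F : H →ₗ[k] k) (l a : H) {m : ℕ} (x y : Fin m → H)
    (e : comul (R := k) l = ∑ j, x j ⊗ₜ[k] y j) :
    ∑ j, Sinv hS (y j) * T F (x j * a) = fl (F ∘ₗ LinearMap.mulLeft k l) (comul (R := k) a) := by
  rw [← Ph_comul hS F l (comul (R := k) a), e, map_sum]
  refine Finset.sum_congr rfl fun j _ => ?_
  rw [Ph_tmul, T_apply, Bialgebra.comul_mul]

end KTKM

open KTKM QFDM EG.RETM in
theorem specKTK : SpecKTK.{u, v} := by
  intro k H _ _ _ I _ _ hS hI
  obtain ⟨n, t, Λ, ht, hΛ⟩ := specINT specHAN k (H ⧸ I)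
  choose l hl using fun i => Ideal.Quotient.mk_surjective (Λ i)
  choose m x y hxy using fun i => EG.OLFM.exists_fin (comul (R := k) (l i))
  set F : Fin n → (H →ₗ[k] k) := fun i => t i ∘ₗ (Ideal.Quotient.mkₐ k I).toLinearMap with hF
  let e : (Σ i : Fin n, Fin (m i)) ≃ Fin (∑ i, m i) := finSigmaFinEquiv
  refine ⟨∑ i, m i, fun s => Sinv hS (y (e.symm s).1 (e.symm s).2), fun a => ?_⟩
  refine ⟨fun s => T (F (e.symm s).1) (x (e.symm s).1 (e.symm s).2 * a), fun s => ?_, ?_⟩
  · exact T_hat I (t _) (ht _) _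
  · have h1 : ∑ s, Sinv hS (y (e.symm s).1 (e.symm s).2) *
        T (F (e.symm s).1) (x (e.symm s).1 (e.symm s).2 * a) =
        ∑ p : (Σ i : Fin n, Fin (m i)), Sinv hS (y p.1 p.2) * T (F p.1) (x p.1 p.2 * a) :=
      Equiv.sum_comp e.symm (fun p : (Σ i : Fin n, Fin (m i)) =>
        Sinv hS (y p.1 p.2) * T (F p.1) (x p.1 p.2 * a))
    rw [h1, Fintype.sum_sigma]
    have h2 : ∀ i, ∑ j, Sinv hS (y i j) * T (F i) (x i j * a) =
        fl (F i ∘ₗ LinearMap.mulLeft k (l i)) (comul (R := k) a) :=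
      fun i => key hS (F i) (l i) a (x i) (y i) (hxy i)
    rw [Finset.sum_congr rfl fun i _ => h2 i]
    have h3 : ∀ w : H ⊗[k] H, ∑ i, fl (F i ∘ₗ LinearMap.mulLeft k (l i)) w =
        fl (counit (R := k) (A := H)) w := by
      intro w
      induction w using TensorProduct.induction_on with
      | zero => simp
      | tmul p q =>
        simp only [fl_tmul]
        rw [← Finset.sum_smul]
        congr 1
        have h4 := hΛ (Ideal.Quotient.mk I p)
        have h5 : ∀ i, (F i ∘ₗ LinearMap.mulLeft k (l i)) p =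
            t i (Λ i * Ideal.Quotient.mk I p) := by
          intro i
          rw [← hl i, ← map_mul]
          rfl
        rw [Finset.sum_congr rfl fun i _ => h5 i, h4]
        rfl
      | add a b ha hb => simp only [map_add, Finset.sum_add_distrib, ha, hb]
    rw [h3, fl_counit]

/-- NUM, with `Z`, `Q` in the universe of `H`. -/
theorem specNUM : SpecNUM.{u, v, v} := by
  intro k H Z Q _ _ _ _ _ _ _ _ _ _ _ ι hι hB
  exact EG.specNUA k H Z Q ι hι (N1 k H) (fun a ha => (specNST k H a ha).1) hB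

end Pool.Agent.Lib.MP_c37a72_al
end
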