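import Pool.Agent.Lib.MP_c37a72_al.PlG

section
/-!
# MP_c37a72_al: central localisations

* `IsCL ι jF j`: `ι : C → A` (central), `jF : C → F` (field of fractions), `j : A → R`: the ring `R`
  is the localisation of `A` at `C ∖ 0`, an `F`-algebra.
* `IsCL.exists_lift`: universal property; `exists_CL`: existence for torsion free `A`.
* `iZ : Z ⊗ L → Q ⊗ Q'`, `coordE`: coordinates of `Q ⊗ Q'` over `Z ⊗ L`.
-/
set_option autoImplicit false
set_option linter.unusedSectionVars false

namespace Pool.Agent.Lib.MP_c37a72_al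

open Finset TensorProduct

universe u v w

/-- `j : A → R` presents the `F`-algebra `R` as the localisation of `A` at the nonzero elements of
the central subring `ι : C → A`, `jF : C → F` a field of fractions -/
structure IsCL {k C A F R : Type*} [Field k] [CommRing C] [Algebra k C] [Ring A] [Algebra k A]
    [Field F] [Algebra k F] [Ring R] [Algebra k R] [Algebra F R]
    (ι : C →ₐ[k] A) (jF : C →ₐ[k] F) (j : A →ₐ[k] R) : Prop where
  inj : Function.Injective j
  comp : ∀ c, j (ι c) = algebraMap F R (jF c)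
  surj : ∀ r : R, ∃ (a : A) (c : C), c ≠ 0 ∧ algebraMap F R (jF c) * r = j a

section basic

variable {k C A F R : Type*} [Field k] [CommRing C] [Algebra k C] [Ring A] [Algebra k A]
  [Field F] [Algebra k F] [Ring R] [Algebra k R] [Algebra F R]
  {ι : C →ₐ[k] A} {jF : C →ₐ[k] F} {j : A →ₐ[k] R}

theorem IsFrc.ne' {j : C →ₐ[k] F} (h : IsFrc j) {c : C} (hc : c ≠ 0) : j c ≠ 0 := fun h0 =>
  hc (h.inj (by rw [h0, map_zero]))

theorem IsFrc.mul_ne {j : C →ₐ[k] F} (h : IsFrc j) {c d : C} (hc : c ≠ 0) (hd : d ≠ 0) :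
    c * d ≠ 0 := fun h0 => by
  have := congrArg j h0
  rw [map_mul, map_zero] at this
  rcases mul_eq_zero.1 this with h1 | h1
  · exact h.ne' hc h1
  · exact h.ne' hd h1

theorem IsFrc.one_ne {j : C →ₐ[k] F} (_h : IsFrc j) : (1 : C) ≠ 0 := fun h0 => by
  have := congrArg j h0
  rw [map_one, map_zero] at this
  exact one_ne_zero this

/-- homomorphisms from a field of fractions -/
theorem IsFrc.exists_lift (hF : IsFrc jF) {K : Type*} [Field K] [Algebra k K] (f : C →ₐ[k] K)
    (hf : Function.Injective f) : ∃ g : F →ₐ[k] K, ∀ c, g (jF c) = f c := by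
  classical
  choose a c hc hac using hF.surj
  have key : ∀ r b d, d ≠ 0 → r * jF d = jF b → f (a r) / f (c r) * f d = f b := by
    intro r b d hd h
    have h1 : a r * d = c r * b := hF.inj (by rw [map_mul, map_mul, ← hac, ← h]; ring)
    have h2 := congrArg f h1
    rw [map_mul, map_mul] at h2
    have h3 : f (c r) ≠ 0 := fun h => hc r (hf (by rw [h, map_zero]))
    field_simp
    exact h2
  have hne : ∀ {d : C}, d ≠ 0 → f d ≠ 0 := fun hd h => hd (hf (by rw [h, map_zero]))
  refine ⟨{ toFun := fun r => f (a r) / f (c r), map_one' := ?_, map_mul' := ?_, map_zero' := ?_,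
            map_add' := ?_, commutes' := ?_ }, ?_⟩
  · have := key 1 1 1 hF.one_ne (by rw [map_one, mul_one])
    rwa [map_one, mul_one] at this
  · intro r s
    have h1 := key (r * s) (a r * a s) (c r * c s) (hF.mul_ne (hc r) (hc s)) (by
      rw [map_mul, map_mul, ← hac r, ← hac s]; ring)
    apply mul_right_cancel₀ (hne (hF.mul_ne (hc r) (hc s)))
    rw [h1, map_mul, map_mul, div_mul_div_comm, div_mul_cancel₀]
    exact mul_ne_zero (hne (hc r)) (hne (hc s))
  · have := key 0 0 1 hF.one_ne (by rw [map_one, map_zero, mul_one])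
    rwa [map_one, mul_one, map_zero] at this
  · intro r s
    have h1 := key (r + s) (a r * c s + a s * c r) (c r * c s) (hF.mul_ne (hc r) (hc s)) (by
      rw [map_mul, map_add, map_mul, map_mul, ← hac r, ← hac s]; ring)
    apply mul_right_cancel₀ (hne (hF.mul_ne (hc r) (hc s)))
    rw [h1, map_add, map_mul, map_mul, map_mul]
    have h3 := hne (hc r)
    have h4 := hne (hc s)
    field_simp
  · intro x
    have := key (algebraMap k F x) (algebraMap k C x) 1 hF.one_ne (by
      rw [map_one, mul_one, AlgHom.commutes])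
    rwa [map_one, mul_one, AlgHom.commutes] at this
  · intro x
    have := key (jF x) x 1 hF.one_ne (by rw [map_one, mul_one])
    rwa [map_one, mul_one] at this

theorem IsFrc.hom_ext (hF : IsFrc jF) {K : Type*} [Ring K] [Algebra k K] {g g' : F →ₐ[k] K}
    (h : ∀ c, g (jF c) = g' (jF c)) : g = g' := by
  ext r
  obtain ⟨a, c, hc, hac⟩ := hF.surj r
  have hu : g (jF c) * g (jF c)⁻¹ = 1 := by rw [← map_mul, mul_inv_cancel₀ (hF.ne' hc), map_one]
  have h1 : g r * g (jF c) = g' r * g (jF c) := by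
    rw [← map_mul, hac, h, h c, ← map_mul, hac]
  calc g r = g r * g (jF c) * g (jF c)⁻¹ := by rw [mul_assoc, hu, mul_one]
    _ = g' r := by rw [h1, mul_assoc, hu, mul_one]

namespace IsCL

theorem inv_mul (r : R) {x : F} (hx : x ≠ 0) :
    algebraMap F R x⁻¹ * (algebraMap F R x * r) = r := by
  rw [← mul_assoc, ← map_mul, inv_mul_cancel₀ hx, map_one, one_mul]

theorem mul_cancel {r s : R} {x : F} (hx : x ≠ 0) (h : algebraMap F R x * r = algebraMap F R x * s) :
    r = s := by
  rw [← inv_mul r hx, h, inv_mul s hx]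

theorem cent (h : IsCL ι jF j) (c : C) (a : A) : ι c * a = a * ι c := by
  apply h.inj
  rw [map_mul, map_mul, h.comp, Algebra.commutes]

/-- common denominators -/
theorem common (h : IsCL ι jF j) (hF : IsFrc jF) {I : Type*} (s : Finset I) (r : I → R) :
    ∃ (c : C) (a : I → A), c ≠ 0 ∧ ∀ i ∈ s, algebraMap F R (jF c) * r i = j (a i) := by
  classical
  induction s using Finset.induction_on with
  | empty => exact ⟨1, fun _ => 0, hF.one_ne, fun i hi => by simp at hi⟩
  | insert m s hm ih =>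
    obtain ⟨c, a, hc, ha⟩ := ih
    obtain ⟨b, d, hd, hb⟩ := h.surj (r m)
    refine ⟨c * d, fun i => if i = m then ι c * b else ι d * a i, hF.mul_ne hc hd, ?_⟩
    intro i hi
    by_cases him : i = m
    · subst him
      simp only [if_true]
      rw [map_mul, map_mul, mul_assoc, hb, map_mul, h.comp]
    · simp only [him, if_false]
      rw [mul_comm c d, map_mul, map_mul, mul_assoc,
        ha i ((Finset.mem_insert.1 hi).resolve_left him), map_mul, h.comp]

/-- the universal property -/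
theorem exists_lift (h : IsCL ι jF j) (hF : IsFrc jF) {R' : Type*} [Ring R'] [Algebra k R']
    (f : A →ₐ[k] R') (hf : ∀ c, c ≠ 0 → IsUnit (f (ι c))) : ∃ g : R →ₐ[k] R', ∀ a, g (j a) = f a := by
  classical
  choose a c hc hac using h.surj
  let u : R → R'ˣ := fun r => (hf (c r) (hc r)).unit
  have hu : ∀ r, (u r : R') = f (ι (c r)) := fun r => (hf (c r) (hc r)).unit_spec
  have hcomm : ∀ c a, Commute (f (ι c)) (f a) := fun c a => by
    show f (ι c) * f a = f a * f (ι c)
    rw [← map_mul, h.cent, map_mul]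
  have hcommu : ∀ c r, Commute (f (ι c)) ((u r)⁻¹ : R'ˣ) := fun c r =>
    Commute.units_inv_right (by rw [hu]; exact hcomm _ _)
  let g0 : R → R' := fun r => ((u r)⁻¹ : R'ˣ) * f (a r)
  have hcommg : ∀ c r, Commute (f (ι c)) (g0 r) := fun c r => (hcommu c r).mul_right (hcomm c _)
  have hX : ∀ (c d : C) (r : R), algebraMap F R (jF (c * d)) * r
      = algebraMap F R (jF c) * (algebraMap F R (jF d) * r) := fun c d r => by
    rw [map_mul, map_mul, mul_assoc]
  have hX' : ∀ (c d : C) (r : R), algebraMap F R (jF (c * d)) * r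
      = algebraMap F R (jF d) * (algebraMap F R (jF c) * r) := fun c d r => by
    rw [mul_comm c d, hX]
  have key : ∀ r b d, d ≠ 0 → algebraMap F R (jF d) * r = j b → f (ι d) * g0 r = f b := by
    intro r b d hd hr
    have h1 : ι (c r) * b = ι d * a r := h.inj (by
      rw [map_mul, map_mul, h.comp, h.comp, ← hr, ← hac r, ← hX, ← hX'])
    have h2 := congrArg f h1
    rw [map_mul, map_mul] at h2
    show f (ι d) * (((u r)⁻¹ : R'ˣ) * f (a r)) = f b
    rw [← mul_assoc, (hcommu d r).eq, mul_assoc, ← h2, ← hu r, Units.inv_mul_cancel_left]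
  have hcan : ∀ {d : C}, d ≠ 0 → ∀ {x y : R'}, f (ι d) * x = f (ι d) * y → x = y :=
    fun hd => (hf _ hd).mul_left_cancel
  refine ⟨{ toFun := g0, map_one' := ?_, map_mul' := ?_, map_zero' := ?_, map_add' := ?_,
            commutes' := ?_ }, ?_⟩
  · have := key 1 1 1 hF.one_ne (by rw [map_one, map_one, map_one, one_mul])
    rwa [map_one, map_one, one_mul] at this
  · intro r s
    have hne := hF.mul_ne (hc r) (hc s)
    have h1 := key (r * s) (a r * a s) (c r * c s) hne (by
      rw [map_mul j, ← hac r, ← hac s, hX, mul_assoc, ← mul_assoc r _ s, ← Algebra.commutes _ r,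
        mul_assoc])
    have h2 := key r (a r) (c r) (hc r) (hac r)
    have h3 := key s (a s) (c s) (hc s) (hac s)
    apply hcan hne
    rw [h1, map_mul f, ← h2, ← h3, map_mul ι, map_mul f]
    calc f (ι (c r)) * g0 r * (f (ι (c s)) * g0 s)
        = f (ι (c r)) * (g0 r * f (ι (c s))) * g0 s := by simp only [mul_assoc]
      _ = f (ι (c r)) * (f (ι (c s)) * g0 r) * g0 s := by rw [(hcommg (c s) r).eq]
      _ = _ := by simp only [mul_assoc]
  · have := key 0 0 1 hF.one_ne (by rw [mul_zero, map_zero])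
    rwa [map_one, map_one, one_mul, map_zero] at this
  · intro r s
    have hne := hF.mul_ne (hc r) (hc s)
    have h1 := key (r + s) (ι (c s) * a r + ι (c r) * a s) (c r * c s) hne (by
      rw [map_add, map_mul j, map_mul j, ← hac r, ← hac s, h.comp, h.comp, mul_add, hX', hX])
    have h2 := key r (a r) (c r) (hc r) (hac r)
    have h3 := key s (a s) (c s) (hc s) (hac s)
    apply hcan hne
    rw [h1, map_add f, map_mul f, map_mul f, ← h2, ← h3, mul_add, map_mul ι, map_mul f]
    congr 1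
    · rw [← mul_assoc, (hcomm (c s) (ι (c r))).eq]
    · rw [← mul_assoc]
  · intro x
    have := key (algebraMap k R x) (algebraMap k A x) 1 hF.one_ne (by
      rw [map_one, map_one, one_mul, AlgHom.commutes])
    rwa [map_one, map_one, one_mul, AlgHom.commutes] at this
  · intro x
    have := key (j x) x 1 hF.one_ne (by rw [map_one, map_one, one_mul])
    rwa [map_one, map_one, one_mul] at this

theorem hom_ext (h : IsCL ι jF j) (hF : IsFrc jF) {R' : Type*} [Ring R'] [Algebra k R']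
    {g g' : R →ₐ[k] R'} (hg : ∀ a, g (j a) = g' (j a)) : g = g' := by
  ext r
  obtain ⟨a, c, hc, hac⟩ := h.surj r
  have hu : g (algebraMap F R (jF c)⁻¹) * g (algebraMap F R (jF c)) = 1 := by
    rw [← map_mul, ← map_mul, inv_mul_cancel₀ (hF.ne' hc), map_one, map_one]
  have h1 : g (algebraMap F R (jF c)) * g r = g (algebraMap F R (jF c)) * g' r := by
    rw [← map_mul, hac, hg, ← h.comp, hg, h.comp, ← map_mul, hac]
  calc g r = g (algebraMap F R (jF c)⁻¹) * (g (algebraMap F R (jF c)) * g r) := by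
        rw [← mul_assoc, hu, one_mul]
    _ = g' r := by rw [h1, ← mul_assoc, hu, one_mul]

end IsCL

/-- existence of the central localisation -/
theorem exists_CL {k : Type*} {C : Type u} {A : Type v} {F : Type w} [Field k] [CommRing C]
    [Algebra k C] [Ring A] [Algebra k A] [Field F] [Algebra k F] (ι : C →ₐ[k] A)
    (hc : ∀ c a, ι c * a = a * ι c) (ht : ∀ c a, c ≠ 0 → ι c * a = 0 → a = 0)
    (jF : C →ₐ[k] F) (hF : IsFrc jF) :
    ∃ (R : Type (max w v)) (_ : Ring R) (_ : Algebra k R) (_ : Algebra F R)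
      (_ : IsScalarTower k F R) (j : A →ₐ[k] R), IsCL ι jF j := by
  classical
  let _ : Algebra C A := ι.toRingHom.toAlgebra' (fun c a => hc c a)
  let _ : Algebra C F := jF.toRingHom.toAlgebra
  have hCA : ∀ c, algebraMap C A c = ι c := fun c => rfl
  have hCF : ∀ c, algebraMap C F c = jF c := fun c => rfl
  have : IsScalarTower k C A := IsScalarTower.of_algebraMap_eq fun x => by
    rw [hCA, AlgHom.commutes]
  have : IsScalarTower k C F := IsScalarTower.of_algebraMap_eq fun x => by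
    rw [hCF, AlgHom.commutes]
  have : IsFractionRing C F := by
    have : FaithfulSMul C F := (faithfulSMul_iff_algebraMap_injective C F).2 hF.inj
    refine IsFractionRing.of_field C F fun z => ?_
    obtain ⟨a, b, hb, h⟩ := hF.surj z
    exact ⟨a, b, (eq_div_iff (show algebraMap C F b ≠ 0 from hF.ne' hb)).2 h⟩
  have : IsDomain C := hF.inj.isDomain jF.toRingHom
  let j : A →ₐ[k] F ⊗[C] A := (Algebra.TensorProduct.includeRight : A →ₐ[C] F ⊗[C] A).restrictScalars k
  have hj : ∀ a, j a = 1 ⊗ₜ a := fun a => rfl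
  have hloc : IsLocalizedModule (nonZeroDivisors C) (TensorProduct.mk C F A 1) :=
    (isLocalizedModule_iff_isBaseChange (nonZeroDivisors C) F _).2
      (TensorProduct.isBaseChange C A F)
  refine ⟨F ⊗[C] A, inferInstance, inferInstance, inferInstance, inferInstance, j, ?_, ?_, ?_⟩
  · intro x y hxy
    have h1 : TensorProduct.mk C F A 1 x = TensorProduct.mk C F A 1 y := hxy
    rw [IsLocalizedModule.eq_iff_exists (nonZeroDivisors C)] at h1
    obtain ⟨c, hc'⟩ := h1
    have h2 : ι c * (x - y) = 0 := by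
      have h3 : (c : C) • x = (c : C) • y := hc'
      rw [Algebra.smul_def, Algebra.smul_def, hCA] at h3
      rw [mul_sub, h3, sub_self]
    exact sub_eq_zero.1 (ht _ _ (nonZeroDivisors.ne_zero c.2) h2)
  · intro c
    rw [hj, ← hCA, Algebra.TensorProduct.algebraMap_apply, Algebra.algebraMap_eq_smul_one,
      tmul_smul, smul_tmul', Algebra.smul_def, mul_one, hCF]
    rfl
  · intro r
    obtain ⟨⟨a, c⟩, hac⟩ := IsLocalizedModule.surj (nonZeroDivisors C) (TensorProduct.mk C F A 1) r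
    refine ⟨a, c, nonZeroDivisors.ne_zero c.2, ?_⟩
    have h1 : (c : C) • r = j a := hac
    rw [← h1, Algebra.TensorProduct.algebraMap_apply, Algebra.smul_def (c : C) r,
      Algebra.TensorProduct.algebraMap_apply, hCF]
    rfl

end basic

section tensor

variable (k Z L Q Q' : Type*) [Field k] [Field Z] [Field L] [Ring Q] [Ring Q'] [Algebra k Z]
  [Algebra k L] [Algebra k Q] [Algebra k Q'] [Algebra Z Q] [Algebra L Q'] [IsScalarTower k Z Q]
  [IsScalarTower k L Q']

/-- `Z ⊗ L → Q ⊗ Q'` -/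
noncomputable def iZ : Z ⊗[k] L →ₐ[k] Q ⊗[k] Q' :=
  Algebra.TensorProduct.map (IsScalarTower.toAlgHom k Z Q) (IsScalarTower.toAlgHom k L Q')

variable {k Z L Q Q'}

@[simp] theorem iZ_tmul (z : Z) (l : L) :
    iZ k Z L Q Q' (z ⊗ₜ l) = algebraMap Z Q z ⊗ₜ algebraMap L Q' l := by
  unfold iZ
  rw [Algebra.TensorProduct.map_tmul]
  rfl

theorem iZ_cent (t : Z ⊗[k] L) (x : Q ⊗[k] Q') : iZ k Z L Q Q' t * x = x * iZ k Z L Q Q' t := by
  induction t using TensorProduct.induction_on with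
  | zero => simp
  | add s t hs ht => rw [map_add, add_mul, mul_add, hs, ht]
  | tmul z l =>
    induction x using TensorProduct.induction_on with
    | zero => simp
    | add x y hx hy => rw [mul_add, add_mul, hx, hy]
    | tmul q q' =>
      rw [iZ_tmul, Algebra.TensorProduct.tmul_mul_tmul, Algebra.TensorProduct.tmul_mul_tmul,
        Algebra.commutes, Algebra.commutes l]

variable {I J : Type*} (e : Module.Basis I Z Q) (e' : Module.Basis J L Q')

/-- coordinates of `Q ⊗ Q'` over `Z ⊗ L` -/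
noncomputable def coordE : Q ⊗[k] Q' ≃ₗ[k] (I × J) →₀ (Z ⊗[k] L) :=
  (TensorProduct.congr (e.repr.restrictScalars k) (e'.repr.restrictScalars k)).trans
    (finsuppTensorFinsupp k k Z L I J)

theorem coordE_tmul (q : Q) (q' : Q') (i : I) (j : J) :
    coordE e e' (q ⊗ₜ q') (i, j) = e.repr q i ⊗ₜ[k] e'.repr q' j := by
  unfold coordE
  rw [LinearEquiv.trans_apply, TensorProduct.congr_tmul, finsuppTensorFinsupp_apply]
  rfl

theorem coordE_mul (t : Z ⊗[k] L) (x : Q ⊗[k] Q') (i : I) (j : J) :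
    coordE e e' (iZ k Z L Q Q' t * x) (i, j) = t * coordE e e' x (i, j) := by
  induction t using TensorProduct.induction_on with
  | zero => simp
  | add s t hs ht => rw [map_add, add_mul, map_add, Finsupp.add_apply, hs, ht, add_mul]
  | tmul z l =>
    induction x using TensorProduct.induction_on with
    | zero => simp
    | add x y hx hy => rw [mul_add, map_add, Finsupp.add_apply, hx, hy, map_add, Finsupp.add_apply,
        mul_add]
    | tmul q q' =>
      rw [iZ_tmul, Algebra.TensorProduct.tmul_mul_tmul, coordE_tmul, coordE_tmul,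
        Algebra.TensorProduct.tmul_mul_tmul, ← Algebra.smul_def, ← Algebra.smul_def, map_smul,
        map_smul]
      rfl

theorem coordE_ext {x y : Q ⊗[k] Q'} (h : ∀ i j, coordE e e' x (i, j) = coordE e e' y (i, j)) :
    x = y := (coordE e e').injective (Finsupp.ext fun p => h p.1 p.2)

/-- `Q ⊗ Q'` is torsion free over `Z ⊗ L` -/
theorem iZ_torsion_free {F : Type*} [Field F] [Algebra k F] {jF : Z ⊗[k] L →ₐ[k] F} (hF : IsFrc jF)
    (t : Z ⊗[k] L) (x : Q ⊗[k] Q') (ht : t ≠ 0) (h : iZ k Z L Q Q' t * x = 0) : x = 0 := by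
  let e := Module.Basis.ofVectorSpace Z Q
  let e' := Module.Basis.ofVectorSpace L Q'
  apply coordE_ext e e'
  intro i j
  have h1 := coordE_mul e e' t x i j
  rw [h, map_zero, Finsupp.zero_apply] at h1
  rw [map_zero, Finsupp.zero_apply]
  by_contra hne
  exact hF.mul_ne ht hne h1.symm

theorem coordE_sum [Fintype I] [Fintype J] (x : Q ⊗[k] Q') :
    x = ∑ p : I × J, iZ k Z L Q Q' (coordE e e' x p) * (e p.1 ⊗ₜ e' p.2) := by
  classical
  apply coordE_ext e e'
  intro i j
  rw [map_sum, Finsupp.coe_finsetSum, Finset.sum_apply]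
  have h1 : ∀ p : I × J, coordE e e' (iZ k Z L Q Q' (coordE e e' x p) * (e p.1 ⊗ₜ e' p.2)) (i, j)
      = if p = (i, j) then coordE e e' x (i, j) else 0 := by
    intro p
    rw [coordE_mul, coordE_tmul, Module.Basis.repr_self, Module.Basis.repr_self]
    by_cases hp : p = (i, j)
    · subst hp
      rw [if_pos rfl, Finsupp.single_eq_same, Finsupp.single_eq_same]
      exact mul_one _
    · rw [if_neg hp]
      by_cases h1 : p.1 = i
      · have h2 : p.2 ≠ j := fun h2 => hp (Prod.ext h1 h2)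
        rw [Finsupp.single_eq_of_ne (a := p.2) (a' := j) (Ne.symm h2), tmul_zero, mul_zero]
      · rw [Finsupp.single_eq_of_ne (a := p.1) (a' := i) (Ne.symm h1), zero_tmul, mul_zero]
  rw [Finset.sum_congr rfl fun p _ => h1 p, Finset.sum_ite_eq' Finset.univ, if_pos (mem_univ _)]

end tensor

end Pool.Agent.Lib.MP_c37a72_al
end

section
/-!
# MP_c37a72_al: associativity of fields of fractions and of central localisations of triple tensor
products

From `Frac (Z ⊗ L)`, `Frac (L ⊗ M)`, `Frac (Z ⊗ Frac (L ⊗ M))` we get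
`Frac (Frac (Z ⊗ L) ⊗ M)`; the same for the central localisations of `Q ⊗ Q' ⊗ Q''`.
-/
set_option autoImplicit false
set_option linter.unusedSectionVars false

namespace Pool.Agent.Lib.MP_c37a72_al

open Finset TensorProduct

universe u v w

section den

variable {k C A F R : Type*} [Field k] [CommRing C] [Algebra k C] [Ring A] [Algebra k A]
  [Field F] [Algebra k F] [Ring R] [Algebra k R] [Algebra F R]
  {ι : C →ₐ[k] A} {jF : C →ₐ[k] F} {j : A →ₐ[k] R}

/-- denominators in `B ⊗ R` -/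
theorem IsCL.den_right (h : IsCL ι jF j) (hF : IsFrc jF) {B : Type*} [Ring B] [Algebra k B]
    (x : B ⊗[k] R) : ∃ (c : C) (y : B ⊗[k] A), c ≠ 0 ∧
      (1 ⊗ₜ algebraMap F R (jF c)) * x = Algebra.TensorProduct.map (AlgHom.id k B) j y := by
  induction x using TensorProduct.induction_on with
  | zero => exact ⟨1, 0, hF.one_ne, by rw [mul_zero, map_zero]⟩
  | tmul b r =>
    obtain ⟨a, c, hc, hac⟩ := h.surj r
    exact ⟨c, b ⊗ₜ a, hc, by
      rw [Algebra.TensorProduct.tmul_mul_tmul, one_mul, hac, Algebra.TensorProduct.map_tmul]; rfl⟩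
  | add x y hx hy =>
    obtain ⟨c, x', hc, hx'⟩ := hx
    obtain ⟨d, y', hd, hy'⟩ := hy
    refine ⟨c * d, (1 ⊗ₜ ι d) * x' + (1 ⊗ₜ ι c) * y', hF.mul_ne hc hd, ?_⟩
    have e1 : (1 : B) ⊗ₜ[k] algebraMap F R (jF (c * d))
        = (1 ⊗ₜ algebraMap F R (jF c)) * (1 ⊗ₜ algebraMap F R (jF d)) := by
      rw [Algebra.TensorProduct.tmul_mul_tmul, one_mul, map_mul, map_mul]
    have e2 : (1 : B) ⊗ₜ[k] algebraMap F R (jF (c * d))
        = (1 ⊗ₜ algebraMap F R (jF d)) * (1 ⊗ₜ algebraMap F R (jF c)) := by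
      rw [Algebra.TensorProduct.tmul_mul_tmul, one_mul, mul_comm c d, map_mul, map_mul]
    calc (1 : B) ⊗ₜ[k] algebraMap F R (jF (c * d)) * (x + y)
        = (1 ⊗ₜ algebraMap F R (jF d)) * ((1 ⊗ₜ algebraMap F R (jF c)) * x)
          + (1 ⊗ₜ algebraMap F R (jF c)) * ((1 ⊗ₜ algebraMap F R (jF d)) * y) := by
          rw [mul_add, ← mul_assoc, ← mul_assoc, ← e1, ← e2]
      _ = _ := by
          rw [hx', hy', map_add, map_mul, map_mul, Algebra.TensorProduct.map_tmul,
            Algebra.TensorProduct.map_tmul, h.comp, h.comp, map_one]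

/-- denominators in `R ⊗ B` -/
theorem IsCL.den_left (h : IsCL ι jF j) (hF : IsFrc jF) {B : Type*} [Ring B] [Algebra k B]
    (x : R ⊗[k] B) : ∃ (c : C) (y : A ⊗[k] B), c ≠ 0 ∧
      (algebraMap F R (jF c) ⊗ₜ 1) * x = Algebra.TensorProduct.map j (AlgHom.id k B) y := by
  induction x using TensorProduct.induction_on with
  | zero => exact ⟨1, 0, hF.one_ne, by rw [mul_zero, map_zero]⟩
  | tmul r b =>
    obtain ⟨a, c, hc, hac⟩ := h.surj r
    exact ⟨c, a ⊗ₜ b, hc, by
      rw [Algebra.TensorProduct.tmul_mul_tmul, one_mul, hac, Algebra.TensorProduct.map_tmul]; rfl⟩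
  | add x y hx hy =>
    obtain ⟨c, x', hc, hx'⟩ := hx
    obtain ⟨d, y', hd, hy'⟩ := hy
    refine ⟨c * d, (ι d ⊗ₜ 1) * x' + (ι c ⊗ₜ 1) * y', hF.mul_ne hc hd, ?_⟩
    have e1 : algebraMap F R (jF (c * d)) ⊗ₜ[k] (1 : B)
        = (algebraMap F R (jF c) ⊗ₜ 1) * (algebraMap F R (jF d) ⊗ₜ 1) := by
      rw [Algebra.TensorProduct.tmul_mul_tmul, one_mul, map_mul, map_mul]
    have e2 : algebraMap F R (jF (c * d)) ⊗ₜ[k] (1 : B)
        = (algebraMap F R (jF d) ⊗ₜ 1) * (algebraMap F R (jF c) ⊗ₜ 1) := by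
      rw [Algebra.TensorProduct.tmul_mul_tmul, one_mul, mul_comm c d, map_mul, map_mul]
    calc algebraMap F R (jF (c * d)) ⊗ₜ[k] (1 : B) * (x + y)
        = (algebraMap F R (jF d) ⊗ₜ 1) * ((algebraMap F R (jF c) ⊗ₜ 1) * x)
          + (algebraMap F R (jF c) ⊗ₜ 1) * ((algebraMap F R (jF d) ⊗ₜ 1) * y) := by
          rw [mul_add, ← mul_assoc, ← mul_assoc, ← e1, ← e2]
      _ = _ := by
          rw [hx', hy', map_add, map_mul, map_mul, Algebra.TensorProduct.map_tmul,
            Algebra.TensorProduct.map_tmul, h.comp, h.comp, map_one]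

/-- a field of fractions is a central localisation -/
theorem IsFrc.isCL (hF : IsFrc jF) : IsCL (AlgHom.id k C) jF jF where
  inj := hF.inj
  comp _ := rfl
  surj r := by
    obtain ⟨a, c, hc, h⟩ := hF.surj r
    exact ⟨a, c, hc, by rw [← h, mul_comm]; rfl⟩

end den

section frc

variable {k Z L M F12 F23 F3 : Type*} [Field k] [Field Z] [Field L] [Field M] [Field F12]
  [Field F23] [Field F3] [Algebra k Z] [Algebra k L] [Algebra k M] [Algebra k F12] [Algebra k F23]
  [Algebra k F3] {j12 : Z ⊗[k] L →ₐ[k] F12} (h12 : IsFrc j12) {j23 : L ⊗[k] M →ₐ[k] F23}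
  (h23 : IsFrc j23) {j : Z ⊗[k] F23 →ₐ[k] F3} (hj : IsFrc j)

theorem map_id_injective {B A A' : Type*} [Ring B] [Ring A] [Ring A'] [Algebra k B] [Algebra k A]
    [Algebra k A'] {f : A →ₐ[k] A'} (hf : Function.Injective f) :
    Function.Injective (Algebra.TensorProduct.map (AlgHom.id k B) f) :=
  Module.Flat.lTensor_preserves_injective_linearMap (M := B) f.toLinearMap hf

theorem map_injective_id {B A A' : Type*} [Ring B] [Ring A] [Ring A'] [Algebra k B] [Algebra k A]
    [Algebra k A'] {f : A →ₐ[k] A'} (hf : Function.Injective f) :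
    Function.Injective (Algebra.TensorProduct.map f (AlgHom.id k B)) :=
  Module.Flat.rTensor_preserves_injective_linearMap (M := B) f.toLinearMap hf

include h12 h23 hj in
/-- **associativity of fields of fractions** -/
theorem exists_assoc : ∃ j' : F12 ⊗[k] M →ₐ[k] F3, IsFrc j' ∧
    ∀ z l m, j' (j12 (z ⊗ₜ l) ⊗ₜ m) = j (z ⊗ₜ j23 (l ⊗ₜ m)) := by
  let a0 : L →ₐ[k] F23 := j23.comp Algebra.TensorProduct.includeLeft
  have ha0 : Function.Injective a0 := a0.toRingHom.injective
  let f12 : Z ⊗[k] L →ₐ[k] F3 := j.comp (Algebra.TensorProduct.map (AlgHom.id k Z) a0)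
  have hf12 : Function.Injective f12 := hj.inj.comp (map_id_injective ha0)
  obtain ⟨φ, hφ⟩ := h12.exists_lift f12 hf12
  let ψ : M →ₐ[k] F3 := (j.comp Algebra.TensorProduct.includeRight).comp
    (j23.comp Algebra.TensorProduct.includeRight)
  let j' : F12 ⊗[k] M →ₐ[k] F3 := Algebra.TensorProduct.lift φ ψ (fun _ _ => Commute.all _ _)
  have hj' : ∀ z l m, j' (j12 (z ⊗ₜ l) ⊗ₜ m) = j (z ⊗ₜ j23 (l ⊗ₜ m)) := by
    intro z l m
    show Algebra.TensorProduct.lift φ ψ _ _ = _
    rw [Algebra.TensorProduct.lift_tmul, hφ]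
    show j (Algebra.TensorProduct.map (AlgHom.id k Z) a0 (z ⊗ₜ l)) * j (1 ⊗ₜ j23 (1 ⊗ₜ m)) = _
    rw [Algebra.TensorProduct.map_tmul, ← map_mul, Algebra.TensorProduct.tmul_mul_tmul]
    show j ((z * 1) ⊗ₜ (j23 (l ⊗ₜ 1) * j23 (1 ⊗ₜ m))) = _
    rw [← map_mul, Algebra.TensorProduct.tmul_mul_tmul, mul_one, mul_one, one_mul]
  let u : (Z ⊗[k] L) ⊗[k] M →ₐ[k] F12 ⊗[k] M := Algebra.TensorProduct.map j12 (AlgHom.id k M)
  let v : (Z ⊗[k] L) ⊗[k] M →ₐ[k] Z ⊗[k] F23 :=
    (Algebra.TensorProduct.map (AlgHom.id k Z) j23).comp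
      (Algebra.TensorProduct.assoc k k k Z L M).toAlgHom
  have huv : ∀ t, j' (u t) = j (v t) := by
    intro t
    induction t using TensorProduct.induction_on with
    | zero => simp only [map_zero]
    | add x y hx hy => simp only [map_add, hx, hy]
    | tmul x m =>
      induction x using TensorProduct.induction_on with
      | zero => simp only [zero_tmul, map_zero]
      | add x y hx hy => simp only [add_tmul, map_add, hx, hy]
      | tmul z l => exact hj' z l m
  have hv : Function.Injective v := (map_id_injective h23.inj).comp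
    (Algebra.TensorProduct.assoc k k k Z L M).injective
  refine ⟨j', ⟨?_, ?_⟩, hj'⟩
  · rw [injective_iff_map_eq_zero]
    intro x hx
    obtain ⟨c, y, hc, hcy⟩ := h12.isCL.den_left h12 x
    have h1 : j' (u y) = 0 := by
      show j' (Algebra.TensorProduct.map j12 (AlgHom.id k M) y) = 0
      rw [← hcy, map_mul, hx, mul_zero]
    rw [huv] at h1
    have h2 : y = 0 := hv (hj.inj (by rw [h1, map_zero, map_zero]))
    rw [h2, map_zero] at hcy
    have h3 : ((j12 c)⁻¹ ⊗ₜ[k] (1 : M)) * ((algebraMap F12 F12 (j12 c) ⊗ₜ 1) * x) = x := by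
      rw [← mul_assoc, Algebra.TensorProduct.tmul_mul_tmul, mul_one]
      show (((j12 c)⁻¹ * j12 c) ⊗ₜ[k] (1 : M)) * x = x
      rw [inv_mul_cancel₀ (h12.ne' hc)]
      exact one_mul x
    rw [← h3, hcy, mul_zero]
  · intro f
    obtain ⟨a, b, hb, hf⟩ := hj.surj f
    obtain ⟨c, ya, hc, hya⟩ := h23.isCL.den_right h23 a
    obtain ⟨d, yb, hd, hyb⟩ := h23.isCL.den_right h23 b
    have hA : Algebra.TensorProduct.map (AlgHom.id k Z) j23 ((1 ⊗ₜ d) * ya)
        = (1 ⊗ₜ j23 d) * ((1 ⊗ₜ j23 c) * a) := by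
      rw [map_mul, ← hya, Algebra.TensorProduct.map_tmul, map_one]; rfl
    have hB : Algebra.TensorProduct.map (AlgHom.id k Z) j23 ((1 ⊗ₜ c) * yb)
        = (1 ⊗ₜ j23 c) * ((1 ⊗ₜ j23 d) * b) := by
      rw [map_mul, ← hyb, Algebra.TensorProduct.map_tmul, map_one]; rfl
    let e := (Algebra.TensorProduct.assoc k k k Z L M).symm
    have hve : ∀ t, v (e t) = Algebra.TensorProduct.map (AlgHom.id k Z) j23 t := by
      intro t
      show Algebra.TensorProduct.map (AlgHom.id k Z) j23
        ((Algebra.TensorProduct.assoc k k k Z L M) (e t)) = _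
      rw [AlgEquiv.apply_symm_apply]
    refine ⟨u (e ((1 ⊗ₜ d) * ya)), u (e ((1 ⊗ₜ c) * yb)), ?_, ?_⟩
    · intro h0
      have h1 := huv (e ((1 ⊗ₜ c) * yb))
      rw [h0, map_zero, hve, hB, map_mul, map_mul] at h1
      have h2 : j (1 ⊗ₜ j23 c) ≠ 0 := by
        intro h
        have h3 : (1 : Z) ⊗ₜ[k] j23 c = 0 := hj.inj (by rw [h, map_zero])
        have h4 : Algebra.TensorProduct.map (AlgHom.id k Z) j23 (1 ⊗ₜ c) = 0 := by
          rw [Algebra.TensorProduct.map_tmul]; exact h3
        have h5 : (1 : Z) ⊗ₜ[k] c = 0 := map_id_injective h23.inj (by rw [h4, map_zero])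
        have h6 := (Module.Flat.rTensor_preserves_injective_linearMap (M := L ⊗[k] M)
          (Algebra.linearMap k Z) (algebraMap k Z).injective)
        have h7 : (1 : k) ⊗ₜ[k] c = 0 := h6 (by
          rw [map_zero, LinearMap.rTensor_tmul, Algebra.linearMap_apply, map_one]; exact h5)
        have h8 := congrArg (TensorProduct.lid k (L ⊗[k] M)) h7
        rw [TensorProduct.lid_tmul, one_smul, map_zero] at h8
        exact hc h8
      have h3 : j (1 ⊗ₜ j23 d) ≠ 0 := by
        intro h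
        have h3 : (1 : Z) ⊗ₜ[k] j23 d = 0 := hj.inj (by rw [h, map_zero])
        have h4 : Algebra.TensorProduct.map (AlgHom.id k Z) j23 (1 ⊗ₜ d) = 0 := by
          rw [Algebra.TensorProduct.map_tmul]; exact h3
        have h5 : (1 : Z) ⊗ₜ[k] d = 0 := map_id_injective h23.inj (by rw [h4, map_zero])
        have h6 := (Module.Flat.rTensor_preserves_injective_linearMap (M := L ⊗[k] M)
          (Algebra.linearMap k Z) (algebraMap k Z).injective)
        have h7 : (1 : k) ⊗ₜ[k] d = 0 := h6 (by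
          rw [map_zero, LinearMap.rTensor_tmul, Algebra.linearMap_apply, map_one]; exact h5)
        have h8 := congrArg (TensorProduct.lid k (L ⊗[k] M)) h7
        rw [TensorProduct.lid_tmul, one_smul, map_zero] at h8
        exact hd h8
      exact mul_ne_zero h2 (mul_ne_zero h3 (hj.ne' hb)) h1.symm
    · rw [huv, huv, hve, hve, hA, hB, map_mul, map_mul, map_mul, map_mul, ← hf]
      ring

end frc

section cl

variable {k Z L M F12 F23 F3 : Type*} [Field k] [Field Z] [Field L] [Field M] [Field F12]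
  [Field F23] [Field F3] [Algebra k Z] [Algebra k L] [Algebra k M] [Algebra k F12] [Algebra k F23]
  [Algebra k F3] {j12 : Z ⊗[k] L →ₐ[k] F12} (h12 : IsFrc j12) {j23 : L ⊗[k] M →ₐ[k] F23}
  (h23 : IsFrc j23) {j : Z ⊗[k] F23 →ₐ[k] F3} (hj : IsFrc j)
  {j' : F12 ⊗[k] M →ₐ[k] F3} (hj' : IsFrc j')
  (hjj : ∀ z l m, j' (j12 (z ⊗ₜ l) ⊗ₜ m) = j (z ⊗ₜ j23 (l ⊗ₜ m)))
  {Q Q' Q'' R12 R23 R3 : Type*} [Ring Q] [Ring Q'] [Ring Q''] [Ring R12] [Ring R23] [Ring R3]
  [Algebra k Q] [Algebra k Q'] [Algebra k Q''] [Algebra k R12] [Algebra k R23] [Algebra k R3]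
  [Algebra Z Q] [Algebra L Q'] [Algebra M Q''] [IsScalarTower k Z Q] [IsScalarTower k L Q']
  [IsScalarTower k M Q''] [Algebra F12 R12] [Algebra F23 R23] [Algebra F3 R3]
  [IsScalarTower k F12 R12] [IsScalarTower k F23 R23] [IsScalarTower k F3 R3]
  {J12 : Q ⊗[k] Q' →ₐ[k] R12} (H12 : IsCL (iZ k Z L Q Q') j12 J12)
  {J23 : Q' ⊗[k] Q'' →ₐ[k] R23} (H23 : IsCL (iZ k L M Q' Q'') j23 J23)
  {J : Q ⊗[k] R23 →ₐ[k] R3} (HJ : IsCL (iZ k Z F23 Q R23) j J)

include h12 h23 hj hj' hjj H12 H23 HJ in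
/-- **associativity of central localisations** -/
theorem exists_assocR : ∃ J' : R12 ⊗[k] Q'' →ₐ[k] R3, IsCL (iZ k F12 M R12 Q'') j' J' ∧
    ∀ q q' q'', J' (J12 (q ⊗ₜ q') ⊗ₜ q'') = J (q ⊗ₜ J23 (q' ⊗ₜ q'')) := by
  let a0 : Q' →ₐ[k] R23 := J23.comp Algebra.TensorProduct.includeLeft
  let f12 : Q ⊗[k] Q' →ₐ[k] R3 := J.comp (Algebra.TensorProduct.map (AlgHom.id k Q) a0)
  have hf12 : ∀ q q', f12 (q ⊗ₜ q') = J (q ⊗ₜ J23 (q' ⊗ₜ 1)) := fun q q' => rfl
  -- `F12 → F3`
  let φ0 : F12 →ₐ[k] F3 := j'.comp Algebra.TensorProduct.includeLeft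
  have hφ0 : ∀ z l, φ0 (j12 (z ⊗ₜ l)) = j (z ⊗ₜ j23 (l ⊗ₜ 1)) := fun z l => hjj z l 1
  have hcent : ∀ t : Z ⊗[k] L, f12 (iZ k Z L Q Q' t) = algebraMap F3 R3 (φ0 (j12 t)) := by
    intro t
    induction t using TensorProduct.induction_on with
    | zero => simp only [map_zero]
    | add x y hx hy => simp only [map_add, hx, hy]
    | tmul z l =>
      rw [hφ0, iZ_tmul, hf12, ← HJ.comp, iZ_tmul, ← H23.comp, iZ_tmul, map_one]
  have hunit : ∀ c : Z ⊗[k] L, c ≠ 0 → IsUnit (f12 (iZ k Z L Q Q' c)) := by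
    intro c hc
    rw [hcent]
    exact (IsUnit.mk0 _ ((map_ne_zero φ0).2 (h12.ne' hc))).map (algebraMap F3 R3)
  obtain ⟨φ, hφ⟩ := H12.exists_lift h12 f12 hunit
  have hφF : ∀ f : F12, φ (algebraMap F12 R12 f) = algebraMap F3 R3 (φ0 f) := by
    have h1 : φ.comp (IsScalarTower.toAlgHom k F12 R12)
        = (IsScalarTower.toAlgHom k F3 R3).comp φ0 := by
      apply h12.hom_ext
      intro c
      show φ (algebraMap F12 R12 (j12 c)) = algebraMap F3 R3 (φ0 (j12 c))
      rw [← H12.comp, hφ, hcent]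
    exact fun f => DFunLike.congr_fun h1 f
  let ψ : Q'' →ₐ[k] R3 := (J.comp Algebra.TensorProduct.includeRight).comp
    (J23.comp Algebra.TensorProduct.includeRight)
  have hψ : ∀ q'', ψ q'' = J (1 ⊗ₜ J23 (1 ⊗ₜ q'')) := fun _ => rfl
  have hcomm0 : ∀ (x : Q ⊗[k] Q') (q'' : Q''), Commute (f12 x) (ψ q'') := by
    intro x q''
    induction x using TensorProduct.induction_on with
    | zero => rw [map_zero]; exact Commute.zero_left _
    | add x y hx hy => rw [map_add]; exact hx.add_left hy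
    | tmul q q' =>
      show f12 (q ⊗ₜ q') * ψ q'' = ψ q'' * f12 (q ⊗ₜ q')
      rw [hf12, hψ, ← map_mul, ← map_mul, Algebra.TensorProduct.tmul_mul_tmul,
        Algebra.TensorProduct.tmul_mul_tmul, ← map_mul, ← map_mul,
        Algebra.TensorProduct.tmul_mul_tmul, Algebra.TensorProduct.tmul_mul_tmul, mul_one, mul_one,
        mul_one, one_mul, one_mul, one_mul]
  have hcomm : ∀ (r : R12) (q'' : Q''), Commute (φ r) (ψ q'') := by
    intro r q''
    obtain ⟨a, c, hc, hac⟩ := H12.surj r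
    have h1 : algebraMap F3 R3 (φ0 (j12 c)) * φ r = f12 a := by
      rw [← hφF, ← map_mul, hac, hφ]
    have h2 : φ r = algebraMap F3 R3 (φ0 (j12 c))⁻¹ * f12 a := by
      rw [← h1, IsCL.inv_mul _ ((map_ne_zero φ0).2 (h12.ne' hc))]
    rw [h2]
    exact Commute.mul_left (Algebra.commute_algebraMap_left _ _) (hcomm0 a q'')
  let J' : R12 ⊗[k] Q'' →ₐ[k] R3 := Algebra.TensorProduct.lift φ ψ hcomm
  have hJ'0 : ∀ r q'', J' (r ⊗ₜ q'') = φ r * ψ q'' := fun r q'' => by
    show Algebra.TensorProduct.lift φ ψ hcomm _ = _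
    rw [Algebra.TensorProduct.lift_tmul]
  have hJ' : ∀ q q' q'', J' (J12 (q ⊗ₜ q') ⊗ₜ q'') = J (q ⊗ₜ J23 (q' ⊗ₜ q'')) := by
    intro q q' q''
    rw [hJ'0, hφ, hf12, hψ, ← map_mul, Algebra.TensorProduct.tmul_mul_tmul, ← map_mul,
      Algebra.TensorProduct.tmul_mul_tmul, mul_one, mul_one, one_mul]
  let u : (Q ⊗[k] Q') ⊗[k] Q'' →ₐ[k] R12 ⊗[k] Q'' :=
    Algebra.TensorProduct.map J12 (AlgHom.id k Q'')
  let v : (Q ⊗[k] Q') ⊗[k] Q'' →ₐ[k] Q ⊗[k] R23 :=
    (Algebra.TensorProduct.map (AlgHom.id k Q) J23).comp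
      (Algebra.TensorProduct.assoc k k k Q Q' Q'').toAlgHom
  have huv : ∀ t, J' (u t) = J (v t) := by
    intro t
    induction t using TensorProduct.induction_on with
    | zero => simp only [map_zero]
    | add x y hx hy => simp only [map_add, hx, hy]
    | tmul x m =>
      induction x using TensorProduct.induction_on with
      | zero => simp only [zero_tmul, map_zero]
      | add x y hx hy => simp only [add_tmul, map_add, hx, hy]
      | tmul z l => exact hJ' z l m
  have hv : Function.Injective v := (map_id_injective H23.inj).comp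
    (Algebra.TensorProduct.assoc k k k Q Q' Q'').injective
  -- commutative version of `u`, `v`
  let u0 : (Z ⊗[k] L) ⊗[k] M →ₐ[k] F12 ⊗[k] M := Algebra.TensorProduct.map j12 (AlgHom.id k M)
  let v0 : (Z ⊗[k] L) ⊗[k] M →ₐ[k] Z ⊗[k] F23 :=
    (Algebra.TensorProduct.map (AlgHom.id k Z) j23).comp
      (Algebra.TensorProduct.assoc k k k Z L M).toAlgHom
  have huv0 : ∀ t, j' (u0 t) = j (v0 t) := by
    intro t
    induction t using TensorProduct.induction_on with
    | zero => simp only [map_zero]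
    | add x y hx hy => simp only [map_add, hx, hy]
    | tmul x m =>
      induction x using TensorProduct.induction_on with
      | zero => simp only [zero_tmul, map_zero]
      | add x y hx hy => simp only [add_tmul, map_add, hx, hy]
      | tmul z l => exact hjj z l m
  refine ⟨J', ⟨?_, ?_, ?_⟩, hJ'⟩
  · rw [injective_iff_map_eq_zero]
    intro x hx
    obtain ⟨c, y, hc, hcy⟩ := H12.den_left h12 x
    have h1 : J' (u y) = 0 := by
      show J' (Algebra.TensorProduct.map J12 (AlgHom.id k Q'') y) = 0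
      rw [← hcy, map_mul, hx, mul_zero]
    rw [huv] at h1
    have h2 : y = 0 := hv (HJ.inj (by rw [h1, map_zero, map_zero]))
    rw [h2, map_zero] at hcy
    have h3 : (algebraMap F12 R12 (j12 c)⁻¹ ⊗ₜ[k] (1 : Q''))
        * ((algebraMap F12 R12 (j12 c) ⊗ₜ 1) * x) = x := by
      rw [← mul_assoc, Algebra.TensorProduct.tmul_mul_tmul, mul_one, ← map_mul,
        inv_mul_cancel₀ (h12.ne' hc), map_one]
      exact one_mul x
    rw [← h3, hcy, mul_zero]
  · intro t
    induction t using TensorProduct.induction_on with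
    | zero => simp only [map_zero]
    | add x y hx hy => simp only [map_add, hx, hy]
    | tmul f m =>
      rw [iZ_tmul, hJ'0, hφF]
      have h1 : ψ (algebraMap M Q'' m) = algebraMap F3 R3 (j' (1 ⊗ₜ m)) := by
        have h2 : j' (1 ⊗ₜ m) = j (1 ⊗ₜ j23 (1 ⊗ₜ m)) := by
          have h3 := hjj 1 1 m
          rw [← Algebra.TensorProduct.one_def, map_one] at h3
          exact h3
        rw [h2, hψ, ← HJ.comp, iZ_tmul, ← H23.comp, iZ_tmul, map_one, map_one]
      rw [h1, ← map_mul]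
      congr 1
      show j' (f ⊗ₜ 1) * j' (1 ⊗ₜ m) = j' (f ⊗ₜ m)
      rw [← map_mul, Algebra.TensorProduct.tmul_mul_tmul, mul_one, one_mul]
  · intro r
    obtain ⟨a, b, hb, hr⟩ := HJ.surj r
    obtain ⟨c, ya, hc, hya⟩ := H23.den_right h23 a
    obtain ⟨d, yb, hd, hyb⟩ := h23.isCL.den_right h23 b
    let e := (Algebra.TensorProduct.assoc k k k Q Q' Q'').symm
    have hve : ∀ t, v (e t) = Algebra.TensorProduct.map (AlgHom.id k Q) J23 t := by
      intro t
      show Algebra.TensorProduct.map (AlgHom.id k Q) J23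
        ((Algebra.TensorProduct.assoc k k k Q Q' Q'') (e t)) = _
      rw [AlgEquiv.apply_symm_apply]
    let e0 := (Algebra.TensorProduct.assoc k k k Z L M).symm
    have hve0 : ∀ t, v0 (e0 t) = Algebra.TensorProduct.map (AlgHom.id k Z) j23 t := by
      intro t
      show Algebra.TensorProduct.map (AlgHom.id k Z) j23
        ((Algebra.TensorProduct.assoc k k k Z L M) (e0 t)) = _
      rw [AlgEquiv.apply_symm_apply]
    have hA : Algebra.TensorProduct.map (AlgHom.id k Q) J23
        ((1 ⊗ₜ iZ k L M Q' Q'' d) * ya)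
        = (1 ⊗ₜ algebraMap F23 R23 (j23 d)) * ((1 ⊗ₜ algebraMap F23 R23 (j23 c)) * a) := by
      rw [map_mul, ← hya, Algebra.TensorProduct.map_tmul, map_one, H23.comp]
    have hB : Algebra.TensorProduct.map (AlgHom.id k Z) j23 ((1 ⊗ₜ c) * yb)
        = (1 ⊗ₜ j23 c) * ((1 ⊗ₜ j23 d) * b) := by
      rw [map_mul, ← hyb, Algebra.TensorProduct.map_tmul, map_one]; rfl
    have hz : ∀ x : L ⊗[k] M, x ≠ 0 → j (1 ⊗ₜ j23 x) ≠ 0 := by
      intro x hx h
      have h3 : (1 : Z) ⊗ₜ[k] j23 x = 0 := hj.inj (by rw [h, map_zero])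
      have h6 := (Module.Flat.rTensor_preserves_injective_linearMap (M := F23)
        (Algebra.linearMap k Z) (algebraMap k Z).injective)
      have h7 : (1 : k) ⊗ₜ[k] j23 x = 0 := h6 (by
        rw [map_zero, LinearMap.rTensor_tmul, Algebra.linearMap_apply, map_one]; exact h3)
      have h8 := congrArg (TensorProduct.lid k F23) h7
      rw [TensorProduct.lid_tmul, one_smul, map_zero] at h8
      exact h23.ne' hx h8
    have hJ1 : ∀ x : L ⊗[k] M, J (1 ⊗ₜ algebraMap F23 R23 (j23 x))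
        = algebraMap F3 R3 (j (1 ⊗ₜ j23 x)) := by
      intro x
      rw [← HJ.comp, iZ_tmul, map_one]
    refine ⟨u (e ((1 ⊗ₜ iZ k L M Q' Q'' d) * ya)), u0 (e0 ((1 ⊗ₜ c) * yb)), ?_, ?_⟩
    · intro h0
      have h1 := huv0 (e0 ((1 ⊗ₜ c) * yb))
      rw [h0, map_zero, hve0, hB, map_mul, map_mul] at h1
      exact mul_ne_zero (hz c hc) (mul_ne_zero (hz d hd) (hj.ne' hb)) h1.symm
    · rw [huv, huv0, hve, hve0, hA, hB, map_mul J, map_mul J, hJ1, hJ1, ← hr, map_mul j, map_mul j]
      generalize j (1 ⊗ₜ[k] j23 c) = x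
      generalize j (1 ⊗ₜ[k] j23 d) = y
      generalize j b = z
      rw [← mul_assoc, ← mul_assoc, ← map_mul, ← mul_assoc, ← map_mul]
      congr 2
      ring

end cl

end Pool.Agent.Lib.MP_c37a72_al
end

section
/-!
# MP_c37a72_al: extension of homomorphisms to places

`exists_pl`: a ring homomorphism from a subring of the field `Ω` to the algebraically closed field
`Λ` (given by its graph) extends to a place `Ω ⇢ Λ`.
-/
set_option autoImplicit false
set_option linter.unusedSectionVars false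

namespace Pool.Agent.Lib.MP_c37a72_al

open Finset Polynomial

universe u v w

namespace PlXM

variable {Ω : Type u} {Λ : Type v} [Field Ω] [Field Λ]

/-- the graph condition -/
def Gr (G : Subring (Ω × Λ)) : Prop := ∀ l : Λ, ((0 : Ω), l) ∈ G → l = 0

variable {M : Subring (Ω × Λ)} (hM : Gr M) (hmax : ∀ M', Gr M' → M ≤ M' → M' = M)

include hM hmax in
/-- adjoining a pair -/
theorem adj (x : Ω) (l : Λ) (h : ∀ P : Polynomial M,
    eval₂ ((RingHom.fst Ω Λ).comp M.subtype) x P = 0 →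
      eval₂ ((RingHom.snd Ω Λ).comp M.subtype) l P = 0) : (x, l) ∈ M := by
  let ev : Polynomial M →+* Ω × Λ := eval₂RingHom M.subtype (x, l)
  have h1 : ∀ P, (ev P).1 = eval₂ ((RingHom.fst Ω Λ).comp M.subtype) x P := by
    intro P
    show (RingHom.fst Ω Λ) (eval₂ M.subtype (x, l) P) = _
    rw [hom_eval₂]; rfl
  have h2 : ∀ P, (ev P).2 = eval₂ ((RingHom.snd Ω Λ).comp M.subtype) l P := by
    intro P
    show (RingHom.snd Ω Λ) (eval₂ M.subtype (x, l) P) = _
    rw [hom_eval₂]; rfl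
  have hle : M ≤ ev.range := by
    intro m hm
    exact ⟨C ⟨m, hm⟩, by simp [ev]⟩
  have hG : Gr ev.range := by
    rintro c ⟨P, hP⟩
    have e1 := h P (by rw [← h1, hP])
    rw [← h2, hP] at e1
    exact e1
  rw [← hmax _ hG hle]
  exact ⟨X, by simp [ev]⟩

include hM hmax in
theorem inv_mem {x : Ω} {l : Λ} (h : (x, l) ∈ M) (hl : l ≠ 0) : (x⁻¹, l⁻¹) ∈ M := by
  have hx : x ≠ 0 := by
    rintro rfl
    exact hl (hM l h)
  refine adj hM hmax x⁻¹ l⁻¹ fun P hP => ?_
  rw [eval₂_eq_sum_range] at hP ⊢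
  set n := P.natDegree
  let e : Ω × Λ := ∑ i ∈ range (n + 1), (P.coeff i : Ω × Λ) * (x, l) ^ (n - i)
  have he : e ∈ M := M.sum_mem fun i _ => M.mul_mem (P.coeff i).2 (M.pow_mem h _)
  have e1 : e.1 = x ^ n * ∑ i ∈ range (n + 1),
      ((RingHom.fst Ω Λ).comp M.subtype) (P.coeff i) * x⁻¹ ^ i := by
    simp only [e, Prod.fst_sum, Prod.fst_mul, Prod.pow_fst, Finset.mul_sum]
    refine Finset.sum_congr rfl fun i hi => ?_
    have hi' : i ≤ n := by rw [Finset.mem_range] at hi; omega
    have : x ^ n = x ^ (n - i) * x ^ i := by rw [← pow_add]; congr 1; omega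
    rw [this, inv_pow]
    show ((P.coeff i : Ω × Λ)).1 * x ^ (n - i) = x ^ (n - i) * x ^ i * (((P.coeff i : Ω × Λ)).1 * _)
    field_simp
  have e2 : e.2 = l ^ n * ∑ i ∈ range (n + 1),
      ((RingHom.snd Ω Λ).comp M.subtype) (P.coeff i) * l⁻¹ ^ i := by
    simp only [e, Prod.snd_sum, Prod.snd_mul, Prod.pow_snd, Finset.mul_sum]
    refine Finset.sum_congr rfl fun i hi => ?_
    have hi' : i ≤ n := by rw [Finset.mem_range] at hi; omega
    have : l ^ n = l ^ (n - i) * l ^ i := by rw [← pow_add]; congr 1; omega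
    rw [this, inv_pow]
    show ((P.coeff i : Ω × Λ)).2 * l ^ (n - i) = l ^ (n - i) * l ^ i * (((P.coeff i : Ω × Λ)).2 * _)
    field_simp
  rw [hP, mul_zero] at e1
  have e3 : (e.1, e.2) ∈ M := he
  rw [e1] at e3
  have e4 := hM _ e3
  rw [e2] at e4
  exact (mul_eq_zero.1 e4).resolve_left (pow_ne_zero _ hl)

include hM hmax in
theorem mem_of_val [IsAlgClosed Λ] (V : ValuationSubring Ω)
    (hV0 : ∀ m ∈ M, m.2 = 0 → m.1 ∈ V.nonunits) {x : Ω} (hx : x ∈ V) :
    ∃ l, (x, l) ∈ M := by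
  classical
  -- the residue field
  let L0 : Subfield Λ :=
    { carrier := {l | ∃ y, (y, l) ∈ M}
      mul_mem' := by rintro a b ⟨y, hy⟩ ⟨z, hz⟩; exact ⟨y * z, M.mul_mem hy hz⟩
      one_mem' := ⟨1, M.one_mem⟩
      add_mem' := by rintro a b ⟨y, hy⟩ ⟨z, hz⟩; exact ⟨y + z, M.add_mem hy hz⟩
      zero_mem' := ⟨0, M.zero_mem⟩
      neg_mem' := by rintro a ⟨y, hy⟩; exact ⟨-y, M.neg_mem hy⟩
      inv_mem' := by
        rintro a ⟨y, hy⟩
        rcases eq_or_ne a 0 with rfl | ha
        · rw [inv_zero]; exact ⟨0, M.zero_mem⟩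
        · exact ⟨y⁻¹, inv_mem hM hmax hy ha⟩ }
  let ψ : M →+* L0 := ((RingHom.snd Ω Λ).comp M.subtype).codRestrict L0.toSubring
    (fun m => ⟨m.1.1, m.2⟩)
  have hψ : ∀ m : M, (ψ m : Λ) = m.1.2 := fun m => rfl
  have hψs : Function.Surjective ψ := by
    rintro ⟨l, y, hy⟩
    exact ⟨⟨(y, l), hy⟩, Subtype.ext rfl⟩
  let Ψ : Polynomial M →+* Polynomial L0 := mapRingHom ψ
  have hΨs : Function.Surjective Ψ := Polynomial.map_surjective ψ hψs
  let I : Ideal (Polynomial M) := RingHom.ker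
    (eval₂RingHom ((RingHom.fst Ω Λ).comp M.subtype) x)
  let J : Ideal (Polynomial L0) := I.map Ψ
  have hJ : J ≠ ⊤ := by
    intro hJ
    have h1 : (1 : Polynomial L0) ∈ J := by rw [hJ]; trivial
    rw [Ideal.mem_map_iff_of_surjective Ψ hΨs] at h1
    obtain ⟨P, hP, hP1⟩ := h1
    have hP0 : eval₂ ((RingHom.fst Ω Λ).comp M.subtype) x P = 0 := hP
    -- `P - 1` has coefficients of residue `0`
    have hc : ∀ i, ((P - 1).coeff i : Ω × Λ).2 = 0 := by
      intro i
      have : Ψ (P - 1) = 0 := by rw [map_sub, hP1, map_one, sub_self]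
      have h2 := congrArg (fun q => (q.coeff i : Λ)) this
      simp only [Ψ, coe_mapRingHom, coeff_map, coeff_zero] at h2
      rw [hψ] at h2
      exact h2
    have h3 : eval₂ ((RingHom.fst Ω Λ).comp M.subtype) x (P - 1) = -1 := by
      rw [eval₂_sub, hP0, eval₂_one, zero_sub]
    have h4 : ((-1 : Ω)) ∈ V.nonunits := by
      rw [← h3, eval₂_eq_sum_range]
      have : ∀ s : Finset ℕ, ∑ i ∈ s, ((RingHom.fst Ω Λ).comp M.subtype) ((P - 1).coeff i) * x ^ i
          ∈ V.nonunits := by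
        intro s
        induction s using Finset.induction_on with
        | empty =>
          rw [Finset.sum_empty]
          exact V.mem_nonunits_iff.2 (by rw [map_zero]; exact zero_lt_one)
        | insert a s ha ih =>
          rw [Finset.sum_insert ha]
          rw [ValuationSubring.mem_nonunits_iff] at ih ⊢
          refine lt_of_le_of_lt (Valuation.map_add _ _ _) (max_lt ?_ ih)
          rw [map_mul]
          have e1 := V.mem_nonunits_iff.1 (hV0 _ ((P - 1).coeff a).2 (hc a))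
          have e2 : V.valuation (x ^ a) ≤ 1 := (V.valuation_le_one_iff _).2 (V.pow_mem hx _)
          calc V.valuation (((RingHom.fst Ω Λ).comp M.subtype) ((P - 1).coeff a))
              * V.valuation (x ^ a) ≤ V.valuation (((RingHom.fst Ω Λ).comp M.subtype)
                ((P - 1).coeff a)) * 1 := mul_le_mul_right e2 _
            _ < 1 := by rw [mul_one]; exact e1
      exact this _
    rw [ValuationSubring.mem_nonunits_iff, Valuation.map_neg, map_one] at h4
    exact lt_irrefl _ h4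
  obtain ⟨l, hl⟩ : ∃ l : Λ, ∀ P ∈ J, aeval l P = 0 := by
    obtain ⟨g, hg⟩ := (IsPrincipalIdealRing.principal J).principal
    rcases eq_or_ne g 0 with rfl | hg0
    · refine ⟨0, fun P hP => ?_⟩
      rw [hg] at hP
      have : P = 0 := by simpa using hP
      rw [this, map_zero]
    · have hdeg : g.degree ≠ 0 := by
        intro hd
        apply hJ
        rw [hg]
        exact Ideal.span_singleton_eq_top.2 (Polynomial.isUnit_iff_degree_eq_zero.2 hd)
      obtain ⟨l, hl⟩ := IsAlgClosed.exists_aeval_eq_zero Λ g hdeg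
      refine ⟨l, fun P hP => ?_⟩
      rw [hg] at hP
      obtain ⟨q, rfl⟩ := Ideal.mem_span_singleton.1 hP
      rw [map_mul, hl, zero_mul]
  refine ⟨l, adj hM hmax x l fun P hP => ?_⟩
  have h1 := hl (Ψ P) (Ideal.mem_map_of_mem Ψ hP)
  rw [aeval_def] at h1
  simp only [Ψ, coe_mapRingHom, eval₂_map] at h1
  exact h1

end PlXM

open PlXM in
/-- **extension theorem**: the graph `G` of a homomorphism from a subring of `Ω` to an algebraically
closed field `Λ` is contained in a place -/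
theorem exists_pl {Ω : Type u} {Λ : Type v} [Field Ω] [Field Λ] [IsAlgClosed Λ]
    (G : Subring (Ω × Λ)) (hG : ∀ l : Λ, ((0 : Ω), l) ∈ G → l = 0) :
    ∃ p : Pl Ω Λ, ∀ f l, (f, l) ∈ G → p.r f l := by
  classical
  obtain ⟨M, hGM, hM⟩ := zorn_le_nonempty₀ {M : Subring (Ω × Λ) | Gr M} (by
    intro c hc hch y hy
    refine ⟨sSup c, ?_, fun z hz => le_sSup hz⟩
    intro l hl
    rw [Subring.mem_sSup_of_directedOn ⟨y, hy⟩ hch.directedOn] at hl
    obtain ⟨N, hN, h⟩ := hl
    exact hc hN l h) G hG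
  have hgr : Gr M := hM.1
  have hmax : ∀ M', Gr M' → M ≤ M' → M' = M := fun M' h h' => le_antisymm (hM.2 h h') h'
  -- the valuation ring
  let A : Subring Ω := M.map (RingHom.fst Ω Λ)
  have hA : ∀ a : A, ∃ l, ((a : Ω), l) ∈ M := by
    rintro ⟨a, ⟨m, hm, rfl⟩⟩
    exact ⟨m.2, hm⟩
  choose ψ hψ using hA
  have hu : ∀ {x : Ω} {l l' : Λ}, (x, l) ∈ M → (x, l') ∈ M → l = l' := by
    intro x l l' h h'
    have := M.sub_mem h h'
    rw [Prod.mk_sub_mk, sub_self] at this
    exact sub_eq_zero.1 (hgr _ this)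
  let I : Ideal A :=
    { carrier := {a | ψ a = 0}
      add_mem' := by
        intro a b ha hb
        have h1 := M.add_mem (hψ a) (hψ b)
        have := hu (hψ (a + b)) h1
        rw [Set.mem_ofPred_eq] at ha hb ⊢
        rw [this, ha, hb, add_zero]
      zero_mem' := hu (hψ 0) M.zero_mem
      smul_mem' := by
        intro a b hb
        have h1 := M.mul_mem (hψ a) (hψ b)
        have := hu (hψ (a * b)) h1
        rw [Set.mem_ofPred_eq] at hb ⊢
        rw [smul_eq_mul, this, hb, mul_zero] }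
  have hI : I ≠ ⊤ := by
    intro h
    have : (1 : A) ∈ I := by rw [h]; trivial
    exact one_ne_zero ((hu M.one_mem (hψ 1)).trans this)
  obtain ⟨V, hAV, hIV⟩ := Ideal.image_subset_nonunits_valuationSubring I hI
  have hV : ∀ m ∈ M, m.1 ∈ V := fun m hm => hAV ⟨m, hm, rfl⟩
  have hV0 : ∀ m ∈ M, m.2 = 0 → m.1 ∈ V.nonunits := by
    intro m hm h0
    apply hIV
    refine ⟨⟨m.1, m, hm, rfl⟩, ?_, rfl⟩
    exact (hu (hψ ⟨m.1, m, hm, rfl⟩) hm).trans h0
  refine ⟨⟨fun f l => (f, l) ∈ M, fun h h' => hu h h', M.one_mem, fun h h' => M.add_mem h h',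
    fun h h' => M.mul_mem h h', fun f => ?_⟩, fun f l h => hGM h⟩
  rcases V.mem_or_inv_mem f with h | h
  · exact Or.inl (mem_of_val hgr hmax V hV0 h)
  · obtain ⟨l, hl⟩ := mem_of_val hgr hmax V hV0 h
    rcases eq_or_ne l 0 with rfl | hl0
    · exact Or.inr hl
    · have := inv_mem hgr hmax hl hl0
      rw [inv_inv] at this
      exact Or.inl ⟨_, this⟩

/-- extension of a place to bigger fields -/
theorem Pl.exists_ext {F : Type*} {K : Type*} [Field F] [Field K] (p : Pl F K) {Ω Λ : Type*}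
    [Field Ω] [Field Λ] [IsAlgClosed Λ] (i : F →+* Ω) (j : K →+* Λ) :
    ∃ q : Pl Ω Λ, ∀ f l, p.r f l → q.r (i f) (j l) := by
  let G : Subring (Ω × Λ) :=
    { carrier := {x | ∃ f l, p.r f l ∧ x = (i f, j l)}
      mul_mem' := by
        rintro _ _ ⟨f, l, h, rfl⟩ ⟨g, m, h', rfl⟩
        exact ⟨_, _, p.mul h h', by rw [map_mul, map_mul]; rfl⟩
      one_mem' := ⟨1, 1, p.one, by rw [map_one, map_one]; rfl⟩
      add_mem' := by
        rintro _ _ ⟨f, l, h, rfl⟩ ⟨g, m, h', rfl⟩
        exact ⟨_, _, p.add h h', by rw [map_add, map_add]; rfl⟩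
      zero_mem' := ⟨0, 0, p.zero, by rw [map_zero, map_zero]; rfl⟩
      neg_mem' := by
        rintro _ ⟨f, l, h, rfl⟩
        exact ⟨_, _, p.neg h, by rw [map_neg, map_neg]; rfl⟩ }
  obtain ⟨q, hq⟩ := exists_pl G (by
    rintro l ⟨f, m, h, he⟩
    have h1 : i f = 0 := (congrArg Prod.fst he).symm
    have h2 : l = j m := congrArg Prod.snd he
    rw [map_eq_zero] at h1
    rw [h1] at h
    rw [h2, p.uniq h p.zero, map_zero])
  exact ⟨q, fun f l h => hq _ _ ⟨f, l, h, rfl⟩⟩

end Pool.Agent.Lib.MP_c37a72_al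
end
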