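import Pool.Agent.Lib.MP_c37a72_al.SpecH
import Pool.Agent.Lib.MP_c37a72_al.KTK
import Pool.Agent.Lib.MP_c37a72_al.PlX

section
/-!
# MP_c37a72_al, module REG: the coproduct of a nonzero element is regular on `Q ⊗ Q`
-/
set_option autoImplicit false

open scoped TensorProduct
open Coalgebra HopfAlgebra

namespace Pool.Agent.Lib.MP_c37a72_al

universe u v w

namespace REGM

section
variable {k : Type u} {H : Type v} {Q : Type w} [Field k] [Ring H] [HopfAlgebra k H]
  [Ring Q] [Algebra k Q]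

/-- `h ⊗ q ↦ h₁ ⊗ f(h₂) q` -/
noncomputable def Lf (f : H →ₗ[k] Q) : H ⊗[k] Q →ₗ[k] H ⊗[k] Q :=
  LinearMap.mul' k (H ⊗[k] Q) ∘ₗ TensorProduct.map (f.lTensor H ∘ₗ comul (R := k))
    (Algebra.TensorProduct.includeRight (R := k) (A := H) (B := Q)).toLinearMap

theorem Lf_tmul (f : H →ₗ[k] Q) (h : H) (q : Q) :
    Lf f (h ⊗ₜ[k] q) = f.lTensor H (comul (R := k) h) * (1 ⊗ₜ[k] q) := by
  simp [Lf]

/-- `q ⊗ h ↦ q f(h₁) ⊗ h₂` -/
noncomputable def Rf (f : H →ₗ[k] Q) : Q ⊗[k] H →ₗ[k] Q ⊗[k] H :=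
  LinearMap.mul' k (Q ⊗[k] H) ∘ₗ TensorProduct.map
    (Algebra.TensorProduct.includeLeft (R := k) (S := k) (A := Q) (B := H)).toLinearMap
    (f.rTensor H ∘ₗ comul (R := k))

theorem Rf_tmul (f : H →ₗ[k] Q) (q : Q) (h : H) :
    Rf f (q ⊗ₜ[k] h) = (q ⊗ₜ[k] 1) * f.rTensor H (comul (R := k) h) := by
  simp [Rf]

/-- convolution product -/
noncomputable def cv (f g : H →ₗ[k] Q) : H →ₗ[k] Q :=
  LinearMap.mul' k Q ∘ₗ TensorProduct.map f g ∘ₗ comul (R := k)

theorem Lf_comp (f g : H →ₗ[k] Q) (x : H ⊗[k] Q) : Lf f (Lf g x) = Lf (cv f g) x := by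
  induction x using TensorProduct.induction_on with
  | zero => simp
  | tmul h q =>
    rw [Lf_tmul, Lf_tmul]
    have h1 : ∀ t : H ⊗[k] H, Lf f (g.lTensor H t * (1 ⊗ₜ[k] q)) =
        (LinearMap.mulRight k q ∘ₗ LinearMap.mul' k Q ∘ₗ TensorProduct.map f g).lTensor H
          (TensorProduct.assoc k H H H ((comul (R := k)).rTensor H t)) := by
      intro t
      induction t using TensorProduct.induction_on with
      | zero => simp
      | tmul a b =>
        rw [LinearMap.lTensor_tmul, Algebra.TensorProduct.tmul_mul_tmul, mul_one, Lf_tmul,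
          LinearMap.rTensor_tmul]
        generalize comul (R := k) a = s
        induction s using TensorProduct.induction_on with
        | zero => simp
        | tmul c d => simp [mul_assoc]
        | add s t hs ht =>
          rw [map_add, add_mul, hs, ht, TensorProduct.add_tmul, map_add, map_add]
      | add s t hs ht => simp only [map_add, add_mul, hs, ht]
    have h2 : ∀ t : H ⊗[k] H, (cv f g).lTensor H t * (1 ⊗ₜ[k] q) =
        (LinearMap.mulRight k q ∘ₗ LinearMap.mul' k Q ∘ₗ TensorProduct.map f g).lTensor H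
          ((comul (R := k)).lTensor H t) := by
      intro t
      induction t using TensorProduct.induction_on with
      | zero => simp
      | tmul a b => simp [cv]
      | add s t hs ht => simp only [map_add, add_mul, hs, ht]
    rw [h1, h2, coassoc_apply]
  | add s t hs ht => simp only [map_add, hs, ht]

theorem Rf_comp (f g : H →ₗ[k] Q) (x : Q ⊗[k] H) : Rf f (Rf g x) = Rf (cv g f) x := by
  induction x using TensorProduct.induction_on with
  | zero => simp
  | tmul q h =>
    rw [Rf_tmul, Rf_tmul]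
    have h1 : ∀ t : H ⊗[k] H, Rf f ((q ⊗ₜ[k] 1) * g.rTensor H t) =
        (LinearMap.mulLeft k q ∘ₗ LinearMap.mul' k Q ∘ₗ TensorProduct.map g f).rTensor H
          ((TensorProduct.assoc k H H H).symm ((comul (R := k)).lTensor H t)) := by
      intro t
      induction t using TensorProduct.induction_on with
      | zero => simp
      | tmul a b =>
        rw [LinearMap.rTensor_tmul, Algebra.TensorProduct.tmul_mul_tmul, one_mul, Rf_tmul,
          LinearMap.lTensor_tmul]
        generalize comul (R := k) b = s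
        induction s using TensorProduct.induction_on with
        | zero => simp
        | tmul c d => simp [mul_assoc]
        | add s t hs ht =>
          rw [map_add, mul_add, hs, ht, TensorProduct.tmul_add, map_add, map_add]
      | add s t hs ht => simp only [map_add, mul_add, hs, ht]
    have h2 : ∀ t : H ⊗[k] H, (q ⊗ₜ[k] 1) * (cv g f).rTensor H t =
        (LinearMap.mulLeft k q ∘ₗ LinearMap.mul' k Q ∘ₗ TensorProduct.map g f).rTensor H
          ((comul (R := k)).rTensor H t) := by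
      intro t
      induction t using TensorProduct.induction_on with
      | zero => simp
      | tmul a b => simp [cv]
      | add s t hs ht => simp only [map_add, mul_add, hs, ht]
    rw [h1, h2, coassoc_symm_apply]
  | add s t hs ht => simp only [map_add, hs, ht]

/-- the unit of the convolution product -/
noncomputable def e0 : H →ₗ[k] Q := Algebra.linearMap k Q ∘ₗ counit (R := k)

theorem Lf_e0 (x : H ⊗[k] Q) : Lf (e0 (k := k) (H := H) (Q := Q)) x = x := by
  induction x using TensorProduct.induction_on with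
  | zero => simp
  | tmul h q =>
    rw [Lf_tmul, e0, LinearMap.lTensor_comp, LinearMap.comp_apply, lTensor_counit_comul,
      LinearMap.lTensor_tmul, Algebra.TensorProduct.tmul_mul_tmul]
    simp
  | add s t hs ht => simp only [map_add, hs, ht]

theorem Rf_e0 (x : Q ⊗[k] H) : Rf (e0 (k := k) (H := H) (Q := Q)) x = x := by
  induction x using TensorProduct.induction_on with
  | zero => simp
  | tmul q h =>
    rw [Rf_tmul, e0, LinearMap.rTensor_comp, LinearMap.comp_apply, rTensor_counit_comul,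
      LinearMap.rTensor_tmul, Algebra.TensorProduct.tmul_mul_tmul]
    simp
  | add s t hs ht => simp only [map_add, hs, ht]

theorem cv1 (ι : H →ₐ[k] Q) :
    cv ι.toLinearMap (ι.toLinearMap ∘ₗ antipode k) = e0 (k := k) (H := H) (Q := Q) := by
  ext h
  have h1 : ∀ t : H ⊗[k] H, LinearMap.mul' k Q
      (TensorProduct.map ι.toLinearMap (ι.toLinearMap ∘ₗ antipode k) t) =
      ι (LinearMap.mul' k H ((antipode k).lTensor H t)) := by
    intro t
    induction t using TensorProduct.induction_on with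
    | zero => simp
    | tmul a b => simp
    | add s t hs ht => simp only [map_add, hs, ht]
  simp only [cv, e0, LinearMap.comp_apply]
  rw [h1, mul_antipode_lTensor_comul_apply]
  simp

theorem cv2 (ι : H →ₐ[k] Q) :
    cv (ι.toLinearMap ∘ₗ antipode k) ι.toLinearMap = e0 (k := k) (H := H) (Q := Q) := by
  ext h
  have h1 : ∀ t : H ⊗[k] H, LinearMap.mul' k Q
      (TensorProduct.map (ι.toLinearMap ∘ₗ antipode k) ι.toLinearMap t) =
      ι (LinearMap.mul' k H ((antipode k).rTensor H t)) := by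
    intro t
    induction t using TensorProduct.induction_on with
    | zero => simp
    | tmul a b => simp
    | add s t hs ht => simp only [map_add, hs, ht]
  simp only [cv, e0, LinearMap.comp_apply]
  rw [h1, mul_antipode_rTensor_comul_apply]
  simp

theorem lT_mul (ι : H →ₐ[k] Q) (s t : H ⊗[k] H) :
    ι.toLinearMap.lTensor H (s * t) = ι.toLinearMap.lTensor H s * ι.toLinearMap.lTensor H t :=
  map_mul (Algebra.TensorProduct.map (AlgHom.id k H) ι) s t

theorem rT_mul (ι : H →ₐ[k] Q) (s t : H ⊗[k] H) :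
    ι.toLinearMap.rTensor H (s * t) = ι.toLinearMap.rTensor H s * ι.toLinearMap.rTensor H t :=
  map_mul (Algebra.TensorProduct.map ι (AlgHom.id k H)) s t

theorem Lf_mul (ι : H →ₐ[k] Q) (c : H) (u : H ⊗[k] Q) :
    Lf ι.toLinearMap ((c ⊗ₜ[k] 1) * u) =
      ι.toLinearMap.lTensor H (comul (R := k) c) * Lf ι.toLinearMap u := by
  induction u using TensorProduct.induction_on with
  | zero => simp
  | tmul h q =>
    rw [Algebra.TensorProduct.tmul_mul_tmul, one_mul, Lf_tmul, Lf_tmul, Bialgebra.comul_mul,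
      lT_mul, mul_assoc]
  | add s t hs ht => simp only [map_add, mul_add, hs, ht]

theorem Rf_mul (ι : H →ₐ[k] Q) (c : H) (u : Q ⊗[k] H) :
    Rf ι.toLinearMap (u * (1 ⊗ₜ[k] c)) =
      Rf ι.toLinearMap u * ι.toLinearMap.rTensor H (comul (R := k) c) := by
  induction u using TensorProduct.induction_on with
  | zero => simp
  | tmul q h =>
    rw [Algebra.TensorProduct.tmul_mul_tmul, mul_one, Rf_tmul, Rf_tmul, Bialgebra.comul_mul,
      rT_mul, mul_assoc]
  | add s t hs ht => simp only [map_add, add_mul, hs, ht]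

variable [IsDomain H]

theorem left_reg (ι : H →ₐ[k] Q) {c : H} (hc : c ≠ 0) (v : H ⊗[k] Q)
    (h : ι.toLinearMap.lTensor H (comul (R := k) c) * v = 0) : v = 0 := by
  set u := Lf (ι.toLinearMap ∘ₗ antipode k) v with hu
  have h1 : Lf ι.toLinearMap u = v := by rw [hu, Lf_comp, cv1, Lf_e0]
  rw [← h1, ← Lf_mul] at h
  have h2 : (c ⊗ₜ[k] (1 : Q)) * u = 0 := by
    have := congrArg (Lf (ι.toLinearMap ∘ₗ antipode k)) h
    rwa [Lf_comp, cv2, Lf_e0, map_zero] at this
  have h3 : (LinearMap.mulLeft k c).rTensor Q u = (c ⊗ₜ[k] (1 : Q)) * u := by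
    induction u using TensorProduct.induction_on with
    | zero => simp
    | tmul a b => simp
    | add s t hs ht => simp only [map_add, mul_add, hs, ht]
  have h4 : Function.Injective ((LinearMap.mulLeft k c).rTensor Q) :=
    Module.Flat.rTensor_preserves_injective_linearMap _ (mul_right_injective₀ hc)
  have h5 : u = 0 := by
    apply h4
    rw [h3, h2, map_zero]
  rw [← h1, h5, map_zero]

theorem right_reg (ι : H →ₐ[k] Q) {c : H} (hc : c ≠ 0) (v : Q ⊗[k] H)
    (h : v * ι.toLinearMap.rTensor H (comul (R := k) c) = 0) : v = 0 := by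
  set u := Rf (ι.toLinearMap ∘ₗ antipode k) v with hu
  have h1 : Rf ι.toLinearMap u = v := by rw [hu, Rf_comp, cv2, Rf_e0]
  rw [← h1, ← Rf_mul] at h
  have h2 : u * ((1 : Q) ⊗ₜ[k] c) = 0 := by
    have := congrArg (Rf (ι.toLinearMap ∘ₗ antipode k)) h
    rwa [Rf_comp, cv1, Rf_e0, map_zero] at this
  have h3 : (LinearMap.mulRight k c).lTensor Q u = u * ((1 : Q) ⊗ₜ[k] c) := by
    induction u using TensorProduct.induction_on with
    | zero => simp
    | tmul a b => simp
    | add s t hs ht => simp only [map_add, add_mul, hs, ht]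
  have h4 : Function.Injective ((LinearMap.mulRight k c).lTensor Q) :=
    Module.Flat.lTensor_preserves_injective_linearMap _ (mul_left_injective₀ hc)
  have h5 : u = 0 := by
    apply h4
    rw [h3, h2, map_zero]
  rw [← h1, h5, map_zero]

end

section
variable {k : Type u} {H : Type v} {Z Q : Type w} [Field k] [Ring H] [IsDomain H]
    [HopfAlgebra k H] [Field Z] [Algebra k Z] [DivisionRing Q] [Algebra k Q] [Algebra Z Q]
    [IsScalarTower k Z Q] {ι : H →ₐ[k] Q}

theorem cent_image (hQ : IsCQ k H Z Q ι) {z : H} (hz : Cent z) (q : Q) : q * ι z = ι z * q := by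
  obtain ⟨c, h, hc0, -, hch⟩ := hQ.frac q
  have hc : ι c ≠ 0 := fun e => hc0 (hQ.inj (by rw [e, map_zero]))
  have e1 : ι h * ι z = ι z * ι h := by rw [← map_mul, ← map_mul, hz h]
  have e2 : ι c * ι z = ι z * ι c := by rw [← map_mul, ← map_mul, hz c]
  apply mul_left_cancel₀ hc
  rw [← mul_assoc, hch, e1, ← mul_assoc, e2, mul_assoc, hch]

theorem cent_tmul (hQ : IsCQ k H Z Q ι) {z : H} (hz : Cent z) (w : Q ⊗[k] Q) :
    w * (ι z ⊗ₜ[k] 1) = (ι z ⊗ₜ[k] 1) * w := by
  induction w using TensorProduct.induction_on with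
  | zero => simp
  | tmul a b =>
    rw [Algebra.TensorProduct.tmul_mul_tmul, Algebra.TensorProduct.tmul_mul_tmul,
      cent_image hQ hz, mul_one, one_mul]
  | add s t hs ht => simp only [mul_add, add_mul, hs, ht]

theorem cent_tmul' (hQ : IsCQ k H Z Q ι) {z : H} (hz : Cent z) (w : Q ⊗[k] Q) :
    w * (1 ⊗ₜ[k] ι z) = (1 ⊗ₜ[k] ι z) * w := by
  induction w using TensorProduct.induction_on with
  | zero => simp
  | tmul a b =>
    rw [Algebra.TensorProduct.tmul_mul_tmul, Algebra.TensorProduct.tmul_mul_tmul,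
      cent_image hQ hz, mul_one, one_mul]
  | add s t hs ht => simp only [mul_add, add_mul, hs, ht]

omit [IsDomain H] in
theorem cent_mul {a b : H} (ha : Cent a) (hb : Cent b) : Cent (a * b) := by
  intro x
  rw [← mul_assoc, ha x, mul_assoc, hb x, mul_assoc]

/-- common denominators in the first factor -/
theorem den_left (hQ : IsCQ k H Z Q ι) (w : Q ⊗[k] Q) :
    ∃ z : H, z ≠ 0 ∧ Cent z ∧ ∃ v : H ⊗[k] Q,
      (ι z ⊗ₜ[k] 1) * w = ι.toLinearMap.rTensor Q v := by
  induction w using TensorProduct.induction_on with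
  | zero => exact ⟨1, one_ne_zero, fun x => by rw [mul_one, one_mul], 0, by simp⟩
  | tmul a b =>
    obtain ⟨c, h, hc0, hc, hch⟩ := hQ.frac a
    refine ⟨c, hc0, hc, h ⊗ₜ b, ?_⟩
    rw [Algebra.TensorProduct.tmul_mul_tmul, hch, one_mul, LinearMap.rTensor_tmul]
    rfl
  | add s t hs ht =>
    obtain ⟨z1, h1, hz1, v1, e1⟩ := hs
    obtain ⟨z2, h2, hz2, v2, e2⟩ := ht
    refine ⟨z1 * z2, mul_ne_zero h1 h2, cent_mul hz1 hz2,
      (z2 ⊗ₜ 1) * v1 + (z1 ⊗ₜ 1) * v2, ?_⟩
    have key : ∀ (z : H) (v : H ⊗[k] Q), ι.toLinearMap.rTensor Q ((z ⊗ₜ 1) * v) =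
        (ι z ⊗ₜ[k] 1) * ι.toLinearMap.rTensor Q v := by
      intro z v
      exact map_mul (Algebra.TensorProduct.map ι (AlgHom.id k Q)) (z ⊗ₜ 1) v
    have e3 : (ι (z1 * z2) ⊗ₜ[k] (1 : Q)) = (ι z2 ⊗ₜ[k] 1) * (ι z1 ⊗ₜ[k] 1) := by
      rw [Algebra.TensorProduct.tmul_mul_tmul, ← map_mul, mul_one, hz1 z2]
    have e4 : (ι (z1 * z2) ⊗ₜ[k] (1 : Q)) = (ι z1 ⊗ₜ[k] 1) * (ι z2 ⊗ₜ[k] 1) := by
      rw [Algebra.TensorProduct.tmul_mul_tmul, ← map_mul, mul_one]
    rw [map_add, key, key, ← e1, ← e2, mul_add, ← mul_assoc, ← mul_assoc, ← e3, ← e4]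

/-- common denominators in the second factor -/
theorem den_right (hQ : IsCQ k H Z Q ι) (w : Q ⊗[k] Q) :
    ∃ z : H, z ≠ 0 ∧ Cent z ∧ ∃ v : Q ⊗[k] H,
      (1 ⊗ₜ[k] ι z) * w = ι.toLinearMap.lTensor Q v := by
  induction w using TensorProduct.induction_on with
  | zero => exact ⟨1, one_ne_zero, fun x => by rw [mul_one, one_mul], 0, by simp⟩
  | tmul a b =>
    obtain ⟨c, h, hc0, hc, hch⟩ := hQ.frac b
    refine ⟨c, hc0, hc, a ⊗ₜ h, ?_⟩
    rw [Algebra.TensorProduct.tmul_mul_tmul, hch, one_mul, LinearMap.lTensor_tmul]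
    rfl
  | add s t hs ht =>
    obtain ⟨z1, h1, hz1, v1, e1⟩ := hs
    obtain ⟨z2, h2, hz2, v2, e2⟩ := ht
    refine ⟨z1 * z2, mul_ne_zero h1 h2, cent_mul hz1 hz2,
      (1 ⊗ₜ z2) * v1 + (1 ⊗ₜ z1) * v2, ?_⟩
    have key : ∀ (z : H) (v : Q ⊗[k] H), ι.toLinearMap.lTensor Q ((1 ⊗ₜ z) * v) =
        (1 ⊗ₜ[k] ι z) * ι.toLinearMap.lTensor Q v := by
      intro z v
      exact map_mul (Algebra.TensorProduct.map (AlgHom.id k Q) ι) (1 ⊗ₜ z) v
    have e3 : ((1 : Q) ⊗ₜ[k] ι (z1 * z2)) = (1 ⊗ₜ[k] ι z2) * (1 ⊗ₜ[k] ι z1) := by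
      rw [Algebra.TensorProduct.tmul_mul_tmul, ← map_mul, mul_one, hz1 z2]
    have e4 : ((1 : Q) ⊗ₜ[k] ι (z1 * z2)) = (1 ⊗ₜ[k] ι z1) * (1 ⊗ₜ[k] ι z2) := by
      rw [Algebra.TensorProduct.tmul_mul_tmul, ← map_mul, mul_one]
    rw [map_add, key, key, ← e1, ← e2, mul_add, ← mul_assoc, ← mul_assoc, ← e3, ← e4]

end

end REGM

open REGM in
theorem specREG : SpecREG.{u, v, w} := by
  intro k H Z Q _ _ _ _ _ _ _ _ _ _ ι hQ c hc w
  have hflat : Function.Injective ι.toLinearMap := hQ.inj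
  constructor
  · intro h
    obtain ⟨z, hz0, hz, v, hv⟩ := den_left hQ w
    have hιz : ι z ≠ 0 := fun e => hz0 (hQ.inj (by rw [e, map_zero]))
    have h1 : TensorProduct.map ι.toLinearMap ι.toLinearMap (comul (R := k) c) *
        ι.toLinearMap.rTensor Q v = 0 := by
      rw [← hv, ← mul_assoc, cent_tmul hQ hz, mul_assoc, h, mul_zero]
    have h2 : ι.toLinearMap.rTensor Q (ι.toLinearMap.lTensor H (comul (R := k) c) * v) = 0 := by
      have e1 := map_mul (Algebra.TensorProduct.map ι (AlgHom.id k Q))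
        (ι.toLinearMap.lTensor H (comul (R := k) c)) v
      have e2 : (Algebra.TensorProduct.map ι (AlgHom.id k Q))
          (ι.toLinearMap.lTensor H (comul (R := k) c)) =
          TensorProduct.map ι.toLinearMap ι.toLinearMap (comul (R := k) c) := by
        generalize comul (R := k) c = s
        induction s using TensorProduct.induction_on with
        | zero => simp
        | tmul a b => simp
        | add s t hs ht => simp only [map_add, hs, ht]
      rw [e2] at e1
      exact e1.trans h1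
    have h3 : Function.Injective (ι.toLinearMap.rTensor Q) :=
      Module.Flat.rTensor_preserves_injective_linearMap _ hflat
    have h4 : ι.toLinearMap.lTensor H (comul (R := k) c) * v = 0 := h3 (by rw [h2, map_zero])
    have h5 : v = 0 := left_reg ι hc v h4
    rw [h5, map_zero] at hv
    have h6 : ((ι z)⁻¹ ⊗ₜ[k] (1 : Q)) * ((ι z ⊗ₜ[k] 1) * w) = w := by
      rw [← mul_assoc, Algebra.TensorProduct.tmul_mul_tmul, inv_mul_cancel₀ hιz, one_mul,
        ← Algebra.TensorProduct.one_def, one_mul]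
    rw [← h6, hv, mul_zero]
  · intro h
    obtain ⟨z, hz0, hz, v, hv⟩ := den_right hQ w
    have hιz : ι z ≠ 0 := fun e => hz0 (hQ.inj (by rw [e, map_zero]))
    have h1 : ι.toLinearMap.lTensor Q v *
        TensorProduct.map ι.toLinearMap ι.toLinearMap (comul (R := k) c) = 0 := by
      rw [← hv, mul_assoc, h, mul_zero]
    have h2 : ι.toLinearMap.lTensor Q (v * ι.toLinearMap.rTensor H (comul (R := k) c)) = 0 := by
      have e1 := map_mul (Algebra.TensorProduct.map (AlgHom.id k Q) ι) v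
        (ι.toLinearMap.rTensor H (comul (R := k) c))
      have e2 : (Algebra.TensorProduct.map (AlgHom.id k Q) ι)
          (ι.toLinearMap.rTensor H (comul (R := k) c)) =
          TensorProduct.map ι.toLinearMap ι.toLinearMap (comul (R := k) c) := by
        generalize comul (R := k) c = s
        induction s using TensorProduct.induction_on with
        | zero => simp
        | tmul a b => simp
        | add s t hs ht => simp only [map_add, hs, ht]
      rw [e2] at e1
      exact e1.trans h1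
    have h3 : Function.Injective (ι.toLinearMap.lTensor Q) :=
      Module.Flat.lTensor_preserves_injective_linearMap _ hflat
    have h4 : v * ι.toLinearMap.rTensor H (comul (R := k) c) = 0 := h3 (by rw [h2, map_zero])
    have h5 : v = 0 := right_reg ι hc v h4
    rw [h5, map_zero] at hv
    have h6 : ((1 : Q) ⊗ₜ[k] (ι z)⁻¹) * ((1 ⊗ₜ[k] ι z) * w) = w := by
      rw [← mul_assoc, Algebra.TensorProduct.tmul_mul_tmul, inv_mul_cancel₀ hιz, one_mul,
        ← Algebra.TensorProduct.one_def, one_mul]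
    rw [← h6, hv, mul_zero]

end Pool.Agent.Lib.MP_c37a72_al
end

section
/-!
# Module TQ: the matrix valued map extends to the quotient division ring
-/
set_option autoImplicit false

open scoped TensorProduct
open Coalgebra HopfAlgebra

namespace Pool.Agent.Lib.MP_c37a72_al.EG

universe u v w

namespace TQM

open NFAM REGM

section

variable {k : Type u} {H Z Q : Type v} [Field k] [Ring H] [HopfAlgebra k H] [Field Z]
    [Algebra k Z] [DivisionRing Q] [Algebra k Q] [Algebra Z Q] [IsScalarTower k Z Q]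
    {ι : H →ₐ[k] Q} {r : ℕ} {W : Fin r → Q}

/-- `φ(h₁) h₂` -/
noncomputable def tt (φ : Module.Dual k H) : H →ₗ[k] H :=
  (TensorProduct.lid k H).toLinearMap ∘ₗ φ.rTensor H ∘ₗ comul (R := k)

lemma tt_apply (φ : Module.Dual k H) (h : H) :
    tt φ h = TensorProduct.lid k H (φ.rTensor H (comul h)) := rfl

/-- `x ⊗ u ↦ φ(x) (w ι ⊗ 1)(u)` -/
noncomputable def KK (ι : H →ₐ[k] Q) (φ : Module.Dual k H) (w : Q) :
    H ⊗[k] (H ⊗[k] H) →ₗ[k] Q ⊗[k] H :=
  (TensorProduct.lid k (Q ⊗[k] H)).toLinearMap ∘ₗ TensorProduct.map φ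
    (TensorProduct.map (LinearMap.mulLeft k w ∘ₗ ι.toLinearMap) LinearMap.id)

lemma KK_tmul (φ : Module.Dual k H) (w : Q) (x : H) (u : H ⊗[k] H) :
    KK ι φ w (x ⊗ₜ[k] u) = φ x •
      TensorProduct.map (LinearMap.mulLeft k w ∘ₗ ι.toLinearMap) LinearMap.id u := by
  simp [KK]

lemma left_mul (w : Q) (u : H ⊗[k] H) :
    (w ⊗ₜ[k] (1 : H)) * TensorProduct.map ι.toLinearMap (LinearMap.id : H →ₗ[k] H) u =
      TensorProduct.map (LinearMap.mulLeft k w ∘ₗ ι.toLinearMap) LinearMap.id u := by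
  induction u with
  | zero => simp
  | tmul a b => simp
  | add s t hs ht => simp only [map_add, mul_add, hs, ht]

lemma rhs_eq (φ : Module.Dual k H) (w : Q) (h : H) :
    (w ⊗ₜ[k] (1 : H)) * dl k ι (tt φ h) =
      KK ι φ w ((comul (R := k) (A := H)).lTensor H (comul (R := k) h)) := by
  rw [tt_apply]
  generalize comul (R := k) h = t
  induction t with
  | zero => simp
  | tmul a b =>
    rw [LinearMap.lTensor_tmul, KK_tmul, LinearMap.rTensor_tmul, TensorProduct.lid_tmul, map_smul,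
      mul_smul_comm, dl_eq, left_mul]
  | add s t hs ht => simp only [map_add, mul_add, hs, ht]

lemma lhs_eq (hADB : SpecADB.{u, v}) {f : Fin r → Fin r → Module.Dual k H}
    (hf : ∀ (h : H) (j : Fin r), adlQ k Z ι h (W j) = ∑ i, f i j h • W i) (j : Fin r)
    (h : H) : dl k ι h * (W j ⊗ₜ[k] (1 : H)) =
      ∑ i, KK ι (f i j) (W i) (TensorProduct.assoc k H H H
        ((comul (R := k) (A := H)).rTensor H (comul (R := k) h))) := by
  rw [dl_eq]
  generalize comul (R := k) h = t
  induction t with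
  | zero => simp
  | tmul a b =>
    obtain ⟨n, x, y, e⟩ := exists_fin (comul (R := k) a)
    obtain ⟨h1, -⟩ := hADB k H Z Q ι a n x y e (W j)
    rw [TensorProduct.map_tmul, Algebra.TensorProduct.tmul_mul_tmul, AlgHom.toLinearMap_apply, h1,
      LinearMap.rTensor_tmul, e, mul_one, LinearMap.id_apply]
    simp only [hf, Finset.sum_mul, TensorProduct.sum_tmul, map_sum, TensorProduct.assoc_tmul,
      KK_tmul, TensorProduct.map_tmul, LinearMap.id_apply, LinearMap.comp_apply,
      LinearMap.mulLeft_apply, AlgHom.toLinearMap_apply]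
    rw [Finset.sum_comm]
    refine Finset.sum_congr rfl fun i _ => Finset.sum_congr rfl fun l _ => ?_
    rw [smul_mul_assoc, TensorProduct.smul_tmul']
  | add s t hs ht => simp only [map_add, add_mul, hs, ht, Finset.sum_add_distrib]

lemma key1 (hADB : SpecADB.{u, v}) {f : Fin r → Fin r → Module.Dual k H}
    (hf : ∀ (h : H) (j : Fin r), adlQ k Z ι h (W j) = ∑ i, f i j h • W i) (j : Fin r)
    (h : H) : dl k ι h * (W j ⊗ₜ[k] (1 : H)) =
      ∑ i, (W i ⊗ₜ[k] (1 : H)) * dl k ι (tt (f i j) h) := by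
  rw [lhs_eq hADB hf, coassoc_apply]
  exact Finset.sum_congr rfl fun i _ => (rhs_eq _ _ _).symm

omit [Field Z] [Algebra k Z] [Algebra Z Q] [IsScalarTower k Z Q] in
lemma Rf_inj (x : Q ⊗[k] H) (h : Rf ι.toLinearMap x = 0) : x = 0 := by
  have h1 := Rf_comp (ι.toLinearMap ∘ₗ antipode k) ι.toLinearMap x
  rw [cv1, Rf_e0, h, map_zero] at h1
  exact h1.symm

lemma indep (hW : LinearIndependent k W) (v : Fin r → H)
    (h : ∑ j, W j ⊗ₜ[k] v j = (0 : Q ⊗[k] H)) : ∀ j, v j = 0 := by
  intro j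
  rw [← Module.forall_dual_apply_eq_zero_iff k]
  intro φ
  have h1 := congrArg (sq φ) h
  rw [map_sum, map_zero] at h1
  simp only [sq_tmul] at h1
  exact Fintype.linearIndependent_iff.1 hW (fun j => φ (v j)) h1 j

lemma uniq (hW : LinearIndependent k W) (v : Fin r → H)
    (h : ∑ j, (W j ⊗ₜ[k] (1 : H)) * dl k ι (v j) = 0) : ∀ j, v j = 0 := by
  apply indep hW
  apply Rf_inj (ι := ι)
  rw [map_sum]
  simp only [Rf_tmul]
  exact h

lemma uniq' (hW : LinearIndependent k W) (v v' : Fin r → H)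
    (h : ∑ j, (W j ⊗ₜ[k] (1 : H)) * dl k ι (v j) = ∑ j, (W j ⊗ₜ[k] (1 : H)) * dl k ι (v' j)) :
    ∀ j, v j = v' j := by
  intro j
  rw [← sub_eq_zero]
  refine uniq (ι := ι) hW (fun j => v j - v' j) ?_ j
  simp only [map_sub, mul_sub, Finset.sum_sub_distrib]
  rw [h, sub_self]

lemma tt_mul (hADB : SpecADB.{u, v}) (hW : LinearIndependent k W)
    {f : Fin r → Fin r → Module.Dual k H}
    (hf : ∀ (h : H) (j : Fin r), adlQ k Z ι h (W j) = ∑ i, f i j h • W i) (g h : H)
    (i j : Fin r) : tt (f i j) (g * h) = ∑ l, tt (f i l) g * tt (f l j) h := by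
  refine uniq' (ι := ι) hW (fun i => tt (f i j) (g * h))
    (fun i => ∑ l, tt (f i l) g * tt (f l j) h) ?_ i
  rw [← key1 hADB hf, map_mul, mul_assoc, key1 hADB hf, Finset.mul_sum]
  simp only [map_sum, map_mul, Finset.mul_sum]
  rw [Finset.sum_comm]
  refine Finset.sum_congr rfl fun l _ => ?_
  rw [← mul_assoc, key1 hADB hf, Finset.sum_mul]
  exact Finset.sum_congr rfl fun i _ => by rw [mul_assoc]

/-- the matrix over `Q` -/
noncomputable def MM (ι : H →ₐ[k] Q) (f : Fin r → Fin r → Module.Dual k H) (h : H) :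
    Matrix (Fin r) (Fin r) Q := Matrix.of fun i j => ι (tt (f i j) h)

lemma MM_add (f : Fin r → Fin r → Module.Dual k H) (g h : H) :
    MM ι f (g + h) = MM ι f g + MM ι f h := by
  ext i j
  simp [MM]

lemma MM_mul (hADB : SpecADB.{u, v}) (hW : LinearIndependent k W)
    {f : Fin r → Fin r → Module.Dual k H}
    (hf : ∀ (h : H) (j : Fin r), adlQ k Z ι h (W j) = ∑ i, f i j h • W i) (g h : H) :
    MM ι f (g * h) = MM ι f g * MM ι f h := by
  ext i j
  rw [Matrix.mul_apply]
  simp only [MM, Matrix.of_apply]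
  rw [tt_mul hADB hW hf, map_sum]
  exact Finset.sum_congr rfl fun l _ => by rw [map_mul]

lemma lT_dl (c : H) : Algebra.TensorProduct.map (AlgHom.id k Q) ι (dl k ι c) =
    TensorProduct.map ι.toLinearMap ι.toLinearMap (comul (R := k) c) := by
  rw [dl_eq]
  generalize comul (R := k) c = s
  induction s using TensorProduct.induction_on with
  | zero => simp
  | tmul a b => simp
  | add s t hs ht => simp only [map_add, hs, ht]

lemma lT_inj (hι : Function.Injective ι) (y : Q ⊗[k] H)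
    (h : Algebra.TensorProduct.map (AlgHom.id k Q) ι y = 0) : y = 0 := by
  have h4 : Function.Injective (ι.toLinearMap.lTensor Q) :=
    Module.Flat.lTensor_preserves_injective_linearMap _ hι
  apply h4
  rw [map_zero]
  exact h

variable [IsDomain H]

lemma inj_cols (hQ : IsCQ k H Z Q ι) (hADB : SpecADB.{u, v}) (hW : LinearIndependent k W)
    {f : Fin r → Fin r → Module.Dual k H}
    (hf : ∀ (h : H) (j : Fin r), adlQ k Z ι h (W j) = ∑ i, f i j h • W i) {c : H} (hc : c ≠ 0)
    (v : Fin r → H) (hv : ∀ i, ∑ j, tt (f i j) c * v j = 0) : ∀ j, v j = 0 := by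
  apply uniq (ι := ι) hW
  apply lT_inj hQ.inj
  refine (specREG k H Z Q ι hQ c hc _).1 ?_
  rw [← lT_dl, ← map_mul, Finset.mul_sum]
  have h1 : ∑ j, dl k ι c * ((W j ⊗ₜ[k] (1 : H)) * dl k ι (v j)) =
      ∑ i, (W i ⊗ₜ[k] (1 : H)) * dl k ι (∑ j, tt (f i j) c * v j) := by
    simp only [map_sum, map_mul, Finset.mul_sum]
    rw [Finset.sum_comm]
    refine Finset.sum_congr rfl fun l _ => ?_
    rw [← mul_assoc, key1 hADB hf, Finset.sum_mul]
    exact Finset.sum_congr rfl fun i _ => by rw [mul_assoc]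
  rw [h1]
  simp [hv]

lemma common (hQ : IsCQ k H Z Q ι) {J : Type*} (q : J → Q) (s : Finset J) :
    ∃ d : H, d ≠ 0 ∧ Cent d ∧ ∀ j ∈ s, ∃ v : H, ι d * q j = ι v := by
  classical
  induction s using Finset.induction_on with
  | empty => exact ⟨1, one_ne_zero, fun x => by rw [mul_one, one_mul], by simp⟩
  | insert a s _ ih =>
    obtain ⟨d, hd, hdc, h⟩ := ih
    obtain ⟨c, x, hc, hcc, hx⟩ := hQ.frac (q a)
    refine ⟨d * c, mul_ne_zero hd hc, cent_mul hdc hcc, ?_⟩
    intro j hj
    rw [Finset.mem_insert] at hj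
    rcases hj with rfl | hj
    · exact ⟨d * x, by rw [map_mul, map_mul, mul_assoc, hx]⟩
    · obtain ⟨v, hv⟩ := h j hj
      refine ⟨c * v, ?_⟩
      rw [hcc d, map_mul, map_mul, mul_assoc, hv]

lemma cancel (hQ : IsCQ k H Z Q ι) (hADB : SpecADB.{u, v}) (hW : LinearIndependent k W)
    {f : Fin r → Fin r → Module.Dual k H}
    (hf : ∀ (h : H) (j : Fin r), adlQ k Z ι h (W j) = ∑ i, f i j h • W i) {c : H} (hc : c ≠ 0)
    (X : Matrix (Fin r) (Fin r) Q) (hX : MM ι f c * X = 0) : X = 0 := by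
  ext j l
  obtain ⟨d, hd, hdc, h⟩ := common hQ (fun j => X j l) Finset.univ
  choose v hv using fun j => h j (Finset.mem_univ j)
  have hιd : ι d ≠ 0 := fun e => hd (hQ.inj (by rw [e, map_zero]))
  have h1 : ∀ i, ∑ j, tt (f i j) c * v j = 0 := by
    intro i
    apply hQ.inj
    rw [map_zero, map_sum]
    have h2 : (MM ι f c * X) i l = 0 := by rw [hX]; rfl
    rw [Matrix.mul_apply] at h2
    have h3 : ι d * ∑ j, MM ι f c i j * X j l = ∑ j, ι (tt (f i j) c * v j) := by
      rw [Finset.mul_sum]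
      refine Finset.sum_congr rfl fun j _ => ?_
      rw [map_mul, ← hv j, ← mul_assoc, ← mul_assoc]
      congr 1
      exact (cent_image hQ hdc _).symm
    rw [← h3, h2, mul_zero]
  have h4 := inj_cols hQ hADB hW hf hc v h1 j
  have h5 := hv j
  rw [h4, map_zero] at h5
  exact (mul_eq_zero.1 h5).resolve_left hιd

lemma cancel' (hQ : IsCQ k H Z Q ι) (hADB : SpecADB.{u, v}) (hW : LinearIndependent k W)
    {f : Fin r → Fin r → Module.Dual k H}
    (hf : ∀ (h : H) (j : Fin r), adlQ k Z ι h (W j) = ∑ i, f i j h • W i) {c : H} (hc : c ≠ 0)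
    (X Y : Matrix (Fin r) (Fin r) Q) (hX : MM ι f c * X = MM ι f c * Y) : X = Y := by
  rw [← sub_eq_zero]
  apply cancel hQ hADB hW hf hc
  rw [mul_sub, hX, sub_self]

lemma exists_inv (hQ : IsCQ k H Z Q ι) (hADB : SpecADB.{u, v}) (hW : LinearIndependent k W)
    {f : Fin r → Fin r → Module.Dual k H}
    (hf : ∀ (h : H) (j : Fin r), adlQ k Z ι h (W j) = ∑ i, f i j h • W i) {c : H} (hc : c ≠ 0) :
    ∃ N : Matrix (Fin r) (Fin r) Q, MM ι f c * N = 1 := by
  have := hQ.fin
  have h1 : Function.Injective (LinearMap.mulLeft Z (MM ι f c)) := by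
    intro X Y h
    exact cancel' hQ hADB hW hf hc X Y h
  exact LinearMap.injective_iff_surjective.1 h1 1

lemma exists_T (hQ : IsCQ k H Z Q ι) (hADB : SpecADB.{u, v}) (hW : LinearIndependent k W)
    {f : Fin r → Fin r → Module.Dual k H}
    (hf : ∀ (h : H) (j : Fin r), adlQ k Z ι h (W j) = ∑ i, f i j h • W i) (q : Q) :
    ∃ X : Matrix (Fin r) (Fin r) Q, ∀ c h : H, Cent c → ι c * q = ι h →
      MM ι f c * X = MM ι f h := by
  obtain ⟨c0, h0, hc0, hc0c, e0⟩ := hQ.frac q
  obtain ⟨N, hN⟩ := exists_inv hQ hADB hW hf hc0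
  refine ⟨N * MM ι f h0, ?_⟩
  intro c h hc e
  have h1 : c * h0 = c0 * h := by
    apply hQ.inj
    rw [map_mul, map_mul, ← e, ← e0, ← mul_assoc, ← mul_assoc, ← map_mul, ← map_mul, hc0c c]
  apply cancel' hQ hADB hW hf hc0
  have h2 : MM ι f c0 * MM ι f c = MM ι f c * MM ι f c0 := by
    rw [← MM_mul hADB hW hf, ← MM_mul hADB hW hf, hc c0]
  rw [← MM_mul hADB hW hf c0 h, ← h1, MM_mul hADB hW hf, ← mul_assoc, h2, mul_assoc,
    ← mul_assoc (MM ι f c0) N, hN, one_mul]

end

end TQM

open TQM NFAM REGM in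
/-- **TQ**. -/
theorem specTQ (hADB : SpecADB.{u, v}) : SpecTQ.{u, v} := by
  intro k H Z Q _ _ _ _ _ _ _ _ _ _ ι hQ r W f hW hWO hf
  choose X hX using exists_T hQ hADB hW hf
  have hone : MM ι f 1 = 1 := by
    apply cancel' hQ hADB hW hf (one_ne_zero (α := H))
    rw [← MM_mul hADB hW hf, mul_one, mul_one]
  have hXι : ∀ h : H, X (ι h) = MM ι f h := by
    intro h
    have h1 := hX (ι h) 1 h (fun x => by rw [mul_one, one_mul]) (by rw [map_one, one_mul])
    rwa [hone, one_mul] at h1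
  have hadd : ∀ q q' : Q, X (q + q') = X q + X q' := by
    intro q q'
    obtain ⟨c, h, hc, hcc, e⟩ := hQ.frac q
    obtain ⟨c', h', hc', hcc', e'⟩ := hQ.frac q'
    apply cancel' hQ hADB hW hf (mul_ne_zero hc hc')
    have e1 : ι (c * c') * (q + q') = ι (c' * h + c * h') := by
      rw [mul_add, map_add]
      congr 1
      · rw [hcc' c, map_mul, map_mul, mul_assoc, e]
      · rw [map_mul, map_mul, mul_assoc, e']
    rw [hX (q + q') (c * c') (c' * h + c * h') (cent_mul hcc hcc') e1, MM_add,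
      MM_mul hADB hW hf c' h, MM_mul hADB hW hf c h', mul_add]
    congr 1
    · rw [← hX q c h hcc e, ← mul_assoc, ← MM_mul hADB hW hf, hcc' c]
    · rw [← hX q' c' h' hcc' e', ← mul_assoc, ← MM_mul hADB hW hf]
  have ha : ∀ i j q q', X (q + q') i j = X q i j + X q' i j := fun i j q q' => by
    rw [hadd]; rfl
  refine ⟨fun i j => AddMonoidHom.mk' (fun q => X q i j) (ha i j), ?_, ?_⟩
  · intro i j h
    change X (ι h) i j = _
    rw [hXι]
    rfl
  · intro F hF i j q
    obtain ⟨c, h, hc, hcc, e, hcomm⟩ := hF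
    change X (algebraMap Z Q F * q) i j = algebraMap Z Q F * X q i j
    have hFc : ∀ x : Q, x * algebraMap Z Q F = algebraMap Z Q F * x :=
      fun x => (Algebra.commutes F x).symm
    -- `t_ij(c) h = t_ij(h) c`
    have h1 : ∀ i j, tt (f i j) c * h = tt (f i j) h * c := by
      intro i j
      refine uniq' (ι := ι) hW (fun i => tt (f i j) c * h) (fun i => tt (f i j) h * c) ?_ i
      have h2 : ∀ a b : H, ∑ i, (W i ⊗ₜ[k] (1 : H)) * dl k ι (tt (f i j) a * b) =
          dl k ι a * (W j ⊗ₜ[k] (1 : H)) * dl k ι b := by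
        intro a b
        rw [key1 hADB hf, Finset.sum_mul]
        exact Finset.sum_congr rfl fun i _ => by rw [map_mul, mul_assoc]
      rw [h2, h2, ← sub_eq_zero]
      apply lT_inj hQ.inj
      have h3 := hcomm (W j) (hWO j)
      have h4 : ∀ a : H, Algebra.TensorProduct.map (AlgHom.id k Q) ι (dl k ι a) = dd k ι a := by
        intro a
        rw [lT_dl]
        rfl
      rw [map_sub, map_mul, map_mul, map_mul, map_mul, h4, h4, Algebra.TensorProduct.map_tmul,
        map_one, AlgHom.id_apply, h3, sub_self]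
    have h5 : ∀ i j, MM ι f h i j = algebraMap Z Q F * MM ι f c i j := by
      intro i j
      have h6 := congrArg ι (h1 i j)
      rw [map_mul, map_mul, ← e] at h6
      have hιc : ι c ≠ 0 := fun e => hc (hQ.inj (by rw [e, map_zero]))
      apply mul_right_cancel₀ hιc
      change ι (tt (f i j) h) * ι c = algebraMap Z Q F * ι (tt (f i j) c) * ι c
      rw [← h6, hFc (ι c), ← mul_assoc, hFc]
    obtain ⟨c1, x1, hc1, hcc1, e1⟩ := hQ.frac q
    have h7 : MM ι f (c * c1) * X (algebraMap Z Q F * q) = MM ι f (h * x1) := by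
      apply hX _ _ _ (cent_mul hcc hcc1)
      rw [map_mul, map_mul, ← e, ← e1]
      rw [← mul_assoc, mul_assoc (ι c), hFc (ι c1)]
      simp only [mul_assoc]
    have h8 : MM ι f (h * x1) = MM ι f (c * c1) * (F • X q) := by
      rw [MM_mul hADB hW hf, MM_mul hADB hW hf, mul_assoc, Matrix.mul_smul, hX q c1 x1 hcc1 e1]
      ext a b
      rw [Matrix.mul_apply, Matrix.mul_apply]
      refine Finset.sum_congr rfl fun l _ => ?_
      rw [h5, Matrix.smul_apply, Algebra.smul_def, ← mul_assoc, hFc]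
    have h9 := cancel' hQ hADB hW hf (mul_ne_zero hc hc1) _ _ (h7.trans h8)
    rw [h9, Matrix.smul_apply, Algebra.smul_def]

end Pool.Agent.Lib.MP_c37a72_al.EG
end

section
/-!
# MP_c37a72_al: the ring `R₂` and the coproduct `Q → R₂`

`IsCQ k H Z Q ι`; `R₂` the central localisation of `Q ⊗ Q` at `Z ⊗ Z` (`IsCL (iZ k Z Z Q Q) jF j`).
* `jZ`, `isFrc_jZ`, `isCL_H`: `Z = Frac Z(H)`, `Q` the central localisation of `H`;
* `IsCL.finite_iZ`: `R` is finite over `F`; `isUnit_of_left_regular`;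
* `exists_D`: `D : Q → R₂` with `D (ι h) = j (ι h₁ ⊗ ι h₂)`;
* `Phi j D : Q ⊗ Q → R₂`, `a ⊗ b ↦ j (a ⊗ 1) D b`: `Phi_injective`, `Phi_surj`.
-/
set_option autoImplicit false
set_option linter.unusedSectionVars false

namespace Pool.Agent.Lib.MP_c37a72_al

open Finset TensorProduct Coalgebra HopfAlgebra

universe u v w

section center

variable {k : Type u} {H : Type v} {Z Q : Type w} [Field k] [Ring H] [Algebra k H] [Field Z]
  [Algebra k Z] [DivisionRing Q] [Algebra k Q] [Algebra Z Q] [IsScalarTower k Z Q] {ι : H →ₐ[k] Q}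

theorem cent_iff {c : H} : Cent c ↔ c ∈ Subalgebra.center k H := by
  rw [Subalgebra.mem_center_iff]; rfl

theorem exists_jZ (hQ : IsCQ k H Z Q ι) (hc : ∀ c : H, Cent c → ∀ q : Q, q * ι c = ι c * q) :
    ∃ jZ : Subalgebra.center k H →ₐ[k] Z, ∀ c, algebraMap Z Q (jZ c) = ι c := by
  classical
  have h1 : ∀ c : Subalgebra.center k H, ∃ z : Z, algebraMap Z Q z = ι c := fun c =>
    hQ.cent _ (hc _ (cent_iff.2 c.2))
  choose f hf using h1
  have hinj : Function.Injective (algebraMap Z Q) := (algebraMap Z Q).injective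
  exact ⟨{ toFun := f
           map_one' := hinj (by rw [hf, map_one]; exact map_one ι)
           map_mul' := fun a b => hinj (by rw [hf, map_mul, hf, hf]; exact map_mul ι _ _)
           map_zero' := hinj (by rw [hf, map_zero]; exact map_zero ι)
           map_add' := fun a b => hinj (by rw [hf, map_add, hf, hf]; exact map_add ι _ _)
           commutes' := fun c => hinj (by
            rw [hf, ← IsScalarTower.algebraMap_apply k Z Q]; exact ι.commutes c) }, hf⟩

theorem isFrc_jZ (hQ : IsCQ k H Z Q ι) {jZ : Subalgebra.center k H →ₐ[k] Z}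
    (hj : ∀ c, algebraMap Z Q (jZ c) = ι c) : IsFrc jZ := by
  refine ⟨fun a b hab => ?_, fun z => ?_⟩
  · have := congrArg (algebraMap Z Q) hab
    rw [hj, hj] at this
    exact Subtype.ext (hQ.inj this)
  · obtain ⟨c, h, hc0, hc, hch⟩ := hQ.frac (algebraMap Z Q z)
    have hh : Cent h := by
      intro x
      apply hQ.inj
      rw [map_mul, map_mul, ← hch]
      have e1 : ι x * ι c = ι c * ι x := by rw [← map_mul, ← map_mul, hc x]
      rw [← mul_assoc, e1, mul_assoc, mul_assoc, Algebra.commutes]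
    refine ⟨⟨h, cent_iff.1 hh⟩, ⟨c, cent_iff.1 hc⟩, fun h0 => hc0 (congrArg Subtype.val h0), ?_⟩
    apply (algebraMap Z Q).injective
    rw [map_mul, hj, hj, ← hch]
    exact Algebra.commutes _ _

theorem isCL_H (hQ : IsCQ k H Z Q ι) {jZ : Subalgebra.center k H →ₐ[k] Z}
    (hj : ∀ c, algebraMap Z Q (jZ c) = ι c) : IsCL (Subalgebra.center k H).val jZ ι where
  inj := hQ.inj
  comp c := (hj c).symm
  surj q := by
    obtain ⟨c, h, hc0, hc, hch⟩ := hQ.frac q
    exact ⟨h, ⟨c, cent_iff.1 hc⟩, fun h0 => hc0 (congrArg Subtype.val h0), by rw [hj]; exact hch⟩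

end center

section finite

variable {k Z L Q Q' F R : Type*} [Field k] [Field Z] [Field L] [Ring Q] [Ring Q'] [Algebra k Z]
  [Algebra k L] [Algebra k Q] [Algebra k Q'] [Algebra Z Q] [Algebra L Q'] [IsScalarTower k Z Q]
  [IsScalarTower k L Q'] [Field F] [Algebra k F] [Ring R] [Algebra k R] [Algebra F R]
  {jF : Z ⊗[k] L →ₐ[k] F} (hF : IsFrc jF) {j : Q ⊗[k] Q' →ₐ[k] R}
  (h : IsCL (iZ k Z L Q Q') jF j)

include hF h in
theorem IsCL.span_iZ {I J : Type*} [Fintype I] [Fintype J] (e : Module.Basis I Z Q)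
    (e' : Module.Basis J L Q') :
    Submodule.span F (Set.range fun p : I × J => j (e p.1 ⊗ₜ e' p.2)) = ⊤ := by
  rw [eq_top_iff]
  intro r _
  obtain ⟨a, c, hc, hac⟩ := h.surj r
  rw [← IsCL.inv_mul r (hF.ne' hc), hac, coordE_sum e e' a, map_sum, ← Algebra.smul_def]
  refine Submodule.smul_mem _ _ (Submodule.sum_mem _ fun p _ => ?_)
  rw [map_mul, h.comp, ← Algebra.smul_def]
  exact Submodule.smul_mem _ _ (Submodule.subset_span ⟨p, rfl⟩)

include hF h in
theorem IsCL.ind_iZ {I J : Type*} [Fintype I] [Fintype J] (e : Module.Basis I Z Q)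
    (e' : Module.Basis J L Q') :
    LinearIndependent F (fun p : I × J => j (e p.1 ⊗ₜ e' p.2)) := by
  classical
  rw [Fintype.linearIndependent_iff]
  intro g hg
  obtain ⟨c, a, hc, ha⟩ := hF.isCL.common hF Finset.univ g
  have h1 : ∑ p : I × J, iZ k Z L Q Q' (a p) * (e p.1 ⊗ₜ e' p.2) = 0 := by
    apply h.inj
    rw [map_sum, map_zero, ← mul_zero (algebraMap F R (jF c)), ← hg, Finset.mul_sum]
    refine Finset.sum_congr rfl fun p _ => ?_
    rw [map_mul, h.comp, ← ha p (mem_univ _), Algebra.smul_def, ← mul_assoc, ← map_mul]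
    rfl
  intro p
  have h2 : a p = 0 := by
    have h3 := congrArg (fun t => coordE e e' t p) h1
    simp only [map_sum, map_zero, Finsupp.coe_finsetSum, Finset.sum_apply, Finsupp.coe_zero,
      Pi.zero_apply] at h3
    rw [Finset.sum_eq_single p] at h3
    · obtain ⟨i, l⟩ := p
      rw [coordE_mul, coordE_tmul, Module.Basis.repr_self, Module.Basis.repr_self,
        Finsupp.single_eq_same, Finsupp.single_eq_same] at h3
      rw [← h3]
      exact (mul_one _).symm
    · intro q _ hq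
      obtain ⟨i, l⟩ := p
      rw [coordE_mul, coordE_tmul, Module.Basis.repr_self, Module.Basis.repr_self]
      by_cases h1 : q.1 = i
      · have h2 : q.2 ≠ l := fun h2 => hq (Prod.ext h1 h2)
        rw [Finsupp.single_eq_of_ne (a := q.2) (a' := l) (Ne.symm h2), tmul_zero, mul_zero]
      · rw [Finsupp.single_eq_of_ne (a := q.1) (a' := i) (Ne.symm h1), zero_tmul, mul_zero]
    · intro hp; exact absurd (mem_univ _) hp
  have h3 := ha p (mem_univ _)
  rw [h2, map_zero] at h3
  exact (mul_eq_zero.1 h3).resolve_left (hF.ne' hc)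

include hF h in
theorem IsCL.finite_iZ [Module.Finite Z Q] [Module.Finite L Q'] : Module.Finite F R := by
  classical
  let e := Module.finBasis Z Q
  let e' := Module.finBasis L Q'
  exact Module.Finite.of_basis (Module.Basis.mk (h.ind_iZ hF e e')
    (h.span_iZ hF e e').ge)

include hF h in
theorem IsCL.finrank_iZ [Module.Finite Z Q] [Module.Finite L Q'] :
    Module.finrank F R = Module.finrank Z Q * Module.finrank L Q' := by
  classical
  let e := Module.finBasis Z Q
  let e' := Module.finBasis L Q'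
  rw [Module.finrank_eq_card_basis (Module.Basis.mk (h.ind_iZ hF e e') (h.span_iZ hF e e').ge),
    Fintype.card_prod, Fintype.card_fin, Fintype.card_fin]

end finite

/-- left regular elements of a finite-dimensional algebra are units -/
theorem isUnit_of_left_regular {F R : Type*} [Field F] [Ring R] [Algebra F R] [Module.Finite F R]
    {x : R} (hx : ∀ y, x * y = 0 → y = 0) : IsUnit x := by
  have h1 : Function.Injective (LinearMap.mulLeft F x) := by
    rw [injective_iff_map_eq_zero]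
    exact fun y hy => hx y hy
  have h2 : Function.Surjective (LinearMap.mulLeft F x) :=
    LinearMap.surjective_of_injective h1
  obtain ⟨y, hy⟩ := h2 1
  have hy' : x * y = 1 := hy
  refine ⟨⟨x, y, hy', ?_⟩, rfl⟩
  have h3 : x * (y * x - 1) = 0 := by rw [mul_sub, ← mul_assoc, hy', one_mul, mul_one, sub_self]
  exact sub_eq_zero.1 (hx _ h3)

/-- left regularity passes to the central localisation -/
theorem IsCL.left_regular {k C A F R : Type*} [Field k] [CommRing C] [Algebra k C] [Ring A]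
    [Algebra k A] [Field F] [Algebra k F] [Ring R] [Algebra k R] [Algebra F R]
    {ι : C →ₐ[k] A} {jF : C →ₐ[k] F} {j : A →ₐ[k] R} (h : IsCL ι jF j) (hF : IsFrc jF) {a : A}
    (ha : ∀ b, a * b = 0 → b = 0) (r : R) (hr : j a * r = 0) : r = 0 := by
  obtain ⟨b, c, hc, hbc⟩ := h.surj r
  have h1 : j (a * b) = 0 := by
    rw [map_mul, ← hbc, ← mul_assoc, ← Algebra.commutes, mul_assoc, hr, mul_zero]
  have h2 : b = 0 := ha b (h.inj (by rw [h1, map_zero]))
  rw [h2, map_zero] at hbc
  rw [← IsCL.inv_mul r (hF.ne' hc), hbc, mul_zero]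

section D

variable {k : Type u} {H : Type v} {Z Q : Type w} [Field k] [Ring H] [IsDomain H]
  [HopfAlgebra k H] [Field Z] [Algebra k Z] [DivisionRing Q] [Algebra k Q] [Algebra Z Q]
  [IsScalarTower k Z Q] {ι : H →ₐ[k] Q} (hQ : IsCQ k H Z Q ι)
  {F2 R2 : Type*} [Field F2] [Algebra k F2] [Ring R2] [Algebra k R2] [Algebra F2 R2]
  {jF : Z ⊗[k] Z →ₐ[k] F2} (hF : IsFrc jF) {j : Q ⊗[k] Q →ₐ[k] R2}
  (h2 : IsCL (iZ k Z Z Q Q) jF j)

/-- `h ↦ ι h₁ ⊗ ι h₂` -/
noncomputable def dQ (ι : H →ₐ[k] Q) : H →ₐ[k] Q ⊗[k] Q :=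
  (Algebra.TensorProduct.map ι ι).comp (Bialgebra.comulAlgHom k H)

theorem dQ_apply (h : H) : dQ ι h
    = TensorProduct.map ι.toLinearMap ι.toLinearMap (comul (R := k) h) := rfl

include hQ hF h2 in
/-- **the coproduct of `Q`** -/
theorem exists_D : ∃ D : Q →ₐ[k] R2, ∀ h, D (ι h) = j (dQ ι h) := by
  have := hQ.fin
  have := h2.finite_iZ hF
  obtain ⟨jZ, hjZ⟩ := exists_jZ hQ (fun c hc q => REGM.cent_image hQ hc q)
  refine (isCL_H hQ hjZ).exists_lift (isFrc_jZ hQ hjZ) (j.comp (dQ ι)) (fun c hc => ?_)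
  refine isUnit_of_left_regular (F := F2) fun r hr => ?_
  refine h2.left_regular hF (a := dQ ι c) (fun b hb => ?_) r hr
  exact (specREG k H Z Q ι hQ (c : H) (fun h0 => hc (Subtype.ext h0)) b).1 hb

/-- `a ⊗ b ↦ j (a ⊗ 1) D b` -/
noncomputable def Phi (j : Q ⊗[k] Q →ₐ[k] R2) (D : Q →ₐ[k] R2) : Q ⊗[k] Q →ₗ[k] R2 :=
  TensorProduct.lift ((LinearMap.mul k R2).compl₁₂
    (j.comp (Algebra.TensorProduct.includeLeft : Q →ₐ[k] Q ⊗[k] Q)).toLinearMap D.toLinearMap)

@[simp] theorem Phi_tmul (j : Q ⊗[k] Q →ₐ[k] R2) (D : Q →ₐ[k] R2) (a b : Q) :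
    Phi j D (a ⊗ₜ b) = j (a ⊗ₜ 1) * D b := rfl

theorem Phi_mul_right (j : Q ⊗[k] Q →ₐ[k] R2) (D : Q →ₐ[k] R2) (x : Q ⊗[k] Q) (q : Q) :
    Phi j D (x * (1 ⊗ₜ q)) = Phi j D x * D q := by
  induction x using TensorProduct.induction_on with
  | zero => simp
  | add x y hx hy => rw [add_mul, map_add, map_add, hx, hy, add_mul]
  | tmul a b =>
    rw [Algebra.TensorProduct.tmul_mul_tmul, mul_one, Phi_tmul, Phi_tmul, map_mul, mul_assoc]

theorem Phi_mul_left (j : Q ⊗[k] Q →ₐ[k] R2) (D : Q →ₐ[k] R2) (x : Q ⊗[k] Q) (q : Q) :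
    Phi j D ((q ⊗ₜ 1) * x) = j (q ⊗ₜ 1) * Phi j D x := by
  induction x using TensorProduct.induction_on with
  | zero => simp
  | add x y hx hy => rw [mul_add, map_add, map_add, hx, hy, mul_add]
  | tmul a b =>
    rw [Algebra.TensorProduct.tmul_mul_tmul, one_mul, Phi_tmul, Phi_tmul, ← mul_assoc, ← map_mul,
      Algebra.TensorProduct.tmul_mul_tmul, mul_one]

variable {D : Q →ₐ[k] R2} (hD : ∀ h, D (ι h) = j (dQ ι h))

include hD in
theorem Phi_Rf (x : Q ⊗[k] H) : Phi j D (ι.toLinearMap.lTensor Q x)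
    = j (ι.toLinearMap.lTensor Q (REGM.Rf ι.toLinearMap x)) := by
  induction x using TensorProduct.induction_on with
  | zero => simp
  | add x y hx hy => simp only [map_add, hx, hy]
  | tmul q h =>
    rw [LinearMap.lTensor_tmul, Phi_tmul, REGM.Rf_tmul]
    have h1 : ∀ (y : Q ⊗[k] H), ι.toLinearMap.lTensor Q ((q ⊗ₜ[k] 1) * y)
        = (q ⊗ₜ 1) * ι.toLinearMap.lTensor Q y := by
      intro y
      have := map_mul (Algebra.TensorProduct.map (AlgHom.id k Q) ι) (q ⊗ₜ 1) y
      rw [Algebra.TensorProduct.map_tmul, map_one] at this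
      exact this
    rw [h1, map_mul]
    congr 1
    show D (ι h) = _
    rw [hD]
    congr 1
    rw [dQ_apply]
    generalize comul (R := k) h = t
    induction t using TensorProduct.induction_on with
    | zero => simp
    | add x y hx hy => simp only [map_add, hx, hy]
    | tmul a b => rfl

include hQ hF h2 hD in
theorem Phi_injective : Function.Injective (Phi j D) := by
  rw [injective_iff_map_eq_zero]
  intro x hx
  obtain ⟨z, hz0, hz, v, hv⟩ := REGM.den_right hQ x
  have hz1 : ι z ≠ 0 := fun h => hz0 (hQ.inj (by rw [h, map_zero]))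
  have h1 : x * (1 ⊗ₜ ι z) = ι.toLinearMap.lTensor Q v := by
    rw [← hv, REGM.cent_tmul' hQ hz]
  have h3 : Phi j D (ι.toLinearMap.lTensor Q v) = 0 := by
    rw [← h1, Phi_mul_right, hx, zero_mul]
  rw [Phi_Rf hD] at h3
  have hinj : Function.Injective (ι.toLinearMap.lTensor Q) :=
    Module.Flat.lTensor_preserves_injective_linearMap _ hQ.inj
  have h4 : REGM.Rf ι.toLinearMap v = 0 := hinj (h2.inj (by rw [h3, map_zero, map_zero]))
  have h5 : v = 0 := by
    have := congrArg (REGM.Rf (ι.toLinearMap ∘ₗ antipode k)) h4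
    rwa [REGM.Rf_comp, REGM.cv1, REGM.Rf_e0, map_zero] at this
  rw [h5, map_zero] at h1
  have h6 : x * (1 ⊗ₜ ι z) * (1 ⊗ₜ (ι z)⁻¹) = x := by
    rw [mul_assoc, Algebra.TensorProduct.tmul_mul_tmul, mul_one, mul_inv_cancel₀ hz1]
    exact mul_one x
  rw [← h6, h1, zero_mul]

include hQ hF h2 hD in
/-- every element of `R₂` is a central multiple of an element of the image of `Phi` -/
theorem Phi_surj (r : R2) : ∃ (t : Z ⊗[k] Z) (x : Q ⊗[k] Q), t ≠ 0 ∧
    algebraMap F2 R2 (jF t) * r = Phi j D x := by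
  obtain ⟨w, t, ht, hw⟩ := h2.surj r
  obtain ⟨z, hz0, hz, v, hv⟩ := REGM.den_right hQ w
  obtain ⟨jZ, hjZ⟩ := exists_jZ hQ (fun c hc q => REGM.cent_image hQ hc q)
  let z' : Subalgebra.center k H := ⟨z, cent_iff.1 hz⟩
  have hz' : algebraMap Z Q (jZ z') = ι z := hjZ z'
  have hz'0 : jZ z' ≠ 0 := by
    intro h0
    rw [h0, map_zero] at hz'
    exact hz0 (hQ.inj (by rw [← hz', map_zero]))
  have ht' : (1 : Z) ⊗ₜ[k] jZ z' ≠ 0 := by
    intro h0
    have h6 := (Module.Flat.rTensor_preserves_injective_linearMap (M := Z)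
      (Algebra.linearMap k Z) (algebraMap k Z).injective)
    have h7 : (1 : k) ⊗ₜ[k] jZ z' = 0 := h6 (by
      rw [map_zero, LinearMap.rTensor_tmul, Algebra.linearMap_apply, map_one]; exact h0)
    have h8 := congrArg (TensorProduct.lid k Z) h7
    rw [TensorProduct.lid_tmul, one_smul, map_zero] at h8
    exact hz'0 h8
  refine ⟨(1 ⊗ₜ jZ z') * t, ι.toLinearMap.lTensor Q
    (REGM.Rf (ι.toLinearMap ∘ₗ antipode k) v), hF.mul_ne ht' ht, ?_⟩
  rw [Phi_Rf hD, REGM.Rf_comp, REGM.cv2, REGM.Rf_e0, ← hv, map_mul, map_mul, mul_assoc, hw,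
    map_mul, ← h2.comp, iZ_tmul, hz', map_one]

end D

end Pool.Agent.Lib.MP_c37a72_al
end

section
/-!
# MP_c37a72_al: purity

* `echelon`: reduced echelon basis of a right subspace `T ⊆ Dⁿ` (`D` a division ring);
* `pur_abs`: if `∑ L(φ_i) W M(u_i) = 0` for `u ∈ T`, `φ ∈ T^⊥`, then `T` has an echelon basis whose
  entries satisfy `L(q) W = W M(q)`;
* `t1`: `(q' ⊗ 1) W = W (1 ⊗ q)`, `W ≠ 0`, `k` algebraically closed: `q = q' ∈ k`;
* `pur`: purity in `D ⊗ D`; `t1_R2`, `pur_R2`: the same in `R₂` with `L(q) = j (q ⊗ 1)`, `M = D`.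
-/
set_option autoImplicit false
set_option linter.unusedSectionVars false

namespace Pool.Agent.Lib.MP_c37a72_al

open Finset TensorProduct Coalgebra HopfAlgebra

universe u v w

section echelon

variable {D R : Type*} [DivisionRing D] [Ring R] {n : Type*} [Fintype n] [DecidableEq n]

/-- reduced echelon basis of a right subspace of `Dⁿ` -/
theorem echelon (T : Submodule Dᵐᵒᵖ (n → D)) : ∃ (J : Finset n) (u : n → n → D),
    (∀ j ∈ J, u j ∈ T) ∧ (∀ j ∈ J, ∀ j' ∈ J, u j j' = if j' = j then 1 else 0) ∧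
    ∀ t ∈ T, ∀ i, t i = ∑ j ∈ J, u j i * t j := by
  classical
  let P : Finset (Finset n) := univ.filter fun J => ∀ t ∈ T, (∀ j ∈ J, t j = 0) → t = 0
  have hP : P.Nonempty := ⟨univ, by
    simp only [P, mem_filter, mem_univ, true_and]
    intro t _ ht
    funext i
    exact ht i trivial⟩
  obtain ⟨J, hJ, hmin⟩ := P.exists_min_image Finset.card hP
  have hJ' : ∀ t ∈ T, (∀ j ∈ J, t j = 0) → t = 0 := by
    simpa only [P, mem_filter, mem_univ, true_and] using hJ
  have h1 : ∀ j ∈ J, ∃ u ∈ T, ∀ j' ∈ J, u j' = if j' = j then 1 else 0 := by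
    intro j hj
    have h2 : J.erase j ∉ P := fun h => by
      have := hmin _ h
      have h3 := Finset.card_erase_lt_of_mem hj
      omega
    have h3 : ∃ t ∈ T, (∀ j' ∈ J.erase j, t j' = 0) ∧ t ≠ 0 := by
      by_contra hcon
      push Not at hcon
      apply h2
      simp only [P, mem_filter, mem_univ, true_and]
      exact hcon
    obtain ⟨t, htT, ht0, htn⟩ := h3
    have h4 : t j ≠ 0 := fun h0 => htn (hJ' t htT fun j' hj' => by
      by_cases h : j' = j
      · rw [h, h0]
      · exact ht0 j' (mem_erase.2 ⟨h, hj'⟩))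
    refine ⟨MulOpposite.op (t j)⁻¹ • t, T.smul_mem _ htT, fun j' hj' => ?_⟩
    rw [Pi.smul_apply, op_smul_eq_mul]
    by_cases h : j' = j
    · rw [h, mul_inv_cancel₀ h4, if_pos rfl]
    · rw [ht0 j' (mem_erase.2 ⟨h, hj'⟩), zero_mul, if_neg h]
  choose! u huT hu using h1
  refine ⟨J, u, huT, hu, fun t ht i => ?_⟩
  have h5 : t - ∑ j ∈ J, MulOpposite.op (t j) • u j = 0 := by
    apply hJ'
    · exact T.sub_mem ht (T.sum_mem fun j hj => T.smul_mem _ (huT j hj))
    · intro j' hj'
      rw [Pi.sub_apply, Finset.sum_apply]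
      simp only [Pi.smul_apply, op_smul_eq_mul]
      rw [Finset.sum_congr rfl fun j hj => by rw [hu j hj j' hj', ite_mul, one_mul, zero_mul]]
      rw [Finset.sum_ite_eq, if_pos hj', sub_self]
  have h6 := congrFun h5 i
  rw [Pi.sub_apply, Finset.sum_apply, Pi.zero_apply, sub_eq_zero] at h6
  simpa only [Pi.smul_apply, op_smul_eq_mul] using h6

/-- the abstract form of purity -/
theorem pur_abs (L M : D →+* R) (W : R) (T : Submodule Dᵐᵒᵖ (n → D))
    (h : ∀ u ∈ T, ∀ φ : n → D, (∀ t ∈ T, ∑ i, φ i * t i = 0) →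
      ∑ i, L (φ i) * W * M (u i) = 0) :
    ∃ (J : Finset n) (u : n → n → D),
    (∀ j ∈ J, u j ∈ T) ∧ (∀ j ∈ J, ∀ j' ∈ J, u j j' = if j' = j then 1 else 0) ∧
    (∀ t ∈ T, ∀ i, t i = ∑ j ∈ J, u j i * t j) ∧
    ∀ j ∈ J, ∀ i, L (u j i) * W = W * M (u j i) := by
  classical
  obtain ⟨J, u, huT, hu, hT⟩ := echelon T
  refine ⟨J, u, huT, hu, hT, fun j hj i => ?_⟩
  have h1 := h (u j) (huT j hj)
    (fun l => (if l = i then 1 else 0) - if l ∈ J then u l i else 0) (fun t ht => by
      simp only [sub_mul, ite_mul, one_mul, zero_mul]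
      rw [Finset.sum_sub_distrib, Finset.sum_ite_eq', if_pos (mem_univ i), Finset.sum_ite_mem,
        univ_inter, ← hT t ht i, sub_self])
  have h2 : ∀ l, L ((if l = i then 1 else 0) - if l ∈ J then u l i else 0) * W * M (u j l)
      = (if l = i then W * M (u j l) else 0) - if l ∈ J then L (u l i) * W * M (u j l) else 0 := by
    intro l
    rw [map_sub, sub_mul, sub_mul]
    congr 1
    · split_ifs
      · rw [map_one, one_mul]
      · rw [map_zero, zero_mul, zero_mul]
    · split_ifs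
      · rfl
      · rw [map_zero, zero_mul, zero_mul]
  rw [Finset.sum_congr rfl fun l _ => h2 l, Finset.sum_sub_distrib, Finset.sum_ite_eq',
    if_pos (mem_univ i), Finset.sum_ite_mem, univ_inter] at h1
  have h3 : ∑ l ∈ J, L (u l i) * W * M (u j l) = L (u j i) * W := by
    rw [Finset.sum_congr rfl fun l hl => by
      rw [hu j hj l hl, apply_ite M, map_one, map_zero, mul_ite, mul_one, mul_zero]]
    rw [Finset.sum_ite_eq', if_pos hj]
  rw [h3, sub_eq_zero] at h1
  exact h1.symm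

/-- a right subspace with an echelon basis with entries in a set `S` is generated by its vectors
with entries in `S` -/
theorem span_of_echelon {T : Submodule Dᵐᵒᵖ (n → D)} {J : Finset n} {u : n → n → D}
    (huT : ∀ j ∈ J, u j ∈ T) (hT : ∀ t ∈ T, ∀ i, t i = ∑ j ∈ J, u j i * t j) {S : Set D}
    (hS : ∀ j ∈ J, ∀ i, u j i ∈ S) :
    T = Submodule.span Dᵐᵒᵖ {t | t ∈ T ∧ ∀ i, t i ∈ S} := by
  apply le_antisymm
  · intro t ht
    have h1 : t = ∑ j ∈ J, MulOpposite.op (t j) • u j := by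
      funext i
      rw [Finset.sum_apply, hT t ht i]
      simp only [Pi.smul_apply, op_smul_eq_mul]
    rw [h1]
    exact Submodule.sum_mem _ fun j hj => Submodule.smul_mem _ _
      (Submodule.subset_span ⟨huT j hj, hS j hj⟩)
  · exact Submodule.span_le.2 fun t ht => ht.1

end echelon

section t1

variable {k D D' : Type*} [Field k] [DivisionRing D] [Algebra k D] [DivisionRing D'] [Algebra k D']

/-- an element of a division algebra over an algebraically closed field with a
finite-dimensional invariant subspace is a scalar -/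
theorem scalar_of_invariant [IsAlgClosed k] (q : D) (A : Submodule k D) [Module.Finite k A]
    (hA : A ≠ ⊥) (h : ∀ a ∈ A, q * a ∈ A) : ∃ c : k, algebraMap k D c = q := by
  have : Nontrivial A := Submodule.nontrivial_iff_ne_bot.2 hA
  let f : Module.End k A := (LinearMap.mulLeft k q).restrict h
  obtain ⟨c, hc⟩ := Module.End.exists_eigenvalue f
  obtain ⟨a, ha⟩ := hc.exists_hasEigenvector
  have h1 := ha.apply_eq_smul
  have h2 := congrArg (Subtype.val) h1
  have h3 : q * (a : D) = c • (a : D) := h2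
  have h4 : (a : D) ≠ 0 := fun h0 => ha.2 (Subtype.ext h0)
  refine ⟨c, ?_⟩
  rw [Algebra.smul_def] at h3
  exact (mul_right_cancel₀ h4 h3).symm

/-- the slices `(id ⊗ φ) W` -/
noncomputable def slice (W : D ⊗[k] D') : Module.Dual k D' →ₗ[k] D where
  toFun φ := TensorProduct.rid k D (φ.lTensor D W)
  map_add' φ ψ := by rw [LinearMap.lTensor_add, LinearMap.add_apply, map_add]
  map_smul' c φ := by rw [LinearMap.lTensor_smul, LinearMap.smul_apply, map_smul, RingHom.id_apply]

theorem slice_tmul (a : D) (b : D') (φ : Module.Dual k D') : slice (a ⊗ₜ b) φ = φ b • a := by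
  show TensorProduct.rid k D (φ.lTensor D (a ⊗ₜ b)) = _
  rw [LinearMap.lTensor_tmul, TensorProduct.rid_tmul]

theorem slice_add (W W' : D ⊗[k] D') (φ : Module.Dual k D') :
    slice (W + W') φ = slice W φ + slice W' φ := by
  show TensorProduct.rid k D (φ.lTensor D (W + W')) = _
  rw [map_add, map_add]; rfl

theorem slice_zero (φ : Module.Dual k D') : slice (0 : D ⊗[k] D') φ = 0 := by
  show TensorProduct.rid k D (φ.lTensor D 0) = _
  rw [map_zero, map_zero]

theorem slice_mul_left (q : D) (W : D ⊗[k] D') (φ : Module.Dual k D') :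
    slice ((q ⊗ₜ 1) * W) φ = q * slice W φ := by
  induction W using TensorProduct.induction_on with
  | zero => rw [mul_zero, slice_zero, mul_zero]
  | add x y hx hy => rw [mul_add, slice_add, slice_add, hx, hy, mul_add]
  | tmul a b =>
    rw [Algebra.TensorProduct.tmul_mul_tmul, one_mul, slice_tmul, slice_tmul, mul_smul_comm]

theorem slice_mul_right (q : D') (W : D ⊗[k] D') (φ : Module.Dual k D') :
    slice (W * (1 ⊗ₜ q)) φ = slice W (φ ∘ₗ LinearMap.mulRight k q) := by
  induction W using TensorProduct.induction_on with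
  | zero => rw [zero_mul, slice_zero, slice_zero]
  | add x y hx hy => rw [add_mul, slice_add, slice_add, hx, hy]
  | tmul a b =>
    rw [Algebra.TensorProduct.tmul_mul_tmul, mul_one, slice_tmul, slice_tmul, LinearMap.comp_apply,
      LinearMap.mulRight_apply]

theorem slice_fin (W : D ⊗[k] D') : ∃ B : Submodule k D, Module.Finite k B ∧
    ∀ φ, slice W φ ∈ B := by
  induction W using TensorProduct.induction_on with
  | zero => exact ⟨⊥, inferInstance, fun φ => by rw [slice_zero]; exact Submodule.zero_mem _⟩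
  | add x y hx hy =>
    obtain ⟨B, hB, h⟩ := hx
    obtain ⟨C, hC, h'⟩ := hy
    exact ⟨B ⊔ C, inferInstance, fun φ => by
      rw [slice_add]
      exact Submodule.add_mem _ (Submodule.mem_sup_left (h φ)) (Submodule.mem_sup_right (h' φ))⟩
  | tmul a b =>
    refine ⟨Submodule.span k {a}, inferInstance, fun φ => ?_⟩
    rw [slice_tmul]
    exact Submodule.smul_mem _ _ (Submodule.mem_span_singleton_self a)

theorem slice_inj (W : D ⊗[k] D') (h : ∀ φ, slice W φ = 0) : W = 0 := by
  classical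
  let b := Module.Basis.ofVectorSpace k D'
  let e := TensorProduct.equivFinsuppOfBasisRight (M := D) b
  apply e.injective
  rw [map_zero]
  ext i
  have h1 : ∀ V : D ⊗[k] D', e V i = slice V (b.coord i) := by
    intro V
    induction V using TensorProduct.induction_on with
    | zero => rw [map_zero, slice_zero]; rfl
    | add x y hx hy => rw [map_add, Finsupp.add_apply, hx, hy, slice_add]
    | tmul a c =>
      rw [slice_tmul]
      exact TensorProduct.equivFinsuppOfBasisRight_apply_tmul_apply b a c i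
  rw [h1, h]; rfl

/-- **T1'**. -/
theorem t1 [IsAlgClosed k] {W : D ⊗[k] D'} (hW : W ≠ 0) {q : D} {q' : D'}
    (h : (q ⊗ₜ 1) * W = W * (1 ⊗ₜ q')) : ∃ c : k, algebraMap k D c = q ∧ algebraMap k D' c = q' := by
  have hA : LinearMap.range (slice W) ≠ ⊥ := by
    intro h0
    apply hW
    apply slice_inj
    intro φ
    have : slice W φ ∈ LinearMap.range (slice W) := ⟨φ, rfl⟩
    rw [h0] at this
    exact this
  obtain ⟨B, hB, hWB⟩ := slice_fin W
  have hfin : Module.Finite k (LinearMap.range (slice W)) :=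
    Submodule.finiteDimensional_of_le (S₂ := B) (by rintro _ ⟨φ, rfl⟩; exact hWB φ)
  obtain ⟨c, hc⟩ := scalar_of_invariant q (LinearMap.range (slice W)) hA (by
    rintro _ ⟨φ, rfl⟩
    rw [← slice_mul_left, h, slice_mul_right]
    exact ⟨_, rfl⟩)
  refine ⟨c, hc, ?_⟩
  by_contra hne
  apply hW
  have h1 : W * (1 ⊗ₜ (algebraMap k D' c - q')) = 0 := by
    rw [TensorProduct.tmul_sub, mul_sub, sub_eq_zero, ← h, ← hc]
    have h2 : (1 : D) ⊗ₜ[k] algebraMap k D' c = algebraMap k (D ⊗[k] D') c := by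
      rw [Algebra.TensorProduct.algebraMap_apply, ← mul_one (algebraMap k D c), ← Algebra.smul_def,
        Algebra.algebraMap_eq_smul_one, TensorProduct.tmul_smul, TensorProduct.smul_tmul']
    have h3 : algebraMap k D c ⊗ₜ[k] (1 : D') = algebraMap k (D ⊗[k] D') c := by
      rw [Algebra.TensorProduct.algebraMap_apply]
    rw [h2, h3]
    exact (Algebra.commutes _ _).symm
  have h3 : algebraMap k D' c - q' ≠ 0 := sub_ne_zero.2 hne
  calc W = W * (1 ⊗ₜ (algebraMap k D' c - q')) * (1 ⊗ₜ (algebraMap k D' c - q')⁻¹) := by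
        rw [mul_assoc, Algebra.TensorProduct.tmul_mul_tmul, mul_inv_cancel₀ h3, one_mul]
        exact (mul_one W).symm
    _ = 0 := by rw [h1, zero_mul]

/-- **PUR** over a division ring. -/
theorem pur [IsAlgClosed k] {n : Type*} [Fintype n] {W : D ⊗[k] D} (hW : W ≠ 0)
    (T : Submodule Dᵐᵒᵖ (n → D))
    (h : ∀ u ∈ T, ∀ φ : n → D, (∀ t ∈ T, ∑ i, φ i * t i = 0) →
      ∑ i, (φ i ⊗ₜ[k] (1 : D)) * W * ((1 : D) ⊗ₜ[k] u i) = 0) :
    T = Submodule.span Dᵐᵒᵖ {t | t ∈ T ∧ ∀ i, t i ∈ Set.range (algebraMap k D)} := by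
  classical
  obtain ⟨J, u, huT, _, hT, hq⟩ := pur_abs
    (Algebra.TensorProduct.includeLeft : D →ₐ[k] D ⊗[k] D).toRingHom
    (Algebra.TensorProduct.includeRight : D →ₐ[k] D ⊗[k] D).toRingHom W T h
  refine span_of_echelon huT hT fun j hj i => ?_
  obtain ⟨c, hc, _⟩ := t1 hW (hq j hj i)
  exact ⟨c, hc⟩

end t1

section R2

variable {k : Type u} {H : Type v} {Z Q : Type w} [Field k] [Ring H] [IsDomain H]
  [HopfAlgebra k H] [Field Z] [Algebra k Z] [DivisionRing Q] [Algebra k Q] [Algebra Z Q]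
  [IsScalarTower k Z Q] {ι : H →ₐ[k] Q} (hQ : IsCQ k H Z Q ι) {F2 R2 : Type*} [Field F2]
  [Algebra k F2] [Ring R2] [Algebra k R2] [Algebra F2 R2] {jF : Z ⊗[k] Z →ₐ[k] F2}
  (hF : IsFrc jF) {j : Q ⊗[k] Q →ₐ[k] R2} (h2 : IsCL (iZ k Z Z Q Q) jF j)
  {D : Q →ₐ[k] R2} (hD : ∀ h, D (ι h) = j (dQ ι h))

include hQ hF h2 hD in
/-- **T1'** in `R₂`: `(q ⊗ 1) W = W D(q')` implies `q = q' ∈ k`. -/
theorem t1_R2 [IsAlgClosed k] {W : R2} (hW : W ≠ 0) {q q' : Q}
    (h : j (q ⊗ₜ 1) * W = W * D q') : ∃ c : k, algebraMap k Q c = q ∧ algebraMap k Q c = q' := by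
  obtain ⟨t, x, ht, hx⟩ := Phi_surj hQ hF h2 hD W
  have hinj := Phi_injective hQ hF h2 hD
  have ht' : jF t ≠ 0 := hF.ne' ht
  have hx0 : x ≠ 0 := by
    intro h0
    rw [h0, map_zero] at hx
    apply hW
    have : Nontrivial R2 := ⟨⟨W, 0, hW⟩⟩
    have h3 := congrArg (fun r => algebraMap F2 R2 (jF t)⁻¹ * r) hx
    simpa only [← mul_assoc, ← map_mul, inv_mul_cancel₀ ht', map_one, one_mul, mul_zero] using h3
  apply t1 (D := Q) (D' := Q) hx0
  apply hinj
  rw [Phi_mul_left, Phi_mul_right, ← hx, ← mul_assoc, ← Algebra.commutes, mul_assoc, h, mul_assoc]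

include hQ hF h2 hD in
/-- **PUR** in `R₂`. -/
theorem pur_R2 [IsAlgClosed k] {n : Type*} [Fintype n] {W : R2} (hW : W ≠ 0)
    (T : Submodule Qᵐᵒᵖ (n → Q))
    (h : ∀ u ∈ T, ∀ φ : n → Q, (∀ t ∈ T, ∑ i, φ i * t i = 0) →
      ∑ i, j (φ i ⊗ₜ 1) * W * D (u i) = 0) :
    T = Submodule.span Qᵐᵒᵖ {t | t ∈ T ∧ ∀ i, t i ∈ Set.range (algebraMap k Q)} := by
  classical
  obtain ⟨J, u, huT, _, hT, hq⟩ := pur_abs
    (j.comp (Algebra.TensorProduct.includeLeft : Q →ₐ[k] Q ⊗[k] Q)).toRingHom
    D.toRingHom W T h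
  refine span_of_echelon huT hT fun l hl i => ?_
  obtain ⟨c, hc, _⟩ := t1_R2 hQ hF h2 hD hW (hq l hl i)
  exact ⟨c, hc⟩

end R2

end Pool.Agent.Lib.MP_c37a72_al
end
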