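import Pool.Agent.Lib.MP_c37a72_al.FRU
import Pool.Agent.Lib.MP_c37a72_al.PlX

section
/-!
# MP_c37a72_al: uniqueness of places, universal property of the Gauss place, lifts from `frS`

* `Pl.ext_of_le`: two places with `p.r f g → q.r f g` are equal.
* `Pl.gauss_univ`: a place of `F` which extends `p` and is the identity on `L` is the Gauss place
  (hence transitivity of Gauss places, independence of the order of the variables).
* `frS_lift`, `frS_hom_ext`: homomorphisms from `Frac (A ⊗ B)`.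
-/
set_option autoImplicit false
set_option linter.unusedSectionVars false

namespace Pool.Agent.Lib.MP_c37a72_al

open Finset TensorProduct

universe u v w

/-- two comparable places are equal -/
theorem Pl.ext_of_le {F K : Type*} [Field F] [Field K] (p q : Pl F K)
    (h : ∀ f g, p.r f g → q.r f g) : p = q := by
  have h' : ∀ f g, q.r f g → p.r f g := by
    intro f g hq
    rcases p.dich f with ⟨l, hl⟩ | h0
    · rw [q.uniq hq (h _ _ hl)]; exact hl
    · have h1 := h _ _ h0
      rcases eq_or_ne f 0 with rfl | hf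
      · rw [q.uniq hq q.zero]; exact p.zero
      · exfalso
        have h2 := q.not_inv h1 (inv_ne_zero hf)
        rw [inv_inv] at h2
        exact h2 ⟨g, hq⟩
  have : p.r = q.r := by
    funext f g
    exact propext ⟨h f g, h' f g⟩
  cases p
  cases q
  cases this
  rfl

namespace Pl

variable {k : Type u} [Field k] {Z K : Type*} [Field Z] [Field K] [Algebra k Z] [Algebra k K]
  (p : Pl Z K) (hp : p.Over k) {L : Type*} [Field L] [Algebra k L]
  {F G : Type*} [Field F] [Field G] [Algebra k F] [Algebra k G]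
  (jF : Z ⊗[k] L →ₐ[k] F) (jG : K ⊗[k] L →ₐ[k] G) (hF : IsFrc jF) (hG : IsFrc jG)

/-- **universal property of the Gauss place** -/
theorem gauss_univ (q : Pl F G) (h1 : ∀ z l, p.r z l → q.r (jF (z ⊗ₜ 1)) (jG (l ⊗ₜ 1)))
    (h2 : ∀ l, q.r (jF (1 ⊗ₜ l)) (jG (1 ⊗ₜ l))) : p.gauss hp jF jG hF hG = q := by
  apply Pl.ext_of_le
  rintro f g ⟨a, b, hb, hf, hg⟩
  have key : ∀ t : p.V hp ⊗[k] L, q.r (jF (p.inc hp L t)) (jG (p.evt hp L t)) := by
    intro t
    induction t using TensorProduct.induction_on with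
    | zero => simp only [map_zero]; exact q.zero
    | add x y hx hy => simp only [map_add]; exact q.add hx hy
    | tmul v l =>
      have e1 : jF (p.inc hp L (v ⊗ₜ l)) = jF ((v : Z) ⊗ₜ 1) * jF (1 ⊗ₜ l) := by
        rw [inc_tmul, ← map_mul, Algebra.TensorProduct.tmul_mul_tmul, mul_one, one_mul]
      have e2 : jG (p.evt hp L (v ⊗ₜ l)) = jG ((p.ρ hp v) ⊗ₜ 1) * jG (1 ⊗ₜ l) := by
        rw [evt_tmul, ← map_mul, Algebra.TensorProduct.tmul_mul_tmul, mul_one, one_mul]
      rw [e1, e2]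
      exact q.mul (h1 _ _ (p.r_ρ hp v)) (h2 l)
  have hbG : jG (p.evt hp L b) ≠ 0 := fun h => hb (hG.inj (by rw [h, map_zero]))
  have hbF := p.inc_ne hp hF hb
  have e1 : f = jF (p.inc hp L a) / jF (p.inc hp L b) := by rw [eq_div_iff hbF, hf]
  have e2 : g = jG (p.evt hp L a) / jG (p.evt hp L b) := by rw [eq_div_iff hbG, hg]
  rw [e1, e2]
  exact q.div (key a) (key b) hbG

end Pl

section lift

variable {k : Type*} [Field k] {Z L F : Type*} [Field Z] [Field L] [Field F] [Algebra k Z]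
  [Algebra k L] [Algebra k F] {jF : Z ⊗[k] L →ₐ[k] F} (hF : IsFrc jF)

/-- homomorphisms from `Frac (A ⊗ B)`: existence -/
theorem frS_lift (A : IntermediateField k Z) (B : IntermediateField k L) {G : Type*} [Field G]
    [Algebra k G] (h : A ⊗[k] B →ₐ[k] G) (hinj : Function.Injective h) :
    ∃ Φ : frS hF A B →ₐ[k] G, ∀ t, Φ (jS hF A B t) = h t :=
  (isFrc_jS hF A B).exists_lift h hinj

/-- homomorphisms from `Frac (A ⊗ B)`: uniqueness -/
theorem frS_hom_ext {A : IntermediateField k Z} {B : IntermediateField k L} {G : Type*} [Ring G]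
    [Algebra k G] {Φ Φ' : frS hF A B →ₐ[k] G}
    (h : ∀ (a : A) (b : B), Φ (jS hF A B (a ⊗ₜ b)) = Φ' (jS hF A B (a ⊗ₜ b))) : Φ = Φ' := by
  apply (isFrc_jS hF A B).hom_ext
  intro t
  induction t using TensorProduct.induction_on with
  | zero => simp only [map_zero]
  | add x y hx hy => simp only [map_add, hx, hy]
  | tmul a b => exact h a b

theorem jS_tmul (A : IntermediateField k Z) (B : IntermediateField k L) (a : A) (b : B) :
    (jS hF A B (a ⊗ₜ b) : F) = jF ((a : Z) ⊗ₜ (b : L)) := by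
  rw [jS_coe, Algebra.TensorProduct.map_tmul]; rfl

end lift

end Pool.Agent.Lib.MP_c37a72_al
end

section
/-!
# MP_c37a72_al: conjugacy of places

`conj_places`: `Ω / E` Galois (possibly infinite), `P`, `P'` places of `Ω` which agree on `E`, such that
every residue of `P` is a residue of an element of `E`: then `P' = P ∘ s` for some `s ∈ Gal(Ω / E)`.
-/
set_option autoImplicit false
set_option linter.unusedSectionVars false

namespace Pool.Agent.Lib.MP_c37a72_al

open Finset TensorProduct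

open scoped Pointwise

universe u v w

namespace CNJM

variable {E Ω Λ : Type*} [Field E] [Field Ω] [Field Λ] [Algebra E Ω]

/-- places are integrally closed -/
theorem int_closed (P : Pl Ω Λ) (A : Subring Ω) (hA : ∀ a ∈ A, ∃ l, P.r a l) {x : Ω}
    (hx : IsIntegral A x) : ∃ l, P.r x l := by
  rcases P.dich x with h | h
  · exact h
  rcases eq_or_ne x 0 with rfl | hx0
  · exact ⟨0, P.zero⟩
  exfalso
  obtain ⟨p, hp, hpx⟩ := hx
  rw [Polynomial.eval₂_eq_sum_range] at hpx
  set n := p.natDegree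
  have h1 : ∀ i, ∃ l, P.r (algebraMap A Ω (p.coeff i)) l := fun i => hA _ (p.coeff i).2
  choose l hl using h1
  have h2 : P.r (∑ i ∈ range (n + 1), algebraMap A Ω (p.coeff i) * x⁻¹ ^ (n - i))
      (∑ i ∈ range (n + 1), l i * 0 ^ (n - i)) :=
    P.sum _ _ _ fun i _ => P.mul (hl i) (P.pow h _)
  have h3 : ∑ i ∈ range (n + 1), algebraMap A Ω (p.coeff i) * x⁻¹ ^ (n - i) = 0 := by
    have : ∑ i ∈ range (n + 1), algebraMap A Ω (p.coeff i) * x⁻¹ ^ (n - i)
        = x⁻¹ ^ n * ∑ i ∈ range (n + 1), algebraMap A Ω (p.coeff i) * x ^ i := by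
      rw [Finset.mul_sum]
      refine Finset.sum_congr rfl fun i hi => ?_
      have hi' : i ≤ n := by rw [Finset.mem_range] at hi; omega
      have e : x⁻¹ ^ n = x⁻¹ ^ (n - i) * x⁻¹ ^ i := by rw [← pow_add]; congr 1; omega
      rw [e]
      have e2 : x⁻¹ ^ i * x ^ i = 1 := by rw [← mul_pow, inv_mul_cancel₀ hx0, one_pow]
      calc _ = algebraMap A Ω (p.coeff i) * x⁻¹ ^ (n - i) * 1 := by rw [mul_one]
        _ = _ := by rw [← e2]; ring
    rw [this, hpx, mul_zero]
  have h4 : ∑ i ∈ range (n + 1), l i * (0 : Λ) ^ (n - i) = l n := by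
    rw [Finset.sum_eq_single n]
    · rw [Nat.sub_self, pow_zero, mul_one]
    · intro i hi hin
      have : n - i ≠ 0 := by rw [Finset.mem_range] at hi; omega
      rw [zero_pow this, mul_zero]
    · intro h; exact absurd (by simp) h
  rw [h3, h4] at h2
  have h5 : l n = 1 := P.uniq (hl n) (by
    have : p.coeff n = 1 := hp
    rw [this, map_one]; exact P.one)
  rw [h5] at h2
  exact one_ne_zero (P.uniq h2 P.zero)

/-- the trick: `x` is a quotient of integral elements with a unit denominator -/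
theorem decomp (P : Pl Ω Λ) (A : Subring Ω)
    (x : Ω) (n : ℕ) (a : ℕ → Ω) (haA : ∀ i, a i ∈ A) (hsum : ∑ i ∈ range (n + 1), a i * x ^ i = 0)
    (l : ℕ → Λ) (hl : ∀ i, P.r (a i) (l i)) (j : ℕ) (hj : j ≤ n) (hlj : l j ≠ 0)
    (hli : ∀ i, j < i → i ≤ n → l i = 0) (hn : 0 < n) {m : Λ} (hx : P.r x m) :
    ∃ b c : Ω, IsIntegral A b ∧ IsIntegral A c ∧ c * x = b ∧ ∃ y, P.r c y ∧ y ≠ 0 := by
  classical
  let c : Ω := ∑ i ∈ range (n - j + 1), a (j + i) * x ^ i
  let N : Submodule A Ω := Submodule.span A ((fun i : ℕ => x ^ i) '' (range n : Set ℕ))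
  have hmem : ∀ i, i < n → x ^ i ∈ N := fun i hi =>
    Submodule.subset_span ⟨i, by simpa using hi, rfl⟩
  have hmem' : ∀ i, i < n → ∀ b ∈ A, b * x ^ i ∈ N := fun i hi b hb =>
    N.smul_mem (⟨b, hb⟩ : A) (hmem i hi)
  have hcj : c * x ^ j = - ∑ i ∈ range j, a i * x ^ i := by
    have h1 : c * x ^ j = ∑ i ∈ range (n - j + 1), a (j + i) * x ^ (j + i) := by
      rw [Finset.sum_mul]
      refine Finset.sum_congr rfl fun i _ => ?_
      rw [pow_add]; ring
    have h2 : ∑ i ∈ range (n + 1), a i * x ^ i = ∑ i ∈ range j, a i * x ^ i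
        + ∑ i ∈ range (n - j + 1), a (j + i) * x ^ (j + i) := by
      have : n + 1 = j + (n - j + 1) := by omega
      rw [this, Finset.sum_range_add]
    rw [h1]
    rw [h2] at hsum
    linear_combination hsum
  have hcN : ∀ i, i ≤ n → c * x ^ i ∈ N := by
    intro i hi
    by_cases hij : i < j
    · rw [Finset.sum_mul]
      refine N.sum_mem fun t ht => ?_
      rw [Finset.mem_range] at ht
      have e : a (j + t) * x ^ t * x ^ i = a (j + t) * x ^ (t + i) := by rw [pow_add]; ring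
      rw [e]
      exact hmem' _ (by omega) _ (haA _)
    · have e : c * x ^ i = (c * x ^ j) * x ^ (i - j) := by
        rw [mul_assoc, ← pow_add]; congr 2; omega
      rw [e, hcj, neg_mul, Finset.sum_mul]
      refine N.neg_mem (N.sum_mem fun t ht => ?_)
      rw [Finset.mem_range] at ht
      have e : a t * x ^ t * x ^ (i - j) = a t * x ^ (t + (i - j)) := by rw [pow_add]; ring
      rw [e]
      exact hmem' _ (by omega) _ (haA _)
  have hN0 : N ≠ ⊥ := by
    intro h0
    have h1 := hmem 0 hn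
    rw [h0, pow_zero] at h1
    exact one_ne_zero h1
  have hFG : N.FG := ⟨(range n).image (fun i : ℕ => x ^ i), by
    rw [Finset.coe_image]⟩
  have hmul : ∀ y : Ω, (∀ i, i < n → y * x ^ i ∈ N) → ∀ z ∈ N, y • z ∈ N := by
    intro y hy z hz
    refine Submodule.span_induction (p := fun z _ => y • z ∈ N) ?_ ?_ ?_ ?_ hz
    · rintro _ ⟨i, hi, rfl⟩
      exact hy i (by simpa using hi)
    · rw [smul_zero]; exact N.zero_mem
    · intro u v _ _ hu hv
      rw [smul_add]; exact N.add_mem hu hv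
    · intro r u _ hu
      have : y • (r • u) = r • (y • u) := by
        simp only [smul_eq_mul, Subring.smul_def]; ring
      rw [this]; exact N.smul_mem r hu
  refine ⟨c * x, c, ?_, ?_, rfl, ?_⟩
  · refine isIntegral_of_smul_mem_submodule N hN0 hFG _ (hmul _ fun i hi => ?_)
    rw [mul_assoc, ← pow_succ']
    exact hcN _ (by omega)
  · exact isIntegral_of_smul_mem_submodule N hN0 hFG _ (hmul _ fun i hi => hcN i (by omega))
  · refine ⟨∑ i ∈ range (n - j + 1), l (j + i) * m ^ i,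
      P.sum _ _ _ fun i _ => P.mul (hl _) (P.pow hx i), ?_⟩
    rw [Finset.sum_eq_single 0]
    · simpa using hlj
    · intro i hi hi0
      rw [Finset.mem_range] at hi
      rw [hli (j + i) (by omega) (by omega), zero_mul]
    · intro h; exact absurd (by simp) h

/-- the Galois group acts on the integral closure of a subring of fixed elements -/
@[implicit_reducible]
def act (A : Subring Ω) (hA : ∀ a ∈ A, ∃ e, algebraMap E Ω e = a) :
    MulSemiringAction (Ω ≃ₐ[E] Ω) (integralClosure A Ω) where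
  smul g b := ⟨g b, by
    obtain ⟨p, hp, hpx⟩ := b.2
    refine ⟨p, hp, ?_⟩
    have h1 := congrArg (g : Ω →+* Ω) hpx
    rw [map_zero, Polynomial.hom_eval₂ p (algebraMap A Ω) (g : Ω →+* Ω) (b : Ω)] at h1
    have h2 : ((g : Ω →+* Ω)).comp (algebraMap A Ω) = algebraMap A Ω := by
      ext a
      obtain ⟨e, he⟩ := hA _ a.2
      show g (a : Ω) = a
      rw [← he, AlgEquiv.commutes]
    rw [h2] at h1
    exact h1⟩
  one_smul b := rfl
  mul_smul g h b := rfl
  smul_zero g := Subtype.ext (map_zero g)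
  smul_add g a b := Subtype.ext (map_add g _ _)
  smul_one g := Subtype.ext (map_one g)
  smul_mul g a b := Subtype.ext (map_mul g _ _)

end CNJM

open CNJM in
/-- **CNJ**: conjugacy of places. -/
theorem conj_places {E Ω Λ : Type*} [Field E] [Field Ω] [Field Λ] [Algebra E Ω] [IsGalois E Ω]
    (P P' : Pl Ω Λ) (h : ∀ e l, P.r (algebraMap E Ω e) l → P'.r (algebraMap E Ω e) l)
    (hres : ∀ l, ∃ e : E, P.r (algebraMap E Ω e) l) :
    ∃ s : Ω ≃ₐ[E] Ω, ∀ f l, P'.r f l ↔ P.r (s f) l := by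
  classical
  -- `P` and `P'` agree on `E`
  have h' : ∀ e l, P'.r (algebraMap E Ω e) l → P.r (algebraMap E Ω e) l := by
    intro e l hl
    rcases P.dich (algebraMap E Ω e) with ⟨m, hm⟩ | h0
    · rwa [P'.uniq hl (h _ _ hm)]
    · rw [← map_inv₀] at h0
      have h1 := h _ _ h0
      rw [map_inv₀] at h1
      have h2 := P'.eq_zero h1 (by rw [inv_inv]; exact ⟨l, hl⟩)
      rw [inv_eq_zero] at h2
      rw [h2] at hl ⊢
      rw [P'.uniq hl P'.zero]
      exact P.zero
  let A : Subring Ω := P.O ⊓ (algebraMap E Ω).range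
  have hAE : ∀ a ∈ A, ∃ e, algebraMap E Ω e = a := fun a ha => ha.2
  have hAP : ∀ a ∈ A, ∃ l, P.r a l := fun a ha => ha.1
  have hAP' : ∀ a ∈ A, ∃ l, P'.r a l := by
    intro a ha
    obtain ⟨e, rfl⟩ := hAE a ha
    obtain ⟨l, hl⟩ := hAP _ ha
    exact ⟨l, h _ _ hl⟩
  have hEA : ∀ e l, P.r (algebraMap E Ω e) l → algebraMap E Ω e ∈ A := fun e l hl =>
    ⟨⟨l, hl⟩, ⟨e, rfl⟩⟩
  let B := integralClosure A Ω
  let : MulSemiringAction (Ω ≃ₐ[E] Ω) B := act A hAE
  have hsm : ∀ (g : Ω ≃ₐ[E] Ω) (b : B), ((g • b : B) : Ω) = g b := fun g b => rfl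
  have hcomm : SMulCommClass (Ω ≃ₐ[E] Ω) A B := ⟨fun g a b => Subtype.ext (by
    rw [hsm]
    show g ((a : Ω) * (b : Ω)) = (a : Ω) * ((g • b : B) : Ω)
    obtain ⟨e, he⟩ := hAE _ a.2
    rw [map_mul, hsm, ← he, AlgEquiv.commutes])⟩
  have hinv : Algebra.IsInvariant A B (Ω ≃ₐ[E] Ω) := ⟨fun b hb => by
    have h1 : (b : Ω) ∈ Set.range (algebraMap E Ω) :=
      (InfiniteGalois.mem_range_algebraMap_iff_fixed (b : Ω)).2 fun g =>
        congrArg Subtype.val (hb g)
    obtain ⟨e, he⟩ := h1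
    obtain ⟨l, hl⟩ := int_closed P A hAP b.2
    exact ⟨⟨(b : Ω), ⟨l, hl⟩, ⟨e, he⟩⟩, Subtype.ext rfl⟩⟩
  let : TopologicalSpace B := ⊥
  have hdisc : DiscreteTopology B := ⟨rfl⟩
  have hcont : ContinuousSMul (Ω ≃ₐ[E] Ω) B := by
    rw [continuousSMul_iff_stabilizer_isOpen]
    intro b
    have h1 := stabilizer_isOpen_of_isIntegral (K := E) (L := Ω) (b : Ω)
    have h2 : (MulAction.stabilizer (Ω ≃ₐ[E] Ω) b : Set (Ω ≃ₐ[E] Ω))
        = MulAction.stabilizer (Ω ≃ₐ[E] Ω) (b : Ω) := by
      ext g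
      simp only [SetLike.mem_coe, MulAction.mem_stabilizer_iff]
      exact Subtype.ext_iff
    rw [h2]
    exact h1
  have hBP : ∀ b : B, ∃ l, P.r b l := fun b => int_closed P A hAP b.2
  have hBP' : ∀ b : B, ∃ l, P'.r b l := fun b => int_closed P' A hAP' b.2
  -- the centres
  have hideal : ∀ (R : Pl Ω Λ) (_ : ∀ b : B, ∃ l, R.r b l), ∃ I : Ideal B, I.IsPrime ∧
      ∀ b : B, b ∈ I ↔ R.r b 0 := by
    intro R hR
    refine ⟨{ carrier := {b | R.r b 0}
              add_mem' := fun {a b} ha hb => by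
                have := R.add ha hb
                rwa [add_zero] at this
              zero_mem' := R.zero
              smul_mem' := fun a b hb => by
                obtain ⟨l, hl⟩ := hR a
                have := R.mul hl hb
                rwa [mul_zero] at this }, ⟨?_, ?_⟩, fun b => Iff.rfl⟩
    · intro htop
      have h1 : (1 : B) ∈ (⊤ : Ideal B) := trivial
      rw [← htop] at h1
      exact one_ne_zero (R.uniq R.one h1)
    · intro a b hab
      obtain ⟨l, hl⟩ := hR a
      obtain ⟨m, hm⟩ := hR b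
      have h1 : l * m = 0 := R.uniq (R.mul hl hm) hab
      rcases mul_eq_zero.1 h1 with rfl | rfl
      · exact Or.inl hl
      · exact Or.inr hm
  obtain ⟨I, hI, hIm⟩ := hideal P hBP
  obtain ⟨I', hI', hIm'⟩ := hideal P' hBP'
  have hunder : I.under A = I'.under A := by
    ext a
    obtain ⟨e, he⟩ := hAE _ a.2
    have h1 : ((algebraMap A B a : B) : Ω) = algebraMap E Ω e := by rw [he]; rfl
    rw [Ideal.mem_comap, Ideal.mem_comap, hIm, hIm', h1]
    exact ⟨h _ _, h' _ _⟩
  obtain ⟨g, hg⟩ := Algebra.IsInvariant.exists_smul_of_under_eq_of_profinite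
    (A := A) (G := Ω ≃ₐ[E] Ω) I I' hunder
  let s := g⁻¹
  have hs0 : ∀ b : B, P'.r b 0 ↔ P.r (s b) 0 := by
    intro b
    rw [← hIm', hg, Ideal.mem_pointwise_smul_iff_inv_smul_mem, hIm]
    rfl
  have hsE : ∀ e, s (algebraMap E Ω e) = algebraMap E Ω e := fun e => s.commutes e
  have hsB : ∀ (b : B) (l : Λ), P'.r b l → P.r (s b) l := by
    intro b l hl
    obtain ⟨e, he⟩ := hres l
    have heB : algebraMap E Ω e ∈ B := by
      have : algebraMap A Ω ⟨_, hEA e l he⟩ ∈ B := Subalgebra.algebraMap_mem B _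
      exact this
    have h1 := P'.sub hl (h _ _ he)
    rw [sub_self] at h1
    have h2 := (hs0 (b - ⟨_, heB⟩)).1 h1
    have h3 : s ((b - ⟨_, heB⟩ : B) : Ω) = s b - algebraMap E Ω e := by
      refine (map_sub s (b : Ω) (algebraMap E Ω e)).trans ?_
      rw [hsE]
    rw [h3] at h2
    have h4 := P.add h2 he
    rwa [sub_add_cancel, zero_add] at h4
  -- all elements
  have key : ∀ x l, P'.r x l → P.r (s x) l := by
    intro x l hl
    obtain ⟨r, hr0, hr⟩ := Algebra.IsAlgebraic.isAlgebraic (R := E) x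
    obtain ⟨i0, hi0, hi0', hi1⟩ := (P.comap (algebraMap E Ω)).content r.support r.coeff
      (by
        obtain ⟨i, hi⟩ := Polynomial.support_nonempty.2 hr0
        exact ⟨i, hi, Polynomial.mem_support_iff.1 hi⟩)
    have hc : ∀ i, ∃ l, P.r (algebraMap E Ω (r.coeff i / r.coeff i0)) l := by
      intro i
      by_cases hi : i ∈ r.support
      · exact hi1 i hi
      · rw [Polynomial.notMem_support_iff.1 hi, zero_div, map_zero]; exact ⟨0, P.zero⟩
    choose m hm using hc
    set n := r.natDegree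
    have hm0 : m i0 = 1 := P.uniq (hm i0) (by rw [div_self hi0', map_one]; exact P.one)
    have hex : ((range (n + 1)).filter fun i => m i ≠ 0).Nonempty := ⟨i0, by
      rw [Finset.mem_filter, Finset.mem_range, hm0]
      exact ⟨Nat.lt_succ_of_le (Polynomial.le_natDegree_of_mem_supp i0 hi0), one_ne_zero⟩⟩
    obtain ⟨j, hj, hjmax⟩ := Finset.exists_max_image _ id hex
    rw [Finset.mem_filter, Finset.mem_range] at hj
    have hsum : ∑ i ∈ range (n + 1), algebraMap E Ω (r.coeff i / r.coeff i0) * x ^ i = 0 := by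
      rw [Polynomial.aeval_eq_sum_range] at hr
      have : ∑ i ∈ range (n + 1), algebraMap E Ω (r.coeff i / r.coeff i0) * x ^ i
          = algebraMap E Ω (r.coeff i0)⁻¹ * ∑ i ∈ range (n + 1), r.coeff i • x ^ i := by
        rw [Finset.mul_sum]
        refine Finset.sum_congr rfl fun i _ => ?_
        rw [Algebra.smul_def, ← mul_assoc, ← map_mul, div_eq_mul_inv, mul_comm (r.coeff i0)⁻¹]
      rw [this, hr, mul_zero]
    have hn : 0 < n := by
      by_contra hn0
      have hn0' : n = 0 := by omega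
      rw [hn0'] at hsum
      rw [Finset.sum_range_one, pow_zero, mul_one] at hsum
      have hi00 : i0 = 0 := by
        have := Polynomial.le_natDegree_of_mem_supp i0 hi0
        omega
      rw [← hi00, div_self hi0', map_one] at hsum
      exact one_ne_zero hsum
    obtain ⟨b, c, hb, hc, hcx, y, hy, hy0⟩ := decomp P' A x n
      (fun i => algebraMap E Ω (r.coeff i / r.coeff i0)) (fun i => hEA _ _ (hm i)) hsum m
      (fun i => h _ _ (hm i)) j (by omega) hj.2 (fun i hji hin => by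
        by_contra hne
        have := hjmax i (by rw [Finset.mem_filter, Finset.mem_range]; exact ⟨by omega, hne⟩)
        simp only [id] at this
        omega) hn hl
    have h1 := hsB ⟨c, hc⟩ y hy
    have h2 : P'.r b (y * l) := by rw [← hcx]; exact P'.mul hy hl
    have h3 := hsB ⟨b, hb⟩ _ h2
    have h4 := P.div h3 h1 hy0
    have hc0 : c ≠ 0 := P'.ne_zero hy hy0
    have e1 : s b / s c = s x := by
      rw [← map_div₀, ← hcx, mul_div_cancel_left₀ _ hc0]
    have e2 : y * l / y = l := mul_div_cancel_left₀ _ hy0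
    rw [e2] at h4
    rw [← e1]
    exact h4
  refine ⟨s, fun f l => ⟨key f l, fun hl => ?_⟩⟩
  rcases P'.dich f with ⟨m, hm⟩ | h0
  · rwa [P.uniq hl (key _ _ hm)]
  · have h1 := key _ _ h0
    rw [map_inv₀] at h1
    have h2 := P.eq_zero h1 (by rw [inv_inv]; exact ⟨l, hl⟩)
    rw [inv_eq_zero] at h2
    have h3 : f = 0 := by rwa [map_eq_zero] at h2
    rw [h3] at hl ⊢
    rw [map_zero] at hl
    rw [P.uniq hl P.zero]
    exact P'.zero


section two

variable {k : Type*} [Field k] {F Ω : Type*} [Field F] [Algebra k F] [Field Ω] [Algebra k Ω]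
  (xt yt : F →ₐ[k] Ω)

namespace CNJM

/-- `a ⊗ b ↦ yt a * xt b` -/
noncomputable def mm : F ⊗[k] F →ₐ[k] Ω :=
  Algebra.TensorProduct.lift yt xt (fun _ _ => Commute.all _ _)

@[simp] theorem mm_tmul (a b : F) : mm xt yt (a ⊗ₜ b) = yt a * xt b := by
  unfold mm; simp

/-- the field generated by the two images -/
def EE : IntermediateField k Ω := IntermediateField.adjoin k (Set.range xt ∪ Set.range yt)

theorem mm_mem (t : F ⊗[k] F) : mm xt yt t ∈ EE xt yt := by
  induction t using TensorProduct.induction_on with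
  | zero => rw [map_zero]; exact zero_mem _
  | add a b ha hb => rw [map_add]; exact add_mem ha hb
  | tmul a b =>
    rw [mm_tmul]
    exact mul_mem (IntermediateField.subset_adjoin k _ (Or.inr ⟨a, rfl⟩))
      (IntermediateField.subset_adjoin k _ (Or.inl ⟨b, rfl⟩))

/-- `mm` with values in the field `EE` -/
noncomputable def mE : F ⊗[k] F →ₐ[k] EE xt yt :=
  (mm xt yt).codRestrict (EE xt yt).toSubalgebra (mm_mem xt yt)

theorem isFrc_mE (hinj : Function.Injective (mm xt yt)) : IsFrc (mE xt yt) := by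
  refine ⟨fun a b hab => hinj (congrArg Subtype.val hab), fun f => ?_⟩
  have h1 : Algebra.adjoin k (Set.range xt ∪ Set.range yt) ≤ (mm xt yt).range := by
    rw [Algebra.adjoin_le_iff]
    rintro _ (⟨a, rfl⟩ | ⟨a, rfl⟩)
    · exact ⟨1 ⊗ₜ a, by simp⟩
    · exact ⟨a ⊗ₜ 1, by simp⟩
  obtain ⟨r, hr, s, hs, he⟩ := IntermediateField.mem_adjoin_iff_div.1 f.2
  obtain ⟨a, rfl⟩ := h1 hr
  obtain ⟨b, rfl⟩ := h1 hs
  rcases eq_or_ne b 0 with rfl | hb
  · refine ⟨0, 1, ?_, ?_⟩
    · intro h
      have := congrArg (mm xt yt) h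
      rw [map_one, map_zero] at this
      exact one_ne_zero this
    · apply Subtype.ext
      rw [map_one, mul_one, map_zero, he]
      show mm xt yt a / mm xt yt 0 = 0
      rw [map_zero, div_zero]
  · refine ⟨a, b, hb, Subtype.ext ?_⟩
    show (f : Ω) * mm xt yt b = mm xt yt a
    rw [he]
    exact div_mul_cancel₀ _ (fun h => hb (hinj (by rw [map_zero]; exact h)))

end CNJM

open CNJM in
/-- two places over the same Gauss place are conjugate -/
theorem conj_gauss [CharZero k] [IsAlgClosed Ω] (hinj : Function.Injective (CNJM.mm xt yt))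
    (halg : Algebra.IsAlgebraic (CNJM.EE xt yt) Ω) (p : Pl F k) (hp : p.Over k) (P P' : Pl Ω F)
    (hx : ∀ f, P.r (xt f) f) (hx' : ∀ f, P'.r (xt f) f)
    (hy : ∀ f c, p.r f c → P.r (yt f) (algebraMap k F c))
    (hy' : ∀ f c, p.r f c → P'.r (yt f) (algebraMap k F c)) :
    ∃ s : Ω ≃ₐ[k] Ω, (∀ f, s (xt f) = xt f) ∧ (∀ f, s (yt f) = yt f) ∧
      ∀ f l, P'.r f l ↔ P.r (s f) l := by
  have hF := isFrc_mE xt yt hinj
  have hG := isFrc_lidH k F
  have huniv : ∀ R : Pl Ω F, (∀ f, R.r (xt f) f) →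
      (∀ f c, p.r f c → R.r (yt f) (algebraMap k F c)) →
      p.gauss hp (mE xt yt) (lidH k F) hF hG = R.comap (EE xt yt).val.toRingHom := by
    intro R hRx hRy
    apply Pl.gauss_univ
    · intro z l hzl
      show R.r (mm xt yt (z ⊗ₜ 1)) _
      rw [mm_tmul, map_one, mul_one, lidH_tmul, Algebra.smul_def, mul_one]
      exact hRy z l hzl
    · intro l
      show R.r (mm xt yt (1 ⊗ₜ l)) _
      rw [mm_tmul, map_one, one_mul, lidH_tmul, one_smul]
      exact hRx l
  have h1 := huniv P hx hy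
  have h2 := huniv P' hx' hy'
  have h3 : P.comap (EE xt yt).val.toRingHom = P'.comap (EE xt yt).val.toRingHom := by
    rw [← h1, ← h2]
  have hcl : IsAlgClosure (EE xt yt) Ω := ⟨inferInstance, halg⟩
  have hgal : IsGalois (EE xt yt) Ω := IsAlgClosure.isGalois (EE xt yt) Ω
  obtain ⟨s, hs⟩ := conj_places (E := EE xt yt) P P' (fun e l hl => by
      have h4 : (P.comap (EE xt yt).val.toRingHom).r e l := hl
      rw [h3] at h4
      exact h4)
    (fun l => ⟨⟨xt l, IntermediateField.subset_adjoin k _ (Or.inl ⟨l, rfl⟩)⟩, hx l⟩)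
  refine ⟨s.restrictScalars k, fun f => ?_, fun f => ?_, hs⟩
  · exact s.commutes ⟨xt f, IntermediateField.subset_adjoin k _ (Or.inl ⟨f, rfl⟩)⟩
  · exact s.commutes ⟨yt f, IntermediateField.subset_adjoin k _ (Or.inr ⟨f, rfl⟩)⟩

/-- **(1.6)**: `t x~ = x~ a`, `t y~ = y~`, `t w~ = w~ χ`, `w~` has residue `τ₀`: up to
`Gal(Ω / F_x F_y)` the residue of `w~` is `a⁻¹ τ₀ χ`. -/
theorem label16 [CharZero k] [IsAlgClosed Ω] (hinj : Function.Injective (CNJM.mm xt yt))
    (halg : Algebra.IsAlgebraic (CNJM.EE xt yt) Ω) (p : Pl F k) (hp : p.Over k) (P : Pl Ω F)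
    (hx : ∀ f, P.r (xt f) f) (hy : ∀ f c, p.r f c → P.r (yt f) (algebraMap k F c))
    (a : F ≃ₐ[k] F) (t : Ω ≃ₐ[k] Ω) (htx : ∀ f, t (xt f) = xt (a f)) (hty : ∀ f, t (yt f) = yt f)
    (wt : F →ₐ[k] Ω) (χ τ : F →ₐ[k] F) (htw : ∀ f, t (wt f) = wt (χ f))
    (hw : ∀ f, P.r (wt f) (τ f)) :
    ∃ s : Ω ≃ₐ[k] Ω, (∀ f, s (xt f) = xt f) ∧ (∀ f, s (yt f) = yt f) ∧
      ∀ f, P.r (s (wt f)) (a.symm (τ (χ f))) := by
  let P' : Pl Ω F := (P.comap (t : Ω →+* Ω)).map (a.symm : F →+* F)
  have hP' : ∀ {f : Ω} {m : F}, P.r (t f) m → P'.r f (a.symm m) := fun {f m} h => ⟨m, h, rfl⟩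
  obtain ⟨s, hs1, hs2, hs3⟩ := conj_gauss xt yt hinj halg p hp P P' hx
    (fun f => by
      have := hP' (f := xt f) (m := a f) (by rw [htx]; exact hx _)
      rwa [AlgEquiv.symm_apply_apply] at this) hy
    (fun f c h => by
      have := hP' (f := yt f) (m := algebraMap k F c) (by rw [hty]; exact hy f c h)
      rwa [AlgEquiv.commutes] at this)
  refine ⟨s, hs1, hs2, fun f => ?_⟩
  rw [← hs3]
  exact hP' (by rw [htw]; exact hw _)

end two

end Pool.Agent.Lib.MP_c37a72_al
end
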