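import Pool.Agent.Lib.MP_c37a72_al.FRS

/-!
# MP_c37a72_al: `frS`, residues, algebraic elements and Lemma U
-/

set_option autoImplicit false
set_option linter.unusedSectionVars false

namespace Pool.Agent.Lib.MP_c37a72_al

open Finset TensorProduct

universe u v w

theorem IsFrc.isFractionRing {k A F : Type*} [CommSemiring k] [CommRing A] [Algebra k A] [Field F]
    [Algebra k F] {j : A →ₐ[k] F} (hj : IsFrc j) :
    @IsFractionRing A _ F _ j.toRingHom.toAlgebra := by
  let _ : Algebra A F := j.toRingHom.toAlgebra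
  have : FaithfulSMul A F := (faithfulSMul_iff_algebraMap_injective A F).2 hj.inj
  refine IsFractionRing.of_field A F fun z => ?_
  obtain ⟨a, b, hb, h⟩ := hj.surj z
  have hb' : j b ≠ 0 := fun h => hb (hj.inj (by rw [h, map_zero]))
  exact ⟨a, b, (eq_div_iff (show algebraMap A F b ≠ 0 from hb')).2 h⟩

theorem isFrc_of {k A F : Type*} [CommSemiring k] [CommRing A] [Algebra k A] [Field F]
    [Algebra k F] [Algebra A F] [IsFractionRing A F] [IsScalarTower k A F] :
    IsFrc (IsScalarTower.toAlgHom k A F) := by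
  refine ⟨IsFractionRing.injective A F, fun f => ?_⟩
  have : IsDomain A := (IsFractionRing.injective A F).isDomain (algebraMap A F)
  obtain ⟨a, b, hb, h⟩ := IsFractionRing.div_surjective (A := A) f
  refine ⟨a, b, nonZeroDivisors.ne_zero hb, ?_⟩
  have hb' : algebraMap A F b ≠ 0 := fun h' => nonZeroDivisors.ne_zero hb
    (IsFractionRing.injective A F (by rw [h', map_zero]))
  rw [← h]
  exact div_mul_cancel₀ _ hb'

section ind

variable {k : Type*} [Field k] {Z L F : Type*} [Field Z] [Field L] [Field F] [Algebra k Z]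
  [Algebra k L] [Algebra k F] {jF : Z ⊗[k] L →ₐ[k] F} (hF : IsFrc jF)

/-- `c ↦ coordinate` of `tS ⊤ B` lies in `B` -/
theorem coord_tS {B : IntermediateField k L} {ι : Type*} [DecidableEq ι]
    (w : Module.Basis ι k Z) {x : Z ⊗[k] L} (hx : x ∈ tS ⊤ B) (i : ι) :
    TensorProduct.equivFinsuppOfBasisLeft w x i ∈ B := by
  refine tS_induction (p := fun x => TensorProduct.equivFinsuppOfBasisLeft w x i ∈ B)
    (by rw [map_zero]; exact zero_mem _) ?_ ?_ hx
  · intro z _ l hl
    rw [TensorProduct.equivFinsuppOfBasisLeft_apply_tmul_apply]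
    exact B.smul_mem hl
  · intro x y _ _ hx hy
    rw [map_add, Finsupp.add_apply]; exact add_mem hx hy

theorem coord_mul {ι : Type*} [DecidableEq ι] (w : Module.Basis ι k Z) (x : Z ⊗[k] L) (l : L)
    (i : ι) : TensorProduct.equivFinsuppOfBasisLeft w (x * (1 ⊗ₜ l)) i
      = TensorProduct.equivFinsuppOfBasisLeft w x i * l := by
  induction x using TensorProduct.induction_on with
  | zero => simp
  | add x y hx hy => rw [add_mul, map_add, map_add, Finsupp.add_apply, Finsupp.add_apply, hx, hy,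
      add_mul]
  | tmul z l' =>
    rw [Algebra.TensorProduct.tmul_mul_tmul, mul_one,
      TensorProduct.equivFinsuppOfBasisLeft_apply_tmul_apply,
      TensorProduct.equivFinsuppOfBasisLeft_apply_tmul_apply, smul_mul_assoc]

/-- a family of `L` independent over `L₀` is independent over `Frac (Z ⊗ L₀)` -/
theorem ind_frS (L0 : IntermediateField k L) {ι : Type*} (s : Finset ι) (e : ι → L)
    (he : ∀ c : ι → L, (∀ i ∈ s, c i ∈ L0) → ∑ i ∈ s, c i * e i = 0 → ∀ i ∈ s, c i = 0)
    (c : ι → F) (hc : ∀ i ∈ s, c i ∈ frS hF ⊤ L0) (h : ∑ i ∈ s, c i * jF (1 ⊗ₜ e i) = 0) :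
    ∀ i ∈ s, c i = 0 := by
  classical
  obtain ⟨b, hb, hb0, a, ha⟩ := frS_common hF s c hc
  have h1 : ∑ i ∈ s, a i * (1 ⊗ₜ[k] e i) = 0 := by
    apply hF.inj
    rw [map_sum, map_zero, ← zero_mul (jF b), ← h, Finset.sum_mul]
    refine Finset.sum_congr rfl fun i hi => ?_
    rw [map_mul, ← (ha i hi).2]; ring
  intro i hi
  let w := Module.Basis.ofVectorSpace k Z
  have h2 : a i = 0 := by
    apply (TensorProduct.equivFinsuppOfBasisLeft w).injective
    rw [map_zero]
    ext n
    have h3 := he (fun i => TensorProduct.equivFinsuppOfBasisLeft w (a i) n)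
      (fun i hi => coord_tS w (ha i hi).1 n) (by
        have h4 := congrArg (fun t => TensorProduct.equivFinsuppOfBasisLeft w t n) h1
        simp only [map_sum, map_zero, Finsupp.coe_finsetSum, Finset.sum_apply, Finsupp.coe_zero,
          Pi.zero_apply, coord_mul] at h4
        exact h4) i hi
    exact h3
  have h3 := (ha i hi).2
  rw [h2, map_zero] at h3
  exact (mul_eq_zero.1 h3).resolve_right (hF.ne hb0)

theorem ePi_tS {B : IntermediateField k L} (π : Z →ₗ[k] k) {x : Z ⊗[k] L} (hx : x ∈ tS ⊤ B) :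
    ePi L π x ∈ B := by
  refine tS_induction (p := fun x => ePi L π x ∈ B) (by rw [map_zero]; exact zero_mem _) ?_ ?_ hx
  · intro z _ l hl
    rw [ePi_tmul]
    exact B.smul_mem hl
  · intro x y _ _ hx hy
    rw [map_add]; exact add_mem hx hy

/-- **Lemma B', field case** -/
theorem fieldB [IsAlgClosed k] (L0 L1 : IntermediateField k L)
    (h1 : ∀ l : L, IsAlgebraic L0 l → l ∈ L1) {f : F} (hf : IsAlgebraic (frS hF ⊤ L0) f) :
    f ∈ frS hF ⊤ L1 := by
  classical
  let _ : Algebra (Z ⊗[k] L) F := jF.toRingHom.toAlgebra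
  have : IsFractionRing (Z ⊗[k] L) F := hF.isFractionRing
  let _ : Algebra L F := (jF.comp Algebra.TensorProduct.includeRight).toRingHom.toAlgebra
  have hL : ∀ l : L, algebraMap L F l = algebraMap (Z ⊗[k] L) F (1 ⊗ₜ l) := fun l => rfl
  obtain ⟨q, hq0, hq⟩ := hf
  obtain ⟨b, hb, hb0, a, ha⟩ := frS_common hF (range (q.natDegree + 1))
    (fun i => (q.coeff i : F)) (fun i _ => (q.coeff i).2)
  have h0 : ∑ i ∈ range (q.natDegree + 1), algebraMap F F (f ^ i) * jF (a i) = 0 := by
    rw [Polynomial.aeval_eq_sum_range] at hq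
    rw [← zero_mul (jF b), ← hq, Finset.sum_mul]
    refine Finset.sum_congr rfl fun i hi => ?_
    rw [← (ha i hi).2, IntermediateField.smul_def, smul_eq_mul]
    simp only [Algebra.algebraMap_self, RingHom.id_apply]
    ring
  have hne : ∃ i, i ≤ q.natDegree ∧ a i ≠ 0 := by
    refine ⟨q.natDegree, le_rfl, fun h => ?_⟩
    have h2 := (ha q.natDegree (by simp)).2
    rw [h, map_zero] at h2
    have h3 := (mul_eq_zero.1 h2).resolve_right (hF.ne hb0)
    have h4 : q.leadingCoeff = 0 := Subtype.ext h3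
    exact hq0 (Polynomial.leadingCoeff_eq_zero.1 h4)
  obtain ⟨x, y, hy, hxy⟩ := blockB (Q := Z) (Q' := L) (R := F) hL (jF : Z ⊗[k] L →+* F) hF.inj
    (fun z l => rfl) L1 f q.natDegree a hne h0 (by
      intro π l hl hne
      apply h1
      obtain ⟨i0, hi0, hne⟩ := hne
      let P : Polynomial L0 := ∑ i ∈ range (q.natDegree + 1),
        Polynomial.monomial i (if h : ePi L π (a i) ∈ L0 then (⟨_, h⟩ : L0) else 0)
      have hc : ∀ i, i ≤ q.natDegree → ((P.coeff i : L0) : L) = ePi L π (a i) := by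
        intro i hi
        simp only [P, Polynomial.finsetSum_coeff, Polynomial.coeff_monomial]
        rw [Finset.sum_ite_eq', if_pos (by rw [Finset.mem_range]; omega),
          dif_pos (ePi_tS π (ha i (by rw [Finset.mem_range]; omega)).1)]
      refine ⟨P, ?_, ?_⟩
      · intro hP
        apply hne
        rw [← hc i0 hi0, hP, Polynomial.coeff_zero]; rfl
      · have : Polynomial.aeval l P = ∑ i ∈ range (q.natDegree + 1), l ^ i * ePi L π (a i) := by
          simp only [P, map_sum, Polynomial.aeval_monomial]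
          refine Finset.sum_congr rfl fun i hi => ?_
          rw [dif_pos (ePi_tS π (ha i hi).1), mul_comm]; rfl
        rw [this]
        exact hl)
  refine ⟨_, mem_tS_top.2 ⟨x, rfl⟩, _, mem_tS_top.2 ⟨y, rfl⟩, ?_, hxy⟩
  intro h
  apply hy
  have hinj : Function.Injective (LinearMap.lTensor Z L1.val.toLinearMap) :=
    Module.Flat.lTensor_preserves_injective_linearMap _ Subtype.val_injective
  exact hinj (by rw [map_zero]; exact h)

end ind

section res

variable {k : Type*} [Field k] {Z L F : Type*} [Field Z] [Field L] [Field F] [Algebra k Z]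
  [Algebra k L] [Algebra k F] {jF : Z ⊗[k] L →ₐ[k] F} (hF : IsFrc jF)

theorem map_val_injective (A : IntermediateField k Z) (B : IntermediateField k L) :
    Function.Injective (Algebra.TensorProduct.map A.val B.val) := by
  have h1 : Function.Injective (LinearMap.rTensor B A.val.toLinearMap) :=
    Module.Flat.rTensor_preserves_injective_linearMap _ Subtype.val_injective
  have h2 : Function.Injective (LinearMap.lTensor Z B.val.toLinearMap) :=
    Module.Flat.lTensor_preserves_injective_linearMap _ Subtype.val_injective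
  have h3 : ∀ x, Algebra.TensorProduct.map A.val B.val x
      = LinearMap.lTensor Z B.val.toLinearMap (LinearMap.rTensor B A.val.toLinearMap x) := by
    intro x
    induction x using TensorProduct.induction_on with
    | zero => simp
    | add x y hx hy => rw [map_add, hx, hy, map_add, map_add]
    | tmul a b => rfl
  intro x y hxy
  rw [h3, h3] at hxy
  exact h1 (h2 hxy)

/-- `A ⊗ B → Frac (A ⊗ B)` -/
noncomputable def jS (A : IntermediateField k Z) (B : IntermediateField k L) :
    A ⊗[k] B →ₐ[k] frS hF A B :=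
  (jF.comp (Algebra.TensorProduct.map A.val B.val)).codRestrict (frS hF A B).toSubalgebra
    (fun x => jF_mem_frS hF ⟨x, rfl⟩)

theorem jS_coe (A : IntermediateField k Z) (B : IntermediateField k L) (x : A ⊗[k] B) :
    (jS hF A B x : F) = jF (Algebra.TensorProduct.map A.val B.val x) := rfl

theorem isFrc_jS (A : IntermediateField k Z) (B : IntermediateField k L) :
    IsFrc (k := k) (A := A ⊗[k] B) (F := frS hF A B) (jS hF A B) := by
  refine ⟨fun x y hxy => ?_, fun f => ?_⟩
  · have := congrArg (fun t : frS hF A B => (t : F)) hxy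
    simp only [jS_coe] at this
    exact map_val_injective A B (hF.inj this)
  · obtain ⟨a, ⟨a', rfl⟩, b, ⟨b', rfl⟩, hb, h⟩ := f.2
    refine ⟨a', b', ?_, Subtype.ext h⟩
    rintro rfl
    exact hb (map_zero _)

/-- restriction of a place to subfields -/
def Pl.restr {F G : Type*} [Field F] [Field G] (p : Pl F G) {A A' : Type*} [Field A] [Field A']
    (i : A →+* F) (i' : A' →+* G) (h : ∀ a l, p.r (i a) l → ∃ l', i' l' = l) : Pl A A' where
  r a l := p.r (i a) (i' l)
  uniq h1 h2 := i'.injective (p.uniq h1 h2)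
  one := by rw [map_one, map_one]; exact p.one
  add h1 h2 := by rw [map_add, map_add]; exact p.add h1 h2
  mul h1 h2 := by rw [map_mul, map_mul]; exact p.mul h1 h2
  dich f := by
    rcases p.dich (i f) with ⟨l, hl⟩ | h0
    · obtain ⟨l', rfl⟩ := h f l hl
      exact Or.inl ⟨l', hl⟩
    · right; rw [map_inv₀, map_zero]; exact h0

/-- residues of `Frac (A ⊗ B)` -/
theorem gauss_frS {K G : Type*} [Field K] [Field G] [Algebra k K] [Algebra k G] (p : Pl Z K)
    (hp : p.Over k) {jG : K ⊗[k] L →ₐ[k] G} (hG : IsFrc jG) (A : IntermediateField k Z)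
    (A' : IntermediateField k K) (hA : ∀ z ∈ A, ∀ l, p.r z l → l ∈ A') (B : IntermediateField k L)
    {f : F} (hf : f ∈ frS hF A B) {g : G} (hfg : (p.gauss hp jF jG hF hG).r f g) :
    g ∈ frS hG A' B := by
  let q : Pl A A' := p.restr (A.val : A →+* Z) (A'.val : A' →+* K)
    (fun a l h => ⟨⟨l, hA a a.2 l h⟩, rfl⟩)
  have hq : q.Over k := fun c => hp c
  have key : ∀ (x : frS hF A B) (y : frS hG A' B),
      (q.gauss hq (jS hF A B) (jS hG A' B) (isFrc_jS hF A B) (isFrc_jS hG A' B)).r x y →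
      (p.gauss hp jF jG hF hG).r x y := fun x y h =>
    Pl.gauss_functor q hq p hp (jS hF A B) (jS hG A' B) (isFrc_jS hF A B) (isFrc_jS hG A' B)
      jF jG hF hG A.val A'.val B.val (fun z l h => h) (frS hF A B).val (frS hG A' B).val
      (fun t => rfl) (fun t => rfl) h
  rcases (q.gauss hq (jS hF A B) (jS hG A' B) (isFrc_jS hF A B) (isFrc_jS hG A' B)).dich ⟨f, hf⟩
    with ⟨y, hy⟩ | h0
  · have := key _ _ hy
    have e := (p.gauss hp jF jG hF hG).uniq hfg this
    rw [e]; exact y.2
  · have h1 := key _ _ h0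
    have h2 : f = 0 := by
      have h3 : (p.gauss hp jF jG hF hG).r f⁻¹ 0 := h1
      by_contra hne
      have h4 := (p.gauss hp jF jG hF hG).not_inv h3 (inv_ne_zero hne)
      rw [inv_inv] at h4
      exact h4 ⟨g, hfg⟩
    have h3 : g = 0 := (p.gauss hp jF jG hF hG).uniq (h2 ▸ hfg) (p.gauss hp jF jG hF hG).zero
    rw [h3]; exact zero_mem _

end res

section lemU

/-- the valuation ring of a place -/
def Pl.O {F K : Type*} [Field F] [Field K] (p : Pl F K) : Subring F where
  carrier := {f | ∃ l, p.r f l}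
  mul_mem' := by rintro a b ⟨l, hl⟩ ⟨m, hm⟩; exact ⟨_, p.mul hl hm⟩
  one_mem' := ⟨1, p.one⟩
  add_mem' := by rintro a b ⟨l, hl⟩ ⟨m, hm⟩; exact ⟨_, p.add hl hm⟩
  zero_mem' := ⟨0, p.zero⟩
  neg_mem' := by rintro a ⟨l, hl⟩; exact ⟨_, p.neg hl⟩

/-- the residue homomorphism of a place -/
noncomputable def Pl.res {F K : Type*} [Field F] [Field K] (p : Pl F K) : p.O →+* K where
  toFun v := v.2.choose
  map_one' := p.uniq (1 : p.O).2.choose_spec p.one
  map_mul' a b := p.uniq (a * b).2.choose_spec (p.mul a.2.choose_spec b.2.choose_spec)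
  map_zero' := p.uniq (0 : p.O).2.choose_spec p.zero
  map_add' a b := p.uniq (a + b).2.choose_spec (p.add a.2.choose_spec b.2.choose_spec)

theorem Pl.r_res {F K : Type*} [Field F] [Field K] (p : Pl F K) (v : p.O) : p.r v (p.res v) :=
  v.2.choose_spec

theorem Pl.res_eq {F K : Type*} [Field F] [Field K] (p : Pl F K) {v : p.O} {l : K}
    (h : p.r v l) : p.res v = l := p.uniq (p.r_res v) h

/-- coordinates of integral elements are integral -/
theorem coord_int {F G : Type*} [Field F] [Field G] (p : Pl F G) (E : Subfield G)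
    {ι : Type*} (s : Finset ι) (β : ι → F) (γ : ι → G) (hβ : ∀ i ∈ s, p.r (β i) (γ i))
    (hind : ∀ e : ι → G, (∀ i ∈ s, e i ∈ E) → ∑ i ∈ s, e i * γ i = 0 → ∀ i ∈ s, e i = 0)
    (b : ι → F) (hb : ∀ i ∈ s, ∀ j ∈ s, ∀ l, p.r (b i / b j) l → l ∈ E)
    (h : ∃ l, p.r (∑ i ∈ s, b i * β i) l) : ∀ i ∈ s, ∃ m, p.r (b i) m := by
  classical
  intro i1 hi1
  by_contra hcon
  have hi10 : b i1 ≠ 0 := by
    intro h0
    exact hcon ⟨0, by rw [h0]; exact p.zero⟩
  obtain ⟨j, hj, hj0, hji⟩ := p.content s b ⟨i1, hi1, hi10⟩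
  obtain ⟨l, hl⟩ := h
  rcases p.dich (b j) with ⟨m, hm⟩ | h0
  · obtain ⟨m', hm'⟩ := hji i1 hi1
    apply hcon
    refine ⟨m' * m, ?_⟩
    have := p.mul hm' hm
    rwa [div_mul_cancel₀ _ hj0] at this
  · choose! m hm using hji
    have h1 : p.r ((∑ i ∈ s, b i * β i) * (b j)⁻¹) (l * 0) := p.mul hl h0
    have h2 : p.r (∑ i ∈ s, b i / b j * β i) (∑ i ∈ s, m i * γ i) :=
      p.sum _ _ _ fun i hi => p.mul (hm i hi) (hβ i hi)
    have h3 : (∑ i ∈ s, b i * β i) * (b j)⁻¹ = ∑ i ∈ s, b i / b j * β i := by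
      rw [Finset.sum_mul]
      exact Finset.sum_congr rfl fun i _ => by rw [div_eq_mul_inv]; ring
    rw [h3, mul_zero] at h1
    have h4 := hind m (fun i hi => hb i hi j hj _ (hm i hi)) (p.uniq h2 h1) j hj
    have h5 := hm j hj
    rw [div_self hj0] at h5
    exact one_ne_zero ((p.uniq p.one h5).trans h4)

/-- **Lemma U, abstract form** -/
theorem lemmaU_aux {F G : Type*} [Field F] [Field G] (p : Pl F G) (B : Subfield F)
    (E : Subfield G) (hBE : ∀ b ∈ B, ∀ l, p.r b l → l ∈ E)
    {ι : Type*} (s : Finset ι) (i0 : ι) (hi0 : i0 ∈ s) (β : ι → F) (γ : ι → G)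
    (hβ : ∀ i ∈ s, p.r (β i) (γ i)) (hβ0 : β i0 = 1)
    (hind : ∀ e : ι → G, (∀ i ∈ s, e i ∈ E) → ∑ i ∈ s, e i * γ i = 0 → ∀ i ∈ s, e i = 0)
    (b : ι → F) (hb : ∀ i ∈ s, b i ∈ B) (f : F) (hf : f = ∑ i ∈ s, b i * β i)
    (l : G) (hfl : p.r f l) (hl : l ∈ E) (P : Polynomial F) (hPB : ∀ i, P.coeff i ∈ B)
    (hPi : ∀ i, ∃ c, p.r (P.coeff i) c) (hP : P.eval f = 0)
    (hP' : ¬ p.r (P.derivative.eval f) 0) : f ∈ B := by
  classical
  have hγ0 : γ i0 = 1 := by
    have := hβ i0 hi0
    rw [hβ0] at this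
    exact p.uniq this p.one
  have hint := coord_int p E s β γ hβ hind b
    (fun i hi j hj l h => hBE _ (B.div_mem (hb i hi) (hb j hj)) l h) ⟨l, hf ▸ hfl⟩
  choose! m hm using hint
  have hmE : ∀ i ∈ s, m i ∈ E := fun i hi => hBE _ (hb i hi) _ (hm i hi)
  -- residues of the coordinates
  have hsum : ∑ i ∈ s, m i * γ i = l := by
    refine p.uniq (p.sum _ _ _ fun i hi => p.mul (hm i hi) (hβ i hi)) ?_
    rw [← hf]; exact hfl
  have hml : ∀ i ∈ s, m i - (if i = i0 then l else 0) = 0 := by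
    refine hind _ (fun i hi => ?_) ?_
    · refine E.sub_mem (hmE i hi) ?_
      split_ifs
      · exact hl
      · exact E.zero_mem
    · simp only [sub_mul, Finset.sum_sub_distrib, hsum, ite_mul, zero_mul]
      rw [Finset.sum_ite_eq' s i0, if_pos hi0, hγ0, mul_one, sub_self]
  have hm0 : ∀ i ∈ s, i ≠ i0 → m i = 0 := fun i hi h => by
    have := hml i hi
    rwa [if_neg h, sub_zero] at this
  have hmi0 : m i0 = l := by
    have := hml i0 hi0
    rw [if_pos rfl] at this
    exact sub_eq_zero.1 this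
  -- `f = b i0 + g`
  set s' := s.erase i0
  have hfg : f = b i0 + ∑ i ∈ s', b i * β i := by
    rw [hf, ← Finset.add_sum_erase s _ hi0, hβ0, mul_one]
  by_cases hall : ∀ i ∈ s', b i = 0
  · rw [hfg, Finset.sum_eq_zero fun i hi => by rw [hall i hi, zero_mul], add_zero]
    exact hb i0 hi0
  exfalso
  push Not at hall
  obtain ⟨j, hj, hj0, hji⟩ := p.content s' b hall
  choose! n hn using hji
  have hs' : ∀ i ∈ s', i ∈ s ∧ i ≠ i0 := fun i hi =>
    ⟨Finset.mem_of_mem_erase hi, Finset.ne_of_mem_erase hi⟩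
  have hnE : ∀ i ∈ s', n i ∈ E := fun i hi =>
    hBE _ (B.div_mem (hb i (hs' i hi).1) (hb j (hs' j hj).1)) _ (hn i hi)
  have hnj : n j = 1 := by
    have := hn j hj
    rw [div_self hj0] at this
    exact p.uniq this p.one
  let g' : F := ∑ i ∈ s', b i / b j * β i
  have hg' : p.r g' (∑ i ∈ s', n i * γ i) :=
    p.sum _ _ _ fun i hi => p.mul (hn i hi) (hβ i (hs' i hi).1)
  have hgg' : ∑ i ∈ s', b i * β i = b j * g' := by
    rw [Finset.mul_sum]
    exact Finset.sum_congr rfl fun i _ => by rw [← mul_assoc, mul_div_cancel₀ _ hj0]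
  -- Taylor expansion over the valuation ring
  let P0 : Polynomial p.O := P.toSubring p.O (by
    intro c hc
    obtain ⟨i, -, rfl⟩ := Polynomial.mem_coeffs_iff.1 hc
    exact hPi i)
  have hP0 : ∀ x : p.O, ((P0.eval x : p.O) : F) = P.eval (x : F) := by
    intro x
    have h1 : P0.map p.O.subtype = P := Polynomial.map_toSubring P p.O _
    have h2 : P.eval (x : F) = (P0.map p.O.subtype).eval (p.O.subtype x) := by rw [h1]; rfl
    rw [h2, Polynomial.eval_map, Polynomial.eval₂_hom]; rfl
  have hP0' : ∀ x : p.O, ((P0.derivative.eval x : p.O) : F) = P.derivative.eval (x : F) := by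
    intro x
    have h1 : P0.map p.O.subtype = P := Polynomial.map_toSubring P p.O _
    have h2 : P.derivative.eval (x : F) = (P0.derivative.map p.O.subtype).eval (p.O.subtype x) := by
      rw [← Polynomial.derivative_map, h1]; rfl
    rw [h2, Polynomial.eval_map, Polynomial.eval₂_hom]; rfl
  let x0 : p.O := ⟨b i0, _, hm i0 hi0⟩
  let bj : p.O := ⟨b j, _, hm j (hs' j hj).1⟩
  let y0 : p.O := ⟨g', _, hg'⟩
  obtain ⟨R, hR⟩ := P0.binomExpansion x0 (bj * y0)
  have hxy : ((x0 + bj * y0 : p.O) : F) = f := by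
    rw [hfg, hgg']; rfl
  have e1 : (0 : F) = P.eval (b i0) + P.derivative.eval (b i0) * (b j * g')
      + (R : F) * (b j * g') ^ 2 := by
    have h1 := congrArg (fun t : p.O => (t : F)) hR
    simp only [Subring.coe_add, Subring.coe_mul, Subring.coe_pow, hP0, hP0'] at h1
    rw [show (x0 : F) + (bj : F) * (y0 : F) = f from hxy, hP] at h1
    exact h1
  -- residue of the derivative
  obtain ⟨d, hd⟩ : ∃ d, p.r (P.derivative.eval (b i0)) d :=
    ⟨_, by rw [← hP0' x0]; exact p.r_res _⟩
  have hdf : p.r (P.derivative.eval f) d := by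
    have h1 : p.res (P0.derivative.eval x0) = d := p.res_eq (by rw [hP0']; exact hd)
    let f0 : p.O := ⟨f, _, hfl⟩
    have h2 : p.res f0 = p.res x0 := by
      rw [p.res_eq (v := f0) hfl, p.res_eq (v := x0) (l := l) (by rw [← hmi0]; exact hm i0 hi0)]
    have h3 : ∀ x : p.O, p.res (P0.derivative.eval x)
        = (P0.derivative.map p.res).eval (p.res x) := fun x => by
      rw [Polynomial.eval_map, Polynomial.eval₂_hom]
    have h4 := p.r_res (P0.derivative.eval f0)
    rw [hP0', h3, h2, ← h3, h1] at h4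
    exact h4
  have hd0 : d ≠ 0 := fun h => hP' (h ▸ hdf)
  have hdE : d ∈ E := by
    refine hBE _ ?_ _ hd
    rw [Polynomial.eval_eq_sum_range]
    refine B.sum_mem fun i _ => B.mul_mem ?_ (B.pow_mem (hb i0 hi0) _)
    rw [Polynomial.coeff_derivative]
    refine B.mul_mem (hPB _) ?_
    exact B.add_mem (natCast_mem B i) B.one_mem
  -- divide by `b j`
  have e2 : -(P.eval (b i0) / b j) = P.derivative.eval (b i0) * g' + b j * ((R : F) * g' ^ 2) := by
    have : P.eval (b i0) = -(P.derivative.eval (b i0) * (b j * g') + (R : F) * (b j * g') ^ 2) := by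
      linear_combination -e1
    rw [this]
    field_simp
  have hr : p.r (-(P.eval (b i0) / b j)) (d * ∑ i ∈ s', n i * γ i) := by
    rw [e2]
    have h1 := p.mul hd hg'
    have h2 : p.r (b j) 0 := by
      have := hm j (hs' j hj).1
      rwa [hm0 j (hs' j hj).1 (hs' j hj).2] at this
    have h3 := p.mul h2 (p.mul (p.r_res R) (p.pow hg' 2))
    rw [zero_mul] at h3
    have h4 := p.add h1 h3
    rwa [add_zero] at h4
  have hcE : d * ∑ i ∈ s', n i * γ i ∈ E := by
    refine hBE _ ?_ _ hr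
    refine B.neg_mem (B.div_mem ?_ (hb j (hs' j hj).1))
    rw [Polynomial.eval_eq_sum_range]
    exact B.sum_mem fun i _ => B.mul_mem (hPB _) (B.pow_mem (hb i0 hi0) _)
  have h7 := hind (fun i => if i = i0 then d * ∑ i ∈ s', n i * γ i else -(d * n i))
    (fun i hi => by
      by_cases h : i = i0
      · simp only [h, if_true]; exact hcE
      · simp only [h, if_false]
        exact E.neg_mem (E.mul_mem hdE (hnE i (Finset.mem_erase.2 ⟨h, hi⟩)))) (by
      rw [← Finset.add_sum_erase s _ hi0]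
      simp only [if_true, hγ0, mul_one]
      have h8 : ∀ i ∈ s', (if i = i0 then d * ∑ i ∈ s', n i * γ i else -(d * n i)) * γ i
          = -(d * (n i * γ i)) := fun i hi => by
        rw [if_neg (hs' i hi).2]; ring
      rw [Finset.sum_congr rfl h8, Finset.sum_neg_distrib, ← Finset.mul_sum, add_neg_cancel])
    j (hs' j hj).1
  simp only [(hs' j hj).2, if_false, hnj, mul_one, neg_eq_zero] at h7
  exact hd0 h7

end lemU

section final

variable {k : Type*} [Field k] {Z L F : Type*} [Field Z] [Field L] [Field F] [Algebra k Z]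
  [Algebra k L] [Algebra k F] {jF : Z ⊗[k] L →ₐ[k] F} (hF : IsFrc jF)

/-- an element algebraic over `Frac (Z ⊗ L₀)` is a combination of elements of `L` with
coefficients in `Frac (Z ⊗ L₀)` -/
theorem mem_span_of_algebraic [IsAlgClosed k] (L0 : IntermediateField k L) {f : F}
    (hf : IsAlgebraic (frS hF ⊤ L0) f) :
    f ∈ Submodule.span (frS hF ⊤ L0) (Set.range fun l : L => jF (1 ⊗ₜ l)) := by
  classical
  let B := frS hF ⊤ L0
  let L1 : IntermediateField k L := (algebraicClosure L0 L).restrictScalars k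
  have hL1 : ∀ l : L, IsAlgebraic L0 l → l ∈ L1 := fun l hl => mem_algebraicClosure_iff.2 hl
  have hL1' : ∀ l : L, l ∈ L1 → IsAlgebraic L0 l := fun l hl => mem_algebraicClosure_iff.1 hl
  obtain ⟨a, ha, b, hb, hb0, hab⟩ := fieldB hF L0 L1 hL1 hf
  let ι : L →ₐ[k] F := jF.comp Algebra.TensorProduct.includeRight
  have hι : ∀ l, ι l = jF (1 ⊗ₜ l) := fun l => rfl
  let S : Set F := ι '' (L1 : Set L)
  let W : Subalgebra B F := Algebra.adjoin B S
  have hWspan : Subalgebra.toSubmodule W = Submodule.span B S := by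
    apply Algebra.adjoin_eq_span_of_subset
    have : Submonoid.closure S ≤
        { carrier := S
          mul_mem' := by
            rintro _ _ ⟨x, hx, rfl⟩ ⟨y, hy, rfl⟩
            exact ⟨x * y, L1.mul_mem hx hy, map_mul _ _ _⟩
          one_mem' := ⟨1, L1.one_mem, map_one _⟩ : Submonoid F } :=
      (Submonoid.closure_le).2 (fun x hx => hx)
    exact fun x hx => Submodule.subset_span (this hx)
  -- integrality
  have hint : ∀ x ∈ W, IsIntegral B x := by
    have hle : W ≤ integralClosure B F := by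
      refine Algebra.adjoin_le ?_
      rintro _ ⟨l, hl, rfl⟩
      have h1 : IsIntegral L0 l := (hL1' l hl).isIntegral
      obtain ⟨q, hq, hq'⟩ := h1
      let i0 : L0 →+* B := (ι.toRingHom.comp L0.val.toRingHom).codRestrict B.toSubfield
        (fun x => by
          have := jF_mem_frS hF (A := ⊤) (B := L0) (tmul_mem_tS (z := 1) trivial x.2)
          exact this)
      refine ⟨q.map i0, hq.map i0, ?_⟩
      rw [Polynomial.eval₂_map]
      have h2 : (algebraMap B F).comp i0 = ι.toRingHom.comp (algebraMap L0 L) := RingHom.ext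
        fun x => rfl
      rw [h2]
      have h3 := Polynomial.hom_eval₂ q (algebraMap L0 L) ι.toRingHom l
      rw [hq', map_zero] at h3
      exact h3.symm
    exact fun x hx => hle hx
  have hmem : ∀ x ∈ tS (⊤ : IntermediateField k Z) L1, jF x ∈ W := by
    intro x hx
    refine tS_induction (p := fun x => jF x ∈ W) (by rw [map_zero]; exact zero_mem _) ?_ ?_ hx
    · intro z _ l hl
      have h1 : (z ⊗ₜ[k] l) = (z ⊗ₜ 1) * (1 ⊗ₜ l) := by
        rw [Algebra.TensorProduct.tmul_mul_tmul, mul_one, one_mul]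
      have h2 : jF (z ⊗ₜ[k] (1 : L)) ∈ B :=
        jF_mem_frS hF (tmul_mem_tS trivial L0.one_mem)
      rw [h1, map_mul]
      exact W.smul_mem (Algebra.subset_adjoin (s := S) ⟨l, hl, rfl⟩ : jF (1 ⊗ₜ l) ∈ W) (⟨_, h2⟩ : B)
    · intro x y _ _ hx hy
      rw [map_add]; exact add_mem hx hy
  have hfW : f ∈ W := by
    have h1 := (hint _ (hmem b hb)).inv_mem (hmem b hb)
    have h2 : f = jF a * (jF b)⁻¹ := by
      rw [← hab, mul_assoc, mul_inv_cancel₀ (hF.ne hb0), mul_one]
    rw [h2]
    exact W.mul_mem (hmem a ha) h1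
  have h3 : f ∈ Submodule.span B S := by
    rw [← hWspan]; exact hfW
  refine Submodule.span_mono ?_ h3
  rintro _ ⟨l, _, rfl⟩
  exact ⟨l, rfl⟩

/-- **Lemma U** (general residue field) -/
theorem lemmaU [IsAlgClosed k] {K G : Type*} [Field K] [Field G] [Algebra k K] [Algebra k G]
    (p : Pl Z K) (hp : p.Over k) {jG : K ⊗[k] L →ₐ[k] G} (hG : IsFrc jG)
    (L0 : IntermediateField k L) {f : F} {g : G} (hfg : (p.gauss hp jF jG hF hG).r f g)
    (hg : g ∈ frS hG ⊤ L0) (P : Polynomial F) (hPB : ∀ i, P.coeff i ∈ frS hF ⊤ L0)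
    (hPi : ∀ i, ∃ c, (p.gauss hp jF jG hF hG).r (P.coeff i) c) (hP : P.eval f = 0)
    (hP' : ¬ (p.gauss hp jF jG hF hG).r (P.derivative.eval f) 0) : f ∈ frS hF ⊤ L0 := by
  classical
  have hP0 : P ≠ 0 := by
    rintro rfl
    apply hP'
    rw [Polynomial.derivative_zero, Polynomial.eval_zero]
    exact Pl.zero _
  have halg : IsAlgebraic (frS hF ⊤ L0) f := by
    obtain ⟨P1, h1⟩ : ∃ P1 : Polynomial (frS hF ⊤ L0),
        P1.map (algebraMap (frS hF ⊤ L0) F) = P := by
      rw [← Polynomial.mem_lifts, Polynomial.lifts_iff_coeff_lifts]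
      exact fun n => ⟨⟨_, hPB n⟩, rfl⟩
    refine ⟨P1, ?_, ?_⟩
    · rintro h
      apply hP0
      rw [← h1, h, Polynomial.map_zero]
    · rw [Polynomial.aeval_def, ← Polynomial.eval_map, h1, hP]
  have hspan := mem_span_of_algebraic hF L0 halg
  -- a basis of `L` over `L0` containing `1`
  have hli : LinearIndepOn L0 id ({1} : Set L) :=
    (linearIndepOn_singleton_iff L0).2 one_ne_zero
  let e := Module.Basis.extend hli
  have h1mem : (1 : L) ∈ hli.extend (Set.subset_univ _) := hli.subset_extend _ rfl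
  let i0 : hli.extend (Set.subset_univ _) := ⟨1, h1mem⟩
  have hei0 : e i0 = 1 := Module.Basis.extend_apply_self hli i0
  -- coordinates
  have key : ∃ c : (hli.extend (Set.subset_univ _)) →₀ (frS hF ⊤ L0),
      f = c.sum fun i b => (b : F) * jF (1 ⊗ₜ e i) := by
    refine Submodule.span_induction (p := fun f _ =>
      ∃ c : (hli.extend (Set.subset_univ _)) →₀ (frS hF ⊤ L0),
        f = c.sum fun i b => (b : F) * jF (1 ⊗ₜ e i)) ?_ ⟨0, by simp⟩ ?_ ?_ hspan
    · rintro _ ⟨l, rfl⟩
      let i1 : L0 →+ frS hF ⊤ L0 :=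
        { toFun := fun x => ⟨jF (1 ⊗ₜ (x : L)), jF_mem_frS hF (tmul_mem_tS trivial x.2)⟩
          map_zero' := Subtype.ext (by simp)
          map_add' := fun x y => Subtype.ext (by
            show jF (1 ⊗ₜ ((x + y : L0) : L)) = jF (1 ⊗ₜ (x : L)) + jF (1 ⊗ₜ (y : L))
            rw [← map_add, ← tmul_add]; rfl) }
      refine ⟨(e.repr l).mapRange i1 (map_zero i1), ?_⟩
      rw [Finsupp.sum_mapRange_index (fun i => by simp)]
      have h1 : l = (e.repr l).sum fun i c => (c : L) * e i := by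
        conv_lhs => rw [← e.linearCombination_repr l]
        rw [Finsupp.linearCombination_apply]
        rfl
      have h2 : jF (1 ⊗ₜ l) = jF (1 ⊗ₜ ((e.repr l).sum fun i c => (c : L) * e i)) := by
        rw [← h1]
      show jF (1 ⊗ₜ l) = _
      rw [h2, Finsupp.sum, tmul_sum, map_sum, Finsupp.sum]
      refine Finset.sum_congr rfl fun i _ => ?_
      show jF (1 ⊗ₜ (((e.repr l i : L0) : L) * e i)) = jF (1 ⊗ₜ ((e.repr l i : L0) : L)) * jF (1 ⊗ₜ e i)
      rw [← map_mul, Algebra.TensorProduct.tmul_mul_tmul, one_mul]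
    · rintro x y _ _ ⟨c, rfl⟩ ⟨d, rfl⟩
      refine ⟨c + d, ?_⟩
      rw [Finsupp.sum_add_index' (fun i => by simp) (fun i b b' => by
        show ((b : F) + (b' : F)) * _ = _
        rw [add_mul])]
    · rintro a x _ ⟨c, rfl⟩
      refine ⟨a • c, ?_⟩
      rw [Finsupp.sum_smul_index' (fun i => by simp), Finsupp.sum, Finsupp.sum, Finset.smul_sum]
      refine Finset.sum_congr rfl fun i _ => ?_
      show (a : F) * ((c i : F) * _) = ((a : F) * (c i : F)) * _
      rw [mul_assoc]
  obtain ⟨c, hc⟩ := key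
  let s := insert i0 c.support
  have hcs : f = ∑ i ∈ s, (c i : F) * jF (1 ⊗ₜ e i) := by
    rw [hc]
    exact Finsupp.sum_of_support_subset c (Finset.subset_insert _ _) _ (fun i _ => by simp)
  have hind : ∀ c : (hli.extend (Set.subset_univ _)) → L, (∀ i ∈ s, c i ∈ L0) →
      ∑ i ∈ s, c i * e i = 0 → ∀ i ∈ s, c i = 0 := by
    intro c hc h i hi
    have h1 := linearIndependent_iff'.1 e.linearIndependent s
      (fun i => if h : c i ∈ L0 then (⟨c i, h⟩ : L0) else 0) (by
        rw [← h]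
        refine Finset.sum_congr rfl fun i hi => ?_
        rw [dif_pos (hc i hi)]; rfl) i hi
    rw [dif_pos (hc i hi)] at h1
    exact congrArg (fun t : L0 => (t : L)) h1
  refine lemmaU_aux (p.gauss hp jF jG hF hG) (frS hF ⊤ L0).toSubfield (frS hG ⊤ L0).toSubfield
    (fun b hb l hl => gauss_frS hF p hp hG ⊤ ⊤ (fun _ _ _ _ => trivial) L0 hb hl) s i0
    (Finset.mem_insert_self _ _) (fun i => jF (1 ⊗ₜ e i)) (fun i => jG (1 ⊗ₜ e i))
    (fun i _ => p.gauss_right hp jF jG hF hG (e i)) ?_
    (fun c hc h => ind_frS hG L0 s (fun i => e i) hind c hc h) (fun i => (c i : F))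
    (fun i _ => (c i).2) f hcs g hfg hg P hPB hPi hP hP'
  show jF (1 ⊗ₜ e i0) = 1
  rw [hei0]
  exact map_one jF

/-- `Frac (k ⊗ L₀)` in `L` is `L₀` -/
theorem frS_lidH (k L : Type*) [Field k] [Field L] [Algebra k L] (L0 : IntermediateField k L)
    (l : L) : l ∈ frS (isFrc_lidH k L) ⊤ L0 ↔ l ∈ L0 := by
  have h1 : ∀ x ∈ tS (⊤ : IntermediateField k k) L0, lidH k L x ∈ L0 := by
    intro x hx
    refine tS_induction (p := fun x => lidH k L x ∈ L0) (by rw [map_zero]; exact zero_mem _) ?_ ?_ hx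
    · intro z _ l hl
      rw [lidH_tmul]
      exact L0.smul_mem hl
    · intro x y _ _ hx hy
      rw [map_add]; exact add_mem hx hy
  constructor
  · rintro ⟨a, ha, b, hb, hb0, h⟩
    have hb' := (isFrc_lidH k L).ne hb0
    have : l = lidH k L a * (lidH k L b)⁻¹ := by
      rw [← h, mul_assoc, mul_inv_cancel₀ hb', mul_one]
    rw [this]
    exact L0.mul_mem (h1 a ha) (L0.inv_mem (h1 b hb))
  · intro hl
    have := jF_mem_frS (isFrc_lidH k L) (tmul_mem_tS (z := (1 : k)) (A := ⊤) trivial hl)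
    rwa [lidH_tmul, one_smul] at this

end final

end Pool.Agent.Lib.MP_c37a72_al
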