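import Pool.Agent.Lib.MP_c37a72_al.PlX
import Pool.Agent.Lib.MP_c37a72_al.FRU
import Pool.Agent.Lib.MP_c37a72_al.LB.Base

/-!
# MP_c37a72_al: points of `x * y` and places, labels (1.6)
-/

set_option autoImplicit false
set_option linter.unusedSectionVars false

namespace Pool.Agent.Lib.MP_c37a72_al.LB

open Finset TensorProduct Coalgebra HopfAlgebra

universe u v w

namespace PTPM

/-- a point of `P0` over `ξ` and a place through which `T → Λ` factors -/
theorem exists_point {F2 P0 Ω Λ T : Type*} [Field F2] [CommRing P0] [Algebra F2 P0]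
    [Module.Finite F2 P0] [Nontrivial P0] [Field Ω] [IsAlgClosed Ω] [Field Λ] [IsAlgClosed Λ]
    [CommRing T] (ξ : F2 →+* Ω) (f : T →+* P0) (g : T →+* Λ) (h : ∀ t, f t = 0 → g t = 0) :
    ∃ (ψ : P0 →+* Ω) (q : Pl Ω Λ), (∀ a, ψ (algebraMap F2 P0 a) = ξ a) ∧
      ∀ t, q.r (ψ (f t)) (g t) := by
  classical
  have hart : IsArtinianRing P0 := IsArtinianRing.of_finite F2 P0
  have hfin : Finite (MaximalSpectrum P0) := inferInstance
  have := Fintype.ofFinite (MaximalSpectrum P0)
  obtain ⟨M, hM⟩ : ∃ M : MaximalSpectrum P0, ∀ t, f t ∈ M.asIdeal → g t = 0 := by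
    by_contra hcon
    push Not at hcon
    choose a ha ha' using hcon
    let b : T := ∏ M, a M
    have hb : f b ∈ Ideal.jacobson (⊥ : Ideal P0) := by
      rw [Ideal.jacobson, Ideal.mem_sInf]
      rintro J ⟨-, hJ⟩
      have h1 := ha ⟨J, hJ⟩
      have : f b = f (a ⟨J, hJ⟩) * f (∏ M ∈ univ.erase ⟨J, hJ⟩, a M) := by
        rw [← map_mul, Finset.mul_prod_erase univ a (mem_univ _)]
      rw [this]
      exact J.mul_mem_right _ h1
    obtain ⟨n, hn⟩ := IsArtinianRing.isNilpotent_jacobson_bot (R := P0)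
    have h2 : f (b ^ n) = 0 := by
      rw [map_pow]
      have : f b ^ n ∈ Ideal.jacobson (⊥ : Ideal P0) ^ n := Ideal.pow_mem_pow hb n
      rw [hn] at this
      exact this
    have h3 := h _ h2
    rw [map_pow, map_prod] at h3
    exact pow_ne_zero n (Finset.prod_ne_zero_iff.2 fun M _ => ha' M) h3
  letI : Field (P0 ⧸ M.asIdeal) := @Ideal.Quotient.field _ _ M.asIdeal M.isMaximal
  letI : Algebra F2 Ω := ξ.toAlgebra
  have halg : Algebra.IsAlgebraic F2 (P0 ⧸ M.asIdeal) := inferInstance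
  let ψ0 : (P0 ⧸ M.asIdeal) →ₐ[F2] Ω := IsAlgClosed.lift
  let ψ : P0 →+* Ω := ψ0.toRingHom.comp (Ideal.Quotient.mk M.asIdeal)
  have hψ : ∀ a, ψ a = 0 → a ∈ M.asIdeal := by
    intro a ha
    have : ψ0 (Ideal.Quotient.mk M.asIdeal a) = 0 := ha
    rw [map_eq_zero] at this
    exact Ideal.Quotient.eq_zero_iff_mem.1 this
  obtain ⟨q, hq⟩ := exists_pl ((ψ.comp f).prod g).range (by
    rintro l ⟨t, ht⟩
    have h1 : ψ (f t) = 0 := congrArg Prod.fst ht
    have h2 : g t = l := congrArg Prod.snd ht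
    rw [← h2]
    exact hM t (hψ _ h1))
  refine ⟨ψ, q, fun a => ?_, fun t => hq _ _ ⟨t, rfl⟩⟩
  show ψ0 (Ideal.Quotient.mk M.asIdeal (algebraMap F2 P0 a)) = ξ a
  exact ψ0.commutes a

section core

variable {k : Type u} {Z Q F2 R2 : Type*} [Field k] [IsAlgClosed k] [Field Z] [Algebra k Z]
  [Ring Q] [Algebra k Q] [Algebra Z Q] [IsScalarTower k Z Q] [Nontrivial Q] [Field F2]
  [Algebra k F2] [Ring R2] [Algebra k R2] [Algebra F2 R2] [IsScalarTower k F2 R2]
  [Module.Finite F2 R2]

open CPlc in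
theorem core (H' : Subalgebra k Q) (φ : H' →ₐ[k] k) (jF : Z ⊗[k] Z →ₐ[k] F2) (hF : IsFrc jF)
    (j : Q ⊗[k] Q →ₐ[k] R2) (hj : Function.Injective j)
    (hjF : ∀ z l : Z, j (algebraMap Z Q z ⊗ₜ algebraMap Z Q l)
      = algebraMap F2 R2 (jF (z ⊗ₜ l)))
    (D : Z →ₐ[k] R2) (C : Submonoid Z) (hC : ∀ z : Z, ∃ a ∈ C, ∃ b ∈ C, b ≠ 0 ∧ z * b = a)
    (hD : ∀ c ∈ C, ∃ x : H' ⊗[k] Q, D c = j (iH H' Q x) ∧ eH φ Q x = algebraMap Z Q c)
    {Ω Λ : Type*} [Field Ω] [IsAlgClosed Ω] [Algebra k Ω] [Field Λ] [IsAlgClosed Λ]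
    [Algebra k Λ] (ξ : F2 →ₐ[k] Ω) (i : Z →ₐ[k] Λ) :
    ∃ (P : Plc k Z) (w : Z →ₐ[k] Ω) (q : Pl Ω Λ),
      (∀ t : F2 ⊗[k] Z, mu k (IsScalarTower.toAlgHom k F2 R2) D t = 0 → mu k ξ w t = 0) ∧
      (∀ z, q.r (w z) (i z)) ∧
      (∀ z : P.V, q.r (ξ (jF ((z : Z) ⊗ₜ 1))) (algebraMap k Λ (P.α z))) ∧
      ∀ z, q.r (ξ (jF (1 ⊗ₜ z))) (i z) := by
  classical
  obtain ⟨P⟩ := exists_cplc (Z := Z) H' φ
  letI : Algebra (Z ⊗[k] Z) F2 := jF.toRingHom.toAlgebra
  have hfr : IsFractionRing (Z ⊗[k] Z) F2 := hF.isFractionRing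
  letI : Algebra Z F2 := (jF.toRingHom.comp
    (Algebra.TensorProduct.includeRight : Z →ₐ[k] Z ⊗[k] Z).toRingHom).toAlgebra
  have hL : ∀ l : Z, algebraMap Z F2 l = algebraMap (Z ⊗[k] Z) F2 (1 ⊗ₜ l) := fun l => rfl
  let O := (P.gauss Z F2 hL).V
  -- the commutative algebra `F2[D(Z)]`
  let S : Set R2 := Set.range D
  have hS : ∀ a ∈ S, ∀ b ∈ S, a * b = b * a := by
    rintro _ ⟨a, rfl⟩ _ ⟨b, rfl⟩
    rw [← map_mul, ← map_mul, mul_comm]
  let P0 := Algebra.adjoin F2 S
  have hcomm : IsMulCommutative P0 := Algebra.isMulCommutative_adjoin F2 hS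
  letI : CommRing P0 := { (inferInstance : Ring P0) with mul_comm := fun a b => mul_comm' a b }
  have hR2 : Nontrivial R2 := by
    have : Nontrivial (Q ⊗[k] Q) := inferInstance
    exact hj.nontrivial
  have hP0 : Nontrivial P0 := inferInstance
  have hfin : Module.Finite F2 P0 := inferInstance
  have hDmem : ∀ z, D z ∈ P0 := fun z => Algebra.subset_adjoin ⟨z, rfl⟩
  -- the ring `T`
  let T := MvPolynomial C O
  let Dc : C → P0 := fun c => ⟨D c, hDmem c⟩
  let f : T →+* P0 := MvPolynomial.eval₂Hom ((algebraMap F2 P0).comp O.subtype) Dc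
  let g : T →+* Λ := MvPolynomial.eval₂Hom (i.toRingHom.comp (P.gauss Z F2 hL).α.toRingHom)
    (fun c : C => i c)
  have hfg : ∀ t, f t = 0 → g t = 0 := by
    intro t ht
    let cd : (C →₀ ℕ) → C := fun d => ∏ c ∈ d.support, c ^ d c
    have hcd : ∀ d, ∃ x : H' ⊗[k] Q, D (cd d : Z) = j (iH H' Q x) ∧
        eH φ Q x = algebraMap Z Q (cd d : Z) := fun d => hD _ (cd d).2
    choose x hx hx' using hcd
    have h1 : ∑ d ∈ t.support, algebraMap F2 R2 ((MvPolynomial.coeff d t : O) : F2) *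
        j (iH H' Q (x d)) = 0 := by
      have h2 : ((f t : P0) : R2) = 0 := by rw [ht]; rfl
      rw [← h2]
      show _ = ((MvPolynomial.eval₂ ((algebraMap F2 P0).comp O.subtype) Dc t : P0) : R2)
      rw [MvPolynomial.eval₂_eq, AddSubmonoidClass.coe_finsetSum]
      refine Finset.sum_congr rfl fun d _ => ?_
      rw [← hx d]
      show _ = algebraMap F2 R2 ((MvPolynomial.coeff d t : O) : F2) *
        ((∏ c ∈ d.support, Dc c ^ d c : P0) : R2)
      congr 1
      have : (∏ c ∈ d.support, Dc c ^ d c : P0) = ⟨D (cd d), hDmem _⟩ := by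
        let Dm : Z →+* P0 :=
          { toFun := fun z => ⟨D z, hDmem z⟩
            map_one' := Subtype.ext (map_one D)
            map_mul' := fun a b => Subtype.ext (map_mul D a b)
            map_zero' := Subtype.ext (map_zero D)
            map_add' := fun a b => Subtype.ext (map_add D a b) }
        have h3 : Dm (cd d) = ∏ c ∈ d.support, Dm c ^ d c := by
          simp only [cd, Submonoid.coe_finsetProd, SubmonoidClass.coe_pow, map_prod, map_pow]
        exact h3.symm
      rw [this]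
    have h2 := P.gauss_compat hL (j : Q ⊗[k] Q →+* R2) hj (fun z l => hjF z l) t.support
      (fun d => t.coeff d) x h1
    have h3 : ∑ d ∈ t.support, (P.gauss Z F2 hL).α (t.coeff d) * (cd d : Z) = 0 := by
      apply (algebraMap Z Q).injective
      rw [map_sum, map_zero, ← h2]
      refine Finset.sum_congr rfl fun d _ => ?_
      rw [map_mul, hx' d]
    have h4 := congrArg i h3
    rw [map_sum, map_zero] at h4
    show MvPolynomial.eval₂ (i.toRingHom.comp (P.gauss Z F2 hL).α.toRingHom)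
      (fun c : C => i c) t = 0
    rw [MvPolynomial.eval₂_eq, ← h4]
    refine Finset.sum_congr rfl fun d _ => ?_
    rw [map_mul]
    congr 1
    simp only [cd, Submonoid.coe_finsetProd, SubmonoidClass.coe_pow, map_prod, map_pow]
  obtain ⟨ψ, q, hψ, hq⟩ := exists_point (ξ : F2 →+* Ω) f g hfg
  let w : Z →ₐ[k] Ω :=
    { toFun := fun z => ψ ⟨D z, hDmem z⟩
      map_one' := by
        have : (⟨D 1, hDmem 1⟩ : P0) = 1 := Subtype.ext (map_one D)
        rw [this, map_one]
      map_mul' := fun a b => by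
        rw [← map_mul]
        exact congrArg ψ (Subtype.ext (map_mul D a b))
      map_zero' := by
        have : (⟨D 0, hDmem 0⟩ : P0) = 0 := Subtype.ext (map_zero D)
        rw [this, map_zero]
      map_add' := fun a b => by
        rw [← map_add]
        exact congrArg ψ (Subtype.ext (map_add D a b))
      commutes' := fun c => by
        have : (⟨D (algebraMap k Z c), hDmem _⟩ : P0) = algebraMap F2 P0 (algebraMap k F2 c) :=
          Subtype.ext ((D.commutes c).trans (IsScalarTower.algebraMap_apply k F2 R2 c))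
        rw [this, hψ]
        exact ξ.commutes c }
  have hw : ∀ z, w z = ψ ⟨D z, hDmem z⟩ := fun z => rfl
  have hwC : ∀ c : C, q.r (w c) (i c) := by
    intro c
    have h1 := hq (MvPolynomial.X c)
    have e1 : f (MvPolynomial.X c) = Dc c := MvPolynomial.eval₂_X _ _ _
    have e2 : g (MvPolynomial.X c) = i c := MvPolynomial.eval₂_X _ _ _
    rw [e1, e2] at h1
    exact h1
  have hO : ∀ o : O, q.r (ξ o) (i ((P.gauss Z F2 hL).α o)) := by
    intro o
    have h1 := hq (MvPolynomial.C o)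
    have e1 : f (MvPolynomial.C o) = algebraMap F2 P0 o := MvPolynomial.eval₂_C _ _ _
    have e2 : g (MvPolynomial.C o) = i ((P.gauss Z F2 hL).α o) := MvPolynomial.eval₂_C _ _ _
    rw [e1, e2, hψ] at h1
    exact h1
  refine ⟨P.toPlc, w, q, ?_, ?_, ?_, ?_⟩
  · intro t ht
    have key : ∀ t : F2 ⊗[k] Z, ∃ h : mu k (IsScalarTower.toAlgHom k F2 R2) D t ∈ P0,
        ψ ⟨_, h⟩ = mu k ξ w t := by
      intro t
      induction t using TensorProduct.induction_on with
      | zero =>
        refine ⟨by rw [map_zero]; exact zero_mem _, ?_⟩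
        have : (⟨mu k (IsScalarTower.toAlgHom k F2 R2) D 0, by rw [map_zero]; exact zero_mem _⟩ : P0)
            = 0 := Subtype.ext (map_zero _)
        rw [this, map_zero, map_zero]
      | add a b ha hb =>
        obtain ⟨h1, h2⟩ := ha
        obtain ⟨h3, h4⟩ := hb
        refine ⟨by rw [map_add]; exact add_mem h1 h3, ?_⟩
        rw [map_add (mu k ξ w), ← h2, ← h4, ← map_add ψ]
        exact congrArg ψ (Subtype.ext (map_add _ _ _))
      | tmul a z =>
        refine ⟨mul_mem (Subalgebra.algebraMap_mem P0 a) (hDmem z), ?_⟩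
        have e1 : mu k ξ w (a ⊗ₜ z) = ψ (algebraMap F2 P0 a) * ψ ⟨D z, hDmem z⟩ := by
          rw [mu_tmul, hw, hψ]; rfl
        rw [e1, ← map_mul]
        exact congrArg ψ (Subtype.ext rfl)
    obtain ⟨h1, h2⟩ := key t
    rw [← h2]
    have : (⟨mu k (IsScalarTower.toAlgHom k F2 R2) D t, h1⟩ : P0) = 0 := Subtype.ext ht
    rw [this, map_zero]
  · intro z
    obtain ⟨a, ha, b, hb, hb0, hz⟩ := hC z
    have h1 := hwC ⟨a, ha⟩
    have h2 := hwC ⟨b, hb⟩
    have hib : i b ≠ 0 := fun h0 => hb0 (by rwa [map_eq_zero] at h0)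
    have hwb : w b ≠ 0 := fun h0 => hb0 (by rwa [map_eq_zero] at h0)
    have e1 : w z = w a / w b := by rw [eq_div_iff hwb, ← map_mul, hz]
    have e2 : i z = i a / i b := by rw [eq_div_iff hib, ← map_mul, hz]
    rw [e1, e2]
    exact q.div h1 h2 hib
  · intro z
    have h1 : jF ((z : Z) ⊗ₜ 1) ∈ O := by
      refine P.gauss_mem hL (a := z ⊗ₜ 1) (b := 1) ?_ ?_
      · rw [map_one]; exact one_ne_zero
      · rw [map_one, mul_one, Plc.io_apply, Plc.incl_tmul]; rfl
    have h2 := P.gauss_α hL ⟨_, h1⟩ (a := z ⊗ₜ 1) (b := 1) (by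
      rw [map_one, mul_one, Plc.io_apply, Plc.incl_tmul]; rfl)
    rw [map_one, mul_one, Plc.ev_tmul] at h2
    have h3 := hO ⟨_, h1⟩
    rw [h2] at h3
    have e : i (P.α z • (1 : Z)) = algebraMap k Λ (P.α z) := by
      rw [map_smul, map_one, Algebra.algebraMap_eq_smul_one]
    rw [e] at h3
    exact h3
  · intro z
    have h1 := hO (algebraMap Z O z)
    rw [AlgHom.commutes] at h1
    exact h1

end core

section lifts

variable {k : Type u} {Z F Ω : Type*} [Field k] [IsAlgClosed k] [Field Z] [Algebra k Z] [Field F]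
  [Algebra k F] [Algebra Z F] [IsScalarTower k Z F] [Algebra.IsAlgebraic Z F] [Field Ω]
  [Algebra k Ω]

/-- correction of the place on the algebraic closure of `Z` -/
theorem fixup (P : Plc k Z) (q : Pl Ω F) (xt yt : F →ₐ[k] Ω)
    (hy : ∀ z : P.V, q.r (yt (algebraMap Z F z)) (algebraMap k F (P.α z)))
    (hx : ∀ z : Z, q.r (xt (algebraMap Z F z)) (algebraMap Z F z)) (w : Z →ₐ[k] Ω)
    (hw : ∀ z, q.r (w z) (algebraMap Z F z)) :
    ∃ (P' : Pl Ω F) (p : Pl F k), p.Over k ∧ (∀ f, P'.r (xt f) f) ∧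
      (∀ f c, p.r f c → P'.r (yt f) (algebraMap k F c)) ∧
      ∀ z, P'.r (w z) (algebraMap Z F z) := by
  classical
  let p1 : Pl F F := q.comap (xt : F →+* Ω)
  have hp1 : ∀ z : Z, p1.r (algebraMap Z F z) (algebraMap Z F z) := hx
  have h1 : ∀ f : F, ∃ l, p1.r f l := by
    intro f
    obtain ⟨l, hl, -⟩ := p1.alg (algebraMap Z F).fieldRange
      (by rintro _ ⟨z, rfl⟩; exact ⟨_, hp1 z⟩) (f := f) (by
        obtain ⟨r, hr0, hr⟩ := Algebra.IsAlgebraic.isAlgebraic (R := Z) f
        refine ⟨r.map (algebraMap Z F).rangeRestrictField, ?_, ?_⟩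
        · exact (Polynomial.map_ne_zero_iff (algebraMap Z F).rangeRestrictField.injective).2 hr0
        · rw [Polynomial.aeval_def, Polynomial.eval₂_map]
          exact hr)
    exact ⟨l, hl⟩
  choose σ0 hσ0 using h1
  let σ1 : F →ₐ[Z] F :=
    { toFun := σ0
      map_one' := p1.uniq (hσ0 1) p1.one
      map_mul' := fun a b => p1.uniq (hσ0 _) (p1.mul (hσ0 a) (hσ0 b))
      map_zero' := p1.uniq (hσ0 0) p1.zero
      map_add' := fun a b => p1.uniq (hσ0 _) (p1.add (hσ0 a) (hσ0 b))
      commutes' := fun z => p1.uniq (hσ0 _) (hp1 z) }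
  let σ : F ≃ₐ[Z] F := AlgEquiv.ofBijective σ1 (Algebra.IsAlgebraic.algHom_bijective σ1)
  have hσ : ∀ f, q.r (xt f) (σ f) := hσ0
  let P' : Pl Ω F := q.map (σ.symm : F →+* F)
  have hP' : ∀ {f : Ω} {m : F}, q.r f m → P'.r f (σ.symm m) := fun {f m} h => ⟨m, h, rfl⟩
  have hxP : ∀ f, P'.r (xt f) f := by
    intro f
    have := hP' (hσ f)
    rwa [AlgEquiv.symm_apply_apply] at this
  have hwP : ∀ z, P'.r (w z) (algebraMap Z F z) := by
    intro z
    have := hP' (hw z)
    rwa [AlgEquiv.commutes] at this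
  have hyP : ∀ z : P.V, P'.r (yt (algebraMap Z F z)) (algebraMap k F (P.α z)) := by
    intro z
    have := hP' (hy z)
    rwa [IsScalarTower.algebraMap_apply k Z F, AlgEquiv.commutes,
      ← IsScalarTower.algebraMap_apply k Z F] at this
  -- residues on the second leg are constants
  have hres : ∀ f l, P'.r (yt f) l → ∃ c, algebraMap k F c = l := by
    intro f l hl
    obtain ⟨r, hr0, hr⟩ := Algebra.IsAlgebraic.isAlgebraic (R := Z) f
    obtain ⟨j, hj, hjV⟩ := P.exists_dominating r.support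
      (Polynomial.support_nonempty.2 hr0) r.coeff (fun i hi => Polynomial.mem_support_iff.1 hi)
    have hcj : r.coeff j ≠ 0 := Polynomial.mem_support_iff.1 hj
    have hV : ∀ i, r.coeff i / r.coeff j ∈ P.V := by
      intro i
      by_cases hi : i ∈ r.support
      · exact hjV i hi
      · rw [Polynomial.notMem_support_iff.1 hi, zero_div]; exact zero_mem _
    let s : Polynomial k := ∑ i ∈ r.support, Polynomial.monomial i (P.α ⟨_, hV i⟩)
    have hs : s ≠ 0 := by
      intro h0
      have h2 := congrArg (fun t => t.coeff j) h0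
      simp only [s, Polynomial.finsetSum_coeff, Polynomial.coeff_monomial, Polynomial.coeff_zero]
        at h2
      rw [Finset.sum_ite_eq' r.support j (fun i => P.α ⟨_, hV i⟩), if_pos hj] at h2
      have : (⟨r.coeff j / r.coeff j, hV j⟩ : P.V) = 1 := Subtype.ext (div_self hcj)
      rw [this, map_one] at h2
      exact one_ne_zero h2
    have h3 : ∑ i ∈ r.support, algebraMap Z F (r.coeff i / r.coeff j) * f ^ i = 0 := by
      rw [Polynomial.aeval_eq_sum_range] at hr
      have e1 : ∑ i ∈ r.support, algebraMap Z F (r.coeff i / r.coeff j) * f ^ i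
          = algebraMap Z F (r.coeff j)⁻¹ * ∑ i ∈ Finset.range (r.natDegree + 1),
            r.coeff i • f ^ i := by
        rw [Finset.mul_sum]
        have hsub : r.support ⊆ Finset.range (r.natDegree + 1) := by
          intro i hi
          rw [Finset.mem_range]
          exact Nat.lt_succ_of_le (Polynomial.le_natDegree_of_mem_supp i hi)
        rw [← Finset.sum_subset hsub]
        · refine Finset.sum_congr rfl fun i _ => ?_
          rw [Algebra.smul_def, ← mul_assoc, ← map_mul, div_eq_mul_inv, mul_comm (r.coeff j)⁻¹]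
        · intro i _ hi
          rw [Polynomial.notMem_support_iff.1 hi, zero_smul, mul_zero]
      rw [e1, hr, mul_zero]
    have h4 : P'.r (yt (∑ i ∈ r.support, algebraMap Z F (r.coeff i / r.coeff j) * f ^ i))
        (∑ i ∈ r.support, algebraMap k F (P.α ⟨_, hV i⟩) * l ^ i) := by
      rw [map_sum]
      refine P'.sum _ _ _ fun i _ => ?_
      rw [map_mul, map_pow]
      exact P'.mul (hyP ⟨_, hV i⟩) (P'.pow hl i)
    rw [h3, map_zero] at h4
    have h5 : Polynomial.aeval l s = 0 := by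
      rw [← P'.uniq h4 P'.zero]
      simp only [s, map_sum, Polynomial.aeval_monomial]
    have halg : IsAlgebraic k l := ⟨s, hs, h5⟩
    have h6 := IsAlgClosed.degree_eq_one_of_irreducible k (minpoly.irreducible halg.isIntegral)
    obtain ⟨c, hc⟩ := minpoly.mem_range_of_degree_eq_one k l h6
    exact ⟨c, hc⟩
  let p : Pl F k :=
    { r := fun f c => P'.r (yt f) (algebraMap k F c)
      uniq := fun h h' => (algebraMap k F).injective (P'.uniq h h')
      one := by rw [map_one, map_one]; exact P'.one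
      add := fun h h' => by rw [map_add, map_add]; exact P'.add h h'
      mul := fun h h' => by rw [map_mul, map_mul]; exact P'.mul h h'
      dich := fun f => by
        rcases P'.dich (yt f) with ⟨l, hl⟩ | h
        · obtain ⟨c, rfl⟩ := hres f l hl
          exact Or.inl ⟨c, hl⟩
        · right
          rw [map_inv₀, map_zero]
          exact h }
  refine ⟨P', p, fun c => ?_, hxP, fun f c h => h, hwP⟩
  show P'.r (yt (algebraMap k F c)) (algebraMap k F c)
  rw [AlgHom.commutes]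
  have := hxP (algebraMap k F c)
  rwa [AlgHom.commutes] at this

end lifts

section eps

variable {k : Type u} {H Q : Type v} [Field k] [Ring H] [HopfAlgebra k H] [Ring Q] [Algebra k Q]
  (ι : H →ₐ[k] Q) (hι : Function.Injective ι)

/-- the counit on the image of `H` -/
noncomputable def epsR : ι.range →ₐ[k] k :=
  (Bialgebra.counitAlgHom k H).comp (AlgEquiv.ofInjective ι hι).symm.toAlgHom

theorem epsR_apply (h : H) : epsR ι hι (ι.rangeRestrict h) = counit (R := k) h := by
  have e : ι.rangeRestrict h = AlgEquiv.ofInjective ι hι h := Subtype.ext rfl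
  show counit (R := k) ((AlgEquiv.ofInjective ι hι).symm (ι.rangeRestrict h)) = _
  rw [e, AlgEquiv.symm_apply_apply]

/-- `h₁ ⊗ h₂` with the first leg in the subalgebra -/
noncomputable def xL : H ⊗[k] H →ₐ[k] ι.range ⊗[k] Q :=
  Algebra.TensorProduct.map ι.rangeRestrict ι

open CPlc in
theorem iH_xL (t : H ⊗[k] H) : iH ι.range Q (xL ι t) = Algebra.TensorProduct.map ι ι t := by
  unfold xL iH
  induction t using TensorProduct.induction_on with
  | zero => simp
  | add a b ha hb => rw [map_add, map_add, map_add, ha, hb]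
  | tmul a b => simp

open CPlc in
theorem eH_xL (t : H ⊗[k] H) : eH (epsR ι hι) Q (xL ι t)
    = ι (TensorProduct.lid k H ((counit (R := k) (A := H)).rTensor H t)) := by
  unfold xL
  induction t using TensorProduct.induction_on with
  | zero => simp
  | add a b ha hb => rw [map_add, map_add, ha, hb, map_add, map_add, map_add]
  | tmul a b =>
    rw [Algebra.TensorProduct.map_tmul, eH_tmul, epsR_apply, LinearMap.rTensor_tmul,
      TensorProduct.lid_tmul, map_smul]

end eps

end PTPM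

open PTPM

section ptp

variable {k : Type u} {H Z Q F2 R2 F Ω : Type v} [Field k] [IsAlgClosed k] [Ring H] [IsDomain H]
  [HopfAlgebra k H] [Field Z] [Algebra k Z] [DivisionRing Q] [Algebra k Q] [Algebra Z Q]
  [IsScalarTower k Z Q] [Field F2] [Algebra k F2] [Ring R2] [Algebra k R2] [Algebra F2 R2]
  [IsScalarTower k F2 R2] {ι : H →ₐ[k] Q} {jF : Z ⊗[k] Z →ₐ[k] F2} {j : Q ⊗[k] Q →ₐ[k] R2}
  {D : Q →ₐ[k] R2} [Field F] [IsAlgClosed F] [Algebra k F] [Algebra Z F] [IsScalarTower k Z F]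
  [Algebra.IsAlgebraic Z F] [Field Ω] [IsAlgClosed Ω] [Algebra k Ω]

/-- **PTPR**: a place of `Ω` which is trivial on the first leg and `y → ε` on the second, and a point
`w ∈ x * y` which goes to `x`. -/
theorem ptpR (hQ : IsCQ k H Z Q ι) (h2 : IsR2 ι jF j D) (ξ : F2 →ₐ[k] Ω) (xt yt : F →ₐ[k] Ω)
    (hξ : Pr jF ξ (xt.comp (IsScalarTower.toAlgHom k Z F))
      (yt.comp (IsScalarTower.toAlgHom k Z F))) :
    ∃ (P : Pl Ω F) (p : Pl F k) (w : Z →ₐ[k] Ω), p.Over k ∧ (∀ f, P.r (xt f) f) ∧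
      (∀ f c, p.r f c → P.r (yt f) (algebraMap k F c)) ∧ Mul D ξ w ∧
      ∀ z, P.r (w z) (algebraMap Z F z) := by
  have := hQ.fin
  have hfin : Module.Finite F2 R2 := h2.cl.finite_iZ h2.frc
  obtain ⟨jZ, hjZ⟩ := exists_jZ hQ (fun c hc q => REGM.cent_image hQ hc q)
  have hfr := isFrc_jZ hQ hjZ
  let cF : Z ⊗[k] Z →ₐ[k] Z ⊗[k] Z := (Algebra.TensorProduct.comm k Z Z).toAlgHom
  let cQ : Q ⊗[k] Q →ₐ[k] Q ⊗[k] Q := (Algebra.TensorProduct.comm k Q Q).toAlgHom
  obtain ⟨P, w, q, hM, hw, hy, hx⟩ := core ι.range (epsR ι hQ.inj) (jF.comp cF)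
    ⟨h2.frc.inj.comp (Algebra.TensorProduct.comm k Z Z).injective, fun f => by
      obtain ⟨a, b, hb, h⟩ := h2.frc.surj f
      refine ⟨(Algebra.TensorProduct.comm k Z Z).symm a,
        (Algebra.TensorProduct.comm k Z Z).symm b, ?_, ?_⟩
      · intro h0
        exact hb ((map_eq_zero_iff _ (Algebra.TensorProduct.comm k Z Z).symm.injective).1 h0)
      · show f * jF ((Algebra.TensorProduct.comm k Z Z) _) = jF ((Algebra.TensorProduct.comm k Z Z) _)
        rw [AlgEquiv.apply_symm_apply, AlgEquiv.apply_symm_apply, h]⟩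
    (j.comp cQ) (h2.cl.inj.comp (Algebra.TensorProduct.comm k Q Q).injective)
    (fun z l => by
      show j (algebraMap Z Q l ⊗ₜ algebraMap Z Q z) = algebraMap F2 R2 (jF (l ⊗ₜ z))
      rw [← h2.cl.comp, iZ_tmul])
    (DZ D Z) (MonoidHom.mrange (jZ : Subalgebra.center k H →* Z))
    (fun z => by
      obtain ⟨a, b, hb, h⟩ := hfr.surj z
      exact ⟨jZ a, ⟨a, rfl⟩, jZ b, ⟨b, rfl⟩, hfr.ne' hb, h⟩)
    (by
      rintro _ ⟨c, rfl⟩
      refine ⟨xL ι (TensorProduct.comm k H H (comul (R := k) (c : H))), ?_, ?_⟩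
      · rw [DZ_apply]
        show D (algebraMap Z Q (jZ c)) = j (cQ _)
        rw [hjZ, h2.D_ι, iH_xL]
        congr 1
        rw [dQ_apply]
        generalize comul (R := k) (c : H) = t
        induction t using TensorProduct.induction_on with
        | zero => simp
        | add a b ha hb => rw [map_add, ha, hb, map_add, map_add, map_add]
        | tmul a b => rfl
      · rw [eH_xL]
        show _ = algebraMap Z Q (jZ c)
        rw [hjZ]
        congr 1
        have h3 := congrArg (TensorProduct.rid k H) (lTensor_counit_comul (R := k) (c : H))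
        rw [TensorProduct.rid_tmul, one_smul] at h3
        have key : ∀ t : H ⊗[k] H, TensorProduct.lid k H ((counit (R := k) (A := H)).rTensor H
            (TensorProduct.comm k H H t))
            = TensorProduct.rid k H ((counit (R := k) (A := H)).lTensor H t) := by
          intro t
          induction t using TensorProduct.induction_on with
          | zero => simp
          | add a b ha hb => simp only [map_add, ha, hb]
          | tmul a b => simp
        rw [key, h3])
    ξ (IsScalarTower.toAlgHom k Z F)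
  obtain ⟨P', p, hp, h3, h4, h5⟩ := fixup P q xt yt
    (fun z => by
      have := hy z
      have e : ξ ((jF.comp cF) ((z : Z) ⊗ₜ 1)) = yt (algebraMap Z F z) := by
        show ξ (jF (1 ⊗ₜ (z : Z))) = _
        rw [hξ, map_one, one_mul]; rfl
      rwa [e] at this)
    (fun z => by
      have := hx z
      have e : ξ ((jF.comp cF) (1 ⊗ₜ z)) = xt (algebraMap Z F z) := by
        show ξ (jF (z ⊗ₜ (1 : Z))) = _
        rw [hξ, map_one, mul_one]; rfl
      rwa [e] at this)
    w hw
  exact ⟨P', p, w, hp, h3, h4, hM, h5⟩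

/-- **PTPL**: the mirror version, `x → ε`. -/
theorem ptpL (hQ : IsCQ k H Z Q ι) (h2 : IsR2 ι jF j D) (ξ : F2 →ₐ[k] Ω) (xt yt : F →ₐ[k] Ω)
    (hξ : Pr jF ξ (xt.comp (IsScalarTower.toAlgHom k Z F))
      (yt.comp (IsScalarTower.toAlgHom k Z F))) :
    ∃ (P : Pl Ω F) (p : Pl F k) (w : Z →ₐ[k] Ω), p.Over k ∧ (∀ f, P.r (yt f) f) ∧
      (∀ f c, p.r f c → P.r (xt f) (algebraMap k F c)) ∧ Mul D ξ w ∧
      ∀ z, P.r (w z) (algebraMap Z F z) := by
  have := hQ.fin
  have hfin : Module.Finite F2 R2 := h2.cl.finite_iZ h2.frc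
  obtain ⟨jZ, hjZ⟩ := exists_jZ hQ (fun c hc q => REGM.cent_image hQ hc q)
  have hfr := isFrc_jZ hQ hjZ
  obtain ⟨P, w, q, hM, hw, hy, hx⟩ := core ι.range (epsR ι hQ.inj) jF h2.frc
    j h2.cl.inj
    (fun z l => by rw [← h2.cl.comp, iZ_tmul])
    (DZ D Z) (MonoidHom.mrange (jZ : Subalgebra.center k H →* Z))
    (fun z => by
      obtain ⟨a, b, hb, h⟩ := hfr.surj z
      exact ⟨jZ a, ⟨a, rfl⟩, jZ b, ⟨b, rfl⟩, hfr.ne' hb, h⟩)
    (by
      rintro _ ⟨c, rfl⟩
      refine ⟨xL ι (comul (R := k) (c : H)), ?_, ?_⟩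
      · rw [DZ_apply]
        show D (algebraMap Z Q (jZ c)) = j _
        rw [hjZ, h2.D_ι, iH_xL, dQ_apply]
        rfl
      · rw [eH_xL]
        show _ = algebraMap Z Q (jZ c)
        rw [hjZ, rTensor_counit_comul, TensorProduct.lid_tmul, one_smul])
    ξ (IsScalarTower.toAlgHom k Z F)
  obtain ⟨P', p, hp, h3, h4, h5⟩ := fixup P q yt xt
    (fun z => by
      have := hy z
      have e : ξ (jF ((z : Z) ⊗ₜ 1)) = xt (algebraMap Z F z) := by
        rw [hξ, map_one, mul_one]; rfl
      rwa [e] at this)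
    (fun z => by
      have := hx z
      have e : ξ (jF (1 ⊗ₜ z)) = yt (algebraMap Z F z) := by
        rw [hξ, map_one, one_mul]; rfl
      rwa [e] at this)
    w hw
  exact ⟨P', p, w, hp, h3, h4, hM, h5⟩

end ptp


end Pool.Agent.Lib.MP_c37a72_al.LB
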