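import Pool.Agent.Lib.MP_c37a72_al.Defs

/-!
# MP_c37a72_al, block H: the last step (Hopf modules, integrals, finiteness over a central coideal
subalgebra)

Sweedler notation `Δ h = h₁ ⊗ h₂`, `S` the antipode, `ad(h) x = h₁ x S(h₂)`. File
`Pool/Agent/Lib/MP_c37a72_al/XXX.lean`, theorem `specXXX (hYYY : SpecYYY) .. : SpecXXX`, own lemmas in the
namespace `Pool.Agent.Lib.MP_c37a72_al.XXXM`.
-/

set_option autoImplicit false

open scoped TensorProduct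
open Coalgebra HopfAlgebra

namespace Pool.Agent.Lib.MP_c37a72_al

universe u v w

section
variable (k : Type u) (H : Type v) [Field k] [Ring H] [HopfAlgebra k H]

/-- The left adjoint action `h ↦ (x ↦ h₁ x S(h₂))`. -/
noncomputable def adL : H →ₗ[k] H →ₗ[k] H :=
  (TensorProduct.lift (LinearMap.mk₂ k
    (fun a b : H => LinearMap.mulRight k (antipode k b) ∘ₗ LinearMap.mulLeft k a)
    (fun a a' b => by ext x; simp [add_mul])
    (fun c a b => by ext x; simp)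
    (fun a b b' => by ext x; simp [mul_add])
    (fun c a b => by ext x; simp))) ∘ₗ Coalgebra.comul

/-- The subalgebra `N₁` of all `s` such that `Δ(s)` commutes with `H ⊗ 1` (equivalently
`Δ(s) ∈ Z(H) ⊗ H`; such an `s` is central and `N₁` is a right coideal subalgebra). -/
def N1 : Subalgebra k H where
  carrier := {s | ∀ h : H, (h ⊗ₜ[k] (1 : H)) * comul (R := k) s = comul (R := k) s * (h ⊗ₜ[k] 1)}
  mul_mem' := by
    intro a b ha hb h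
    simp only [Set.mem_ofPred_eq] at ha hb ⊢
    rw [Bialgebra.comul_mul, ← mul_assoc, ha h, mul_assoc, hb h, mul_assoc]
  add_mem' := by
    intro a b ha hb h
    simp only [Set.mem_ofPred_eq] at ha hb ⊢
    rw [map_add, mul_add, add_mul, ha h, hb h]
  algebraMap_mem' := by
    intro r h
    rw [Bialgebra.comul_algebraMap]
    exact (Algebra.commutes r _).symm

/-- The left ideal `H N₁⁺` (two-sided, because `N₁` is central). -/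
def IN1 : Ideal H := Ideal.span {s : H | s ∈ N1 k H ∧ counit (R := k) s = 0}

/-- Every `n + 1` elements of `H` are linearly dependent over `N₁`. -/
def DepN1 (n : ℕ) : Prop :=
  ∀ x : Fin (n + 1) → H, ∃ c : Fin (n + 1) → H, (∀ i, c i ∈ N1 k H) ∧ (∃ i, c i ≠ 0) ∧
    ∑ i, c i * x i = 0

end

/-- **HAN** (80 lines). `Δ(S a) = S(a₂) ⊗ S(a₁)` in every Hopf algebra.

PROOF. Both sides are convolution inverses of `Δ : H → H ⊗ H` in `Hom(H, H ⊗ H)`. Mathlib: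
`LinearMap.comul_right_inv` (`Δ * (Δ ∘ S) = 1`) in Mathlib.RingTheory.HopfAlgebra.Convolution; the left
inverse: `S(a₂) a₃ ⊗ S(a₁) a₄ = ε(a) 1 ⊗ 1`. -/
def SpecHAN : Prop :=
  ∀ (k : Type u) (H : Type v) [Field k] [Ring H] [HopfAlgebra k H] (a : H),
    comul (R := k) (antipode k a) =
      TensorProduct.comm k H H (TensorProduct.map (antipode k) (antipode k) (comul (R := k) a))

/-- **NST** (150 lines). Structure of `N₁`: central, right coideal, `ad` trivial.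

PROOF. Let `s ∈ N₁`. Choose a `k`-basis `b_i` of `H` and write `Δ(s) = ∑ s_i ⊗ b_i`: comparing
coefficients of `b_i` in `(h ⊗ 1) Δ(s) = Δ(s) (h ⊗ 1)` gives `h s_i = s_i h`, so the `s_i` are central.
(1) `s = ∑ s_i ε(b_i)` is central. (2) Right coideal: `(Δ ⊗ 1)Δ(s) = (1 ⊗ Δ)Δ(s)` commutes with
`h ⊗ 1 ⊗ 1`, so `∑ Δ(s_i) ⊗ b_i` does, so every `Δ(s_i)` commutes with `h ⊗ 1`, i.e. `s_i ∈ N₁`:
`Δ(s) = ∑ s_i ⊗ b_i` with `s_i ∈ N₁`. (3) `ad(s) x = s₁ x S(s₂) = x s₁ S(s₂) = ε(s) x`. -/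
def SpecNST : Prop :=
  ∀ (k : Type u) (H : Type v) [Field k] [Ring H] [HopfAlgebra k H] (s : H), s ∈ N1 k H →
    Cent s ∧
    (comul (R := k) s ∈ LinearMap.range (TensorProduct.map (N1 k H).val.toLinearMap
      (LinearMap.id : H →ₗ[k] H))) ∧
    ∀ x : H, adL k H s x = counit (R := k) s • x

/-- **IHO** (100 lines). `I = H N₁⁺` is a two-sided Hopf ideal, and `ad` factors through `H / I`.

PROOF. Two-sided: the generators are central (NST). Coideal: for a generator `s`, by NST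
`Δ(s) = ∑ s_i ⊗ b_i = ∑ (s_i - ε(s_i)) ⊗ b_i + 1 ⊗ s ∈ I ⊗ H + H ⊗ I`, `ε(s) = 0`; for `h s` multiply by
`Δ(h)` (`Submodule.isCoideal_iff_comul_mem`). Antipode: `0 = ε(s) = ∑ s_i S(b_i)
= ∑ (s_i - ε(s_i)) S(b_i) + S(s)`, so `S(s) ∈ I`, `S(h s) = S(s) S(h) ∈ I`. `ad(h s) = ad(h) ad(s) = 0`
(`ad` is multiplicative). -/
def SpecIHO : Prop :=
  ∀ (k : Type u) (H : Type v) [Field k] [Ring H] [HopfAlgebra k H],
    (IN1 k H).IsTwoSided ∧ (IN1 k H).IsHopfIdeal k ∧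
      ∀ h ∈ IN1 k H, ∀ x : H, adL k H h x = 0

/-- **QFD** (200 lines). If every `n + 1` elements of `H` are dependent over `N₁` then
`dim_k H / H N₁⁺ ≤ n`. (`H` a domain embedded in a division ring `Q`, bijective antipode.)

PROOF. `C = H / I`, `h ↦ h̄`. `C ⊗_k Q` is a left `Q`-vector space, `q (c ⊗ q') = c ⊗ q q'`. For `h ∈ H`
put `φ(h) = h̄₁ ⊗ h₂`. (1) `φ(s h) = s φ(h)` for `s ∈ N₁`: `(s h)₁ ⊗ (s h)₂ = s_i h₁ ⊗ b_i h₂` and
`s_i ≡ ε(s_i)` modulo `I`. So any `n + 1` of the `φ(h)` are `Q`-dependent and the left `Q`-span `Y` of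
`φ(H)` has dimension at most `n`. (2) `Y` is everything: `h̄ ⊗ 1 = ∑ S⁻¹(h₂) φ(h₁)`, because
`h₁ ⊗ S⁻¹(h₃) h₂ = h ⊗ 1`. (3) `k`-independent elements `c_i` of `C` give `Q`-independent `c_i ⊗ 1`.
So `dim_k C ≤ n`. -/
def SpecQFD : Prop :=
  ∀ (k : Type u) (H Q : Type v) [Field k] [Ring H] [IsDomain H] [HopfAlgebra k H]
    [DivisionRing Q] [Algebra k Q] (ι : H →ₐ[k] Q), Function.Injective ι →
    Function.Bijective (antipode k (A := H)) → ∀ n : ℕ, DepN1 k H n →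
      Module.Finite k (H ⧸ IN1 k H)

/-- **INT** (200 lines). Larson–Sweedler for a finite-dimensional Hopf algebra `U`, weak form: there are
`t_i ∈ U^*`, `Λ_i ∈ U` with `t_i(v₁) v₂ = t_i(v) 1` and `∑ t_i(Λ_i v) = ε(v)`.

PROOF. `M = U^*` is a left Hopf module: action `(u·f)(v) = f(S(u) v)`, coaction `ρ(f) ∈ U ⊗ U^*` with
`ρ(f)(v) = f(v₁) v₂`. Compatibility: `ρ(u·f)(v) = f(S(u) v₁) v₂
= u₁ S(u₂) v₂ f(S(u₃) v₁) = (Δ(u) ρ(f))(v)` (uses HAN: `Δ(S(u)v) = S(u₂) v₁ ⊗ S(u₁) v₂`). For a left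
Hopf module, `P(m) = S(m_{-1}) m_0` is coinvariant, `ρ(P m) = 1 ⊗ P m`, and
`m = m_{-2} S(m_{-1}) m_0 = m_{-1} P(m_0)`. Coinvariants of `U^*` are exactly the `t` with
`t(v₁) v₂ = t(v) 1`. Apply this to `m = ε`: with a basis `e_i` and dual basis `e_i^*`,
`ρ(ε) = ∑ e_i ⊗ e_i^*`, `ε = ∑ e_i · P(e_i^*)`, so `t_i = P(e_i^*)`, `Λ_i = S(e_i)`. Explicitly
`t_i(v) = ∑_j e_i^*( (S²(e_j) v)₁ ) e_j^*( (S²(e_j) v)₂ )`. -/
def SpecINT : Prop :=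
  ∀ (k : Type u) (U : Type v) [Field k] [Ring U] [HopfAlgebra k U] [Module.Finite k U],
    ∃ (n : ℕ) (t : Fin n → Module.Dual k U) (Λ : Fin n → U),
      (∀ i v, TensorProduct.lid k U ((t i).rTensor U (comul (R := k) v)) = t i v • (1 : U)) ∧
      ∀ v, ∑ i, t i (Λ i * v) = counit (R := k) v

/-- **KTK** (200 lines). Kreimer–Takeuchi: `H` a Hopf algebra with bijective antipode, `I` a two-sided
Hopf ideal with finite-dimensional quotient `U`, `π : H → U`. Then `H` is a finitely generated right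
module over `N̂ = {y : π(y₁) ⊗ y₂ = 1 ⊗ y}`.

PROOF. INT for `U`: `t_i, Λ_i`; choose `λ_i ∈ H` with `π(λ_i) = Λ_i`. `T_i(a) = t_i(π(a₁)) a₂` lies in
`N̂`: `π(T_i(a)₁) ⊗ T_i(a)₂ = t_i(π(a₁)) π(a₂) ⊗ a₃ = 1 ⊗ T_i(a)`. And for `a ∈ H`
`∑_i S⁻¹((λ_i)₂) T_i((λ_i)₁ a) = ∑_i t_i(π((λ_i)₁) π(a₁)) S⁻¹((λ_i)₃) (λ_i)₂ a₂
= ∑_i t_i(Λ_i π(a₁)) a₂ = ε(a₁) a₂ = a` (`S⁻¹(h₂) h₁ = ε(h)`, applied to the last two legs). Writing
`Δ(λ_i) = ∑_j l_ij ⊗ r_ij`, the finitely many `S⁻¹(r_ij)` generate. -/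
def SpecKTK : Prop :=
  ∀ (k : Type u) (H : Type v) [Field k] [Ring H] [HopfAlgebra k H] (I : Ideal H) [I.IsTwoSided]
    [I.IsHopfIdeal k], Function.Bijective (antipode k (A := H)) → Module.Finite k (H ⧸ I) →
    ∃ (n : ℕ) (g : Fin n → H), ∀ a : H, ∃ c : Fin n → H,
      (∀ i, TensorProduct.map (Ideal.Quotient.mkₐ k I).toLinearMap (LinearMap.id : H →ₗ[k] H)
        (comul (R := k) (c i)) = 1 ⊗ₜ[k] c i) ∧ a = ∑ i, g i * c i

/-- **NHC** (60 lines). If `ad` vanishes on the Hopf ideal `I` then `N̂ = {y : π(y₁) ⊗ y₂ = 1 ⊗ y}` is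
central.

PROOF. `y q = y₁ q S(y₂) y₃ = ad(y₁)(q) y₂`. The bilinear map `(a, b) ↦ ad(a)(q) b` factors through
`H / I ⊗ H`, so `ad(y₁)(q) y₂ = ad(1)(q) y = q y`. -/
def SpecNHC : Prop :=
  ∀ (k : Type u) (H : Type v) [Field k] [Ring H] [HopfAlgebra k H] (I : Ideal H) [I.IsTwoSided],
    (∀ h ∈ I, ∀ x : H, adL k H h x = 0) → ∀ y : H,
    TensorProduct.map (Ideal.Quotient.mkₐ k I).toLinearMap (LinearMap.id : H →ₗ[k] H)
        (comul (R := k) y) = 1 ⊗ₜ[k] y → Cent y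

/-- **NUM** (200 lines). If every central `z ∈ H` is a root of a monic polynomial of degree at most `B`
over `N₁`, then some `n + 1` elements of `H` are always dependent over `N₁`.

PROOF. `N₁` is central (NST). `F = Frac(N₁) ⊆ Z`: the subfield of all `ι(a)/ι(b)`, `a, b ∈ N₁`,
`b ≠ 0` (`ι` of a central element is central in `Q` by fractions, so it comes from `Z` by
`IsCQ.cent`). Every `z ∈ Z(H)` has degree `≤ B` over `F`. Two elements: `char k = 0`, primitive element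
with coefficients in `k ⊆ F` (`k` infinite): `F(z, z') = F(z + c z')` for some `c ∈ k`
(`Field.exists_primitive_element_inf_aux` gives this with `c` in an infinite subset), `z + c z'` is again
in `Z(H)`; so all finitely generated subextensions of `F(Z(H))` have degree `≤ B`, so does `F(Z(H))`,
and `F(Z(H)) = Z`: every `q ∈ Z` is `ι(h)/ι(c)` with `c` central, then `h` is central too. So
`[Q : F] = [Q : Z][Z : F] =: n < ∞`; `n + 1` elements of `H` are `F`-dependent, clear denominators. -/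
def SpecNUM : Prop :=
  ∀ (k : Type u) (H : Type v) (Z Q : Type w) [Field k] [CharZero k] [Ring H] [IsDomain H]
    [HopfAlgebra k H] [Field Z] [Algebra k Z] [DivisionRing Q] [Algebra k Q] [Algebra Z Q]
    [IsScalarTower k Z Q] (ι : H →ₐ[k] Q), IsCQ k H Z Q ι →
    (∃ B : ℕ, ∀ z : H, Cent z → ∃ m ≤ B, ∃ c : Fin m → H, (∀ i, c i ∈ N1 k H) ∧
      z ^ m + ∑ i, c i * z ^ (i : ℕ) = 0) →
    ∃ n : ℕ, DepN1 k H n

/-- **LST** (80 lines; helper72). The last step.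

PROOF. NUM: `DepN1 n`; QFD: `U = H / H N₁⁺` is finite-dimensional; IHO: a Hopf ideal, `ad` factors; NHC:
`N̂` is central; KTK: `H` is finitely generated over `N̂`, hence over its centre. -/
def SpecLST : Prop :=
  ∀ (k : Type u) (H Z Q : Type v) [Field k] [CharZero k] [Ring H] [IsDomain H]
    [HopfAlgebra k H] [Field Z] [Algebra k Z] [DivisionRing Q] [Algebra k Q] [Algebra Z Q]
    [IsScalarTower k Z Q] (ι : H →ₐ[k] Q), IsCQ k H Z Q ι →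
    Function.Bijective (antipode k (A := H)) →
    (∃ B : ℕ, ∀ z : H, Cent z → ∃ m ≤ B, ∃ c : Fin m → H, (∀ i, c i ∈ N1 k H) ∧
      z ^ m + ∑ i, c i * z ^ (i : ℕ) = 0) →
    Module.Finite (Subalgebra.center k H) H

/-- **REG** (120 lines). `Δ(c)`, `c ≠ 0`, is left and right regular on `Q ⊗_k Q`.

PROOF. Left: `Ψ : H ⊗ Q → H ⊗ Q`, `h ⊗ q ↦ Δ(h)(1 ⊗ q) = h₁ ⊗ h₂ q` is bijective (inverse
`h ⊗ q ↦ h₁ ⊗ S(h₂) q`) and `Ψ(c h ⊗ q) = Δ(c) Ψ(h ⊗ q)`; left multiplication by `c ≠ 0` on `H` is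
injective, hence on `H ⊗ Q`; so left multiplication by `Δ(c)` is injective on `H ⊗ Q`. For
`w ∈ Q ⊗ Q` choose `0 ≠ z ∈ H` central with `w (z ⊗ 1) ∈ H ⊗ Q` (common denominators), `z ⊗ 1` is
invertible in `Q ⊗ Q`. Right: the same with `q ⊗ h ↦ (q ⊗ 1) Δ(h) = q h₁ ⊗ h₂` on `Q ⊗ H` (inverse
`q ⊗ h ↦ q S(h₁) ⊗ h₂`). -/
def SpecREG : Prop :=
  ∀ (k : Type u) (H : Type v) (Z Q : Type w) [Field k] [Ring H] [IsDomain H]
    [HopfAlgebra k H] [Field Z] [Algebra k Z] [DivisionRing Q] [Algebra k Q] [Algebra Z Q]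
    [IsScalarTower k Z Q] (ι : H →ₐ[k] Q), IsCQ k H Z Q ι → ∀ c : H, c ≠ 0 → ∀ w : Q ⊗[k] Q,
    (TensorProduct.map ι.toLinearMap ι.toLinearMap (comul (R := k) c) * w = 0 → w = 0) ∧
    (w * TensorProduct.map ι.toLinearMap ι.toLinearMap (comul (R := k) c) = 0 → w = 0)

/-- The fraction `c⁻¹ h ∈ Q` has coproduct `w ∈ Q ⊗ Q`: `Δ(c) w = Δ(h)` in `Q ⊗ Q`. -/
def HasComul (k : Type u) {H : Type v} {Q : Type w} [Field k] [Ring H] [HopfAlgebra k H]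
    [DivisionRing Q] [Algebra k Q] (ι : H →ₐ[k] Q) (q : Q) (w : Q ⊗[k] Q) : Prop :=
  ∃ c h : H, c ≠ 0 ∧ Cent c ∧ ι c * q = ι h ∧
    TensorProduct.map ι.toLinearMap ι.toLinearMap (comul (R := k) c) * w =
      TensorProduct.map ι.toLinearMap ι.toLinearMap (comul (R := k) h)

/-- **LM2** (300 lines). No denominators: a finite-dimensional right comodule inside `Q` lies in `H`.

Let `a_1, .., a_n ∈ Q` be `k`-independent, `c_ji ∈ Q`, `Δ(a_i) = ∑_j a_j ⊗ c_ji`. Then `a_i ∈ H`.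

PROOF. (0) `S` extends to an anti-homomorphism `S : Q → Q` (`S` is injective on `H` and maps central
elements to central ones, as it is bijective; `S(c⁻¹ h) = S(h) S(c)⁻¹`). By REG, for `x ∈ H` and
`h = a_i x ∈ H` one has `Δ(h) = ∑_j a_j x₁ ⊗ c_ji x₂` (multiply by `Δ(c)`, `c` a central denominator
of `a_i`, and cancel); the same for `x a_i`, with `∑_j x₁ a_j ⊗ x₂ c_ji`.
(1) `∑_j c_lj S(c_ji) = δ_li`. Choose `0 ≠ x ∈ H` central with `h_i = a_i x ∈ H` for all `i`, so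
`Δ(h_i) = ∑_j a_j x₁ ⊗ c_ji x₂`. Claim: `(Δ ⊗ 1)Δ(h_i) = ∑_{j,l} a_l x₁ ⊗ c_lj x₂ ⊗ c_ji x₃` in
`Q ⊗ Q ⊗ Q`. Let `c ∈ H` be a common central denominator of the `a_j`, `g_j = c a_j ∈ H`. Then
`(c ⊗ 1) Δ(h_i) = ∑_j g_j x₁ ⊗ c_ji x₂ ∈ H ⊗ Q`; apply `Δ ⊗ 1`:
`(Δ(c) ⊗ 1)(Δ ⊗ 1)Δ(h_i) = ∑_j Δ(g_j) Δ(x₁) ⊗ c_ji x₂
= (Δ(c) ⊗ 1) ∑_{j,l} a_l x₁ ⊗ c_lj x₂ ⊗ c_ji x₃`, and cancel `Δ(c) ⊗ 1` (REG tensored with `Q`). Apply
`1 ⊗ mul (1 ⊗ S)` to the claim: `h_i ⊗ 1 = ∑_l a_l x ⊗ (∑_j c_lj S(c_ji))`, `h_i = a_i x`, and the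
`a_l x` are `k`-independent.
(2) `V = {x ∈ H : x a_i ∈ H for all i}` is a nonzero left ideal. For `x ∈ V`,
`∑_i Δ(x a_i) (1 ⊗ S(c_il)) = ∑_j x₁ a_j ⊗ x₂ (∑_i c_ji S(c_il)) = x₁ a_l ⊗ x₂` lies in `H ⊗ Q` (left
hand side) and in `Q ⊗ H` (right hand side), so in `H ⊗ H`; so `Δ(V) ⊆ V ⊗ H` (`V` is the kernel of
`H → (Q/H)^n`, `x ↦ (x a_l)_l`).
(3) If `ε(V) = 0` then `x = ε(x₁) x₂ = 0` for `x ∈ V`, so there is `x ∈ V` with `ε(x) ≠ 0`, and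
`ε(x) 1 = S⁻¹(x₂) x₁ ∈ V`. So `1 ∈ V`, `a_i ∈ H`. -/
def SpecLM2 : Prop :=
  ∀ (k : Type u) (H : Type v) (Z Q : Type w) [Field k] [Ring H] [IsDomain H]
    [HopfAlgebra k H] [Field Z] [Algebra k Z] [DivisionRing Q] [Algebra k Q] [Algebra Z Q]
    [IsScalarTower k Z Q] (ι : H →ₐ[k] Q), IsCQ k H Z Q ι →
    Function.Bijective (antipode k (A := H)) →
    ∀ (n : ℕ) (a : Fin n → Q) (c : Fin n → Fin n → Q), LinearIndependent k a →
      (∀ i, HasComul k ι (a i) (∑ j, a j ⊗ₜ[k] c j i)) → ∀ i, ∃ h : H, ι h = a i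

/-- **LMF** (150 lines; proof by helper85; replaces LM2). No denominators: `F ∈ Q` with
`Δ(F) ∈ Q ⊗ Q` lies in `H`.

PROOF. `c F = h`, `Δ(c) w = Δ(h)`; as `Δ(c)` commutes with `Δ(h)`, REG gives also `w Δ(c) = Δ(h)`.
`V = {x ∈ H : x F ∈ H}` is a left ideal.
(1) `Q ⊗ H = (Q ⊗ 1) Δ(H)` freely: `q ⊗ h ↦ (q ⊗ 1) Δ(h)` is bijective on `Q ⊗ H` (inverse
`q ⊗ h ↦ q S(h₁) ⊗ h₂`). CLAIM: if `y ∈ Q ⊗ H` and `y w ∈ Q ⊗ H` then `y = ∑ (a_i ⊗ 1) Δ(b_i)` with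
`b_i ∈ V`. Write `y = ∑ (a_i ⊗ 1) Δ(b_i)`, `y w = ∑ (a_i ⊗ 1) Δ(b'_i)` with the same `k`-independent
`a_i`. Then `∑ (a_i ⊗ 1) Δ(b_i h) = y w Δ(c) = ∑ (a_i ⊗ 1) Δ(b'_i c)`, so `b_i h = b'_i c`, i.e.
`b_i F = b'_i ∈ H` (`F = h c⁻¹`).
(2) `w = ∑ a_i ⊗ b_i`; choose `0 ≠ x ∈ H` with `x b_i ∈ H` for all `i`. `y = 1 ⊗ x` satisfies
`y w ∈ Q ⊗ H`, and `1 ⊗ x = (S(x₁) ⊗ 1) Δ(x₂)`; by (1) and the bijection, `S(x₁) ⊗ x₂ ∈ Q ⊗ V`, so
`x₁ ⊗ x₂ ∈ H ⊗ V` (`S` injective).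
(3) `V' = {x ∈ H : Δ(x) ∈ H ⊗ V}` is a nonzero left ideal and `Δ(V') ⊆ H ⊗ V'` (coassociativity; `V'`
is the preimage of `H ⊗ V`, i.e. the kernel of `H → H ⊗ H/V`). If `ε(V') = 0` then `x = x₁ ε(x₂) = 0`
for `x ∈ V'`; so there is `x ∈ V'` with `ε(x) = 1`, and `1 = S(x₁) x₂ ∈ V'`. So `Δ(1) = 1 ⊗ 1 ∈ H ⊗ V`,
`1 ∈ V`, `F ∈ H`. -/
def SpecLMF : Prop :=
  ∀ (k : Type u) (H : Type v) (Z Q : Type w) [Field k] [Ring H] [IsDomain H]
    [HopfAlgebra k H] [Field Z] [Algebra k Z] [DivisionRing Q] [Algebra k Q] [Algebra Z Q]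
    [IsScalarTower k Z Q] (ι : H →ₐ[k] Q), IsCQ k H Z Q ι →
    Function.Bijective (antipode k (A := H)) →
    ∀ (F : Q) (w : Q ⊗[k] Q), HasComul k ι F w → ∃ h : H, ι h = F

end Pool.Agent.Lib.MP_c37a72_al
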