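import Pool.Agent.Lib.MP_c37a72_al.SpecP

/-!
# MP_c37a72_al, module KAP: the theorem of Kaplansky for a domain
-/

set_option autoImplicit false

namespace Pool.Agent.Lib.MP_c37a72_al

namespace KAPM

open scoped Classical

open MulOpposite

universe u v

/-! ### a maximal commutative subfield -/

theorem exists_max (Q : Type v) [DivisionRing Q] :
    ∃ L : Subfield Q, (∀ a ∈ L, ∀ b ∈ L, a * b = b * a) ∧
      ∀ c : Q, (∀ l ∈ L, l * c = c * l) → c ∈ L := by
  obtain ⟨M, hM⟩ := zorn_subset {S : Set Q | ∀ a ∈ S, ∀ b ∈ S, a * b = b * a} (by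
    intro c hc hchain
    refine ⟨⋃₀ c, ?_, fun s hs => Set.subset_sUnion_of_mem hs⟩
    intro a ha b hb
    obtain ⟨s, hs, has⟩ := ha
    obtain ⟨t, ht, hbt⟩ := hb
    rcases hchain.total hs ht with h | h
    · exact hc ht a (h has) b hbt
    · exact hc hs a has b (h hbt))
  have hcomm : ∀ a ∈ M, ∀ b ∈ M, a * b = b * a := hM.prop
  have hself : ∀ c : Q, (∀ l ∈ M, l * c = c * l) → c ∈ M := by
    intro c hc
    have h1 : insert c M ∈ {S : Set Q | ∀ a ∈ S, ∀ b ∈ S, a * b = b * a} := by
      intro a ha b hb
      rcases ha with rfl | ha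
      · rcases hb with rfl | hb
        · rfl
        · exact (hc b hb).symm
      · rcases hb with rfl | hb
        · exact hc a ha
        · exact hcomm a ha b hb
    have h2 := hM.le_of_ge h1 (Set.subset_insert c M)
    exact h2 (Set.mem_insert c M)
  let L : Subfield Q :=
    { Subring.centralizer M with
      inv_mem' := fun x hx => Set.inv_mem_centralizer₀ hx }
  have hL : ∀ x, x ∈ L ↔ x ∈ M := by
    intro x
    constructor
    · intro hx
      have hx' : ∀ m ∈ M, m * x = x * m := fun m hm => (Set.mem_centralizer_iff.mp hx) m hm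
      exact hself x hx'
    · intro hx
      exact Set.mem_centralizer_iff.mpr (fun m hm => hcomm m hm x hx)
  refine ⟨L, ?_, ?_⟩
  · intro a ha b hb
    exact hcomm a ((hL a).mp ha) b ((hL b).mp hb)
  · intro c hc
    exact (hL c).mpr (hself c (fun l hl => hc l ((hL l).mpr hl)))

/-! ### operators -/

/-- The ring of additive operators of `Q`, written on the right. -/
abbrev Op (Q : Type v) [Ring Q] : Type v := (AddMonoid.End Q)ᵐᵒᵖ

/-- Right multiplications. -/
def rr (Q : Type v) [Ring Q] : Q →+* Op Q where
  toFun q := op (AddMonoidHom.mulRight q)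
  map_one' := by
    apply unop_injective
    ext x
    exact mul_one x
  map_mul' a b := by
    apply unop_injective
    ext x
    exact (mul_assoc x a b).symm
  map_zero' := by
    apply unop_injective
    ext x
    exact mul_zero x
  map_add' a b := by
    apply unop_injective
    ext x
    exact mul_add x a b

/-- Left multiplications. -/
def ll {Q : Type v} [Ring Q] (l : Q) : Op Q := op (AddMonoidHom.mulLeft l)

theorem rr_apply {Q : Type v} [Ring Q] (q x : Q) : (rr Q q).unop x = x * q := rfl

theorem ll_apply {Q : Type v} [Ring Q] (l x : Q) : (ll l).unop x = l * x := rfl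

theorem mul_apply {Q : Type v} [Ring Q] (S T : Op Q) (x : Q) :
    (S * T).unop x = T.unop (S.unop x) := rfl

theorem ext' {Q : Type v} [Ring Q] {S T : Op Q} (h : ∀ x, S.unop x = T.unop x) : S = T := by
  apply unop_injective
  ext x
  exact h x

theorem ll_rr {Q : Type v} [Ring Q] (l q : Q) : ll l * rr Q q = rr Q q * ll l := by
  apply ext'
  intro x
  simp only [mul_apply, ll_apply, rr_apply, mul_assoc]

theorem ll_mul {Q : Type v} [Ring Q] (l m : Q) : ll l * ll m = ll (m * l) := by
  apply ext'
  intro x
  simp only [mul_apply, ll_apply, mul_assoc]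

theorem ll_one {Q : Type v} [Ring Q] : ll (1 : Q) = 1 := by
  apply ext'
  intro x
  exact one_mul x

/-- The operators `x ↦ ∑ l_i x q_i` with `l_i ∈ L`, `q_i ∈ S`. -/
def opset {Q : Type v} [DivisionRing Q] (L : Subfield Q) (S : Set Q) : Set (Op Q) :=
  {T | ∃ l ∈ L, ∃ q ∈ S, T = ll l * rr Q q}

/-- The additive group generated by `opset`. -/
def AA {Q : Type v} [DivisionRing Q] (L : Subfield Q) (S : Set Q) : AddSubgroup (Op Q) :=
  AddSubgroup.closure (opset L S)

section

variable {Q : Type v} [DivisionRing Q] (L : Subfield Q)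
  (hL : ∀ a ∈ L, ∀ b ∈ L, a * b = b * a)
include hL

theorem lin (S : Set Q) (T : Op Q) (hT : T ∈ AA L S) (l : Q) (hl : l ∈ L) (x : Q) :
    T.unop (l * x) = l * T.unop x := by
  induction hT using AddSubgroup.closure_induction with
  | mem T h =>
    obtain ⟨m, hm, q, hq, rfl⟩ := h
    simp only [mul_apply, ll_apply, rr_apply]
    rw [← mul_assoc m, hL m hm l hl]
    simp only [mul_assoc]
  | zero => simp
  | add S T _ _ h1 h2 =>
    have e : ∀ y, (S + T).unop y = S.unop y + T.unop y := fun y => rfl
    rw [e, e, h1, h2, mul_add]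
  | neg T _ h =>
    have e : ∀ y, (-T).unop y = -T.unop y := fun y => rfl
    rw [e, e, h, mul_neg]

omit hL in
theorem mulR (S : Set Q) (q : Q) (hq : ∀ s ∈ S, s * q ∈ S) (T : Op Q) (hT : T ∈ AA L S) :
    T * rr Q q ∈ AA L S := by
  induction hT using AddSubgroup.closure_induction with
  | mem T h =>
    obtain ⟨m, hm, p, hp, rfl⟩ := h
    apply AddSubgroup.subset_closure
    refine ⟨m, hm, p * q, hq p hp, ?_⟩
    rw [map_mul, mul_assoc]
  | zero => simp
  | add A B _ _ h1 h2 =>
    rw [add_mul]
    exact (AA L S).add_mem h1 h2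
  | neg A _ h =>
    have e : (-A) * rr Q q = -(A * rr Q q) := ext' (fun x => neg_mul (A.unop x) q)
    rw [e]
    exact (AA L S).neg_mem h

omit hL in
theorem mulL (S : Set Q) (l : Q) (hl : l ∈ L) (T : Op Q) (hT : T ∈ AA L S) :
    T * ll l ∈ AA L S := by
  induction hT using AddSubgroup.closure_induction with
  | mem T h =>
    obtain ⟨m, hm, p, hp, rfl⟩ := h
    apply AddSubgroup.subset_closure
    refine ⟨l * m, L.mul_mem hl hm, p, hp, ?_⟩
    rw [mul_assoc, ← ll_rr, ← mul_assoc, ll_mul]
  | zero => simp
  | add A B _ _ h1 h2 =>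
    rw [add_mul]
    exact (AA L S).add_mem h1 h2
  | neg A _ h =>
    have e : (-A) * ll l = -(A * ll l) := ext' (fun x => mul_neg l (A.unop x))
    rw [e]
    exact (AA L S).neg_mem h

/-- Density. -/
theorem density (hself : ∀ c : Q, (∀ l ∈ L, l * c = c * l) → c ∈ L) (w : ℕ → Q) :
    ∀ (n : ℕ) (y : Q), y ∉ Submodule.span L (w '' {i | i < n}) →
      ∃ T ∈ AA L (Set.univ : Set Q), (∀ i < n, T.unop (w i) = 0) ∧ T.unop y ≠ 0 := by
  intro n
  induction n with
  | zero =>
    intro y hy
    refine ⟨ll 1 * rr Q 1, AddSubgroup.subset_closure ⟨1, L.one_mem, 1, trivial, rfl⟩, ?_, ?_⟩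
    · intro i hi
      omega
    · intro h0
      apply hy
      have : y = 0 := by
        rw [mul_apply, ll_apply, rr_apply, one_mul, mul_one] at h0
        exact h0
      rw [this]
      exact Submodule.zero_mem _
  | succ n ih =>
    intro y hy
    have hsub : Submodule.span L (w '' {i | i < n}) ≤ Submodule.span L (w '' {i | i < n + 1}) := by
      apply Submodule.span_mono
      apply Set.image_mono
      intro i hi
      simp only [Set.mem_setOf_eq] at hi ⊢
      omega
    have hwn : w n ∈ Submodule.span L (w '' {i | i < n + 1}) :=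
      Submodule.subset_span ⟨n, by simp, rfl⟩
    have hker : ∀ T ∈ AA L (Set.univ : Set Q), (∀ i < n, T.unop (w i) = 0) →
        ∀ z ∈ Submodule.span L (w '' {i | i < n}), T.unop z = 0 := by
      intro T hT h0 z hz
      induction hz using Submodule.span_induction with
      | mem z h =>
        obtain ⟨i, hi, rfl⟩ := h
        exact h0 i hi
      | zero => exact map_zero _
      | add a b _ _ h1 h2 => rw [map_add, h1, h2, add_zero]
      | smul l a _ h1 =>
        have : l • a = (l : Q) * a := rfl
        rw [this, lin L hL _ T hT l l.2, h1, mul_zero]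
    by_cases hw : w n ∈ Submodule.span L (w '' {i | i < n})
    · obtain ⟨T, hT, h0, h1⟩ := ih y (fun h => hy (hsub h))
      refine ⟨T, hT, ?_, h1⟩
      intro i hi
      rcases Nat.lt_succ_iff_lt_or_eq.mp hi with h | rfl
      · exact h0 i h
      · exact hker T hT h0 _ hw
    · obtain ⟨T₀, hT₀, h00, h01⟩ := ih (w n) hw
      by_contra hcon
      push Not at hcon
      -- all `T` killing `w i`, `i ≤ n`, kill `y`
      have hcon' : ∀ T ∈ AA L (Set.univ : Set Q), (∀ i < n, T.unop (w i) = 0) →
          T.unop (w n) = 0 → T.unop y = 0 := by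
        intro T hT h0 h1
        apply hcon T hT
        intro i hi
        rcases Nat.lt_succ_iff_lt_or_eq.mp hi with h | rfl
        · exact h0 i h
        · exact h1
      let T₁ : Op Q := T₀ * rr Q (T₀.unop (w n))⁻¹
      have hT₁ : T₁ ∈ AA L (Set.univ : Set Q) := mulR L _ _ (fun _ _ => Set.mem_univ _) T₀ hT₀
      have h10 : ∀ i < n, T₁.unop (w i) = 0 := by
        intro i hi
        show T₀.unop (w i) * (T₀.unop (w n))⁻¹ = 0
        rw [h00 i hi, zero_mul]
      have h11 : T₁.unop (w n) = 1 := by
        show T₀.unop (w n) * (T₀.unop (w n))⁻¹ = 1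
        exact mul_inv_cancel₀ h01
      set c : Q := T₁.unop y with hc
      have hval : ∀ T ∈ AA L (Set.univ : Set Q), (∀ i < n, T.unop (w i) = 0) →
          T.unop y = c * T.unop (w n) := by
        intro T hT h0
        have h2 : T - T₁ * rr Q (T.unop (w n)) ∈ AA L (Set.univ : Set Q) :=
          (AA L _).sub_mem hT (mulR L _ _ (fun _ _ => Set.mem_univ _) T₁ hT₁)
        have e : ∀ z, (T - T₁ * rr Q (T.unop (w n))).unop z =
            T.unop z - T₁.unop z * T.unop (w n) := fun z => rfl
        have h3 := hcon' _ h2 (by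
          intro i hi
          rw [e, h0 i hi, h10 i hi, zero_mul, sub_zero]) (by
          rw [e, h11, one_mul, sub_self])
        rw [e, sub_eq_zero] at h3
        exact h3
      have hcL : c ∈ L := by
        apply hself
        intro l hl
        have h2 := hval (T₁ * ll l) (mulL L _ l hl T₁ hT₁) (by
          intro i hi
          show l * T₁.unop (w i) = 0
          rw [h10 i hi, mul_zero])
        have h3 : (T₁ * ll l).unop y = l * c := rfl
        have h4 : (T₁ * ll l).unop (w n) = l * T₁.unop (w n) := rfl
        rw [h3, h4, h11, mul_one] at h2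
        exact h2
      have hyc : y - c * w n ∈ Submodule.span L (w '' {i | i < n}) := by
        by_contra hn
        obtain ⟨T, hT, h0, h1⟩ := ih _ hn
        apply h1
        rw [map_sub, lin L hL _ T hT c hcL, hval T hT h0, sub_self]
      apply hy
      have h5 : y = (y - c * w n) + (⟨c, hcL⟩ : L) • w n := by
        show y = (y - c * w n) + c * w n
        abel
      rw [h5]
      exact Submodule.add_mem _ (hsub hyc) (Submodule.smul_mem _ _ hwn)

end

/-! ### multilinear maps which vanish on generators -/

theorem vanish_closure {E M : Type*} [AddCommGroup E] [AddCommGroup M] (N : ℕ)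
    (F : MultilinearMap ℤ (fun _ : Fin N => E) M) (S : Set E)
    (h : ∀ a : Fin N → E, (∀ i, a i ∈ S) → F a = 0) :
    ∀ a : Fin N → E, (∀ i, a i ∈ AddSubgroup.closure S) → F a = 0 := by
  have key : ∀ (T : Finset (Fin N)) (a : Fin N → E), (∀ i ∈ T, a i ∈ AddSubgroup.closure S) →
      (∀ i, i ∉ T → a i ∈ S) → F a = 0 := by
    intro T
    induction T using Finset.induction_on with
    | empty =>
      intro a _ ha
      exact h a (fun i => ha i (by simp))
    | insert j T hj ih =>
      intro a h1 h2
      have h3 : ∀ x ∈ AddSubgroup.closure S, F (Function.update a j x) = 0 := by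
        intro x hx
        induction hx using AddSubgroup.closure_induction with
        | mem x hx =>
          apply ih
          · intro i hi
            have hij : i ≠ j := fun h => hj (h ▸ hi)
            rw [Function.update_of_ne hij]
            exact h1 i (Finset.mem_insert_of_mem hi)
          · intro i hi
            by_cases hij : i = j
            · subst hij
              rw [Function.update_self]
              exact hx
            · rw [Function.update_of_ne hij]
              exact h2 i (by simp [hij, hi])
        | zero => exact F.map_update_zero a j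
        | add x y _ _ h4 h5 => rw [F.map_update_add, h4, h5, add_zero]
        | neg x _ h4 =>
          have : F (Function.update a j (-x)) = F (Function.update a j ((-1 : ℤ) • x)) := by
            rw [neg_one_smul]
          rw [this, F.map_update_smul, h4, smul_zero]
      have h4 := h3 (a j) (h1 j (Finset.mem_insert_self j T))
      rw [Function.update_eq_self] at h4
      exact h4
  intro a ha
  exact key Finset.univ a (fun i _ => ha i) (fun i hi => absurd (Finset.mem_univ i) hi)

theorem prod_map_mul {E ι : Type*} [Monoid E] (f g : ι → E) (hfg : ∀ i j, f i * g j = g j * f i)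
    (l : List ι) : (l.map (fun i => f i * g i)).prod = (l.map f).prod * (l.map g).prod := by
  have hc : ∀ (l : List ι) (j : ι), g j * (l.map f).prod = (l.map f).prod * g j := by
    intro l j
    induction l with
    | nil => simp
    | cons a l ih =>
      rw [List.map_cons, List.prod_cons, ← mul_assoc, ← hfg, mul_assoc, ih, mul_assoc]
  induction l with
  | nil => simp
  | cons a l ih =>
    rw [List.map_cons, List.map_cons, List.map_cons, List.prod_cons, List.prod_cons,
      List.prod_cons, ih, mul_assoc, ← mul_assoc (g a), hc l a]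
    simp only [mul_assoc]

/-- The identity for the operators. -/
theorem ident (k : Type u) (H Q : Type v) [Field k] [Ring H] [Algebra k H] [DivisionRing Q]
    [Algebra k Q] (ι : H →ₐ[k] Q) (L : Subfield Q) (hL : ∀ a ∈ L, ∀ b ∈ L, a * b = b * a)
    (N : ℕ) (α : Equiv.Perm (Fin N) → k)
    (hid : ∀ a : Fin N → H, ∑ σ : Equiv.Perm (Fin N), α σ • (List.ofFn fun i => a (σ i)).prod = 0)
    (A : Fin N → Op Q) (hA : ∀ i, A i ∈ AA L (Set.range ι)) :
    ∑ σ : Equiv.Perm (Fin N), (List.ofFn fun i => A (σ i)).prod *
      rr Q (algebraMap k Q (α σ)) = 0 := by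
  let F : MultilinearMap ℤ (fun _ : Fin N => Op Q) (Op Q) :=
    ∑ σ : Equiv.Perm (Fin N), (LinearMap.mulRight ℤ
      (rr Q (algebraMap k Q (α σ)))).compMultilinearMap
      ((MultilinearMap.mkPiAlgebraFin ℤ N (Op Q)).domDomCongr σ)
  have hF : ∀ a : Fin N → Op Q, F a = ∑ σ : Equiv.Perm (Fin N),
      (List.ofFn fun i => a (σ i)).prod * rr Q (algebraMap k Q (α σ)) := by
    intro a
    simp only [F, MultilinearMap.sum_apply, LinearMap.compMultilinearMap_apply,
      MultilinearMap.domDomCongr_apply, MultilinearMap.mkPiAlgebraFin_apply,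
      LinearMap.mulRight_apply]
  rw [← hF]
  refine vanish_closure N F (opset L (Set.range ι)) ?_ A hA
  intro a ha
  rw [hF]
  choose l hl q hq hlq using ha
  choose h hh using hq
  have h1 : ∀ σ : Equiv.Perm (Fin N), (List.ofFn fun i => a (σ i)).prod =
      (List.ofFn fun i => ll (l i)).prod * rr Q (ι (List.ofFn fun i => h (σ i)).prod) := by
    intro σ
    have e1 : (List.ofFn fun i => a (σ i)) =
        (List.ofFn σ).map (fun i => ll (l i) * rr Q (q i)) := by
      rw [List.map_ofFn]
      congr 1
      funext i
      exact hlq (σ i)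
    rw [e1, prod_map_mul (fun i => ll (l i)) (fun i => rr Q (q i)) (fun i j => ll_rr _ _)]
    congr 1
    · apply List.Perm.prod_eq'
      · have := σ.ofFn_comp_perm (fun i => ll (l i))
        rw [List.map_ofFn]
        exact this
      · apply List.pairwise_of_forall_mem_list
        intro x hx y hy
        rw [List.mem_map] at hx hy
        obtain ⟨i, _, rfl⟩ := hx
        obtain ⟨j, _, rfl⟩ := hy
        show ll (l i) * ll (l j) = ll (l j) * ll (l i)
        rw [ll_mul, ll_mul, hL _ (hl i) _ (hl j)]
    · rw [map_list_prod, map_list_prod, List.map_ofFn, List.map_ofFn, List.map_ofFn]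
      congr 2
      funext i
      show rr Q (q (σ i)) = rr Q (ι (h (σ i)))
      rw [hh]
  have h2 : ∀ σ : Equiv.Perm (Fin N), (List.ofFn fun i => a (σ i)).prod *
      rr Q (algebraMap k Q (α σ)) =
      (List.ofFn fun i => ll (l i)).prod * rr Q (ι (α σ • (List.ofFn fun i => h (σ i)).prod)) := by
    intro σ
    rw [h1, mul_assoc, ← map_mul, map_smul, Algebra.smul_def, Algebra.commutes]
  simp only [h2]
  rw [← Finset.mul_sum, ← map_sum, ← map_sum, hid h, map_zero, map_zero, mul_zero]

/-! ### fractions -/

section

variable {k : Type u} {H Q : Type v} [Field k] [Ring H] [IsDomain H] [Algebra k H]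
  [DivisionRing Q] [Algebra k Q] (ι : H →ₐ[k] Q) (hι : IsFr k H Q ι) (L : Subfield Q)
include hι

theorem den (T : Op Q) (hT : T ∈ AA L (Set.univ : Set Q)) :
    ∀ r : Q, ∃ s : H, s ≠ 0 ∧ T * rr Q (r * ι s) ∈ AA L (Set.range ι) := by
  induction hT using AddSubgroup.closure_induction with
  | mem T h =>
    intro r
    obtain ⟨l, hl, q, _, rfl⟩ := h
    obtain ⟨s, h, hs, hh⟩ := hι.right (q * r)
    refine ⟨s, hs, AddSubgroup.subset_closure ⟨l, hl, ι h, ⟨h, rfl⟩, ?_⟩⟩
    rw [mul_assoc, ← map_mul, ← mul_assoc q, hh]
  | zero =>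
    intro r
    exact ⟨1, one_ne_zero, by simp⟩
  | add A B _ _ h1 h2 =>
    intro r
    obtain ⟨s, hs, h3⟩ := h1 r
    obtain ⟨t, ht, h4⟩ := h2 (r * ι s)
    refine ⟨s * t, mul_ne_zero hs ht, ?_⟩
    rw [map_mul ι, ← mul_assoc, add_mul]
    refine (AA L _).add_mem ?_ h4
    rw [map_mul (rr Q), ← mul_assoc]
    exact mulR L _ (ι t) (by
      rintro _ ⟨a, rfl⟩
      exact ⟨a * t, map_mul _ _ _⟩) _ h3
  | neg A _ h =>
    intro r
    obtain ⟨s, hs, h3⟩ := h r
    refine ⟨s, hs, ?_⟩
    have e : (-A) * rr Q (r * ι s) = -(A * rr Q (r * ι s)) :=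
      ext' (fun x => neg_mul (A.unop x) _)
    rw [e]
    exact (AA L _).neg_mem h3

theorem step2 (W : Submodule L Q) [Module.Finite L W] (y : Q) (hy : y ≠ 0)
    (hW : ∀ h : H, y * ι h ∈ W) : W = ⊤ := by
  let W' : Submodule L Q := Submodule.span L (Set.range fun h : H => y * ι h)
  have hle : W' ≤ W := Submodule.span_le.mpr (by
    rintro _ ⟨h, rfl⟩
    exact hW h)
  have : Module.Finite L W' := Submodule.finiteDimensional_of_le hle
  let ρ : H → (Q →ₗ[L] Q) := fun s =>
    { toFun := fun x => x * ι s
      map_add' := fun a b => add_mul _ _ _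
      map_smul' := fun l x => mul_assoc (l : Q) x (ι s) }
  have hρ : ∀ s, W'.map (ρ s) ≤ W' := by
    intro s
    rw [Submodule.map_span_le]
    rintro _ ⟨h, rfl⟩
    apply Submodule.subset_span
    refine ⟨h * s, ?_⟩
    show y * ι (h * s) = y * ι h * ι s
    rw [map_mul, mul_assoc]
  have heq : ∀ s, s ≠ 0 → W'.map (ρ s) = W' := by
    intro s hs
    have hs' : ι s ≠ 0 := fun h => hs (hι.inj (by rw [h, map_zero]))
    have hinj : Function.Injective (ρ s) := by
      intro a b hab
      exact mul_right_cancel₀ hs' hab
    apply Submodule.eq_of_le_of_finrank_eq (hρ s)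
    exact (LinearEquiv.finrank_eq (Submodule.equivMapOfInjective (ρ s) hinj W')).symm
  have hstab : ∀ x ∈ W', ∀ q : Q, x * q ∈ W' := by
    intro x hx q
    obtain ⟨s, h, hs, hh⟩ := hι.right q
    have hs' : ι s ≠ 0 := fun h => hs (hι.inj (by rw [h, map_zero]))
    have h1 : x * ι h ∈ W' := hρ h ⟨x, hx, rfl⟩
    rw [← heq s hs] at h1
    obtain ⟨z, hz, hz2⟩ := h1
    have hz3 : z * ι s = x * ι h := hz2
    rw [← hh, ← mul_assoc] at hz3
    rw [← mul_right_cancel₀ hs' hz3]
    exact hz
  have hyW : y ∈ W' := Submodule.subset_span ⟨1, by simp⟩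
  rw [eq_top_iff]
  intro x _
  have h1 := hstab y hyW (y⁻¹ * x)
  rw [← mul_assoc, mul_inv_cancel₀ hy, one_mul] at h1
  exact hle h1

theorem chain (hL : ∀ a ∈ L, ∀ b ∈ L, a * b = b * a)
    (hself : ∀ c : Q, (∀ l ∈ L, l * c = c * l) → c ∈ L) (hinf : ¬ Module.Finite L Q) :
    ∀ n : ℕ, ∃ (y : ℕ → Q) (A : ℕ → Op Q), (∀ j < n, A j ∈ AA L (Set.range ι)) ∧
      (∀ j < n, ∀ i < j, (A j).unop (y i) = 0) ∧ (∀ j < n, (A j).unop (y j) = y (j + 1)) ∧
      y n ∉ Submodule.span L (y '' {i | i < n}) := by
  intro n
  induction n with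
  | zero =>
    refine ⟨fun _ => 1, fun _ => 0, ?_, ?_, ?_, ?_⟩
    · intro j hj
      omega
    · intro j hj
      omega
    · intro j hj
      omega
    · simp
  | succ n ih =>
    obtain ⟨y, A, h1, h2, h3, h4⟩ := ih
    obtain ⟨T, hT, hT0, hT1⟩ := density L hL hself y n (y n) h4
    obtain ⟨s, hs, hsT⟩ := den ι hι L T hT 1
    have hs' : ι s ≠ 0 := fun h => hs (hι.inj (by rw [h, map_zero]))
    rw [one_mul] at hsT
    have hy' : T.unop (y n) * ι s ≠ 0 := mul_ne_zero hT1 hs'
    have hfin : (y '' {i | i < n + 1}).Finite := (Set.finite_lt_nat (n + 1)).image y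
    have : Module.Finite L (Submodule.span L (y '' {i | i < n + 1})) :=
      Module.Finite.span_of_finite L hfin
    obtain ⟨h, hh⟩ : ∃ h : H, T.unop (y n) * ι s * ι h ∉
        Submodule.span L (y '' {i | i < n + 1}) := by
      by_contra hcon
      push Not at hcon
      have htop := step2 ι hι L (Submodule.span L (y '' {i | i < n + 1})) _ hy' hcon
      apply hinf
      have : Module.Finite L (⊤ : Submodule L Q) := by
        rw [← htop]
        infer_instance
      exact ⟨Module.Finite.iff_fg.mp this⟩
    refine ⟨Function.update y (n + 1) (T.unop (y n) * ι s * ι h),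
      Function.update A n (T * rr Q (ι s) * rr Q (ι h)), ?_, ?_, ?_, ?_⟩
    · intro j hj
      by_cases hjn : j = n
      · subst hjn
        rw [Function.update_self]
        exact mulR L _ (ι h) (by
          rintro _ ⟨a, rfl⟩
          exact ⟨a * h, map_mul _ _ _⟩) _ hsT
      · rw [Function.update_of_ne hjn]
        exact h1 j (by omega)
    · intro j hj i hij
      rw [Function.update_of_ne (by omega : i ≠ n + 1)]
      by_cases hjn : j = n
      · subst hjn
        rw [Function.update_self]
        show T.unop (y i) * ι s * ι h = 0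
        rw [hT0 i hij, zero_mul, zero_mul]
      · rw [Function.update_of_ne hjn]
        exact h2 j (by omega) i hij
    · intro j hj
      rw [Function.update_of_ne (by omega : j ≠ n + 1)]
      by_cases hjn : j = n
      · subst hjn
        rw [Function.update_self, Function.update_self]
        rfl
      · rw [Function.update_of_ne hjn, Function.update_of_ne (by omega : j + 1 ≠ n + 1)]
        exact h3 j (by omega)
    · rw [Function.update_self]
      have himg : Function.update y (n + 1) (T.unop (y n) * ι s * ι h) '' {i | i < n + 1} =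
          y '' {i | i < n + 1} := by
        apply Set.image_congr
        intro i hi
        simp only [Set.mem_setOf_eq] at hi
        rw [Function.update_of_ne (by omega : i ≠ n + 1)]
      rw [himg]
      exact hh

omit hι in
theorem ofFn_range {E : Type*} [One E] (N : ℕ) (f : Fin N → E) :
    List.ofFn f = (List.range N).map (fun i => if h : i < N then f ⟨i, h⟩ else 1) := by
  apply List.ext_getElem
  · simp
  · intro i h1 h2
    simp only [List.length_ofFn] at h1
    simp [h1]

theorem finL (hL : ∀ a ∈ L, ∀ b ∈ L, a * b = b * a)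
    (hself : ∀ c : Q, (∀ l ∈ L, l * c = c * l) → c ∈ L) (hN : ∃ N : ℕ, MLI k H N) :
    Module.Finite L Q := by
  by_contra hinf
  obtain ⟨N, α, hα, hid⟩ := hN
  obtain ⟨y, A, h1, h2, h3, h4⟩ := chain ι hι L hL hself hinf N
  have hyN : y N ≠ 0 := fun h => h4 (by
    rw [h]
    exact Submodule.zero_mem _)
  have hI := ident k H Q ι L hL N α hid (fun i => A i) (fun i => h1 i i.2)
  let ev : Op Q →+ Q :=
    { toFun := fun T => T.unop (y 0)
      map_zero' := rfl
      map_add' := fun _ _ => rfl }
  have hI' := congrArg ev hI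
  rw [map_sum, map_zero] at hI'
  have hev : ∀ σ : Equiv.Perm (Fin N), (List.ofFn fun i => A (σ i)).prod.unop (y 0) =
      if σ = 1 then y N else 0 := by
    intro σ
    rw [ofFn_range N (fun i => A (σ i))]
    set g : ℕ → Op Q := fun i => if h : i < N then A (σ ⟨i, h⟩) else 1 with hg
    have hsucc : ∀ m, ((List.range (m + 1)).map g).prod.unop (y 0) =
        (g m).unop (((List.range m).map g).prod.unop (y 0)) := by
      intro m
      rw [List.prod_range_succ]
      rfl
    have hpre : ∀ m, m ≤ N → (∀ i (hi : i < m) (hiN : i < N), (σ ⟨i, hiN⟩ : ℕ) = i) →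
        ((List.range m).map g).prod.unop (y 0) = y m := by
      intro m
      induction m with
      | zero =>
        intro _ _
        rfl
      | succ m ih =>
        intro hm hfix
        rw [hsucc, ih (by omega) (fun i hi hiN => hfix i (by omega) hiN)]
        have hgm : g m = A m := by
          simp only [hg]
          rw [dif_pos (by omega : m < N)]
          rw [hfix m (by omega) (by omega)]
        rw [hgm]
        exact h3 m (by omega)
    by_cases hσ : σ = 1
    · rw [if_pos hσ]
      apply hpre N le_rfl
      intro i _ hiN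
      rw [hσ]
      rfl
    · rw [if_neg hσ]
      have hex : ∃ p : ℕ, ∃ hp : p < N, (σ ⟨p, hp⟩ : ℕ) ≠ p := by
        by_contra hcon
        push Not at hcon
        apply hσ
        ext i
        exact hcon i i.2
      set p := Nat.find hex with hp
      obtain ⟨hpN, hpne⟩ := Nat.find_spec hex
      have hmin : ∀ i (hi : i < p) (hiN : i < N), (σ ⟨i, hiN⟩ : ℕ) = i := by
        intro i hi hiN
        have := Nat.find_min hex hi
        push Not at this
        exact this hiN
      have hgt : p < (σ ⟨p, hpN⟩ : ℕ) := by
        rcases lt_trichotomy (σ ⟨p, hpN⟩ : ℕ) p with h | h | h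
        · exfalso
          have h5 := hmin _ h (by omega)
          have h6 : σ (σ ⟨p, hpN⟩) = σ ⟨p, hpN⟩ := by
            ext
            exact h5
          have h7 := σ.injective h6
          rw [h7] at h
          exact lt_irrefl _ h
        · exact absurd h hpne
        · exact h
      have hp1 : ((List.range (p + 1)).map g).prod.unop (y 0) = 0 := by
        rw [hsucc, hpre p (by omega) hmin]
        have hgm : g p = A (σ ⟨p, hpN⟩) := by
          simp only [hg]
          rw [dif_pos hpN]
        rw [hgm]
        exact h2 _ (σ ⟨p, hpN⟩).2 p hgt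
      have hall : ∀ d, ((List.range (p + 1 + d)).map g).prod.unop (y 0) = 0 := by
        intro d
        induction d with
        | zero => exact hp1
        | succ d ih =>
          rw [← Nat.add_assoc, hsucc, ih, map_zero]
      have := hall (N - (p + 1))
      rw [Nat.add_sub_cancel' (by omega : p + 1 ≤ N)] at this
      exact this
  have hterm : ∀ σ : Equiv.Perm (Fin N), ev ((List.ofFn fun i => A (σ i)).prod *
      rr Q (algebraMap k Q (α σ))) =
      (if σ = 1 then y N else 0) * algebraMap k Q (α σ) := by
    intro σ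
    rw [← hev σ]
    rfl
  simp only [hterm] at hI'
  rw [Finset.sum_eq_single (1 : Equiv.Perm (Fin N))] at hI'
  · rw [if_pos rfl, hα, map_one, mul_one] at hI'
    exact hyN hI'
  · intro σ _ hσ
    rw [if_neg hσ, zero_mul]
  · intro h
    exact absurd (Finset.mem_univ _) h

end

theorem awl' {Q : Type v} [DivisionRing Q] {I : Type*} (g : I → Q)
    (hg : LinearIndependent (Subring.center Q) g) (s : Finset I) :
    ∀ (m : ℕ) (x : I → Q), (s.filter (fun j => x j ≠ 0)).card ≤ m →
      (∀ y, ∑ j ∈ s, x j * y * g j = 0) → ∀ j ∈ s, x j = 0 := by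
  intro m
  induction m with
  | zero =>
    intro x hc _ j hjs
    by_contra hj
    have h0 : (s.filter (fun j => x j ≠ 0)).card = 0 := by omega
    rw [Finset.card_eq_zero] at h0
    have : j ∈ s.filter (fun j => x j ≠ 0) := by simp [hj, hjs]
    rw [h0] at this
    simp at this
  | succ m ih =>
    intro x hc hrel
    by_contra hne
    push Not at hne
    obtain ⟨i, his, hi⟩ := hne
    have hcomm : ∀ u : Q, ∀ j ∈ s, x j * u * x i = x i * u * x j := by
      intro u j hjs
      have h1 : ∀ j ∈ s, (fun j => x j * u * x i - x i * u * x j) j = 0 := by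
        apply ih
        · have hsub : s.filter (fun j => (x j * u * x i - x i * u * x j) ≠ 0) ⊆
              (s.filter (fun j => x j ≠ 0)).erase i := by
            intro l hl
            simp only [Finset.mem_filter] at hl
            rw [Finset.mem_erase]
            refine ⟨?_, ?_⟩
            · intro hli
              apply hl.2
              rw [hli]
              simp
            · simp only [Finset.mem_filter]
              refine ⟨hl.1, ?_⟩
              intro hl0
              apply hl.2
              rw [hl0]
              simp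
          have hmem : i ∈ s.filter (fun j => x j ≠ 0) := by simp [hi, his]
          have h2 := Finset.card_le_card hsub
          rw [Finset.card_erase_of_mem hmem] at h2
          omega
        · intro y
          have e1 : ∀ l, (x l * u * x i - x i * u * x l) * y * g l =
              x l * (u * x i * y) * g l - (x i * u) * (x l * y * g l) := by
            intro l
            noncomm_ring
          simp only [e1]
          rw [Finset.sum_sub_distrib, ← Finset.mul_sum, hrel y, hrel (u * x i * y)]
          simp
      exact sub_eq_zero.mp (h1 j hjs)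
    have hc1 : ∀ j ∈ s, x j * x i = x i * x j := by
      intro j hjs
      have := hcomm 1 j hjs
      simpa using this
    have hcent : ∀ j ∈ s, (x i)⁻¹ * x j ∈ Subring.center Q := by
      intro j hjs
      rw [Subring.mem_center_iff]
      intro u
      have h1 := hcomm u j hjs
      have h2 : (x i)⁻¹ * (x j * u * x i) * (x i)⁻¹ = (x i)⁻¹ * (x i * u * x j) * (x i)⁻¹ := by
        rw [h1]
      have h3 : (x i)⁻¹ * (x j * u * x i) * (x i)⁻¹ = (x i)⁻¹ * x j * u := by
        rw [mul_assoc, mul_assoc (x j * u), mul_inv_cancel₀ hi, mul_one, ← mul_assoc]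
      have h4 : (x i)⁻¹ * (x i * u * x j) * (x i)⁻¹ = u * (x j * (x i)⁻¹) := by
        rw [← mul_assoc, ← mul_assoc, inv_mul_cancel₀ hi, one_mul, mul_assoc]
      have h5 : x j * (x i)⁻¹ = (x i)⁻¹ * x j := by
        have : (x i)⁻¹ * (x i * x j) * (x i)⁻¹ = (x i)⁻¹ * (x j * x i) * (x i)⁻¹ := by
          rw [hc1 j hjs]
        rw [← mul_assoc, inv_mul_cancel₀ hi, one_mul] at this
        rw [this, mul_assoc, mul_assoc, mul_inv_cancel₀ hi, mul_one]
      rw [h3, h4, h5] at h2
      exact h2.symm
    let c : I → Subring.center Q := fun j => if h : j ∈ s then ⟨(x i)⁻¹ * x j, hcent j h⟩ else 0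
    have hsum : ∑ j ∈ s, c j • g j = 0 := by
      have h1 := hrel 1
      have h2 : ∀ j ∈ s, x j * 1 * g j = x i * (c j • g j) := by
        intro j hjs
        have hcj : (c j • g j) = ((x i)⁻¹ * x j) * g j := by
          have : c j = ⟨(x i)⁻¹ * x j, hcent j hjs⟩ := dif_pos hjs
          rw [this]
          rfl
        rw [hcj, mul_one, ← mul_assoc, ← mul_assoc, mul_inv_cancel₀ hi, one_mul]
      rw [Finset.sum_congr rfl h2, ← Finset.mul_sum] at h1
      exact (mul_eq_zero.mp h1).resolve_left hi
    have hci := (linearIndependent_iff'.mp hg) s c hsum i his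
    have h8 : c i = ⟨(x i)⁻¹ * x i, hcent i his⟩ := dif_pos his
    rw [h8] at hci
    have : (x i)⁻¹ * x i = 0 := congrArg Subtype.val hci
    rw [inv_mul_cancel₀ hi] at this
    exact one_ne_zero this

theorem finZ {Q : Type v} [DivisionRing Q] (L : Subfield Q)
    (hL : ∀ a ∈ L, ∀ b ∈ L, a * b = b * a) [Module.Finite L Q] :
    Module.Finite (Subring.center Q) Q := by
  let b := Module.Basis.ofVectorSpace (Subring.center Q) Q
  obtain ⟨n, e, he⟩ := Module.Finite.exists_fin (R := L) (M := Q)
  have hli : LinearIndependent L (fun i => fun j : Fin n => e j * b i) := by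
    rw [linearIndependent_iff']
    intro s c hc i hi
    have h1 : ∀ y, ∑ i ∈ s, (c i : Q) * y * b i = 0 := by
      intro y
      have hy : y ∈ Submodule.span L (Set.range e) := he ▸ Submodule.mem_top
      induction hy using Submodule.span_induction with
      | mem y h =>
        obtain ⟨j, rfl⟩ := h
        have h2 := congrFun hc j
        rw [Finset.sum_apply] at h2
        rw [← Pi.zero_apply (M := fun _ : Fin n => Q) j, ← h2]
        apply Finset.sum_congr rfl
        intro l _
        exact mul_assoc _ _ _
      | zero => simp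
      | add y z _ _ h2 h3 =>
        simp only [mul_add, add_mul, Finset.sum_add_distrib, h2, h3, add_zero]
      | smul l a _ h2 =>
        have h3 : ∀ i, (c i : Q) * (l • a) * b i = l * ((c i : Q) * a * b i) := by
          intro i
          have : l • a = (l : Q) * a := rfl
          rw [this, ← mul_assoc (c i : Q), hL _ (c i).2 _ l.2]
          simp only [mul_assoc]
        simp only [h3]
        rw [← Finset.mul_sum, h2, mul_zero]
    exact Subtype.ext (awl' b b.linearIndependent s _ (fun i => (c i : Q)) le_rfl h1 i hi)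
  have := hli.finite
  exact Module.Finite.of_basis b

end KAPM

universe u v

/-- **KAP**. -/
theorem specKAP : SpecKAP.{u, v} := by
  intro k H Q _ _ _ _ _ _ ι hι hN
  obtain ⟨L, hL, hself⟩ := KAPM.exists_max Q
  have := KAPM.finL ι hι L hL hself hN
  exact KAPM.finZ L hL

end Pool.Agent.Lib.MP_c37a72_al
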