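import Pool.Agent.Lib.MP_c37a72_al.NI.SpecN
import Pool.Agent.Lib.MP_c37a72_al.LB.RTL
import Pool.Agent.Lib.MP_c37a72_al.KC.All
import Pool.Agent.Lib.MP_c37a72_al.NI.T1R
import Pool.Agent.Lib.MP_c37a72_al.NI.NIS
import Pool.Agent.Lib.MP_c37a72_al.LP.GRP
import Pool.Agent.Lib.MP_c37a72_al.LP.TPX
import Pool.Agent.Lib.MP_c37a72_al.LP.EFN
import Pool.Agent.Lib.MP_c37a72_al.LP.LP
import Pool.Agent.Lib.MP_c37a72_al.NI.TPB
import Pool.Agent.Lib.MP_c37a72_al.NI.WTA
import Pool.Agent.Lib.MP_c37a72_al.NI.GRR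
import Pool.Agent.Lib.MP_c37a72_al.NI.LOG
import Pool.Agent.Lib.MP_c37a72_al.NI.WED
import Pool.Agent.Lib.MP_c37a72_al.NI.RBC
import Pool.Agent.Lib.MP_c37a72_al.NI.XSD
import Pool.Agent.Lib.MP_c37a72_al.NI.AL2
import Pool.Agent.Lib.MP_c37a72_al.NR.FNC
import Pool.Agent.Lib.MP_c37a72_al.NR.All

section
/-!
# MP_c37a72_al, block NI, module MUL (helper60)
-/
set_option autoImplicit false

open scoped TensorProduct
open Coalgebra HopfAlgebra Module
open Pool.Agent.Lib.MP_c37a72_al.LB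

namespace Pool.Agent.Lib.MP_c37a72_al.NI

universe u v w

/-- **MUL**. -/
theorem specMUL (hADB : EG.SpecADB.{u, v}) : SpecMUL.{u, v} := by
  intro k H Z Q _ _ _ _ _ _ _ _ _ _ ι hQ n f T hT e he q l
  have h0 : ∀ (h : H) (i : Fin n), AlgHom.id k Q (ι h) * e i =
      ∑ l, e l * AlgHom.id k Q (T (ι h) l i) := by
    intro h i
    obtain ⟨m, x, y, hxy⟩ := RTLM.exists_fin_repr (k := k) h
    have h1 := (hADB k H Z Q ι h m x y hxy (e i)).1
    rw [AlgHom.coe_id, id_eq, h1]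
    simp only [he, id_eq, hT.eq h m x y hxy, Finset.sum_mul, Finset.mul_sum, smul_mul_assoc,
      mul_smul_comm]
    exact Finset.sum_comm
  exact (RTLM.rule Z ι hQ (AlgHom.id k Q) e T h0 q l).symm

end Pool.Agent.Lib.MP_c37a72_al.NI
end

section
set_option autoImplicit false

open scoped TensorProduct
open Coalgebra HopfAlgebra Module
open Pool.Agent.Lib.MP_c37a72_al.LB

namespace Pool.Agent.Lib.MP_c37a72_al.NI

universe u v w

namespace OLMM

/-- matrices with entries in a subalgebra -/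
def matSub {F A : Type*} [Field F] [Ring A] [Algebra F A] (B : Subalgebra F A) (n : ℕ) :
    Subalgebra F (Matrix (Fin n) (Fin n) A) where
  carrier := {X | ∀ p l, X p l ∈ B}
  mul_mem' := fun {X Y} hX hY p l => by
    rw [Matrix.mul_apply]
    exact B.sum_mem fun i _ => B.mul_mem (hX p i) (hY i l)
  add_mem' := fun {X Y} hX hY p l => B.add_mem (hX p l) (hY p l)
  algebraMap_mem' := fun c p l => by
    rw [Matrix.algebraMap_matrix_apply]
    split_ifs
    · exact B.algebraMap_mem c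
    · exact B.zero_mem

theorem mem_matSub {F A : Type*} [Field F] [Ring A] [Algebra F A] {B : Subalgebra F A} {n : ℕ}
    {X : Matrix (Fin n) (Fin n) A} : X ∈ matSub B n ↔ ∀ p l, X p l ∈ B := Iff.rfl

/-- a subalgebra of a finite-dimensional algebra is closed under inverses -/
theorem inv_mem {F A : Type*} [Field F] [Ring A] [Algebra F A] [Module.Finite F A]
    (B : Subalgebra F A) {x y : A} (hx : x ∈ B) (_hxy : x * y = 1) (hyx : y * x = 1) : y ∈ B := by
  let f : B →ₗ[F] B := LinearMap.mulLeft F (⟨x, hx⟩ : B)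
  have h1 : Function.Injective f := by
    rw [injective_iff_map_eq_zero]
    intro b hb
    have h2 : x * (b : A) = 0 := congrArg Subtype.val hb
    apply Subtype.ext
    calc (b : A) = y * x * b := by rw [hyx, one_mul]
      _ = 0 := by rw [mul_assoc, h2, mul_zero]
  obtain ⟨b, hb⟩ := LinearMap.surjective_of_injective h1 1
  have h2 : x * (b : A) = 1 := congrArg Subtype.val hb
  have h3 : y = b := by
    calc y = y * (x * b) := by rw [h2, mul_one]
      _ = b := by rw [← mul_assoc, hyx, one_mul]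
  rw [h3]
  exact b.2

/-- representation of a tensor with independent right legs -/
theorem repr_right {k M N : Type*} [Field k] [AddCommGroup M] [Module k M] [AddCommGroup N]
    [Module k N] (t : M ⊗[k] N) : ∃ (n : ℕ) (x : Fin n → M) (y : Fin n → N),
      LinearIndependent k y ∧ t = ∑ i, x i ⊗ₜ[k] y i := by
  classical
  let B := Module.Basis.ofVectorSpace k N
  obtain ⟨b, hb⟩ := TensorProduct.eq_repr_basis_right B t
  let e := b.support.equivFin
  refine ⟨b.support.card, fun i => b (e.symm i), fun i => B (e.symm i), ?_, ?_⟩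
  · exact B.linearIndependent.comp (fun i => ((e.symm i : b.support) : _))
      (fun i j h => e.symm.injective (Subtype.ext h))
  · rw [← hb, Finsupp.sum, ← Finset.sum_coe_sort b.support (fun i => b i ⊗ₜ[k] B i)]
    exact (Equiv.sum_comp e.symm (fun i : b.support => b i ⊗ₜ[k] B i)).symm

/-- representation of a tensor with independent left legs -/
theorem repr_left {k M N : Type*} [Field k] [AddCommGroup M] [Module k M] [AddCommGroup N]
    [Module k N] (t : M ⊗[k] N) : ∃ (n : ℕ) (x : Fin n → M) (y : Fin n → N),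
      LinearIndependent k x ∧ t = ∑ i, x i ⊗ₜ[k] y i := by
  obtain ⟨n, x, y, h, e⟩ := repr_right (TensorProduct.comm k M N t)
  refine ⟨n, y, x, h, ?_⟩
  have := congrArg (TensorProduct.comm k M N).symm e
  rw [LinearEquiv.symm_apply_apply, map_sum] at this
  simpa using this

end OLMM

open OLMM in
theorem specOLM (hLEG : SpecLEG.{u, v}) : SpecOLM.{u, v} := by
  intro k H Z Q _ _ _ _ _ _ _ _ _ _ ι hQ hS n f T hT
  classical
  have hfin : Module.Finite Z Q := hQ.fin
  have h1 : ∀ h : H, ι h ∈ EG.Ol k Z ι → T (ι h) ∈ matSub (EG.Ol k Z ι) n := by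
    intro h hh p l
    obtain ⟨m, x, y, hx, hxy⟩ := repr_left (comul (R := k) h)
    rw [hT.eq h m x y hxy p l]
    refine Subalgebra.sum_mem _ fun i _ => ?_
    have h2 := ((hLEG k H Z Q ι hQ hS h m x y hxy).2 hh hx i).1
    rw [← algebraMap_smul Z]
    exact Subalgebra.smul_mem _ h2 _
  intro q hq p l
  obtain ⟨c, h, hc0, hc, hch⟩ := hQ.frac q
  obtain ⟨z, hz⟩ := hQ.cent (ι c) (REGM.cent_image hQ hc)
  have hιc : ι c ∈ EG.Ol k Z ι := by
    rw [← hz]
    exact Subalgebra.algebraMap_mem _ z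
  have hιh : ι h ∈ EG.Ol k Z ι := by
    rw [← hch]
    exact Subalgebra.mul_mem _ hιc hq
  have hne : ι c ≠ 0 := fun h0 => hc0 (hQ.inj (by rw [h0, map_zero]))
  have h3 : T (ι c)⁻¹ ∈ matSub (EG.Ol k Z ι) n := by
    refine inv_mem (F := Z) (matSub (EG.Ol k Z ι) n) (h1 c hιc) ?_ ?_
    · rw [← map_mul, mul_inv_cancel₀ hne, map_one]
    · rw [← map_mul, inv_mul_cancel₀ hne, map_one]
  have h4 : T q = T (ι c)⁻¹ * T (ι h) := by
    rw [← map_mul, ← hch, ← mul_assoc, inv_mul_cancel₀ hne, one_mul]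
  rw [h4]
  exact (matSub (EG.Ol k Z ι) n).mul_mem h3 (h1 h hιh) p l

end Pool.Agent.Lib.MP_c37a72_al.NI
end

section
set_option autoImplicit false

open scoped TensorProduct
open Coalgebra HopfAlgebra Module
open Pool.Agent.Lib.MP_c37a72_al.LB

namespace Pool.Agent.Lib.MP_c37a72_al.NI

universe u v w

open OLMM in
theorem specTRM (hOLM : SpecOLM.{u, v}) : SpecTRM.{u, v} := by
  intro k H Z Q F2 R2 _ _ _ _ _ _ _ _ _ _ _ _ _ _ _ _ ι jF j D hQ hR hS n f T hT τ hτ1 hτ2
  classical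
  have hfin : Module.Finite Z Q := hQ.fin
  have hcl := hR.cl
  have hfrc := hR.frc
  have hfin2 : Module.Finite F2 R2 := hcl.finite_iZ hfrc
  set M := M2 Z F2 ι j D with hM
  set N := matSub M n with hN
  have hgen1 : ∀ a ∈ EG.Ol k Z ι, j (a ⊗ₜ 1) ∈ M := fun a ha =>
    Algebra.subset_adjoin (Or.inl ⟨a, ha, rfl⟩)
  have hgen2 : ∀ q, D q ∈ M := fun q => Algebra.subset_adjoin (Or.inr ⟨q, rfl⟩)
  have hj1 : ∀ a b : Q, j (a ⊗ₜ[k] b) = j (a ⊗ₜ 1) * j (1 ⊗ₜ b) := by
    intro a b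
    rw [← map_mul, Algebra.TensorProduct.tmul_mul_tmul, mul_one, one_mul]
  have hz : ∀ z : Z, j ((1 : Q) ⊗ₜ[k] algebraMap Z Q z) = algebraMap F2 R2 (jF (1 ⊗ₜ z)) := by
    intro z
    rw [← hcl.comp, iZ_tmul, map_one]
  have h1 : ∀ a ∈ EG.Ol k Z ι, ∀ z : Z, τ (j (a ⊗ₜ[k] algebraMap Z Q z)) ∈ N := by
    intro a ha z p l
    rw [hτ1, hj1, hz]
    exact M.mul_mem (hgen1 _ (hOLM k H Z Q ι hQ hS n f T hT a ha p l)) (M.algebraMap_mem _)
  have h2 : ∀ s : Z ⊗[k] Z, τ (algebraMap F2 R2 (jF s)) ∈ N := by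
    intro s
    rw [← hcl.comp]
    induction s using TensorProduct.induction_on with
    | zero => rw [map_zero, map_zero, map_zero]; exact N.zero_mem
    | add a b ha hb => rw [map_add, map_add, map_add]; exact N.add_mem ha hb
    | tmul a b =>
      rw [iZ_tmul]
      exact h1 _ (Subalgebra.algebraMap_mem _ a) b
  have h3 : ∀ x : F2, τ (algebraMap F2 R2 x) ∈ N := by
    intro x
    obtain ⟨a, b, hb, hx⟩ := hfrc.surj x
    have hb0 : jF b ≠ 0 := hfrc.ne' hb
    have h4 : τ (algebraMap F2 R2 (jF b)⁻¹) ∈ N := by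
      refine inv_mem (F := F2) N (h2 b) ?_ ?_
      · rw [← map_mul, ← map_mul, mul_inv_cancel₀ hb0, map_one, map_one]
      · rw [← map_mul, ← map_mul, inv_mul_cancel₀ hb0, map_one, map_one]
    have h5 : τ (algebraMap F2 R2 x) = τ (algebraMap F2 R2 (jF b)⁻¹) * τ (algebraMap F2 R2 (jF a)) := by
      rw [← map_mul, ← map_mul, ← hx]
      congr 2
      field_simp
    rw [h5]
    exact N.mul_mem h4 (h2 a)
  intro r hr
  change τ r ∈ N
  induction hr using Algebra.adjoin_induction with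
  | mem g hg =>
    rcases hg with ⟨e, he, rfl⟩ | ⟨q, rfl⟩
    · have := h1 e he 1
      rwa [map_one] at this
    · intro p l
      rw [hτ2]
      exact hgen2 _
  | algebraMap x => exact h3 x
  | add a b _ _ ha hb => rw [map_add]; exact N.add_mem ha hb
  | mul a b _ _ ha hb => rw [map_mul]; exact N.mul_mem ha hb

end Pool.Agent.Lib.MP_c37a72_al.NI
end

section
/-!
# MP_c37a72_al, block PU: all modules, without hypotheses
-/
set_option autoImplicit false

namespace Pool.Agent.Lib.MP_c37a72_al.PU.All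

universe u v w

theorem hMUL : NI.SpecMUL.{u, v} := NI.specMUL LB.All.hADB
theorem hOLM : NI.SpecOLM.{u, v} := NI.specOLM LB.All.hLEG
theorem hTRM : NI.SpecTRM.{u, v} := NI.specTRM hOLM
theorem hNZP : SpecNZP.{u, v} := specNZP
theorem hIDM : SpecIDM.{u, v} := specIDM
theorem hIDR : SpecIDR.{u, v} := specIDR hIDM
theorem hTRI : SpecTRI.{u, v} := specTRI hNZP
theorem hALF : SpecALF.{u, v} := specALF
theorem hLWD : SpecLWD.{u, v} := specLWD hALF
theorem hINV : SpecINV.{u, v} := specINV hALF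
theorem hTPX : SpecTPX.{u, v} :=
  specTPX LB.All.hSTM LB.All.hFIN LB.All.hR11 LB.All.hLAB hALF hLWD
theorem hEID : SpecEID.{u, v} := specEID LB.All.hSTM hIDR hINV
theorem hPID : SpecPID.{u, v} := specPID hIDR hINV
theorem hVID : SpecVID.{u, v} := specVID hIDR hINV
theorem hP3A : SpecP3A.{u, v} := specP3A hTRI
theorem hP3B : SpecP3B.{u, v} := specP3B hTRI hTRM
theorem hP31 : SpecP31.{u, v} :=
  specP31 LB.All.hADA LB.All.hR2S LB.All.hE0X LB.All.hTEL LB.All.hTAL LB.All.hRTL LB.All.hLAB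
    LB.All.hLCL LB.All.hBIF LB.All.hM2D hMUL hALF hLWD hTPX hEID hPID hVID hP3A hP3B
theorem hPUF : SpecPUF.{u, v} :=
  specPUF LB.All.hR2S LB.All.hE0X LB.All.hLCL LB.All.hBIF LB.All.hM2D LB.All.hSYM hP31

end Pool.Agent.Lib.MP_c37a72_al.PU.All
end

section
/-!
# MP_c37a72_al, block LP: all modules, without hypotheses
-/
set_option autoImplicit false

namespace Pool.Agent.Lib.MP_c37a72_al.LP.All

universe u v w

theorem hGRP : SpecGRP.{v} := specGRP
theorem hBDG : SpecBDG.{v} := specBDG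
theorem hEFN : SpecEFN.{u, v} := specEFN hBDG
theorem hIDM : SpecIDM.{v} := specIDM
theorem hEQV : SpecEQV.{u, v} := specEQV LB.All.hLAB LB.All.hR11
theorem hHGT : SpecHGT.{u, v} := specHGT hEQV
theorem hTEX : SpecTEX.{u, v} := specTEX LB.All.hXIP
theorem hCLS : SpecCLS.{u, v} := specCLS hEQV LB.All.hXIP
theorem hCKE : SpecCKE.{u, v} := specCKE hEQV hCLS LB.All.hSTM
theorem hSCH : SpecSCH.{u, v} := specSCH hEQV hCKE LB.All.hFIN LB.All.hSTM
theorem hPLL : SpecPLL.{u, v} := specPLL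
theorem hPL1 : SpecPL1.{u, v} := specPL1 hEQV hTEX
theorem hPL2 : SpecPL2.{u, v} := specPL2 hEQV hTEX hPLL hPL1 LB.All.hSTM
theorem hLAM : SpecLAM.{u, v} := specLAM hGRP hTEX hCKE hSCH hPL2 LB.All.hLCL
theorem hTPX : SpecTPX.{u, v} := specTPX hEQV hHGT hCKE LB.All.hFIN LB.All.hSTM
theorem hTOP : SpecTOP.{u, v} := specTOP hEQV hHGT hTEX hTPX
theorem hDEL : SpecDEL.{u, v} := specDEL hIDM hCKE LB.All.hSTM
theorem hH2X : SpecH2X.{u, v} := specH2X hEQV hHGT hTPX PU.All.hALF PU.All.hINV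
theorem hLBY : SpecLBY.{u, v} :=
  specLBY LB.All.hR2S LB.All.hE0X LB.All.hMK LB.All.hBIF LB.All.hM2D LB.All.hSYM LB.All.hR1L
    LB.All.hR1R
theorem hLP : SpecLP.{u, v} := specLP hLBY hEQV hLAM hEFN hDEL hTOP hH2X PU.All.hPUF

end Pool.Agent.Lib.MP_c37a72_al.LP.All
end

section
/-!
# MP_c37a72_al, block NI (nilpotent step): all statements proved
-/
set_option autoImplicit false

open Pool.Agent.Lib.MP_c37a72_al.LB

namespace Pool.Agent.Lib.MP_c37a72_al.NI.All

universe u v w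

theorem hADB : SpecADB.{v} := specADB
theorem hFDA : SpecFDA.{v} := specFDA hADB
theorem hFDB : SpecFDB.{v} := specFDB
theorem hMAX : SpecMAX.{v, w} := specMAX hFDB
theorem hTPB : SpecTPB.{v} := specTPB hADB hFDA
theorem hTDG : SpecTDG.{v} := specTDG hADB hFDA hTPB
theorem hBOX : SpecBOX.{v} := specBOX hADB hFDA hTPB
theorem hMXZ : SpecMXZ.{v} := specMXZ hADB hFDA hTPB
theorem hMIN : SpecMIN.{v} := specMIN hFDA hTPB hBOX
theorem hTEN : SpecTEN.{v, w} := specTEN hADB hFDA hFDB hTPB hMXZ hMIN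
theorem hTMX : SpecTMX.{v, w} := specTMX hFDB hTPB hTEN
theorem hWTA : SpecWTA.{v} := specWTA
theorem hTWT : SpecTWT.{v} := specTWT
theorem hCOV : SpecCOV.{v} := specCOV hTPB hTDG hWTA hTWT
theorem hRSE : SpecRSE.{u, v} := specRSE
theorem hGRK : SpecGRK.{u, v} := specGRK
theorem hGRR : SpecGRR.{u, v} := specGRR hGRK
theorem hGDG : SpecGDG.{u, v} := specGDG
theorem hLOG : SpecLOG.{u, v} := specLOG
theorem hBAL : SpecBAL.{v} := specBAL
theorem hWED : SpecWED.{v} := specWED hTPB hTDG hBAL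
theorem hECH : SpecECH.{v} := specECH
theorem hPOS : SpecPOS.{v, w} := specPOS hWTA
theorem hMUZ : SpecMUZ.{v, w} := specMUZ hFDB hWTA
theorem hRBC : SpecRBC.{v} := specRBC hWTA hFDA hBAL hCOV hTDG
theorem hXSD : SpecXSD.{v} := specXSD hWTA hTWT hWED
theorem hOLM : SpecOLM.{u, v} := specOLM LB.All.hLEG
theorem hTRM : SpecTRM.{u, v} := specTRM hOLM
theorem hNLF : SpecNLF.{u, v} := specNLF LB.All.hMIS
theorem hMUL : SpecMUL.{u, v} := specMUL LB.All.hADB
theorem hT1R : SpecT1R.{u, v} := specT1R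
theorem hSTB : SpecSTB.{u, v} := specSTB
theorem hAL2 : SpecAL2.{u, v} := specAL2
theorem hSPN : SpecSPN.{u, v} := specSPN hLOG
theorem hLGI : SpecLGI.{u, v} := specLGI hLOG
theorem hDCO : SpecDCO.{v} := specDCO LB.All.hJD
theorem hSEL : SpecSEL.{v} := specSEL
theorem hNCO : SpecNCO.{u, v} :=
  specNCO hMAX hWTA hTPB hTMX hCOV hBAL hGRR hRSE hGDG hPOS hMUZ hECH hRBC hXSD
theorem hNIS : SpecNIS.{u, v} :=
  specNIS hNCO LB.All.hR2S LB.All.hOLF hDCO hOLM hTRM hNLF hMUL hT1R hSTB hAL2 hSPN hLGI hSEL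
    LB.All.hE0X LB.All.hADA LB.All.hTEL LB.All.hTAL LB.All.hRTL

end Pool.Agent.Lib.MP_c37a72_al.NI.All
end

section
/-!
# MP_c37a72_al: the final theorem, without hypotheses
-/
set_option autoImplicit false

namespace Pool.Agent.Lib.MP_c37a72_al

universe u v

/-- `HF0` in the reduced case. -/
theorem allRHF : NR.SpecRHF.{u, v} :=
  specRHF LB.All.hR2X LB.All.hMK KC.allKCA LP.All.hLP NI.All.hNIS

/-- Brown's question: a Noetherian PI Hopf domain is a finite module over its centre. -/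
theorem brownMain (k : Type u) [Field k] [IsAlgClosed k] [CharZero k]
    (H : Type v) [Ring H] [HopfAlgebra k H]
    (hS : Function.Bijective (HopfAlgebra.antipode k (A := H)))
    (hN : IsNoetherianRing H)
    (hPI : ∃ (n : ℕ) (f : FreeAlgebra k (Fin n)), f ≠ 0 ∧
      ∀ a : Fin n → H, FreeAlgebra.lift k a f = 0)
    (hD : IsDomain H) :
    Module.Finite (Subalgebra.center k H) H :=
  NR.brown2 NR.allYDX NR.specLEX NR.allNID allRHF k H hS hN hPI hD

end Pool.Agent.Lib.MP_c37a72_al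
end
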