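import Mathlib

/-!
# MP_c37a72_al (Brown: Noetherian PI Hopf domains and finiteness over the centre): definitions
-/

set_option autoImplicit false

namespace Pool.Agent.Lib.MP_c37a72_al

universe u v w

/-- `H` satisfies a polynomial identity: a nonzero element of a free algebra vanishes on `H`. -/
def IsPI (k : Type u) (H : Type v) [Field k] [Ring H] [Algebra k H] : Prop :=
  ∃ n : ℕ, ∃ f : FreeAlgebra k (Fin n), f ≠ 0 ∧ ∀ a : Fin n → H, FreeAlgebra.lift k a f = 0

/-- `H` satisfies a multilinear identity of degree `N` in which the monomial `a₁ a₂ ⋯ a_N` has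
coefficient `1`. -/
def MLI (k : Type u) (H : Type v) [Field k] [Ring H] [Algebra k H] (N : ℕ) : Prop :=
  ∃ α : Equiv.Perm (Fin N) → k, α 1 = 1 ∧
    ∀ a : Fin N → H, ∑ σ : Equiv.Perm (Fin N), α σ • (List.ofFn fun i => a (σ i)).prod = 0

/-- `c` is central in `H`. -/
def Cent {H : Type v} [Ring H] (c : H) : Prop := ∀ x : H, x * c = c * x

/-- Division ring of fractions, left and right, with arbitrary denominators. -/
structure IsFr (k : Type u) (H : Type v) (Q : Type w) [Field k] [Ring H] [Algebra k H]
    [DivisionRing Q] [Algebra k Q] (ι : H →ₐ[k] Q) : Prop where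
  inj : Function.Injective ι
  left : ∀ q : Q, ∃ s h : H, s ≠ 0 ∧ ι s * q = ι h
  right : ∀ q : Q, ∃ s h : H, s ≠ 0 ∧ q * ι s = ι h

/-- The central quotient division ring: `H ⊆ Q`, `Z` the centre of the division ring `Q`, `Q` of
finite dimension over `Z`, and every element of `Q` is a fraction with a CENTRAL denominator. -/
structure IsCQ (k : Type u) (H : Type v) (Z : Type w) (Q : Type w) [Field k] [Ring H] [Algebra k H]
    [Field Z] [Algebra k Z] [DivisionRing Q] [Algebra k Q] [Algebra Z Q] [IsScalarTower k Z Q]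
    (ι : H →ₐ[k] Q) : Prop where
  inj : Function.Injective ι
  cent : ∀ q : Q, (∀ x : Q, x * q = q * x) → ∃ z : Z, algebraMap Z Q z = q
  fin : Module.Finite Z Q
  frac : ∀ q : Q, ∃ c h : H, c ≠ 0 ∧ Cent c ∧ ι c * q = ι h

end Pool.Agent.Lib.MP_c37a72_al
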