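import Pool.Agent.Lib.MP_c37a72_al.Pts

/-!
# MP_c37a72_al: descent of rational functions

`f ∈ Frac (Z ⊗ L)` whose residues at all places of `Z` with finitely many conditions lie in a
subfield `K` of `L` belongs to `Frac (Z ⊗ K)`.
-/

set_option autoImplicit false
set_option linter.unusedSectionVars false

namespace Pool.Agent.Lib.MP_c37a72_al

open Finset TensorProduct

universe u v w

namespace DescM

variable {k : Type u} {Z : Type v} [Field k] [Field Z] [Algebra k Z] (P : Plc k Z)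

/-- `∑ w_i ⊗ c_i ∈ V ⊗ L` -/
noncomputable def lift {B : Type w} [Ring B] [Algebra k B] {ι : Type*} (T : Finset ι) (w : ι → Z)
    (hT : ∀ i : T, w i ∈ P.V) (c : T → B) : P.V ⊗[k] B :=
  ∑ i : T, (⟨w i, hT i⟩ : P.V) ⊗ₜ[k] c i

theorem incl_lift {B : Type w} [Ring B] [Algebra k B] {ι : Type*} (T : Finset ι) (w : ι → Z)
    (hT : ∀ i : T, w i ∈ P.V) (c : T → B) :
    P.incl B (lift P T w hT c) = ∑ i : T, w i ⊗ₜ[k] c i := by
  unfold lift
  rw [map_sum]
  simp only [Plc.incl_tmul]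

theorem ev_lift {B : Type w} [Ring B] [Algebra k B] {ι : Type*} (T : Finset ι) (w : ι → Z)
    (hT : ∀ i : T, w i ∈ P.V) (c : T → B) :
    P.ev B (lift P T w hT c) = ∑ i : T, P.α ⟨w i, hT i⟩ • c i := by
  unfold lift
  rw [map_sum]
  simp only [Plc.ev_tmul]

end DescM

open DescM in
theorem descent {k : Type u} {Z : Type v} {L : Type w} {F : Type*} [Field k] [IsAlgClosed k]
    [Field Z] [Field L] [Field F] [Algebra k Z] [Algebra k L] [Algebra (Z ⊗[k] L) F]
    [IsFractionRing (Z ⊗[k] L) F] [Algebra L F]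
    (hL : ∀ l : L, algebraMap L F l = algebraMap (Z ⊗[k] L) F (1 ⊗ₜ l))
    (K : IntermediateField k L) (f : F) (S : Finset Z) (r : Z) (hr : r ≠ 0)
    (h : ∀ P : Plc k Z, (∀ z ∈ S, z ∈ P.V) → (∃ hr : r ∈ P.V, P.α ⟨r, hr⟩ ≠ 0) →
      ∃ hf : f ∈ (P.gauss L F hL).V, (P.gauss L F hL).α ⟨f, hf⟩ ∈ K) :
    ∃ a b : Z ⊗[k] K, b ≠ 0 ∧
      f * algebraMap (Z ⊗[k] L) F (Algebra.TensorProduct.map (AlgHom.id k Z) K.val b)
        = algebraMap (Z ⊗[k] L) F (Algebra.TensorProduct.map (AlgHom.id k Z) K.val a) := by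
  classical
  obtain ⟨x, y, hy, hf⟩ := IsFractionRing.div_surjective (A := Z ⊗[k] L) f
  have hy0 : y ≠ 0 := nonZeroDivisors.ne_zero hy
  have hinj : Function.Injective (algebraMap (Z ⊗[k] L) F) := IsFractionRing.injective _ _
  have hyF : algebraMap (Z ⊗[k] L) F y ≠ 0 := fun h0 => hy0 (hinj (by rw [h0, map_zero]))
  have hfy : f * algebraMap (Z ⊗[k] L) F y = algebraMap (Z ⊗[k] L) F x := by
    rw [← hf]; field_simp
  let w := Module.Basis.ofVectorSpace k Z
  obtain ⟨cx, hcx⟩ := TensorProduct.eq_repr_basis_left (N := L) w x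
  obtain ⟨cy, hcy⟩ := TensorProduct.eq_repr_basis_left (N := L) w y
  let T := cx.support ∪ cy.support
  let X : T → L := fun i => cx i
  let Y : T → L := fun i => cy i
  have ex : x = ∑ i : T, w i ⊗ₜ[k] X i := by
    rw [← hcx, Finsupp.sum_of_support_subset cx (Finset.subset_union_left : cx.support ⊆ T) _
      (fun i _ => by rw [tmul_zero])]
    exact (Finset.sum_coe_sort T (fun i => w i ⊗ₜ[k] cx i)).symm
  have ey : y = ∑ i : T, w i ⊗ₜ[k] Y i := by
    rw [← hcy, Finsupp.sum_of_support_subset cy (Finset.subset_union_right : cy.support ⊆ T) _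
      (fun i _ => by rw [tmul_zero])]
    exact (Finset.sum_coe_sort T (fun i => w i ⊗ₜ[k] cy i)).symm
  have hYne : Y ≠ 0 := by
    intro h0
    apply hy0
    rw [ey]
    refine Finset.sum_eq_zero fun i _ => ?_
    rw [h0]; simp
  -- the basic relation at a place
  have hE : ∀ (P : Plc k Z) (hT : ∀ i : T, w i ∈ P.V) (hfV : f ∈ (P.gauss L F hL).V),
      (P.gauss L F hL).α ⟨f, hfV⟩ * ∑ i : T, P.α ⟨w i, hT i⟩ • Y i
        = ∑ i : T, P.α ⟨w i, hT i⟩ • X i := by
    intro P hT hfV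
    rw [← ev_lift P T w hT Y, ← ev_lift P T w hT X]
    apply P.gauss_α hL ⟨f, hfV⟩
    rw [Plc.io_apply, Plc.io_apply, incl_lift, incl_lift, ← ex, ← ey]
    exact hfy
  -- the linear system
  let R : Set (T ⊕ T → K) := {row | ∃ (P : Plc k Z) (_ : ∀ z ∈ S, z ∈ P.V)
    (_ : ∃ hr : r ∈ P.V, P.α ⟨r, hr⟩ ≠ 0) (hT : ∀ i : T, w i ∈ P.V)
    (hfV : f ∈ (P.gauss L F hL).V) (hfK : (P.gauss L F hL).α ⟨f, hfV⟩ ∈ K),
    row = Sum.elim (fun i : T => - algebraMap k K (P.α ⟨w i, hT i⟩))
      (fun i : T => (⟨_, hfK⟩ : K) * algebraMap k K (P.α ⟨w i, hT i⟩))}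
  obtain ⟨sol, hsol0, hsol⟩ := exists_sol (K := K) (L := L) R (Sum.elim X Y) (by
    intro h0
    apply hYne
    ext i
    exact congrFun h0 (Sum.inr i)) (by
    rintro row ⟨P, hS, hr, hT, hfV, hfK, rfl⟩
    rw [Fintype.sum_sum_type]
    simp only [Sum.elim_inl, Sum.elim_inr]
    have := hE P hT hfV
    rw [Finset.mul_sum] at this
    have e1 : ∀ i : T, algebraMap K L (- algebraMap k K (P.α ⟨w i, hT i⟩)) * X i
        = - (P.α ⟨w i, hT i⟩ • X i) := by
      intro i
      rw [map_neg, neg_mul, ← IsScalarTower.algebraMap_apply k K L, ← Algebra.smul_def]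
    have e2 : ∀ i : T, algebraMap K L ((⟨_, hfK⟩ : K) * algebraMap k K (P.α ⟨w i, hT i⟩)) * Y i
        = (P.gauss L F hL).α ⟨f, hfV⟩ * (P.α ⟨w i, hT i⟩ • Y i) := by
      intro i
      rw [map_mul, ← IsScalarTower.algebraMap_apply k K L, mul_assoc,
        ← Algebra.smul_def (P.α ⟨w i, hT i⟩) (Y i)]
      rfl
    rw [Finset.sum_congr rfl fun i _ => e1 i, Finset.sum_congr rfl fun i _ => e2 i, this,
      Finset.sum_neg_distrib, neg_add_cancel])
  let A : T → K := fun i => sol (Sum.inl i)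
  let B : T → K := fun i => sol (Sum.inr i)
  -- the equation satisfied by the solution at all places
  have hAB : ∀ (P : Plc k Z) (_ : ∀ z ∈ S, z ∈ P.V)
      (_ : ∃ hr : r ∈ P.V, P.α ⟨r, hr⟩ ≠ 0) (hT : ∀ i : T, w i ∈ P.V)
      (hfV : f ∈ (P.gauss L F hL).V),
      (P.gauss L F hL).α ⟨f, hfV⟩ * ∑ i : T, P.α ⟨w i, hT i⟩ • (B i : L)
        = ∑ i : T, P.α ⟨w i, hT i⟩ • (A i : L) := by
    intro P hS hr hT hfV
    obtain ⟨hfV', hfK⟩ := h P hS hr
    have h1 := hsol _ ⟨P, hS, hr, hT, hfV, hfK, rfl⟩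
    rw [Fintype.sum_sum_type] at h1
    simp only [Sum.elim_inl, Sum.elim_inr] at h1
    have h2 := congrArg (algebraMap K L) h1
    rw [map_add, map_zero, map_sum, map_sum] at h2
    have e1 : ∀ i : T, algebraMap K L (- algebraMap k K (P.α ⟨w i, hT i⟩) * sol (Sum.inl i))
        = - (P.α ⟨w i, hT i⟩ • (A i : L)) := by
      intro i
      rw [map_mul, map_neg, neg_mul, ← IsScalarTower.algebraMap_apply k K L, ← Algebra.smul_def]
      rfl
    have e2 : ∀ i : T, algebraMap K L ((⟨_, hfK⟩ : K) * algebraMap k K (P.α ⟨w i, hT i⟩)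
        * sol (Sum.inr i)) = (P.gauss L F hL).α ⟨f, hfV⟩ * (P.α ⟨w i, hT i⟩ • (B i : L)) := by
      intro i
      rw [map_mul, map_mul, ← IsScalarTower.algebraMap_apply k K L, mul_assoc,
        ← Algebra.smul_def (P.α ⟨w i, hT i⟩)]
      rfl
    rw [Finset.sum_congr rfl fun i _ => e1 i, Finset.sum_congr rfl fun i _ => e2 i,
      Finset.sum_neg_distrib, neg_add_eq_zero] at h2
    rw [Finset.mul_sum]
    exact h2.symm
  let a : Z ⊗[k] K := ∑ i : T, w i ⊗ₜ[k] A i
  let b : Z ⊗[k] K := ∑ i : T, w i ⊗ₜ[k] B i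
  have ea : Algebra.TensorProduct.map (AlgHom.id k Z) K.val a = ∑ i : T, w i ⊗ₜ[k] (A i : L) := by
    simp only [a, map_sum, Algebra.TensorProduct.map_tmul]
    rfl
  have eb : Algebra.TensorProduct.map (AlgHom.id k Z) K.val b = ∑ i : T, w i ⊗ₜ[k] (B i : L) := by
    simp only [b, map_sum, Algebra.TensorProduct.map_tmul]
    rfl
  -- the key identity `x b = a y`
  have hkey : x * (∑ i : T, w i ⊗ₜ[k] (B i : L)) = (∑ i : T, w i ⊗ₜ[k] (A i : L)) * y := by
    rw [← sub_eq_zero]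
    set t := x * (∑ i : T, w i ⊗ₜ[k] (B i : L)) - (∑ i : T, w i ⊗ₜ[k] (A i : L)) * y with ht
    by_contra hne
    let l := Module.Basis.ofVectorSpace k L
    obtain ⟨c, hc⟩ := TensorProduct.eq_repr_basis_right (M := Z) l t
    have hc0 : c ≠ 0 := by
      rintro rfl
      apply hne
      rw [← hc]; simp
    obtain ⟨j, hj⟩ := Finsupp.support_nonempty_iff.2 hc0
    have hcj : c j ≠ 0 := Finsupp.mem_support_iff.1 hj
    obtain ⟨P, hPS, hPr, hPr'⟩ := exists_plc_of k Z
      (S ∪ T.image w ∪ {r} ∪ c.support.image c) (r * c j) (mul_ne_zero hr hcj)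
    have hS : ∀ z ∈ S, z ∈ P.V := fun z hz => hPS z (by simp [hz])
    have hT : ∀ i : T, w i ∈ P.V := fun i =>
      hPS (w i) (by
        simp only [Finset.mem_union, Finset.mem_image]
        exact Or.inl (Or.inl (Or.inr ⟨i, i.2, rfl⟩)))
    have hrV : r ∈ P.V := hPS r (by simp)
    have hcV : ∀ i : c.support, c i ∈ P.V := fun i =>
      hPS (c i) (by
        simp only [Finset.mem_union, Finset.mem_image]
        exact Or.inr ⟨i, i.2, rfl⟩)
    have hprod : P.α ⟨r, hrV⟩ * P.α ⟨c j, hcV ⟨j, hj⟩⟩ ≠ 0 := by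
      rw [← map_mul]; exact hPr'
    obtain ⟨hfV, -⟩ := h P hS ⟨hrV, left_ne_zero_of_mul hprod⟩
    have h1 := hE P hT hfV
    have h2 := hAB P hS ⟨hrV, left_ne_zero_of_mul hprod⟩ hT hfV
    -- `t` lifts to `V ⊗ L` in two ways
    let tV : P.V ⊗[k] L := lift P c.support c hcV (fun i => l i)
    have htV : P.incl L tV = t := by
      rw [incl_lift, ← hc]
      exact Finset.sum_coe_sort c.support (fun i => c i ⊗ₜ[k] l i)
    have htV' : tV = lift P T w hT X * lift P T w hT (fun i => (B i : L))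
        - lift P T w hT (fun i => (A i : L)) * lift P T w hT Y := by
      apply P.incl_injective L
      rw [htV, map_sub, map_mul, map_mul, incl_lift, incl_lift, incl_lift, incl_lift, ← ex, ← ey]
    have h3 : P.ev L tV = 0 := by
      rw [htV', map_sub, map_mul, map_mul, ev_lift, ev_lift, ev_lift, ev_lift, ← h1, ← h2]
      ring
    rw [ev_lift] at h3
    have h4 := congrArg (fun z => l.repr z j) h3
    simp only [map_sum, map_zero, Finsupp.coe_zero, Pi.zero_apply, map_smul,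
      Finsupp.coe_finsetSum, Finset.sum_apply, Finsupp.smul_apply, Module.Basis.repr_self] at h4
    rw [Finset.sum_eq_single ⟨j, hj⟩] at h4
    · simp only [Finsupp.single_eq_same, smul_eq_mul, mul_one] at h4
      exact right_ne_zero_of_mul hprod h4
    · intro i _ hij
      have : (i : _) ≠ j := fun h => hij (Subtype.ext h)
      rw [Finsupp.single_eq_of_ne (by simpa using this.symm), smul_zero]
    · intro h; exact absurd (Finset.mem_univ _) h
  -- `b ≠ 0`
  have hdom : NoZeroDivisors (Z ⊗[k] L) := noZeroDivisors_tensor k Z L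
  have hindep : ∀ C : T → K, (∑ i : T, w i ⊗ₜ[k] (C i : L)) = 0 → C = 0 := by
    intro C hC
    let c : Module.Basis.ofVectorSpaceIndex k Z →₀ L :=
      Finsupp.onFinset T (fun i => if hi : i ∈ T then (C ⟨i, hi⟩ : L) else 0) (by
        intro i hi
        by_contra hiT
        exact hi (by simp [hiT]))
    have hcs : (c.sum fun i n => w i ⊗ₜ[k] n) = 0 := by
      rw [Finsupp.sum_of_support_subset c (Finsupp.support_onFinset_subset) _
        (fun i _ => by rw [tmul_zero]), ← hC]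
      rw [← Finset.sum_coe_sort T (fun i => w i ⊗ₜ[k] c i)]
      refine Finset.sum_congr rfl fun i _ => ?_
      simp [c]
    have hc0 := TensorProduct.sum_tmul_basis_left_eq_zero w c hcs
    ext i
    have := DFunLike.congr_fun hc0 (i : Module.Basis.ofVectorSpaceIndex k Z)
    simp only [c, Finsupp.onFinset_apply, Finsupp.coe_zero, Pi.zero_apply, dif_pos i.2] at this
    simpa using this
  refine ⟨a, b, ?_, ?_⟩
  · intro hb0
    have hB : B = 0 := by
      apply hindep
      rw [← eb, hb0, map_zero]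
    have hA : A = 0 := by
      apply hindep
      have : (∑ i : T, w i ⊗ₜ[k] (A i : L)) * y = 0 := by
        rw [← hkey, hB]; simp
      exact (mul_eq_zero.1 this).resolve_right hy0
    apply hsol0
    ext i
    rcases i with i | i
    · exact congrArg Subtype.val (congrFun hA i)
    · exact congrArg Subtype.val (congrFun hB i)
  · rw [ea, eb, ← hf, div_mul_eq_mul_div, div_eq_iff hyF, ← map_mul, ← map_mul, hkey]

end Pool.Agent.Lib.MP_c37a72_al
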