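import Pool.Agent.Lib.MP_c37a72_al.Desc
import Pool.Agent.Lib.MP_c37a72_al.PlX

section
/-!
# MP_c37a72_al: general compatibility, block B (fields of definition), block LP

Setting everywhere: `k` algebraically closed, `Z`, `L` fields over `k`, `F` a fraction field of
`Z ⊗ L`, `Q` an algebra over `Z`, `Q'` an algebra over `L`, `R` an `F`-algebra,
`j : Q ⊗ Q' → R` injective, compatible with `Z ⊗ L → F`.
-/
set_option autoImplicit false
set_option linter.unusedSectionVars false

namespace Pool.Agent.Lib.MP_c37a72_al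

open Finset TensorProduct

universe u v w

section defs

variable {k : Type u} [Field k] {Q : Type v} [Ring Q] [Algebra k Q] (Q' : Type w) [Ring Q']
  [Algebra k Q']

/-- `Q ⊗ Q' → Q'`, `q ⊗ q' ↦ π q • q'` -/
noncomputable def ePi (π : Q →ₗ[k] k) : Q ⊗[k] Q' →ₗ[k] Q' :=
  TensorProduct.lift ((LinearMap.lsmul k Q').comp π)

@[simp] theorem ePi_tmul (π : Q →ₗ[k] k) (q : Q) (q' : Q') : ePi Q' π (q ⊗ₜ q') = π q • q' := rfl

end defs

namespace Plc

section compat

variable {k : Type u} {Z : Type v} {Q : Type w} [Field k] [Field Z] [Ring Q] [Algebra k Z]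
  [Algebra Z Q] [Algebra k Q] [IsScalarTower k Z Q] (P : Plc k Z)
variable {L : Type*} [Field L] [Algebra k L] {F : Type*} [Field F] [Algebra (Z ⊗[k] L) F]
  [IsFractionRing (Z ⊗[k] L) F] [Algebra L F]
  (hL : ∀ l : L, algebraMap L F l = algebraMap (Z ⊗[k] L) F (1 ⊗ₜ l))
variable {Q' : Type*} [Ring Q'] [Algebra k Q'] [Algebra L Q'] [IsScalarTower k L Q']

variable (Q Q') in
/-- `V ⊗ L → Q ⊗ Q'` -/
noncomputable def iV : P.V ⊗[k] L →ₐ[k] Q ⊗[k] Q' :=
  Algebra.TensorProduct.map ((IsScalarTower.toAlgHom k Z Q).comp P.V.val)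
    (IsScalarTower.toAlgHom k L Q')

@[simp] theorem iV_tmul (v : P.V) (l : L) :
    P.iV Q Q' (v ⊗ₜ l) = algebraMap Z Q v ⊗ₜ algebraMap L Q' l := by
  unfold iV
  rw [Algebra.TensorProduct.map_tmul]
  rfl

theorem ePi_mul (Λ : Submodule k Q) (π : Q →ₗ[k] k)
    (hπ : ∀ l ∈ Λ, ∀ v : P.V, π (algebraMap Z Q v * l) = P.α v * π l)
    (a : P.V ⊗[k] L) (x : Q ⊗[k] Q')
    (hx : x ∈ LinearMap.range (LinearMap.rTensor Q' Λ.subtype)) :
    ePi Q' π (P.iV Q Q' a * x) = algebraMap L Q' (P.ev L a) * ePi Q' π x := by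
  obtain ⟨x, rfl⟩ := hx
  induction a using TensorProduct.induction_on with
  | zero => simp
  | add a b ha hb => rw [map_add, add_mul, map_add, ha, hb, map_add, map_add, add_mul]
  | tmul v l =>
    induction x using TensorProduct.induction_on with
    | zero => simp
    | add x y hx hy => rw [map_add, mul_add, map_add, hx, hy, map_add, mul_add]
    | tmul h q =>
      rw [LinearMap.rTensor_tmul, iV_tmul, Algebra.TensorProduct.tmul_mul_tmul, ePi_tmul,
        Plc.ev_tmul, ePi_tmul, Submodule.subtype_apply, hπ h h.2 v]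
      rw [Algebra.smul_def (P.α v) l, map_mul, ← IsScalarTower.algebraMap_apply k L Q',
        mul_smul_comm, mul_comm (P.α v), mul_smul, Algebra.smul_def (P.α v), mul_assoc]

include hL in
/-- **general compatibility**: a relation `∑ f_i x_i = 0`, `f_i` Gauss-integral, `x_i ∈ Λ ⊗ Q'`,
can be evaluated with a functional `π` which is `V`-semilinear on `Λ` -/
theorem gauss_compat {R : Type*} [Ring R] [Algebra F R] (j : Q ⊗[k] Q' →+* R)
    (hj : Function.Injective j)
    (hjF : ∀ (z : Z) (l : L), j (algebraMap Z Q z ⊗ₜ algebraMap L Q' l)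
      = algebraMap F R (algebraMap (Z ⊗[k] L) F (z ⊗ₜ l)))
    (Λ : Submodule k Q) (π : Q →ₗ[k] k)
    (hπ : ∀ l ∈ Λ, ∀ v : P.V, π (algebraMap Z Q v * l) = P.α v * π l)
    {ι : Type*} (s : Finset ι) (f : ι → (P.gauss L F hL).V) (x : ι → Q ⊗[k] Q')
    (hx : ∀ i ∈ s, x i ∈ LinearMap.range (LinearMap.rTensor Q' Λ.subtype))
    (h0 : ∑ i ∈ s, algebraMap F R (f i) * j (x i) = 0) :
    ∑ i ∈ s, algebraMap L Q' ((P.gauss L F hL).α (f i)) * ePi Q' π (x i) = 0 := by
  classical
  choose a b hb hf hα using fun i => P.gauss_exists hL (f i)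
  have hjV : ∀ t : P.V ⊗[k] L, j (P.iV Q Q' t) = algebraMap F R (P.io L F t) := by
    intro t
    induction t using TensorProduct.induction_on with
    | zero => simp
    | add t u ht hu => rw [map_add, map_add, ht, hu, map_add, map_add]
    | tmul v l => rw [iV_tmul, hjF, Plc.io_apply, Plc.incl_tmul]
  let B : P.V ⊗[k] L := ∏ i ∈ s, b i
  let A : ι → P.V ⊗[k] L := fun i => a i * ∏ l ∈ s.erase i, b l
  have hB : ∀ i ∈ s, B = b i * ∏ l ∈ s.erase i, b l := fun i hi =>
    (Finset.mul_prod_erase s b hi).symm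
  have hB0 : P.ev L B ≠ 0 := by
    rw [map_prod]; exact Finset.prod_ne_zero_iff.2 fun i _ => hb i
  have h1 : ∀ i ∈ s, (f i : F) * P.io L F B = P.io L F (A i) := by
    intro i hi
    rw [hB i hi, map_mul, ← mul_assoc, hf i, ← map_mul]
  have h2 : ∀ i ∈ s, (P.gauss L F hL).α (f i) * P.ev L B = P.ev L (A i) := by
    intro i hi
    rw [hB i hi, map_mul, ← mul_assoc, hα i, ← map_mul]
  have h3 : ∑ i ∈ s, P.iV Q Q' (A i) * x i = 0 := by
    apply hj
    rw [map_sum, map_zero]
    have : ∑ i ∈ s, j (P.iV Q Q' (A i) * x i)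
        = algebraMap F R (P.io L F B) * ∑ i ∈ s, algebraMap F R (f i) * j (x i) := by
      rw [Finset.mul_sum]
      refine Finset.sum_congr rfl fun i hi => ?_
      rw [map_mul, hjV, ← h1 i hi, ← mul_assoc, ← map_mul, mul_comm (f i : F)]
    rw [this, h0, mul_zero]
  have h4 := congrArg (ePi Q' π) h3
  rw [map_sum, map_zero, Finset.sum_congr rfl fun i hi =>
    P.ePi_mul Λ π hπ (A i) (x i) (hx i hi)] at h4
  have h5 : algebraMap L Q' (P.ev L B) *
      ∑ i ∈ s, algebraMap L Q' ((P.gauss L F hL).α (f i)) * ePi Q' π (x i) = 0 := by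
    rw [Finset.mul_sum, ← h4]
    refine Finset.sum_congr rfl fun i hi => ?_
    rw [← mul_assoc, ← map_mul, mul_comm (P.ev L B), h2 i hi]
  have h6 : algebraMap L Q' (P.ev L B)⁻¹ * algebraMap L Q' (P.ev L B) = 1 := by
    rw [← map_mul, inv_mul_cancel₀ hB0, map_one]
  calc _ = algebraMap L Q' (P.ev L B)⁻¹ * (algebraMap L Q' (P.ev L B) *
      ∑ i ∈ s, algebraMap L Q' ((P.gauss L F hL).α (f i)) * ePi Q' π (x i)) := by
        rw [← mul_assoc, h6, one_mul]
    _ = 0 := by rw [h5, mul_zero]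

/-- **LP, abstract form**: `g ∈ F` with a nontrivial relation `∑ g^i x_i = 0`, `x_i ∈ Λ ⊗ Q'`, such
that the evaluation of every nonzero `x_i` is nonzero: then `g` is integral, and `g ≠ 0` implies
`residue ≠ 0`. -/
theorem lp {R : Type*} [Ring R] [Algebra F R] (j : Q ⊗[k] Q' →+* R)
    (hj : Function.Injective j)
    (hjF : ∀ (z : Z) (l : L), j (algebraMap Z Q z ⊗ₜ algebraMap L Q' l)
      = algebraMap F R (algebraMap (Z ⊗[k] L) F (z ⊗ₜ l)))
    (Λ : Submodule k Q) (π : Q →ₗ[k] k)
    (hπ : ∀ l ∈ Λ, ∀ v : P.V, π (algebraMap Z Q v * l) = P.α v * π l)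
    (g : F) (N : ℕ) (x : ℕ → Q ⊗[k] Q')
    (hx : ∀ i, i ≤ N → x i ∈ LinearMap.range (LinearMap.rTensor Q' Λ.subtype))
    (hx0 : ∀ i, i ≤ N → ePi Q' π (x i) = 0 → x i = 0)
    (hne : ∃ i, i ≤ N ∧ x i ≠ 0)
    (h0 : ∑ i ∈ range (N + 1), algebraMap F R (g ^ i) * j (x i) = 0) :
    ∃ hg : g ∈ (P.gauss L F hL).V, (g ≠ 0 → (P.gauss L F hL).α ⟨g, hg⟩ ≠ 0) := by
  classical
  -- evaluation of a relation with coefficients `g_i`
  have hunit : ∀ a : F, a ≠ 0 → ∀ y : R, algebraMap F R a * y = 0 → y = 0 := by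
    intro a ha y hy
    have : algebraMap F R a⁻¹ * (algebraMap F R a * y) = y := by
      rw [← mul_assoc, ← map_mul, inv_mul_cancel₀ ha, map_one, one_mul]
    rw [← this, hy, mul_zero]
  rcases eq_or_ne g 0 with rfl | hgne
  · exact ⟨zero_mem _, fun h => absurd rfl h⟩
  rcases (P.gauss L F hL).dich g with hg | ⟨hg, hg0⟩
  · refine ⟨hg, fun hgne hα => ?_⟩
    -- lowest nonzero coefficient
    obtain ⟨m, ⟨hmN, hm⟩, hmin⟩ : ∃ m, (m ≤ N ∧ x m ≠ 0) ∧ ∀ i < m, ¬ (i ≤ N ∧ x i ≠ 0) :=
      ⟨Nat.find hne, Nat.find_spec hne, fun i hi => Nat.find_min hne hi⟩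
    have hlow : ∀ i < m, x i = 0 := fun i hi => by
      by_contra h
      exact hmin i hi ⟨by omega, h⟩
    have h1 : ∑ i ∈ range (N + 1), algebraMap F R
        (((if m ≤ i then (⟨g, hg⟩ : (P.gauss L F hL).V) ^ (i - m) else 0 :
          (P.gauss L F hL).V)) : F) * j (x i) = 0 := by
      apply hunit (g ^ m) (pow_ne_zero _ hgne)
      rw [Finset.mul_sum, ← h0]
      refine Finset.sum_congr rfl fun i _ => ?_
      by_cases hi : m ≤ i
      · rw [if_pos hi, ← mul_assoc, ← map_mul]
        congr 2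
        push_cast
        rw [← pow_add]; congr 1; omega
      · rw [hlow i (by omega), map_zero, mul_zero, mul_zero, mul_zero]
    have h2 := P.gauss_compat hL j hj hjF Λ π hπ (range (N + 1)) _ x
      (fun i hi => hx i (by rw [Finset.mem_range] at hi; omega)) h1
    rw [Finset.sum_eq_single m] at h2
    · rw [if_pos le_rfl, Nat.sub_self, pow_zero, map_one, map_one, one_mul] at h2
      exact hm (hx0 m hmN h2)
    · intro i hi him
      by_cases hi' : m ≤ i
      · rw [if_pos hi', map_pow, hα, zero_pow (by omega), map_zero, zero_mul]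
      · rw [if_neg hi', map_zero, map_zero, zero_mul]
    · intro hm'
      exfalso; apply hm'; rw [Finset.mem_range]; omega
  · -- `g⁻¹` in the maximal ideal: highest nonzero coefficient
    exfalso
    obtain ⟨m, ⟨hmN, hm⟩, hmax⟩ : ∃ m, (m ≤ N ∧ x m ≠ 0) ∧ ∀ i, m < i → i ≤ N → x i = 0 := by
      obtain ⟨i0, hi0, hi0'⟩ := hne
      refine ⟨Nat.findGreatest (fun i => x i ≠ 0) N, ⟨Nat.findGreatest_le N, ?_⟩, ?_⟩
      · exact Nat.findGreatest_spec (P := fun i => x i ≠ 0) hi0 hi0'
      · intro i hi hiN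
        by_contra h
        exact absurd (Nat.le_findGreatest (P := fun i => x i ≠ 0) hiN h) (by omega)
    have h1 : ∑ i ∈ range (N + 1), algebraMap F R
        (((if i ≤ m then (⟨g⁻¹, hg⟩ : (P.gauss L F hL).V) ^ (m - i) else 0 :
          (P.gauss L F hL).V)) : F) * j (x i) = 0 := by
      have e : ∑ i ∈ range (N + 1), algebraMap F R
          (((if i ≤ m then (⟨g⁻¹, hg⟩ : (P.gauss L F hL).V) ^ (m - i) else 0 :
            (P.gauss L F hL).V)) : F) * j (x i)
          = algebraMap F R ((g⁻¹) ^ m) * ∑ i ∈ range (N + 1), algebraMap F R (g ^ i) * j (x i) := by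
        rw [Finset.mul_sum]
        refine Finset.sum_congr rfl fun i hi => ?_
        rw [Finset.mem_range] at hi
        by_cases hi' : i ≤ m
        · rw [if_pos hi', ← mul_assoc, ← map_mul]
          congr 2
          push_cast
          obtain ⟨d, rfl⟩ := Nat.exists_eq_add_of_le hi'
          rw [Nat.add_sub_cancel_left, pow_add]
          have : g⁻¹ ^ i * g ^ i = 1 := by rw [← mul_pow, inv_mul_cancel₀ hgne, one_pow]
          calc g⁻¹ ^ d = (g⁻¹ ^ i * g ^ i) * g⁻¹ ^ d := by rw [this, one_mul]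
            _ = _ := by ring
        · rw [hmax i (by omega) (by omega), map_zero, mul_zero, mul_zero, mul_zero]
      rw [e, h0, mul_zero]
    have h2 := P.gauss_compat hL j hj hjF Λ π hπ (range (N + 1)) _ x
      (fun i hi => hx i (by rw [Finset.mem_range] at hi; omega)) h1
    rw [Finset.sum_eq_single m] at h2
    · rw [if_pos le_rfl, Nat.sub_self, pow_zero, map_one, map_one, one_mul] at h2
      exact hm (hx0 m hmN h2)
    · intro i hi him
      by_cases hi' : i ≤ m
      · rw [if_pos hi', map_pow, hg0, zero_pow (by omega), map_zero, zero_mul]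
      · rw [if_neg hi', map_zero, map_zero, zero_mul]
    · intro hm'
      exfalso; apply hm'; rw [Finset.mem_range]; omega

/-- evaluation of a relation with coefficients powers of an integral `g` -/
theorem lp_rel {R : Type*} [Ring R] [Algebra F R] (j : Q ⊗[k] Q' →+* R)
    (hj : Function.Injective j)
    (hjF : ∀ (z : Z) (l : L), j (algebraMap Z Q z ⊗ₜ algebraMap L Q' l)
      = algebraMap F R (algebraMap (Z ⊗[k] L) F (z ⊗ₜ l)))
    (Λ : Submodule k Q) (π : Q →ₗ[k] k)
    (hπ : ∀ l ∈ Λ, ∀ v : P.V, π (algebraMap Z Q v * l) = P.α v * π l)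
    (g : (P.gauss L F hL).V) (N : ℕ) (x : ℕ → Q ⊗[k] Q')
    (hx : ∀ i, i ≤ N → x i ∈ LinearMap.range (LinearMap.rTensor Q' Λ.subtype))
    (h0 : ∑ i ∈ range (N + 1), algebraMap F R ((g : F) ^ i) * j (x i) = 0) :
    ∑ i ∈ range (N + 1), algebraMap L Q' ((P.gauss L F hL).α g ^ i) * ePi Q' π (x i) = 0 := by
  have := P.gauss_compat hL j hj hjF Λ π hπ (range (N + 1)) (fun i => g ^ i) x
    (fun i hi => hx i (by rw [Finset.mem_range] at hi; omega)) (by
      rw [← h0]
      exact Finset.sum_congr rfl fun i _ => by push_cast; rfl)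
  rw [← this]
  exact Finset.sum_congr rfl fun i _ => by
    rw [map_pow (P.gauss L F hL).α g i]

end compat

end Plc

/-- **block B**: fields of definition.  `f ∈ Frac (Z ⊗ L)` with a nontrivial relation
`∑ f^i x_i = 0`, `x_i ∈ Q ⊗ Q'`.  If `K ⊆ L` contains every `l` with a nontrivial relation
`∑ l^i (π ⊗ 1)(x_i) = 0`, `π` a functional on `Q`, then `f ∈ Frac (Z ⊗ K)`. -/
theorem blockB {k : Type u} {Z : Type v} {Q : Type w} [Field k] [IsAlgClosed k] [Field Z] [Ring Q]
    [Algebra k Z] [Algebra Z Q] [Algebra k Q] [IsScalarTower k Z Q]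
    {L : Type*} [Field L] [Algebra k L] {F : Type*} [Field F] [Algebra (Z ⊗[k] L) F]
    [IsFractionRing (Z ⊗[k] L) F] [Algebra L F]
    (hL : ∀ l : L, algebraMap L F l = algebraMap (Z ⊗[k] L) F (1 ⊗ₜ l))
    {Q' : Type*} [Ring Q'] [Algebra k Q'] [Algebra L Q'] [IsScalarTower k L Q']
    {R : Type*} [Ring R] [Algebra F R] (j : Q ⊗[k] Q' →+* R) (hj : Function.Injective j)
    (hjF : ∀ (z : Z) (l : L), j (algebraMap Z Q z ⊗ₜ algebraMap L Q' l)
      = algebraMap F R (algebraMap (Z ⊗[k] L) F (z ⊗ₜ l)))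
    (K : IntermediateField k L) (f : F) (N : ℕ) (x : ℕ → Q ⊗[k] Q')
    (hne : ∃ i, i ≤ N ∧ x i ≠ 0)
    (h0 : ∑ i ∈ range (N + 1), algebraMap F R (f ^ i) * j (x i) = 0)
    (hK : ∀ (π : Q →ₗ[k] k) (l : L),
      ∑ i ∈ range (N + 1), algebraMap L Q' (l ^ i) * ePi Q' π (x i) = 0 →
      (∃ i, i ≤ N ∧ ePi Q' π (x i) ≠ 0) → l ∈ K) :
    ∃ a b : Z ⊗[k] K, b ≠ 0 ∧
      f * algebraMap (Z ⊗[k] L) F (Algebra.TensorProduct.map (AlgHom.id k Z) K.val b)
        = algebraMap (Z ⊗[k] L) F (Algebra.TensorProduct.map (AlgHom.id k Z) K.val a) := by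
  classical
  let e := Module.Basis.ofVectorSpace Z Q
  let q := Module.Basis.ofVectorSpace k Q'
  choose X hX using fun i => TensorProduct.eq_repr_basis_right (M := Q) q (x i)
  obtain ⟨i0, hi0, hxi0⟩ := hne
  have hXi0 : X i0 ≠ 0 := by
    intro h
    apply hxi0
    rw [← hX i0, h]; simp
  obtain ⟨m0, hm0⟩ := Finsupp.support_nonempty_iff.2 hXi0
  have hXm0 : X i0 m0 ≠ 0 := Finsupp.mem_support_iff.1 hm0
  obtain ⟨j0, hj0⟩ : ∃ j0, e.repr (X i0 m0) j0 ≠ 0 := by
    by_contra hcon
    push Not at hcon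
    apply hXm0
    have : e.repr (X i0 m0) = 0 := Finsupp.ext hcon
    exact (LinearEquiv.map_eq_zero_iff _).1 this
  -- denominators and numerators of `f`
  obtain ⟨t, y, hy, hf⟩ := IsFractionRing.div_surjective (A := Z ⊗[k] L) f
  have hy0 : y ≠ 0 := nonZeroDivisors.ne_zero hy
  have hinj : Function.Injective (algebraMap (Z ⊗[k] L) F) := IsFractionRing.injective _ _
  have hyF : algebraMap (Z ⊗[k] L) F y ≠ 0 := fun h0 => hy0 (hinj (by rw [h0, map_zero]))
  let l := Module.Basis.ofVectorSpace k L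
  obtain ⟨ct, hct⟩ := TensorProduct.eq_repr_basis_right (M := Z) l t
  obtain ⟨cy, hcy⟩ := TensorProduct.eq_repr_basis_right (M := Z) l y
  have hcy0 : cy ≠ 0 := by
    intro h
    apply hy0
    rw [← hcy, h]; simp
  obtain ⟨s0, hs0⟩ := Finsupp.support_nonempty_iff.2 hcy0
  have hcs0 : cy s0 ≠ 0 := Finsupp.mem_support_iff.1 hs0
  -- the finite set of conditions
  let S1 : Finset Z := (range (N + 1)).biUnion fun i => (X i).support.biUnion fun m =>
    (e.repr (X i m)).support.image (e.repr (X i m))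
  let S : Finset Z := S1 ∪ ct.support.image ct ∪ cy.support.image cy ∪
    {e.repr (X i0 m0) j0}
  refine descent hL K f S (e.repr (X i0 m0) j0 * cy s0) (mul_ne_zero hj0 hcs0) ?_
  rintro P hS ⟨hrV, hr⟩
  have hS1 : ∀ i, i ≤ N → ∀ m ∈ (X i).support, ∀ n, e.repr (X i m) n ∈ P.V := by
    intro i hi m hm n
    by_cases hn : n ∈ (e.repr (X i m)).support
    · apply hS
      simp only [S, Finset.mem_union]
      left; left; left
      simp only [S1, Finset.mem_biUnion, Finset.mem_image]
      exact ⟨i, by rw [Finset.mem_range]; omega, m, hm, n, hn, rfl⟩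
    · rw [Finsupp.notMem_support_iff.1 hn]; exact zero_mem _
  have hct' : ∀ n : ct.support, ct n ∈ P.V := fun n => hS _ (by
    simp only [S, Finset.mem_union, Finset.mem_image]
    exact Or.inl (Or.inl (Or.inr ⟨n, n.2, rfl⟩)))
  have hcy' : ∀ n : cy.support, cy n ∈ P.V := fun n => hS _ (by
    simp only [S, Finset.mem_union, Finset.mem_image]
    exact Or.inl (Or.inr ⟨n, n.2, rfl⟩))
  have hr1 : e.repr (X i0 m0) j0 ∈ P.V := hS _ (by simp [S])
  have hprod : P.α ⟨_, hr1⟩ * P.α ⟨cy s0, hcy' ⟨s0, hs0⟩⟩ ≠ 0 := by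
    rw [← map_mul]; exact hr
  -- `f` is integral
  have hfV : f ∈ (P.gauss L F hL).V := by
    let a : P.V ⊗[k] L := DescM.lift P ct.support ct hct' (fun n => l n)
    let b : P.V ⊗[k] L := DescM.lift P cy.support cy hcy' (fun n => l n)
    have ha : P.incl L a = t := by
      rw [DescM.incl_lift, ← hct]
      exact Finset.sum_coe_sort ct.support (fun i => ct i ⊗ₜ[k] l i)
    have hb : P.incl L b = y := by
      rw [DescM.incl_lift, ← hcy]
      exact Finset.sum_coe_sort cy.support (fun i => cy i ⊗ₜ[k] l i)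
    refine P.gauss_mem hL (a := a) (b := b) ?_ ?_
    · intro h3
      rw [DescM.ev_lift] at h3
      have h4 := congrArg (fun z => l.repr z s0) h3
      simp only [map_sum, map_zero, Finsupp.coe_zero, Pi.zero_apply, map_smul,
        Finsupp.coe_finsetSum, Finset.sum_apply, Finsupp.smul_apply, Module.Basis.repr_self] at h4
      rw [Finset.sum_eq_single ⟨s0, hs0⟩] at h4
      · simp only [Finsupp.single_eq_same, smul_eq_mul, mul_one] at h4
        exact right_ne_zero_of_mul hprod h4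
      · intro i _ hij
        have : (i : _) ≠ s0 := fun h => hij (Subtype.ext h)
        rw [Finsupp.single_eq_of_ne (by simpa using this.symm), smul_zero]
      · intro h; exact absurd (Finset.mem_univ _) h
    · rw [Plc.io_apply, Plc.io_apply, ha, hb, ← hf]; field_simp
  refine ⟨hfV, ?_⟩
  -- the functional
  obtain ⟨at', hat⟩ := LinearMap.exists_extend (p := Subalgebra.toSubmodule P.V)
    (P.α.toLinearMap : P.V →ₗ[k] k)
  have hat' : ∀ v : P.V, at' v = P.α v := fun v => LinearMap.congr_fun hat v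
  let Λ : Submodule k Q :=
    { carrier := {z | ∀ n, e.repr z n ∈ P.V}
      add_mem' := fun {a b} ha hb n => by rw [map_add]; exact add_mem (ha n) (hb n)
      zero_mem' := fun n => by rw [map_zero]; exact zero_mem _
      smul_mem' := fun c a ha n => by
        have : e.repr (c • a) n = c • e.repr a n := by
          rw [← algebraMap_smul Z c a, map_smul, Finsupp.smul_apply, algebraMap_smul]
        rw [this]
        exact P.V.smul_mem (ha n) c }
  let π : Q →ₗ[k] k :=
    { toFun := fun z => at' (e.repr z j0)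
      map_add' := fun a b => by rw [map_add, Finsupp.add_apply, map_add]
      map_smul' := fun c a => by
        rw [RingHom.id_apply, ← algebraMap_smul Z c a, map_smul, Finsupp.smul_apply,
          algebraMap_smul, map_smul] }
  have hπ : ∀ l ∈ Λ, ∀ v : P.V, π (algebraMap Z Q v * l) = P.α v * π l := by
    intro z hz v
    show at' (e.repr (algebraMap Z Q v * z) j0) = P.α v * at' (e.repr z j0)
    rw [← Algebra.smul_def, map_smul, Finsupp.smul_apply, smul_eq_mul]
    have e1 : at' ((v : Z) * e.repr z j0) = P.α (v * ⟨_, hz j0⟩) := hat' (v * ⟨_, hz j0⟩)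
    rw [e1, map_mul, ← hat' ⟨_, hz j0⟩]
  have hx : ∀ i, i ≤ N → x i ∈ LinearMap.range (LinearMap.rTensor Q' Λ.subtype) := by
    intro i hi
    rw [← hX i]
    refine Submodule.sum_mem _ fun m hm => ?_
    exact ⟨(⟨X i m, fun n => hS1 i hi m hm n⟩ : Λ) ⊗ₜ q m, by rw [LinearMap.rTensor_tmul]; rfl⟩
  have hrel := P.lp_rel hL j hj hjF Λ π hπ ⟨f, hfV⟩ N x hx h0
  refine hK π _ hrel ⟨i0, hi0, ?_⟩
  -- nonvanishing
  intro h3
  rw [← hX i0, Finsupp.sum, map_sum] at h3
  simp only [ePi_tmul] at h3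
  have h4 := congrArg (fun z => q.repr z m0) h3
  simp only [map_sum, map_zero, Finsupp.coe_zero, Pi.zero_apply, map_smul,
    Finsupp.coe_finsetSum, Finset.sum_apply, Finsupp.smul_apply, Module.Basis.repr_self] at h4
  rw [Finset.sum_eq_single m0] at h4
  · simp only [Finsupp.single_eq_same, smul_eq_mul, mul_one] at h4
    have e1 : π (X i0 m0) = P.α ⟨_, hr1⟩ := hat' ⟨_, hr1⟩
    rw [e1] at h4
    exact left_ne_zero_of_mul hprod h4
  · intro i _ hij
    rw [Finsupp.single_eq_of_ne (by simpa using hij.symm), smul_zero]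
  · intro h; exact absurd hm0 h

end Pool.Agent.Lib.MP_c37a72_al
end

section
/-!
# MP_c37a72_al: the subfields `Frac (A ⊗ B)` of `Frac (Z ⊗ L)`

`jF : Z ⊗ L → F` a field of fractions (`IsFrc jF`), `A ⊆ Z`, `B ⊆ L` subfields over `k`.
* `frS hF A B : IntermediateField k F`, the field of fractions of the image of `A ⊗ B`;
* `lemmaI`: `frS ⊤ B ⊓ frS A ⊤ = frS A B`;
* `ind_frS`: an `L₀`-independent family of `L` is `frS ⊤ L₀`-independent in `F`;
* `fieldB`: algebraic over `frS ⊤ L₀` implies in `frS ⊤ L₁`, if `L₁` contains all elements of `L`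
  algebraic over `L₀`;
* `gauss_frS`: residues of `frS A B`.
-/
set_option autoImplicit false
set_option linter.unusedSectionVars false

namespace Pool.Agent.Lib.MP_c37a72_al

open Finset TensorProduct

universe u v w

section tS

variable {k : Type*} [Field k] {Z L : Type*} [Field Z] [Field L] [Algebra k Z] [Algebra k L]

/-- the image of `A ⊗ B` in `Z ⊗ L` -/
noncomputable def tS (A : IntermediateField k Z) (B : IntermediateField k L) :
    Subalgebra k (Z ⊗[k] L) :=
  (Algebra.TensorProduct.map A.val B.val).range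

theorem tmul_mem_tS {A : IntermediateField k Z} {B : IntermediateField k L} {z : Z} {l : L}
    (hz : z ∈ A) (hl : l ∈ B) : z ⊗ₜ[k] l ∈ tS A B :=
  ⟨(⟨z, hz⟩ : A) ⊗ₜ[k] (⟨l, hl⟩ : B), by
    show Algebra.TensorProduct.map A.val B.val _ = _
    rw [Algebra.TensorProduct.map_tmul]; rfl⟩

theorem tS_induction {A : IntermediateField k Z} {B : IntermediateField k L}
    {p : Z ⊗[k] L → Prop} (h0 : p 0) (ht : ∀ z ∈ A, ∀ l ∈ B, p (z ⊗ₜ[k] l))
    (ha : ∀ x y, x ∈ tS A B → y ∈ tS A B → p x → p y → p (x + y)) {x : Z ⊗[k] L}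
    (hx : x ∈ tS A B) : p x := by
  obtain ⟨y, rfl⟩ := hx
  show p (Algebra.TensorProduct.map A.val B.val y)
  induction y using TensorProduct.induction_on with
  | zero => rw [map_zero]; exact h0
  | tmul z l => rw [Algebra.TensorProduct.map_tmul]; exact ht z z.2 l l.2
  | add x y hx hy => rw [map_add]; exact ha _ _ ⟨x, rfl⟩ ⟨y, rfl⟩ hx hy

theorem tS_mono {A A' : IntermediateField k Z} {B B' : IntermediateField k L} (hA : A ≤ A')
    (hB : B ≤ B') : tS A B ≤ tS A' B' := by
  intro x hx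
  refine tS_induction (p := fun x => x ∈ tS A' B') (zero_mem _)
    (fun z hz l hl => tmul_mem_tS (hA hz) (hB hl)) (fun x y _ _ hx hy => add_mem hx hy) hx

theorem tS_top : tS (⊤ : IntermediateField k Z) (⊤ : IntermediateField k L) = ⊤ := by
  rw [eq_top_iff]
  intro x _
  induction x using TensorProduct.induction_on with
  | zero => exact zero_mem _
  | tmul z l => exact tmul_mem_tS trivial trivial
  | add x y hx hy => exact add_mem (hx trivial) (hy trivial)

/-- with all of `Z` on the left -/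
theorem mem_tS_top {B : IntermediateField k L} {x : Z ⊗[k] L} :
    x ∈ tS ⊤ B ↔ ∃ a : Z ⊗[k] B, Algebra.TensorProduct.map (AlgHom.id k Z) B.val a = x := by
  constructor
  · intro hx
    refine tS_induction (p := fun x => ∃ a : Z ⊗[k] B,
      Algebra.TensorProduct.map (AlgHom.id k Z) B.val a = x) ⟨0, map_zero _⟩ ?_ ?_ hx
    · intro z _ l hl
      exact ⟨z ⊗ₜ ⟨l, hl⟩, by rw [Algebra.TensorProduct.map_tmul]; rfl⟩
    · rintro x y _ _ ⟨a, rfl⟩ ⟨b, rfl⟩
      exact ⟨a + b, map_add _ _ _⟩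
  · rintro ⟨a, rfl⟩
    induction a using TensorProduct.induction_on with
    | zero => rw [map_zero]; exact zero_mem _
    | tmul z l => rw [Algebra.TensorProduct.map_tmul]; exact tmul_mem_tS trivial l.2
    | add x y hx hy => rw [map_add]; exact add_mem hx hy

end tS

section frS

variable {k : Type*} [Field k] {Z L F : Type*} [Field Z] [Field L] [Field F] [Algebra k Z]
  [Algebra k L] [Algebra k F] {jF : Z ⊗[k] L →ₐ[k] F} (hF : IsFrc jF)

theorem IsFrc.ne {b : Z ⊗[k] L} (hF : IsFrc jF) (hb : b ≠ 0) : jF b ≠ 0 := fun h =>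
  hb (hF.inj (by rw [h, map_zero]))

/-- the field of fractions of the image of `A ⊗ B` -/
def frS (A : IntermediateField k Z) (B : IntermediateField k L) : IntermediateField k F where
  carrier := {f | ∃ a ∈ tS A B, ∃ b ∈ tS A B, b ≠ 0 ∧ f * jF b = jF a}
  mul_mem' := by
    rintro f g ⟨a, ha, b, hb, hb0, hf⟩ ⟨a', ha', b', hb', hb0', hf'⟩
    refine ⟨a * a', mul_mem ha ha', b * b', mul_mem hb hb', ?_, ?_⟩
    · intro h
      have := congrArg jF h
      rw [map_mul, map_zero] at this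
      rcases mul_eq_zero.1 this with h | h
      · exact hF.ne hb0 h
      · exact hF.ne hb0' h
    · rw [map_mul, map_mul, ← hf, ← hf']; ring
  one_mem' := ⟨1, one_mem _, 1, one_mem _, fun h => by
    have := congrArg jF h
    rw [map_one, map_zero] at this
    exact one_ne_zero this, by rw [one_mul]⟩
  add_mem' := by
    rintro f g ⟨a, ha, b, hb, hb0, hf⟩ ⟨a', ha', b', hb', hb0', hf'⟩
    refine ⟨a * b' + a' * b, add_mem (mul_mem ha hb') (mul_mem ha' hb), b * b', mul_mem hb hb',
      ?_, ?_⟩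
    · intro h
      have := congrArg jF h
      rw [map_mul, map_zero] at this
      rcases mul_eq_zero.1 this with h | h
      · exact hF.ne hb0 h
      · exact hF.ne hb0' h
    · rw [map_mul, map_add, map_mul, map_mul, ← hf, ← hf']; ring
  zero_mem' := ⟨0, zero_mem _, 1, one_mem _, fun h => by
    have := congrArg jF h
    rw [map_one, map_zero] at this
    exact one_ne_zero this, by rw [zero_mul, map_zero]⟩
  algebraMap_mem' c := ⟨algebraMap k _ c, Subalgebra.algebraMap_mem _ c, 1, one_mem _, fun h => by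
    have := congrArg jF h
    rw [map_one, map_zero] at this
    exact one_ne_zero this, by rw [map_one, mul_one, AlgHom.commutes]⟩
  inv_mem' := by
    rintro f ⟨a, ha, b, hb, hb0, hf⟩
    rcases eq_or_ne a 0 with rfl | ha0
    · rw [map_zero] at hf
      have : f = 0 := (mul_eq_zero.1 hf).resolve_right (hF.ne hb0)
      exact ⟨0, zero_mem _, b, hb, hb0, by rw [this, inv_zero, zero_mul, map_zero]⟩
    · have hf0 : f ≠ 0 := by
        rintro rfl
        rw [zero_mul] at hf
        exact hF.ne ha0 hf.symm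
      exact ⟨b, hb, a, ha, ha0, by rw [← hf, ← mul_assoc, inv_mul_cancel₀ hf0, one_mul]⟩

theorem mem_frS {A : IntermediateField k Z} {B : IntermediateField k L} {f : F} :
    f ∈ frS hF A B ↔ ∃ a ∈ tS A B, ∃ b ∈ tS A B, b ≠ 0 ∧ f * jF b = jF a := Iff.rfl

theorem jF_mem_frS {A : IntermediateField k Z} {B : IntermediateField k L} {a : Z ⊗[k] L}
    (ha : a ∈ tS A B) : jF a ∈ frS hF A B :=
  ⟨a, ha, 1, one_mem _, fun h => by
    have := congrArg jF h
    rw [map_one, map_zero] at this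
    exact one_ne_zero this, by rw [map_one, mul_one]⟩

theorem frS_mono {A A' : IntermediateField k Z} {B B' : IntermediateField k L} (hA : A ≤ A')
    (hB : B ≤ B') : frS hF A B ≤ frS hF A' B' := by
  rintro f ⟨a, ha, b, hb, h⟩
  exact ⟨a, tS_mono hA hB ha, b, tS_mono hA hB hb, h⟩

theorem frS_top : frS hF ⊤ ⊤ = ⊤ := by
  rw [eq_top_iff]
  intro f _
  obtain ⟨a, b, hb, h⟩ := hF.surj f
  exact ⟨a, by rw [tS_top]; trivial, b, by rw [tS_top]; trivial, hb, h⟩

/-- common denominators -/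
theorem frS_common {A : IntermediateField k Z} {B : IntermediateField k L} {ι : Type*}
    (s : Finset ι) (f : ι → F) (hf : ∀ i ∈ s, f i ∈ frS hF A B) :
    ∃ b ∈ tS A B, b ≠ 0 ∧ ∃ a : ι → Z ⊗[k] L, ∀ i ∈ s, a i ∈ tS A B ∧ f i * jF b = jF (a i) := by
  classical
  induction s using Finset.induction_on with
  | empty =>
    refine ⟨1, one_mem _, fun h => ?_, fun _ => 0, fun i hi => by simp at hi⟩
    have := congrArg jF h
    rw [map_one, map_zero] at this
    exact one_ne_zero this
  | insert m s hm ih =>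
    obtain ⟨b, hb, hb0, a, ha⟩ := ih fun i hi => hf i (by simp [hi])
    obtain ⟨a', ha', b', hb', hb0', h'⟩ := hf m (by simp)
    refine ⟨b * b', mul_mem hb hb', ?_, fun i => if i = m then a' * b else a i * b', ?_⟩
    · intro h
      have := congrArg jF h
      rw [map_mul, map_zero] at this
      rcases mul_eq_zero.1 this with h | h
      · exact hF.ne hb0 h
      · exact hF.ne hb0' h
    · intro i hi
      by_cases him : i = m
      · subst him
        simp only [if_true]
        exact ⟨mul_mem ha' hb, by rw [map_mul, map_mul, ← h']; ring⟩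
      · simp only [him, if_false]
        obtain ⟨h1, h2⟩ := ha i ((Finset.mem_insert.1 hi).resolve_left him)
        exact ⟨mul_mem h1 hb', by rw [map_mul, map_mul, ← h2]; ring⟩

/-- `Z ⊗ L → Z ⊗ L`, `z ⊗ l ↦ z ⊗ φ l` for a `B`-linear functional `φ : L → B` -/
noncomputable def PhiF (B : IntermediateField k L) (φ : L →ₗ[B] B) : Z ⊗[k] L →ₗ[k] Z ⊗[k] L :=
  LinearMap.lTensor Z ((B.val.toLinearMap).comp (φ.restrictScalars k))

theorem PhiF_tmul (B : IntermediateField k L) (φ : L →ₗ[B] B) (z : Z) (l : L) :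
    PhiF (Z := Z) B φ (z ⊗ₜ l) = z ⊗ₜ (φ l : L) := rfl

theorem PhiF_mul (B : IntermediateField k L) (φ : L →ₗ[B] B) (x : Z ⊗[k] L) {b : Z ⊗[k] L}
    (hb : b ∈ tS ⊤ B) : PhiF B φ (x * b) = PhiF B φ x * b := by
  refine tS_induction (p := fun b => PhiF B φ (x * b) = PhiF B φ x * b) (by simp) ?_ ?_ hb
  · intro z _ β hβ
    induction x using TensorProduct.induction_on with
    | zero => simp
    | add x y hx hy => rw [add_mul, map_add, map_add, hx, hy, add_mul]
    | tmul z' l =>
      rw [Algebra.TensorProduct.tmul_mul_tmul, PhiF_tmul, PhiF_tmul,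
        Algebra.TensorProduct.tmul_mul_tmul]
      have : φ (l * β) = ⟨β, hβ⟩ * φ l := by
        have := φ.map_smul ⟨β, hβ⟩ l
        rw [smul_eq_mul] at this
        rw [← this]
        congr 1
        rw [mul_comm]; rfl
      rw [this]
      congr 1
      show β * (φ l : L) = (φ l : L) * β
      exact mul_comm _ _
  · intro a b _ _ ha hb
    rw [mul_add, map_add, ha, hb, mul_add]

theorem PhiF_mem {A : IntermediateField k Z} (B : IntermediateField k L) (φ : L →ₗ[B] B)
    {x : Z ⊗[k] L} (hx : x ∈ tS A ⊤) : PhiF B φ x ∈ tS A B := by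
  refine tS_induction (p := fun x => PhiF B φ x ∈ tS A B) (by rw [map_zero]; exact zero_mem _)
    ?_ ?_ hx
  · intro z hz l _
    rw [PhiF_tmul]
    exact tmul_mem_tS hz (φ l).2
  · intro x y _ _ hx hy
    rw [map_add]; exact add_mem hx hy

theorem PhiF_coord (B : IntermediateField k L) (φ : L →ₗ[B] B) {ι : Type*} [DecidableEq ι]
    (w : Module.Basis ι k Z) (x : Z ⊗[k] L) (i : ι) :
    TensorProduct.equivFinsuppOfBasisLeft w (PhiF B φ x) i
      = (φ (TensorProduct.equivFinsuppOfBasisLeft w x i) : L) := by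
  induction x using TensorProduct.induction_on with
  | zero => simp
  | add x y hx hy =>
    rw [map_add, map_add, map_add, Finsupp.add_apply, Finsupp.add_apply, hx, hy, map_add]
    rfl
  | tmul z l =>
    rw [PhiF_tmul, TensorProduct.equivFinsuppOfBasisLeft_apply_tmul_apply,
      TensorProduct.equivFinsuppOfBasisLeft_apply_tmul_apply, LinearMap.map_smul_of_tower]
    rfl

/-- there is a functional which does not kill a given nonzero tensor -/
theorem exists_PhiF (B : IntermediateField k L) {x : Z ⊗[k] L} (hx : x ≠ 0) :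
    ∃ φ : L →ₗ[B] B, PhiF B φ x ≠ 0 := by
  classical
  let w := Module.Basis.ofVectorSpace k Z
  obtain ⟨i0, hi0⟩ : ∃ i, TensorProduct.equivFinsuppOfBasisLeft w x i ≠ 0 := by
    by_contra hcon
    push Not at hcon
    apply hx
    apply (TensorProduct.equivFinsuppOfBasisLeft w).injective
    rw [map_zero]
    exact Finsupp.ext hcon
  obtain ⟨φ, hφ⟩ : ∃ φ : Module.Dual B L,
      φ (TensorProduct.equivFinsuppOfBasisLeft w x i0) ≠ 0 := by
    by_contra hcon
    push Not at hcon
    exact hi0 ((Module.forall_dual_apply_eq_zero_iff B _).1 hcon)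
  refine ⟨φ, fun h => hφ ?_⟩
  have h1 := PhiF_coord B φ w x i0
  rw [h, map_zero, Finsupp.zero_apply] at h1
  exact Subtype.ext h1.symm

/-- **Lemma I**: `Frac (Z ⊗ B) ∩ Frac (A ⊗ L) = Frac (A ⊗ B)` -/
theorem lemmaI (A : IntermediateField k Z) (B : IntermediateField k L) {f : F}
    (h1 : f ∈ frS hF ⊤ B) (h2 : f ∈ frS hF A ⊤) : f ∈ frS hF A B := by
  obtain ⟨a, ha, b, hb, hb0, hf⟩ := h1
  obtain ⟨c, hc, d, hd, hd0, hf'⟩ := h2
  obtain ⟨φ, hφ⟩ := exists_PhiF B hd0
  have e : a * d = c * b := hF.inj (by rw [map_mul, map_mul, ← hf, ← hf']; ring)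
  have e1 : PhiF B φ d * a = PhiF B φ c * b := by
    rw [← PhiF_mul B φ d ha, ← PhiF_mul B φ c hb, ← e, mul_comm d a]
  refine ⟨PhiF B φ c, PhiF_mem B φ hc, PhiF B φ d, PhiF_mem B φ hd, hφ, ?_⟩
  have e2 := congrArg jF e1
  rw [map_mul, map_mul, ← hf] at e2
  apply mul_right_cancel₀ (hF.ne hb0)
  rw [← e2]; ring

end frS

end Pool.Agent.Lib.MP_c37a72_al
end
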