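import Pool.Agent.Lib.MP_c37a72_al.Pts

/-!
# MP_c37a72_al: places as relations

`Pl F K`: a place of the field `F` with values in the field `K`; `p.r f l` means: `f` is integral
with residue `l`.  `Pl.gauss`: the Gauss extension `Frac (Z ⊗ L) ⇢ Frac (K ⊗ L)` of a place
`Z ⇢ K`.  `IsFrc j`: the injective homomorphism `j : A → F` presents `F` as the field of fractions.
-/

set_option autoImplicit false
set_option linter.unusedSectionVars false

namespace Pool.Agent.Lib.MP_c37a72_al

open Finset TensorProduct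

universe u v w

/-- a place of `F` with values in `K`; `r f l` means: `f` is integral with residue `l` -/
structure Pl (F : Type u) (K : Type v) [Field F] [Field K] where
  r : F → K → Prop
  uniq : ∀ {f : F} {l l' : K}, r f l → r f l' → l = l'
  one : r 1 1
  add : ∀ {f g : F} {l m : K}, r f l → r g m → r (f + g) (l + m)
  mul : ∀ {f g : F} {l m : K}, r f l → r g m → r (f * g) (l * m)
  dich : ∀ f : F, (∃ l, r f l) ∨ r f⁻¹ 0

/-- `j : A → F` presents the field `F` as the field of fractions of `A` -/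
structure IsFrc {k : Type*} {A F : Type*} [CommSemiring k] [CommRing A] [Algebra k A] [Field F]
    [Algebra k F] (j : A →ₐ[k] F) : Prop where
  inj : Function.Injective j
  surj : ∀ f : F, ∃ a b : A, b ≠ 0 ∧ f * j b = j a

namespace Pl

section basic

variable {F : Type u} {K : Type v} [Field F] [Field K] (p : Pl F K)

theorem zero : p.r 0 0 := by
  rcases p.dich 0 with ⟨l, hl⟩ | h
  · have h1 := p.add hl hl
    rw [add_zero] at h1
    have e := p.uniq h1 hl
    have : l = 0 := by linear_combination e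
    rwa [this] at hl
  · simpa using h

theorem neg_one : p.r (-1) (-1) := by
  rcases p.dich (-1) with ⟨l, hl⟩ | h
  · have h1 := p.add hl p.one
    rw [neg_add_cancel] at h1
    have e := p.uniq h1 p.zero
    have : l = -1 := by linear_combination e
    rwa [this] at hl
  · exfalso
    have h0 : p.r (-1) 0 := by
      have e : (-1 : F)⁻¹ = -1 := by rw [inv_neg, inv_one]
      rwa [e] at h
    have h1 := p.mul h0 h0
    rw [neg_one_mul, neg_neg, mul_zero] at h1
    exact one_ne_zero (p.uniq p.one h1)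

theorem neg {f : F} {l : K} (h : p.r f l) : p.r (-f) (-l) := by
  have := p.mul p.neg_one h
  rwa [neg_one_mul, neg_one_mul] at this

theorem sub {f g : F} {l m : K} (h : p.r f l) (h' : p.r g m) : p.r (f - g) (l - m) := by
  rw [sub_eq_add_neg, sub_eq_add_neg]
  exact p.add h (p.neg h')

theorem pow {f : F} {l : K} (h : p.r f l) (n : ℕ) : p.r (f ^ n) (l ^ n) := by
  induction n with
  | zero => rw [pow_zero, pow_zero]; exact p.one
  | succ n ih => rw [pow_succ, pow_succ]; exact p.mul ih h

theorem sum {ι : Type*} (s : Finset ι) (f : ι → F) (l : ι → K) (h : ∀ i ∈ s, p.r (f i) (l i)) :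
    p.r (∑ i ∈ s, f i) (∑ i ∈ s, l i) := by
  classical
  induction s using Finset.induction_on with
  | empty => simpa using p.zero
  | insert a s ha ih =>
    rw [Finset.sum_insert ha, Finset.sum_insert ha]
    exact p.add (h a (by simp)) (ih fun i hi => h i (by simp [hi]))

theorem prod {ι : Type*} (s : Finset ι) (f : ι → F) (l : ι → K) (h : ∀ i ∈ s, p.r (f i) (l i)) :
    p.r (∏ i ∈ s, f i) (∏ i ∈ s, l i) := by
  classical
  induction s using Finset.induction_on with
  | empty => simpa using p.one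
  | insert a s ha ih =>
    rw [Finset.prod_insert ha, Finset.prod_insert ha]
    exact p.mul (h a (by simp)) (ih fun i hi => h i (by simp [hi]))

theorem ne_zero {f : F} {l : K} (h : p.r f l) (hl : l ≠ 0) : f ≠ 0 := by
  rintro rfl
  exact hl (p.uniq h p.zero)

theorem inv {f : F} {l : K} (h : p.r f l) (hl : l ≠ 0) : p.r f⁻¹ l⁻¹ := by
  have hf := p.ne_zero h hl
  rcases p.dich f⁻¹ with ⟨m, hm⟩ | h0
  · have h1 := p.mul h hm
    rw [mul_inv_cancel₀ hf] at h1
    have e : l * m = 1 := (p.uniq h1 p.one)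
    have : m = l⁻¹ := eq_inv_of_mul_eq_one_right e
    rwa [this] at hm
  · rw [inv_inv] at h0
    exact absurd (p.uniq h h0) hl

theorem div {f g : F} {l m : K} (h : p.r f l) (h' : p.r g m) (hm : m ≠ 0) : p.r (f / g) (l / m) := by
  rw [div_eq_mul_inv, div_eq_mul_inv]
  exact p.mul h (p.inv h' hm)

theorem not_inv {f : F} (h : p.r f 0) (hf : f ≠ 0) : ¬ ∃ l, p.r f⁻¹ l := by
  rintro ⟨l, hl⟩
  have h1 := p.mul h hl
  rw [mul_inv_cancel₀ hf, zero_mul] at h1
  exact one_ne_zero (p.uniq p.one h1)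

theorem eq_zero {f : F} (h : p.r f 0) (h' : ∃ l, p.r f⁻¹ l) : f = 0 := by
  by_contra hf
  exact p.not_inv h hf h'

theorem div_or (x y : F) : (∃ l, p.r (x / y) l) ∨ ∃ l, p.r (y / x) l := by
  rcases p.dich (x / y) with h | h
  · exact Or.inl h
  · right; exact ⟨0, by rwa [inv_div] at h⟩

/-- the content lemma: an element of largest size in a finite family -/
theorem content {ι : Type*} (s : Finset ι) (c : ι → F) (h : ∃ i ∈ s, c i ≠ 0) :
    ∃ j ∈ s, c j ≠ 0 ∧ ∀ i ∈ s, ∃ l, p.r (c i / c j) l := by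
  classical
  induction s using Finset.induction_on with
  | empty => obtain ⟨i, hi, -⟩ := h; simp at hi
  | insert a s ha ih =>
    by_cases hs : ∃ i ∈ s, c i ≠ 0
    · obtain ⟨j, hj, hj0, hji⟩ := ih hs
      rcases p.div_or (c a) (c j) with h1 | h1
      · refine ⟨j, by simp [hj], hj0, fun i hi => ?_⟩
        rcases Finset.mem_insert.1 hi with rfl | hi
        · exact h1
        · exact hji i hi
      · rcases eq_or_ne (c a) 0 with ha0 | ha0
        · refine ⟨j, by simp [hj], hj0, fun i hi => ?_⟩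
          rcases Finset.mem_insert.1 hi with rfl | hi
          · rw [ha0, zero_div]; exact ⟨0, p.zero⟩
          · exact hji i hi
        · refine ⟨a, by simp, ha0, fun i hi => ?_⟩
          rcases Finset.mem_insert.1 hi with rfl | hi
          · rw [div_self ha0]; exact ⟨1, p.one⟩
          · obtain ⟨l, hl⟩ := hji i hi
            obtain ⟨m, hm⟩ := h1
            refine ⟨l * m, ?_⟩
            have e : c i / c a = c i / c j * (c j / c a) := by field_simp
            rw [e]; exact p.mul hl hm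
    · push Not at hs
      have haa : c a ≠ 0 := by
        obtain ⟨i, hi, hi0⟩ := h
        rcases Finset.mem_insert.1 hi with rfl | hi
        · exact hi0
        · exact absurd (hs i hi) hi0
      refine ⟨a, by simp, haa, fun i hi => ?_⟩
      rcases Finset.mem_insert.1 hi with rfl | hi
      · rw [div_self haa]; exact ⟨1, p.one⟩
      · rw [hs i hi, zero_div]; exact ⟨0, p.zero⟩

/-- no nonzero element of residue `0` is algebraic over a field of integral elements -/
theorem alg_aux (K0 : Subfield F) (h0 : ∀ a ∈ K0, ∃ l, p.r a l) {f : F} (hf : IsAlgebraic K0 f)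
    (hr : p.r f 0) : f = 0 := by
  by_contra hne
  obtain ⟨q, hq0, hq⟩ := hf
  obtain ⟨m, q', hq', hm⟩ : ∃ (m : ℕ) (q' : Polynomial K0), q = Polynomial.X ^ m * q' ∧
      q'.coeff 0 ≠ 0 := by
    obtain ⟨q', hq', hnd⟩ := Polynomial.exists_eq_pow_rootMultiplicity_mul_and_not_dvd q hq0 0
    refine ⟨q.rootMultiplicity 0, q', ?_, ?_⟩
    · rw [map_zero, sub_zero] at hq'; exact hq'
    · rw [map_zero, sub_zero, Polynomial.X_dvd_iff] at hnd; exact hnd
  have h1 : Polynomial.aeval f q' = 0 := by
    rw [hq', map_mul, map_pow, Polynomial.aeval_X] at hq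
    exact (mul_eq_zero.1 hq).resolve_left (pow_ne_zero _ hne)
  rw [Polynomial.aeval_eq_sum_range] at h1
  have h2 : ∀ i, ∃ l, p.r (q'.coeff i : F) l := fun i => h0 _ (q'.coeff i).2
  choose l hl using h2
  have h3 : p.r (∑ i ∈ range (q'.natDegree + 1), (q'.coeff i : F) * f ^ i)
      (∑ i ∈ range (q'.natDegree + 1), l i * 0 ^ i) :=
    p.sum _ _ _ fun i _ => p.mul (hl i) (p.pow hr i)
  have h4 : ∑ i ∈ range (q'.natDegree + 1), l i * (0 : K) ^ i = l 0 := by
    rw [Finset.sum_eq_single 0]
    · simp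
    · intro i _ hi; rw [zero_pow hi, mul_zero]
    · intro h; exact absurd (by simp) h
  have h5 : ∑ i ∈ range (q'.natDegree + 1), (q'.coeff i : F) * f ^ i = 0 := by
    rw [← h1]; exact Finset.sum_congr rfl fun i _ => by rw [Subfield.smul_def, smul_eq_mul]
  rw [h4, h5] at h3
  have h6 : l 0 = 0 := p.uniq h3 p.zero
  have h7 := hl 0
  rw [h6] at h7
  have h8 : (q'.coeff 0 : F) ≠ 0 := fun h => hm (Subtype.ext h)
  exact p.not_inv h7 h8 (h0 _ (K0.inv_mem (q'.coeff 0).2))

/-- an element algebraic over a field of integral elements is integral, with nonzero residue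
unless it is `0` -/
theorem alg (K0 : Subfield F) (h0 : ∀ a ∈ K0, ∃ l, p.r a l) {f : F} (hf : IsAlgebraic K0 f) :
    ∃ l, p.r f l ∧ (l = 0 → f = 0) := by
  rcases p.dich f with ⟨l, hl⟩ | h
  · refine ⟨l, hl, fun h1 => ?_⟩
    rw [h1] at hl
    exact p.alg_aux K0 h0 hf hl
  · have := p.alg_aux K0 h0 hf.inv h
    rw [inv_eq_zero] at this
    exact ⟨0, this ▸ p.zero, fun _ => this⟩

/-- composition with a homomorphism of the values -/
def map {K' : Type*} [Field K'] (σ : K →+* K') : Pl F K' where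
  r f l := ∃ m, p.r f m ∧ σ m = l
  uniq := by rintro f l l' ⟨m, hm, rfl⟩ ⟨m', hm', rfl⟩; rw [p.uniq hm hm']
  one := ⟨1, p.one, map_one σ⟩
  add := by rintro f g l m ⟨a, ha, rfl⟩ ⟨b, hb, rfl⟩; exact ⟨_, p.add ha hb, map_add σ a b⟩
  mul := by rintro f g l m ⟨a, ha, rfl⟩ ⟨b, hb, rfl⟩; exact ⟨_, p.mul ha hb, map_mul σ a b⟩
  dich f := by
    rcases p.dich f with ⟨l, hl⟩ | h
    · exact Or.inl ⟨σ l, l, hl, rfl⟩
    · exact Or.inr ⟨0, h, map_zero σ⟩

/-- restriction to a subfield -/
def comap {F' : Type*} [Field F'] (σ : F' →+* F) : Pl F' K where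
  r f l := p.r (σ f) l
  uniq h h' := p.uniq h h'
  one := by rw [map_one]; exact p.one
  add h h' := by rw [map_add]; exact p.add h h'
  mul h h' := by rw [map_mul]; exact p.mul h h'
  dich f := by rw [map_inv₀]; exact p.dich (σ f)

/-- composition of places -/
def comp {L : Type*} [Field L] (q : Pl K L) : Pl F L where
  r f l := ∃ m, p.r f m ∧ q.r m l
  uniq := by
    rintro f l l' ⟨m, hm, h⟩ ⟨m', hm', h'⟩
    obtain rfl := p.uniq hm hm'
    exact q.uniq h h'
  one := ⟨1, p.one, q.one⟩
  add := by rintro f g l m ⟨a, ha, h⟩ ⟨b, hb, h'⟩; exact ⟨_, p.add ha hb, q.add h h'⟩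
  mul := by rintro f g l m ⟨a, ha, h⟩ ⟨b, hb, h'⟩; exact ⟨_, p.mul ha hb, q.mul h h'⟩
  dich f := by
    rcases p.dich f with ⟨l, hl⟩ | h
    · rcases q.dich l with ⟨m, hm⟩ | h'
      · exact Or.inl ⟨m, l, hl, hm⟩
      · rcases eq_or_ne l 0 with rfl | hl0
        · exact Or.inl ⟨0, 0, hl, q.zero⟩
        · exact Or.inr ⟨l⁻¹, p.inv hl hl0, h'⟩
    · exact Or.inr ⟨0, h, q.zero⟩

end basic

end Pl

end Pool.Agent.Lib.MP_c37a72_al
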