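import Pool.Agent.Lib.MP_c37a72_al.Pl

/-!
# MP_c37a72_al: the Gauss extension of a place (relational form)

`p : Pl Z K` a place over `k`, `L` a field over `k`, `jF : Z ⊗ L → F`, `jG : K ⊗ L → G` fields of
fractions.  `p.gauss : Pl F G`, `r f g` iff `f = jF a / jF b`, `a, b ∈ V ⊗ L`, the residue of `b` in
`K ⊗ L` is not `0`, and `g` is the quotient of the residues.  `Pl.gauss_functor`: functoriality.
-/

set_option autoImplicit false
set_option linter.unusedSectionVars false

namespace Pool.Agent.Lib.MP_c37a72_al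

open Finset TensorProduct

universe u v w

/-- the place is trivial on `k` -/
def Pl.Over (k : Type*) {F K : Type*} [Field k] [Field F] [Field K] [Algebra k F] [Algebra k K]
    (p : Pl F K) : Prop := ∀ c : k, p.r (algebraMap k F c) (algebraMap k K c)

namespace Pl

section gauss

variable {k : Type u} [Field k] {Z K : Type*} [Field Z] [Field K] [Algebra k Z] [Algebra k K]
  (p : Pl Z K) (hp : p.Over k)

/-- the valuation ring as a `k`-subalgebra -/
def V : Subalgebra k Z where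
  carrier := {z | ∃ l, p.r z l}
  add_mem' := by rintro a b ⟨l, hl⟩ ⟨m, hm⟩; exact ⟨_, p.add hl hm⟩
  mul_mem' := by rintro a b ⟨l, hl⟩ ⟨m, hm⟩; exact ⟨_, p.mul hl hm⟩
  algebraMap_mem' c := ⟨_, hp c⟩

/-- the residue map -/
noncomputable def ρ : p.V hp →ₐ[k] K where
  toFun v := v.2.choose
  map_one' := p.uniq (1 : p.V hp).2.choose_spec p.one
  map_mul' a b := p.uniq (a * b).2.choose_spec (p.mul a.2.choose_spec b.2.choose_spec)
  map_zero' := p.uniq (0 : p.V hp).2.choose_spec p.zero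
  map_add' a b := p.uniq (a + b).2.choose_spec (p.add a.2.choose_spec b.2.choose_spec)
  commutes' c := p.uniq (algebraMap k (p.V hp) c).2.choose_spec (hp c)

theorem r_ρ (v : p.V hp) : p.r v (p.ρ hp v) := v.2.choose_spec

theorem ρ_eq {v : p.V hp} {l : K} (h : p.r v l) : p.ρ hp v = l := p.uniq (p.r_ρ hp v) h

variable (L : Type*) [Field L] [Algebra k L]

/-- `V ⊗ L → Z ⊗ L` -/
noncomputable def inc : p.V hp ⊗[k] L →ₐ[k] Z ⊗[k] L :=
  Algebra.TensorProduct.map (p.V hp).val (AlgHom.id k L)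

/-- `V ⊗ L → K ⊗ L` -/
noncomputable def evt : p.V hp ⊗[k] L →ₐ[k] K ⊗[k] L :=
  Algebra.TensorProduct.map (p.ρ hp) (AlgHom.id k L)

@[simp] theorem inc_tmul (v : p.V hp) (l : L) : p.inc hp L (v ⊗ₜ l) = (v : Z) ⊗ₜ l := by
  unfold inc
  rw [Algebra.TensorProduct.map_tmul]
  rfl

@[simp] theorem evt_tmul (v : p.V hp) (l : L) : p.evt hp L (v ⊗ₜ l) = (p.ρ hp v) ⊗ₜ l := by
  unfold evt
  rw [Algebra.TensorProduct.map_tmul]
  rfl

theorem inc_injective : Function.Injective (p.inc hp L) := by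
  have h : Function.Injective (LinearMap.rTensor L (p.V hp).val.toLinearMap) :=
    Module.Flat.rTensor_preserves_injective_linearMap _ Subtype.val_injective
  intro x y hxy
  exact h hxy

/-- the content lemma for tensors -/
theorem tcontent {t : Z ⊗[k] L} (ht : t ≠ 0) :
    ∃ (c : Z) (t' : p.V hp ⊗[k] L), c ≠ 0 ∧ (c ⊗ₜ[k] (1 : L)) * p.inc hp L t' = t ∧
      p.evt hp L t' ≠ 0 := by
  classical
  let b := Module.Basis.ofVectorSpace k L
  obtain ⟨z, hz⟩ := TensorProduct.eq_repr_basis_right (M := Z) b t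
  have hz0 : ∃ i ∈ z.support, z i ≠ 0 := by
    by_contra hcon
    push Not at hcon
    apply ht
    rw [← hz, Finsupp.sum]
    exact Finset.sum_eq_zero fun i hi => by rw [hcon i hi, zero_tmul]
  obtain ⟨j, hj, hj0, hji⟩ := p.content z.support z hz0
  let T := z.support
  let t' : p.V hp ⊗[k] L := ∑ i : T, (⟨z i / z j, hji i i.2⟩ : p.V hp) ⊗ₜ[k] b i
  refine ⟨z j, t', hj0, ?_, ?_⟩
  · simp only [t', map_sum, inc_tmul, Finset.mul_sum, Algebra.TensorProduct.tmul_mul_tmul, one_mul]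
    have e : ∀ i : T, (z j * (z i / z j)) ⊗ₜ[k] b i = z i ⊗ₜ[k] b i := fun i => by
      rw [mul_div_cancel₀ _ hj0]
    rw [Finset.sum_congr rfl fun i _ => e i, ← hz]
    exact Finset.sum_coe_sort z.support (fun i => z i ⊗ₜ[k] b i)
  · intro h0
    simp only [t', map_sum, evt_tmul] at h0
    let B : Module.Basis _ K (K ⊗[k] L) := b.baseChange K
    have h1 := congrArg (fun t => B.repr t j) h0
    simp only [map_sum, map_zero, Finsupp.coe_zero, Pi.zero_apply, Finsupp.coe_finsetSum,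
      Finset.sum_apply] at h1
    have h2 : ∀ i : T, B.repr ((p.ρ hp ⟨z i / z j, hji i i.2⟩) ⊗ₜ[k] b i) j
        = if (i : _) = j then 1 else 0 := by
      intro i
      simp only [B, Module.Basis.baseChange_repr_tmul]
      by_cases hij : (i : _) = j
      · rw [if_pos hij]
        have e1 : p.ρ hp ⟨z i / z j, hji i i.2⟩ = 1 := p.ρ_eq hp (by
          show p.r (z i / z j) 1
          rw [hij, div_self hj0]; exact p.one)
        rw [e1, hij, Module.Basis.repr_self, Finsupp.single_eq_same, one_smul]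
      · rw [if_neg hij, Module.Basis.repr_self, Finsupp.single_eq_of_ne (Ne.symm hij), zero_smul]
    rw [Finset.sum_congr rfl fun i _ => h2 i,
      Finset.sum_coe_sort T (fun i => if i = j then (1 : K) else 0),
      Finset.sum_ite_eq' T j (fun _ => (1 : K)), if_pos hj] at h1
    exact one_ne_zero h1

variable {L}
variable {F G : Type*} [Field F] [Field G] [Algebra k F] [Algebra k G]
  (jF : Z ⊗[k] L →ₐ[k] F) (jG : K ⊗[k] L →ₐ[k] G)

/-- the Gauss relation -/
def GR (f : F) (g : G) : Prop :=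
  ∃ a b : p.V hp ⊗[k] L, p.evt hp L b ≠ 0 ∧ f * jF (p.inc hp L b) = jF (p.inc hp L a) ∧
    g * jG (p.evt hp L b) = jG (p.evt hp L a)

variable {jF jG} in
theorem inc_ne (hF : IsFrc jF) {b : p.V hp ⊗[k] L} (hb : p.evt hp L b ≠ 0) :
    jF (p.inc hp L b) ≠ 0 := by
  intro h0
  apply hb
  have h1 : p.inc hp L b = 0 := hF.inj (by rw [h0, map_zero])
  have h2 : b = 0 := p.inc_injective hp L (by rw [h1, map_zero])
  rw [h2, map_zero]

/-- the Gauss extension of a place -/
def gauss (hF : IsFrc jF) (hG : IsFrc jG) : Pl F G where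
  r := p.GR hp jF jG
  uniq := by
    rintro f g g' ⟨a, b, hb, hf, hg⟩ ⟨a', b', hb', hf', hg'⟩
    have e1 : jF (p.inc hp L (a * b')) = jF (p.inc hp L (a' * b)) := by
      rw [map_mul, map_mul, map_mul, map_mul, ← hf, ← hf']; ring
    have e2 : a * b' = a' * b := p.inc_injective hp L (hF.inj e1)
    have e3 := congrArg (fun t => jG (p.evt hp L t)) e2
    simp only [map_mul] at e3
    rw [← hg, ← hg'] at e3
    have hb1 : jG (p.evt hp L b) ≠ 0 := fun h => hb (hG.inj (by rw [h, map_zero]))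
    have hb2 : jG (p.evt hp L b') ≠ 0 := fun h => hb' (hG.inj (by rw [h, map_zero]))
    have : (g - g') * (jG (p.evt hp L b) * jG (p.evt hp L b')) = 0 := by
      linear_combination e3
    rcases mul_eq_zero.1 this with h | h
    · exact sub_eq_zero.1 h
    · exact absurd h (mul_ne_zero hb1 hb2)
  one := ⟨1, 1, by
    rw [map_one]
    intro h
    exact one_ne_zero (α := G) (by rw [← map_one jG, h, map_zero]), by rw [one_mul], by rw [one_mul]⟩
  add := by
    rintro f f' g g' ⟨a, b, hb, hf, hg⟩ ⟨a', b', hb', hf', hg'⟩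
    refine ⟨a * b' + a' * b, b * b', ?_, ?_, ?_⟩
    · rw [map_mul]
      intro h0
      have := congrArg jG h0
      rw [map_mul, map_zero] at this
      rcases mul_eq_zero.1 this with h | h
      · exact hb (hG.inj (by rw [h, map_zero]))
      · exact hb' (hG.inj (by rw [h, map_zero]))
    · simp only [map_mul, map_add]
      rw [← hf, ← hf']; ring
    · simp only [map_mul, map_add]
      rw [← hg, ← hg']; ring
  mul := by
    rintro f f' g g' ⟨a, b, hb, hf, hg⟩ ⟨a', b', hb', hf', hg'⟩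
    refine ⟨a * a', b * b', ?_, ?_, ?_⟩
    · rw [map_mul]
      intro h0
      have := congrArg jG h0
      rw [map_mul, map_zero] at this
      rcases mul_eq_zero.1 this with h | h
      · exact hb (hG.inj (by rw [h, map_zero]))
      · exact hb' (hG.inj (by rw [h, map_zero]))
    · simp only [map_mul]
      rw [← hf, ← hf']; ring
    · simp only [map_mul]
      rw [← hg, ← hg']; ring
  dich := by
    intro f
    have h1 : p.evt hp L 1 ≠ 0 := by
      rw [map_one]
      intro h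
      exact one_ne_zero (α := G) (by rw [← map_one jG, h, map_zero])
    obtain ⟨t, u, hu, hf⟩ := hF.surj f
    rcases eq_or_ne t 0 with rfl | ht
    · left
      have hu' : jF u ≠ 0 := fun h => hu (hF.inj (by rw [h, map_zero]))
      have : f = 0 := by
        rw [map_zero] at hf
        exact (mul_eq_zero.1 hf).resolve_right hu'
      exact ⟨0, 0, 1, h1, by rw [this, map_zero, map_zero, zero_mul],
        by rw [map_zero, map_zero, zero_mul]⟩
    · obtain ⟨c, t', hc, ht1, ht'⟩ := p.tcontent hp L ht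
      obtain ⟨d, u', hd, hu1, hu'⟩ := p.tcontent hp L hu
      have hcF : jF (c ⊗ₜ 1) ≠ 0 := fun h => ht (by
        have : (c ⊗ₜ[k] (1 : L)) = 0 := hF.inj (by rw [h, map_zero])
        rw [← ht1, this, zero_mul])
      have hdF : jF (d ⊗ₜ 1) ≠ 0 := fun h => hu (by
        have : (d ⊗ₜ[k] (1 : L)) = 0 := hF.inj (by rw [h, map_zero])
        rw [← hu1, this, zero_mul])
      have htF := p.inc_ne hp hF ht'
      have huF := p.inc_ne hp hF hu'
      rw [← hu1, ← ht1, map_mul, map_mul] at hf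
      have hmulF : ∀ x y : Z, jF (x ⊗ₜ 1) * jF (y ⊗ₜ 1) = jF ((x * y) ⊗ₜ 1) := by
        intro x y
        rw [← map_mul, Algebra.TensorProduct.tmul_mul_tmul, one_mul]
      rcases p.dich (c / d) with ⟨l, hl⟩ | h
      · left
        refine ⟨jG (l ⊗ₜ 1) * jG (p.evt hp L t') / jG (p.evt hp L u'),
          ((⟨c / d, l, hl⟩ : p.V hp) ⊗ₜ 1) * t', u', hu', ?_, ?_⟩
        · rw [map_mul, map_mul, inc_tmul]
          have : jF (c ⊗ₜ 1) = jF (d ⊗ₜ 1) * jF ((c / d) ⊗ₜ 1) := by
            rw [hmulF, mul_div_cancel₀ _ hd]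
          rw [this] at hf
          apply mul_left_cancel₀ hdF
          linear_combination hf
        · have hne : jG (p.evt hp L u') ≠ 0 := fun h => hu' (hG.inj (by rw [h, map_zero]))
          rw [div_mul_cancel₀ _ hne, map_mul, map_mul, evt_tmul, p.ρ_eq hp (v := ⟨c / d, l, hl⟩) hl]
      · right
        rw [inv_div] at h
        refine ⟨((⟨d / c, 0, h⟩ : p.V hp) ⊗ₜ 1) * u', t', ht', ?_, ?_⟩
        · rw [map_mul, map_mul, inc_tmul]
          have h2 : jF (d ⊗ₜ 1) = jF (c ⊗ₜ 1) * jF ((d / c) ⊗ₜ 1) := by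
            rw [hmulF, mul_div_cancel₀ _ hc]
          have hf0 : f ≠ 0 := by
            rintro rfl
            rw [zero_mul] at hf
            exact mul_ne_zero hcF htF hf.symm
          rw [h2] at hf
          apply mul_left_cancel₀ hf0
          apply mul_left_cancel₀ hcF
          rw [← mul_assoc f, mul_inv_cancel₀ hf0, one_mul]
          linear_combination -hf
        · rw [map_mul, evt_tmul, p.ρ_eq hp (v := ⟨d / c, 0, h⟩) h, zero_tmul, zero_mul, zero_mul,
            map_zero]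

theorem gauss_r (hF : IsFrc jF) (hG : IsFrc jG) (f : F) (g : G) :
    (p.gauss hp jF jG hF hG).r f g ↔ p.GR hp jF jG f g := Iff.rfl

/-- elements of `V` -/
theorem gauss_left (hF : IsFrc jF) (hG : IsFrc jG) {z : Z} {l : K} (h : p.r z l) :
    (p.gauss hp jF jG hF hG).r (jF (z ⊗ₜ 1)) (jG (l ⊗ₜ 1)) := by
  refine ⟨(⟨z, l, h⟩ : p.V hp) ⊗ₜ 1, 1, ?_, ?_, ?_⟩
  · rw [map_one]
    intro h
    exact one_ne_zero (α := G) (by rw [← map_one jG, h, map_zero])
  · rw [map_one, map_one, mul_one, inc_tmul]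
  · rw [map_one, map_one, mul_one, evt_tmul, p.ρ_eq hp (v := ⟨z, l, h⟩) h]

/-- elements of `L` -/
theorem gauss_right (hF : IsFrc jF) (hG : IsFrc jG) (l : L) :
    (p.gauss hp jF jG hF hG).r (jF (1 ⊗ₜ l)) (jG (1 ⊗ₜ l)) := by
  refine ⟨1 ⊗ₜ l, 1, ?_, ?_, ?_⟩
  · rw [map_one]
    intro h
    exact one_ne_zero (α := G) (by rw [← map_one jG, h, map_zero])
  · rw [map_one, map_one, mul_one, inc_tmul]; rfl
  · rw [map_one, map_one, mul_one, evt_tmul, map_one]

theorem gauss_over (hF : IsFrc jF) (hG : IsFrc jG) : (p.gauss hp jF jG hF hG).Over k := by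
  intro c
  have := p.gauss_right hp jF jG hF hG (algebraMap k L c)
  have e1 : (1 : Z) ⊗ₜ[k] algebraMap k L c = algebraMap k (Z ⊗[k] L) c := by
    rw [Algebra.algebraMap_eq_smul_one, tmul_smul, Algebra.algebraMap_eq_smul_one]; rfl
  have e2 : (1 : K) ⊗ₜ[k] algebraMap k L c = algebraMap k (K ⊗[k] L) c := by
    rw [Algebra.algebraMap_eq_smul_one, tmul_smul, Algebra.algebraMap_eq_smul_one]; rfl
  rw [e1, e2, AlgHom.commutes, AlgHom.commutes] at this
  exact this

end gauss

section functor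

variable {k : Type u} [Field k] {Z K Z' K' : Type*} [Field Z] [Field K] [Field Z'] [Field K']
  [Algebra k Z] [Algebra k K] [Algebra k Z'] [Algebra k K'] (p : Pl Z K) (hp : p.Over k)
  (p' : Pl Z' K') (hp' : p'.Over k)
  {L L' : Type*} [Field L] [Algebra k L] [Field L'] [Algebra k L']
  {F G F' G' : Type*} [Field F] [Field G] [Field F'] [Field G'] [Algebra k F] [Algebra k G]
  [Algebra k F'] [Algebra k G']
  (jF : Z ⊗[k] L →ₐ[k] F) (jG : K ⊗[k] L →ₐ[k] G) (hF : IsFrc jF) (hG : IsFrc jG)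
  (jF' : Z' ⊗[k] L' →ₐ[k] F') (jG' : K' ⊗[k] L' →ₐ[k] G') (hF' : IsFrc jF') (hG' : IsFrc jG')

/-- functoriality of the Gauss extension -/
theorem gauss_functor (φ : Z →ₐ[k] Z') (ψ : K →ₐ[k] K') (σ : L →ₐ[k] L')
    (hr : ∀ z l, p.r z l → p'.r (φ z) (ψ l)) (τF : F →ₐ[k] F') (τG : G →ₐ[k] G')
    (hτF : ∀ t, τF (jF t) = jF' (Algebra.TensorProduct.map φ σ t))
    (hτG : ∀ t, τG (jG t) = jG' (Algebra.TensorProduct.map ψ σ t)) {f : F} {g : G}
    (h : (p.gauss hp jF jG hF hG).r f g) : (p'.gauss hp' jF' jG' hF' hG').r (τF f) (τG g) := by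
  obtain ⟨a, b, hb, hf, hg⟩ := h
  let φV : p.V hp →ₐ[k] p'.V hp' :=
    (φ.comp (p.V hp).val).codRestrict (p'.V hp') (fun v => ⟨_, hr _ _ (p.r_ρ hp v)⟩)
  have hφV : ∀ v : p.V hp, (φV v : Z') = φ v := fun v => rfl
  have hφρ : ∀ v, p'.ρ hp' (φV v) = ψ (p.ρ hp v) := fun v => p'.ρ_eq hp' (hr _ _ (p.r_ρ hp v))
  let Φ : p.V hp ⊗[k] L →ₐ[k] p'.V hp' ⊗[k] L' := Algebra.TensorProduct.map φV σ
  have h1 : ∀ t, p'.inc hp' L' (Φ t) = Algebra.TensorProduct.map φ σ (p.inc hp L t) := by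
    intro t
    have : (p'.inc hp' L').comp Φ = (Algebra.TensorProduct.map φ σ).comp (p.inc hp L) := by
      ext t
      · simp [Φ, hφV]
      · simp [Φ]
    exact DFunLike.congr_fun this t
  have h2 : ∀ t, p'.evt hp' L' (Φ t) = Algebra.TensorProduct.map ψ σ (p.evt hp L t) := by
    intro t
    have : (p'.evt hp' L').comp Φ = (Algebra.TensorProduct.map ψ σ).comp (p.evt hp L) := by
      ext t
      · simp [Φ, hφρ]
      · simp [Φ]
    exact DFunLike.congr_fun this t
  refine ⟨Φ a, Φ b, ?_, ?_, ?_⟩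
  · rw [h2]
    intro h0
    have h3 := hτG (p.evt hp L b)
    rw [h0, map_zero] at h3
    have h4 : jG (p.evt hp L b) = 0 := τG.toRingHom.injective (by
      show τG (jG (p.evt hp L b)) = τG 0
      rw [h3, map_zero])
    exact hb (hG.inj (by rw [h4, map_zero]))
  · rw [h1, h1, ← hτF, ← hτF, ← hf, map_mul]
  · rw [h2, h2, ← hτG, ← hτG, ← hg, map_mul]

end functor

end Pl

/-- `k ⊗ L → L` -/
noncomputable def lidH (k L : Type*) [Field k] [Field L] [Algebra k L] : k ⊗[k] L →ₐ[k] L :=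
  (Algebra.TensorProduct.lid k L).toAlgHom

theorem lidH_tmul {k L : Type*} [Field k] [Field L] [Algebra k L] (c : k) (l : L) :
    lidH k L (c ⊗ₜ l) = c • l := by
  unfold lidH; simp

theorem isFrc_lidH (k L : Type*) [Field k] [Field L] [Algebra k L] : IsFrc (lidH k L) := by
  refine ⟨(Algebra.TensorProduct.lid k L).injective, fun f => ⟨1 ⊗ₜ f, 1, ?_, ?_⟩⟩
  · intro h
    have := congrArg (lidH k L) h
    rw [map_one, map_zero] at this
    exact one_ne_zero this
  · rw [map_one, mul_one, lidH_tmul, one_smul]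

/-- a place with residue field `k` as a relation -/
def Plc.toPl {k Z : Type*} [Field k] [Field Z] [Algebra k Z] (P : Plc k Z) : Pl Z k where
  r z c := ∃ h : z ∈ P.V, P.α ⟨z, h⟩ = c
  uniq := by rintro f l l' ⟨h, rfl⟩ ⟨h', rfl⟩; rfl
  one := ⟨P.V.one_mem, map_one P.α⟩
  add := by
    rintro f g l m ⟨h, rfl⟩ ⟨h', rfl⟩
    exact ⟨P.V.add_mem h h', map_add P.α ⟨f, h⟩ ⟨g, h'⟩⟩
  mul := by
    rintro f g l m ⟨h, rfl⟩ ⟨h', rfl⟩
    exact ⟨P.V.mul_mem h h', map_mul P.α ⟨f, h⟩ ⟨g, h'⟩⟩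
  dich f := by
    rcases P.dich f with h | h
    · exact Or.inl ⟨_, h, rfl⟩
    · exact Or.inr h

theorem Plc.toPl_over {k Z : Type*} [Field k] [Field Z] [Algebra k Z] (P : Plc k Z) :
    P.toPl.Over k := fun c => ⟨P.V.algebraMap_mem c, P.α.commutes c⟩

end Pool.Agent.Lib.MP_c37a72_al
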