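import Mathlib

/-!
# MP_c37a72_al, block P: the place at the counit

`k` algebraically closed, `Q` a ring, `Z` a field with `Z → Q` central, `H ⊆ Q` a `k`-subalgebra,
`φ : H → k`.  There are a valuation ring `V` of `Z` and a ring homomorphism `α : V → k` with kernel the
maximal ideal of `V` such that `φ` and `α` are compatible (`h v ↦ φ h * α v` is well defined on
`H V`).
-/

set_option autoImplicit false
set_option linter.unusedSectionVars false

namespace Pool.Agent.Lib.MP_c37a72_al

open Finset Polynomial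

namespace PlaceM

variable {k Z Q : Type*} [Field k] [Field Z] [Ring Q] [Algebra k Z] [Algebra Z Q] [Algebra k Q]
  [IsScalarTower k Z Q]

/-- `J + H M` as an additive subgroup of `Q` -/
def II (H : Subalgebra k Q) (φ : H →ₐ[k] k) (M : Submodule k Z) : Submodule k Q :=
  (LinearMap.ker φ.toLinearMap).map H.val.toLinearMap ⊔
    Submodule.span k {y | ∃ (h : H) (m : Z), m ∈ M ∧ y = (h : Q) * algebraMap Z Q m}

variable {H : Subalgebra k Q} {φ : H →ₐ[k] k}

theorem II_mono {M M' : Submodule k Z} (h : M ≤ M') : II H φ M ≤ II H φ M' := by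
  unfold II
  refine sup_le_sup le_rfl (Submodule.span_mono ?_)
  rintro y ⟨a, m, hm, rfl⟩
  exact ⟨a, m, h hm, rfl⟩

theorem mem_II_of_ker {M : Submodule k Z} {h : H} (hh : φ h = 0) : (h : Q) ∈ II H φ M :=
  Submodule.mem_sup_left ⟨h, hh, rfl⟩

theorem mem_II_of_mem {M : Submodule k Z} (h : H) {m : Z} (hm : m ∈ M) :
    (h : Q) * algebraMap Z Q m ∈ II H φ M :=
  Submodule.mem_sup_right (Submodule.subset_span ⟨h, m, hm, rfl⟩)

theorem mem_II_of_M {M : Submodule k Z} {m : Z} (hm : m ∈ M) : algebraMap Z Q m ∈ II H φ M := by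
  have := mem_II_of_mem (φ := φ) (1 : H) hm
  simpa using this

/-- `h ≡ φ h` modulo `J` -/
theorem sub_mem_II {M : Submodule k Z} (h : H) : (h : Q) - algebraMap k Q (φ h) ∈ II H φ M := by
  have : φ (h - algebraMap k H (φ h)) = 0 := by simp
  have := mem_II_of_ker (M := M) this
  simpa using this

theorem II_induction {M : Submodule k Z} {P : Q → Prop} (h0 : P 0)
    (hadd : ∀ x y, P x → P y → P (x + y)) (hker : ∀ h : H, φ h = 0 → P (h : Q))
    (hsmul : ∀ (c : k) x, P x → P (c • x))
    (hmul : ∀ (h : H) (m : Z), m ∈ M → P ((h : Q) * algebraMap Z Q m)) {x : Q}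
    (hx : x ∈ II H φ M) : P x := by
  unfold II at hx
  obtain ⟨y, hy, z, hz, rfl⟩ := Submodule.mem_sup.1 hx
  refine hadd _ _ ?_ ?_
  · obtain ⟨h, hh, rfl⟩ := hy
    exact hker h hh
  · refine Submodule.span_induction ?_ h0 (fun x y _ _ => hadd x y) (fun c x _ => hsmul c x) hz
    rintro y ⟨h, m, hm, rfl⟩
    exact hmul h m hm

/-- the ideal property: `𝔍` absorbs `H` on the left -/
theorem mul_mem_left {M : Submodule k Z} (a : H) {x : Q} (hx : x ∈ II H φ M) :
    (a : Q) * x ∈ II H φ M := by
  refine II_induction (P := fun x => (a : Q) * x ∈ II H φ M) (by simp) ?_ ?_ ?_ ?_ hx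
  · intro x y hx hy; rw [mul_add]; exact add_mem hx hy
  · intro h hh
    have : φ (a * h) = 0 := by rw [map_mul, hh, mul_zero]
    exact mem_II_of_ker this
  · intro c x hx; rw [mul_smul_comm]; exact Submodule.smul_mem _ _ hx
  · intro h m hm
    rw [← mul_assoc]
    exact mem_II_of_mem (a * h) hm

theorem mul_mem_right {M : Submodule k Z} (a : H) {x : Q} (hx : x ∈ II H φ M) :
    x * (a : Q) ∈ II H φ M := by
  refine II_induction (P := fun x => x * (a : Q) ∈ II H φ M) (by simp) ?_ ?_ ?_ ?_ hx
  · intro x y hx hy; rw [add_mul]; exact add_mem hx hy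
  · intro h hh
    have : φ (h * a) = 0 := by rw [map_mul, hh, zero_mul]
    exact mem_II_of_ker this
  · intro c x hx; rw [smul_mul_assoc]; exact Submodule.smul_mem _ _ hx
  · intro h m hm
    rw [mul_assoc, Algebra.commutes, ← mul_assoc]
    exact mem_II_of_mem (h * a) hm

/-- `𝔍` is stable under multiplication by `M`, `M` closed under multiplication -/
theorem mul_M_mem {M : Submodule k Z} (hM : ∀ a ∈ M, ∀ b ∈ M, a * b ∈ M) {m : Z} (hm : m ∈ M)
    {x : Q} (hx : x ∈ II H φ M) : x * algebraMap Z Q m ∈ II H φ M := by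
  refine II_induction (P := fun x => x * algebraMap Z Q m ∈ II H φ M) (by simp) ?_ ?_ ?_ ?_ hx
  · intro x y hx hy; rw [add_mul]; exact add_mem hx hy
  · intro h _
    exact mem_II_of_mem h hm
  · intro c x hx; rw [smul_mul_assoc]; exact Submodule.smul_mem _ _ hx
  · intro h m' hm'
    rw [mul_assoc, ← map_mul]
    exact mem_II_of_mem h (hM _ hm' _ hm)

theorem mul_mem_II {M : Submodule k Z} (hM : ∀ a ∈ M, ∀ b ∈ M, a * b ∈ M) {x y : Q}
    (hx : x ∈ II H φ M) (hy : y ∈ II H φ M) : x * y ∈ II H φ M := by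
  refine II_induction (P := fun y => x * y ∈ II H φ M) (by simp) ?_ ?_ ?_ ?_ hy
  · intro y z hy hz; rw [mul_add]; exact add_mem hy hz
  · intro h _; exact mul_mem_right h hx
  · intro c y hy; rw [mul_smul_comm]; exact Submodule.smul_mem _ _ hy
  · intro h m hm
    rw [← mul_assoc]
    exact mul_M_mem hM hm (mul_mem_right h hx)

/-- polynomials in a central element `x` with coefficients in an additive subgroup, exponents in
`[1,p]` -/
def Pol (S : Submodule k Q) (x : Q) (lo hi : ℕ) : Set Q :=
  {y | ∃ f : ℕ → Q, (∀ i, f i ∈ S) ∧ y = ∑ i ∈ Ico lo hi, f i * x ^ i}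

theorem Pol.add {S : Submodule k Q} {x : Q} {lo hi : ℕ} {y z : Q} (hy : y ∈ Pol S x lo hi)
    (hz : z ∈ Pol S x lo hi) : y + z ∈ Pol S x lo hi := by
  obtain ⟨f, hf, rfl⟩ := hy
  obtain ⟨g, hg, rfl⟩ := hz
  refine ⟨fun i => f i + g i, fun i => add_mem (hf i) (hg i), ?_⟩
  simp [add_mul, Finset.sum_add_distrib]

theorem Pol.mono {S : Submodule k Q} {x : Q} {lo hi lo' hi' : ℕ} (h1 : lo' ≤ lo) (h2 : hi ≤ hi')
    {y : Q} (hy : y ∈ Pol S x lo hi) : y ∈ Pol S x lo' hi' := by
  classical
  obtain ⟨f, hf, rfl⟩ := hy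
  refine ⟨fun i => if i ∈ Ico lo hi then f i else 0, fun i => ?_, ?_⟩
  · dsimp only
    split_ifs
    · exact hf i
    · exact zero_mem _
  · rw [← Finset.sum_subset (s₁ := Ico lo hi) (Finset.Ico_subset_Ico h1 h2)]
    · refine Finset.sum_congr rfl fun i hi => ?_
      simp only [hi, if_true]
    · intro i _ hi
      simp only [hi, if_false, zero_mul]

theorem Pol.mul_right {S : Submodule k Q} {x : Q} {lo hi : ℕ} {y u : Q} (hy : y ∈ Pol S x lo hi)
    (hu : ∀ s ∈ S, s * u ∈ S) (hc : Commute x u) : y * u ∈ Pol S x lo hi := by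
  obtain ⟨f, hf, rfl⟩ := hy
  refine ⟨fun i => f i * u, fun i => hu _ (hf i), ?_⟩
  rw [Finset.sum_mul]
  refine Finset.sum_congr rfl fun i _ => ?_
  rw [mul_assoc, mul_assoc, (hc.pow_left i).eq]

/-- the main reduction: `1 ∈ 𝔍[x]` and `1 ∈ 𝔍[x⁻¹]` is impossible -/
theorem no_both {S : Submodule k Q} (h1 : (1 : Q) ∉ S) (hmul : ∀ a ∈ S, ∀ b ∈ S, a * b ∈ S)
    : ∀ n p q : ℕ, p + q ≤ n → ∀ x y : Q, x * y = 1 → y * x = 1 →
      (∀ z : Q, Commute x z) → (∀ z : Q, Commute y z) →
      (∃ u, u - 1 ∈ S ∧ u ∈ Pol S x 1 (p + 1)) → (∃ u, u - 1 ∈ S ∧ u ∈ Pol S y 1 (q + 1)) →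
      False := by
  intro n
  induction n with
  | zero =>
    rintro p q hpq x y hxy hyx hx hy ⟨u, hu, f, hf, he⟩ -
    have : p = 0 := by omega
    subst this
    simp only [zero_add, Finset.Ico_self, Finset.sum_empty] at he
    rw [he, zero_sub] at hu
    exact h1 (by simpa using neg_mem hu)
  | succ n ih =>
    intro p q hpq x y hxy hyx hx hy hu hu'
    -- by symmetry `q ≤ p`
    wlog hle : q ≤ p generalizing p q x y
    · exact this q p (by omega) y x hyx hxy hy hx hu' hu (by omega)
    rcases Nat.eq_zero_or_pos q with hq | hq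
    · obtain ⟨u, hu, f, hf, he⟩ := hu'
      subst hq
      simp only [zero_add, Finset.Ico_self, Finset.sum_empty] at he
      rw [he, zero_sub] at hu
      exact h1 (by simpa using neg_mem hu)
    · obtain ⟨u, hu1, f, hf, he⟩ := hu
      obtain ⟨u', hu1', g, hg, he'⟩ := hu'
      -- multiplication by `u'` preserves `S`
      have hSu : ∀ s ∈ S, s * u' ∈ S := by
        intro s hs
        have : s * u' = s * (u' - 1) + s := by rw [mul_sub, mul_one]; abel
        rw [this]
        exact add_mem (hmul _ hs _ hu1') hs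
      -- `u u' - 1 ∈ S`
      have huu : u * u' - 1 ∈ S := by
        have : u * u' - 1 = (u - 1) * u' + (u' - 1) := by rw [sub_mul, one_mul]; abel
        rw [this]
        exact add_mem (hSu _ hu1) hu1'
      -- `x ^ q * u'` is a polynomial in `x` of degree `< q`
      have hxu : x ^ q * u' ∈ Pol S x 0 q := by
        rw [he', Finset.mul_sum]
        refine ⟨fun l => g (q - l), fun l => hg _, ?_⟩
        have hre : ∑ i ∈ Ico 1 (q + 1), x ^ q * (g i * y ^ i)
            = ∑ i ∈ Ico 1 (q + 1), g i * x ^ (q - i) := by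
          refine Finset.sum_congr rfl fun i hi => ?_
          rw [Finset.mem_Ico] at hi
          have e1 : x ^ q = x ^ (q - i) * x ^ i := by rw [← pow_add]; congr 1; omega
          have e2 : x ^ i * y ^ i = 1 := by rw [← (hx y).mul_pow, hxy, one_pow]
          rw [← mul_assoc, ((hx (g i)).pow_left q).eq, mul_assoc, e1, mul_assoc, e2, mul_one]
        rw [hre]
        refine Finset.sum_nbij' (fun i => q - i) (fun i => q - i) ?_ ?_ ?_ ?_ ?_
        · intro i hi; simp only [Finset.mem_Ico] at hi ⊢; omega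
        · intro i hi; simp only [Finset.mem_Ico] at hi ⊢; omega
        · intro i hi; simp only [Finset.mem_Ico] at hi; omega
        · intro i hi; simp only [Finset.mem_Ico] at hi; omega
        · intro i hi
          simp only [Finset.mem_Ico] at hi
          congr 2
          omega
      -- the top term
      have htop : f p * x ^ p * u' ∈ Pol S x 0 p := by
        obtain ⟨g', hg', he''⟩ := hxu
        have e1 : f p * x ^ p * u' = ∑ l ∈ Ico 0 q, (f p * g' l) * x ^ (l + (p - q)) := by
          have : x ^ p = x ^ (p - q) * x ^ q := by rw [← pow_add]; congr 1; omega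
          rw [mul_assoc, this, mul_assoc, he'', Finset.mul_sum, Finset.mul_sum]
          refine Finset.sum_congr rfl fun l _ => ?_
          rw [pow_add, ← mul_assoc (x ^ (p - q)), ((hx (g' l)).pow_left (p - q)).eq]
          have : x ^ (p - q) * x ^ l = x ^ l * x ^ (p - q) := by
            rw [← pow_add, ← pow_add, add_comm]
          rw [mul_assoc, mul_assoc, this]
        have e2 : ∀ l ∈ Ico 0 q, (f p * g' l) * x ^ (l + (p - q)) ∈ Pol S x 0 p := by
          intro l hl
          classical
          rw [Finset.mem_Ico] at hl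
          refine ⟨fun i => if i = l + (p - q) then f p * g' l else 0, fun i => ?_, ?_⟩
          · dsimp only
            split_ifs
            · exact hmul _ (hf _) _ (hg' _)
            · exact zero_mem _
          · rw [Finset.sum_eq_single (l + (p - q))]
            · simp
            · intro b _ hb; simp [hb]
            · intro hb
              exfalso
              apply hb
              rw [Finset.mem_Ico]
              omega
        rw [e1]
        have h0 : (0 : Q) ∈ Pol S x 0 p := ⟨fun _ => 0, fun _ => zero_mem _, by simp⟩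
        exact Finset.sum_induction _ (fun y => y ∈ Pol S x 0 p) (fun a b => Pol.add) h0 e2
      have hlow : (∑ i ∈ Ico 1 p, f i * x ^ i) * u' ∈ Pol S x 0 p :=
        Pol.mono (Nat.zero_le 1) le_rfl
          (Pol.mul_right ⟨f, hf, rfl⟩ hSu (hx u'))
      have htot : u * u' ∈ Pol S x 0 p := by
        rw [he, Finset.sum_Ico_succ_top (by omega), add_mul]
        exact Pol.add hlow htop
      obtain ⟨F, hF, heF⟩ := htot
      have hp : 0 < p := by omega
      refine ih (p - 1) q (by omega) x y hxy hyx hx hy ⟨u * u' - F 0, ?_, F, hF, ?_⟩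
        ⟨u', hu1', g, hg, he'⟩
      · have : u * u' - F 0 - 1 = (u * u' - 1) - F 0 := by abel
        rw [this]
        exact sub_mem huu (hF 0)
      · rw [heF, Finset.sum_eq_sum_Ico_succ_bot hp]
        rw [show p - 1 + 1 = p by omega]
        simp

/-- `𝔍[x]` -/
def IX (S : Submodule k Q) (x : Q) : Submodule k Q :=
  Submodule.span k {y | ∃ s ∈ S, ∃ n : ℕ, y = s * x ^ n}

theorem mem_IX {S : Submodule k Q} {x s : Q} (hs : s ∈ S) (n : ℕ) : s * x ^ n ∈ IX S x :=
  Submodule.subset_span ⟨s, hs, n, rfl⟩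

theorem le_IX {S : Submodule k Q} {x s : Q} (hs : s ∈ S) : s ∈ IX S x := by
  simpa using mem_IX (x := x) hs 0

theorem IX_mul_pow {S : Submodule k Q} {x y : Q} (hy : y ∈ IX S x) (n : ℕ) :
    y * x ^ n ∈ IX S x := by
  refine Submodule.span_induction ?_ ?_ ?_ ?_ hy
  · rintro _ ⟨s, hs, m, rfl⟩
    rw [mul_assoc, ← pow_add]
    exact mem_IX hs _
  · simp
  · intro a b _ _ ha hb; rw [add_mul]; exact add_mem ha hb
  · intro c a _ ha; rw [smul_mul_assoc]; exact Submodule.smul_mem _ _ ha

theorem IX_mul_aeval {S : Submodule k Q} {x y : Q} (hy : y ∈ IX S x) (p : k[X]) :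
    y * aeval x p ∈ IX S x := by
  induction p using Polynomial.induction_on' with
  | add p q hp hq => rw [map_add, mul_add]; exact add_mem hp hq
  | monomial n a =>
    have e : y * aeval x (monomial n a) = a • (y * x ^ n) := by
      rw [aeval_monomial, ← Algebra.smul_def, mul_smul_comm]
    rw [e]
    exact Submodule.smul_mem _ _ (IX_mul_pow hy n)

theorem IX_Pol {S : Submodule k Q} {x y : Q} (hy : y ∈ IX S x) : ∃ n, y ∈ Pol S x 0 n := by
  refine Submodule.span_induction ?_ ?_ ?_ ?_ hy
  · rintro _ ⟨s, hs, m, rfl⟩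
    classical
    refine ⟨m + 1, fun i => if i = m then s else 0, fun i => ?_, ?_⟩
    · dsimp only
      split_ifs
      · exact hs
      · exact zero_mem _
    · rw [Finset.sum_eq_single m]
      · simp
      · intro b _ hb; simp [hb]
      · intro hb; exfalso; apply hb; simp
  · exact ⟨0, fun _ => 0, fun _ => zero_mem _, by simp⟩
  · rintro a b _ _ ⟨n, ha⟩ ⟨m, hb⟩
    exact ⟨max n m, Pol.add (Pol.mono le_rfl (le_max_left _ _) ha)
      (Pol.mono le_rfl (le_max_right _ _) hb)⟩
  · rintro c a _ ⟨n, f, hf, rfl⟩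
    refine ⟨n, fun i => c • f i, fun i => Submodule.smul_mem _ _ (hf i), ?_⟩
    rw [Finset.smul_sum]
    exact Finset.sum_congr rfl fun i _ => by rw [smul_mul_assoc]

/-- there is a value `c` of `x` compatible with `𝔍[x]` -/
theorem exists_value [IsAlgClosed k] {S : Submodule k Q} {x : Q} (h : (1 : Q) ∉ IX S x) :
    ∃ c : k, ∀ p : k[X], aeval x p ∈ IX S x → p.eval c = 0 := by
  let 𝔞 : Ideal k[X] :=
    { carrier := {p | aeval x p ∈ IX S x}
      add_mem' := by
        intro a b ha hb
        show aeval x (a + b) ∈ IX S x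
        rw [map_add]; exact add_mem ha hb
      zero_mem' := by
        show aeval x (0 : k[X]) ∈ IX S x
        rw [map_zero]; exact zero_mem _
      smul_mem' := by
        intro q p hp
        show aeval x (q • p) ∈ IX S x
        rw [smul_eq_mul, mul_comm, map_mul]
        exact IX_mul_aeval hp q }
  have hmem : ∀ p, p ∈ 𝔞 ↔ aeval x p ∈ IX S x := fun p => Iff.rfl
  obtain ⟨g, hg⟩ := (IsPrincipalIdealRing.principal 𝔞)
  have hg' : ∀ p, p ∈ 𝔞 → g ∣ p := by
    intro p hp
    rw [hg] at hp
    exact Ideal.mem_span_singleton.1 hp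
  rcases eq_or_ne g 0 with h0 | h0
  · refine ⟨0, fun p hp => ?_⟩
    have := hg' p hp
    rw [h0, zero_dvd_iff] at this
    rw [this, eval_zero]
  · have hdeg : g.degree ≠ 0 := by
      intro hd
      have hu : IsUnit g := Polynomial.isUnit_iff_degree_eq_zero.2 hd
      have hgm : g ∈ 𝔞 := by rw [hg]; exact Ideal.mem_span_singleton_self g
      have : (1 : k[X]) ∈ 𝔞 := by
        obtain ⟨v, hv⟩ := hu.exists_left_inv
        rw [← hv]; exact 𝔞.mul_mem_left v hgm
      rw [hmem, map_one] at this
      exact h this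
    obtain ⟨c, hc⟩ := IsAlgClosed.exists_root g hdeg
    refine ⟨c, fun p hp => ?_⟩
    obtain ⟨r, rfl⟩ := hg' p hp
    rw [eval_mul, hc.eq_zero, zero_mul]

/-- `M[x]` -/
def MX (M : Submodule k Z) (x : Z) : Submodule k Z :=
  Submodule.span k {y | ∃ m ∈ M, ∃ n : ℕ, y = m * x ^ n}

theorem MX_mul {M : Submodule k Z} (hM : ∀ a ∈ M, ∀ b ∈ M, a * b ∈ M) {x y z : Z}
    (hy : y ∈ MX M x) (hz : z ∈ MX M x) : y * z ∈ MX M x := by
  refine Submodule.span_induction ?_ ?_ ?_ ?_ hy
  · rintro _ ⟨m, hm, n, rfl⟩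
    refine Submodule.span_induction ?_ ?_ ?_ ?_ hz
    · rintro _ ⟨m', hm', n', rfl⟩
      exact Submodule.subset_span ⟨m * m', hM _ hm _ hm', n + n', by ring⟩
    · simp
    · intro a b _ _ ha hb; rw [mul_add]; exact add_mem ha hb
    · intro c a _ ha; rw [mul_smul_comm]; exact Submodule.smul_mem _ _ ha
  · simp
  · intro a b _ _ ha hb; rw [add_mul]; exact add_mem ha hb
  · intro c a _ ha; rw [smul_mul_assoc]; exact Submodule.smul_mem _ _ ha

theorem MX_aeval {M : Submodule k Z} {x y : Z} (hy : y ∈ MX M x) (p : k[X]) :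
    y * aeval x p ∈ MX M x := by
  refine Submodule.span_induction ?_ ?_ ?_ ?_ hy
  · rintro _ ⟨m, hm, n, rfl⟩
    induction p using Polynomial.induction_on' with
    | add p q hp hq => rw [map_add, mul_add]; exact add_mem hp hq
    | monomial n' a =>
      rw [aeval_monomial]
      refine Submodule.subset_span ⟨a • m, Submodule.smul_mem _ _ hm, n + n', ?_⟩
      rw [Algebra.smul_def]; ring
  · simp
  · intro a b _ _ ha hb; rw [add_mul]; exact add_mem ha hb
  · intro c a _ ha; rw [smul_mul_assoc]; exact Submodule.smul_mem _ _ ha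

/-- `M' = M[x] + (x - c) k[x]` -/
noncomputable def MM (M : Submodule k Z) (x : Z) (c : k) : Submodule k Z :=
  MX M x ⊔ ((Ideal.span {(X - C c : k[X])}).restrictScalars k).map (aeval x).toLinearMap

theorem mem_MM {M : Submodule k Z} {x : Z} {c : k} {y : Z} :
    y ∈ MM M x c ↔ ∃ a ∈ MX M x, ∃ p : k[X], p.eval c = 0 ∧ y = a + aeval x p := by
  unfold MM
  rw [Submodule.mem_sup]
  constructor
  · rintro ⟨a, ha, _, ⟨p, hp, rfl⟩, rfl⟩
    refine ⟨a, ha, p, ?_, rfl⟩
    have hp' : p ∈ Ideal.span {(X - C c : k[X])} := hp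
    rw [Ideal.mem_span_singleton, dvd_iff_isRoot] at hp'
    exact hp'
  · rintro ⟨a, ha, p, hp, rfl⟩
    refine ⟨a, ha, _, ⟨p, ?_, rfl⟩, rfl⟩
    show p ∈ Ideal.span {(X - C c : k[X])}
    rw [Ideal.mem_span_singleton, dvd_iff_isRoot]
    exact hp

theorem MM_mul {M : Submodule k Z} (hM : ∀ a ∈ M, ∀ b ∈ M, a * b ∈ M) {x : Z} {c : k} :
    ∀ a ∈ MM M x c, ∀ b ∈ MM M x c, a * b ∈ MM M x c := by
  intro y hy z hz
  rw [mem_MM] at hy hz ⊢
  obtain ⟨a, ha, p, hp, rfl⟩ := hy
  obtain ⟨b, hb, q, hq, rfl⟩ := hz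
  refine ⟨a * b + a * aeval x q + b * aeval x p, ?_, p * q, by rw [eval_mul, hp, zero_mul], ?_⟩
  · exact add_mem (add_mem (MX_mul hM ha hb) (MX_aeval ha q)) (MX_aeval hb p)
  · rw [map_mul]; ring

theorem le_MM {M : Submodule k Z} {x : Z} {c : k} : M ≤ MM M x c := by
  intro m hm
  exact Submodule.mem_sup_left (Submodule.subset_span ⟨m, hm, 0, by simp⟩)

theorem aeval_algebraMap' (x : Z) (p : k[X]) :
    aeval (algebraMap Z Q x) p = algebraMap Z Q (aeval x p) := by
  rw [← Polynomial.aeval_algebraMap_apply]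

/-- elements of `II M'` modulo `𝔍[x]` are polynomials vanishing at `c` -/
theorem II_MM {M : Submodule k Z} {x : Z} {c : k} {y : Q} (hy : y ∈ II H φ (MM M x c)) :
    ∃ p : k[X], p.eval c = 0 ∧ y - aeval (algebraMap Z Q x) p ∈ IX (II H φ M) (algebraMap Z Q x) := by
  refine II_induction (P := fun y => ∃ p : k[X], p.eval c = 0 ∧
    y - aeval (algebraMap Z Q x) p ∈ IX (II H φ M) (algebraMap Z Q x)) ?_ ?_ ?_ ?_ ?_ hy
  · exact ⟨0, by simp, by simp⟩
  · rintro y z ⟨p, hp, hy⟩ ⟨q, hq, hz⟩
    refine ⟨p + q, by rw [eval_add, hp, hq, add_zero], ?_⟩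
    rw [map_add, add_sub_add_comm]
    exact add_mem hy hz
  · intro h hh
    refine ⟨0, by simp, ?_⟩
    rw [map_zero, sub_zero]
    exact le_IX (mem_II_of_ker hh)
  · rintro a y ⟨p, hp, hy⟩
    refine ⟨a • p, by rw [eval_smul, hp, smul_zero], ?_⟩
    rw [map_smul, ← smul_sub]
    exact Submodule.smul_mem _ _ hy
  · intro h m hm
    obtain ⟨a, ha, p, hp, rfl⟩ := mem_MM.1 hm
    refine ⟨φ h • p, by rw [eval_smul, hp, smul_zero], ?_⟩
    have e : (h : Q) * algebraMap Z Q (a + aeval x p) - aeval (algebraMap Z Q x) (φ h • p)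
        = (h : Q) * algebraMap Z Q a
          + ((h : Q) - algebraMap k Q (φ h)) * aeval (algebraMap Z Q x) p := by
      rw [map_add, mul_add, map_smul, aeval_algebraMap', Algebra.smul_def, sub_mul]
      abel
    rw [e]
    refine add_mem ?_ (IX_mul_aeval (le_IX (sub_mem_II h)) p)
    refine Submodule.span_induction
      (p := fun a _ => (h : Q) * algebraMap Z Q a ∈ IX (II H φ M) (algebraMap Z Q x)) ?_ ?_ ?_ ?_ ha
    · rintro _ ⟨m, hm, n, rfl⟩
      rw [map_mul, map_pow, ← mul_assoc]
      exact mem_IX (mem_II_of_mem h hm) n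
    · simp
    · intro a b _ _ ha hb; rw [map_add, mul_add]; exact add_mem ha hb
    · intro c a _ ha
      have : (h : Q) * algebraMap Z Q (c • a) = c • ((h : Q) * algebraMap Z Q a) := by
        rw [Algebra.smul_def, map_mul, ← IsScalarTower.algebraMap_apply k Z Q, ← Algebra.smul_def,
          mul_smul_comm]
      rw [this]; exact Submodule.smul_mem _ _ ha

/-- the Zorn set -/
def Good (H : Subalgebra k Q) (φ : H →ₐ[k] k) (M : Submodule k Z) : Prop :=
  (∀ a ∈ M, ∀ b ∈ M, a * b ∈ M) ∧ (1 : Q) ∉ II H φ M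

theorem good_bot : Good H φ (⊥ : Submodule k Z) := by
  constructor
  · intro a ha b hb
    rw [Submodule.mem_bot] at ha hb ⊢
    rw [ha, zero_mul]
  · intro h1
    have key : ∀ y ∈ II H φ (⊥ : Submodule k Z), ∃ h : H, φ h = 0 ∧ (h : Q) = y := by
      intro y hy
      refine II_induction (P := fun y => ∃ h : H, φ h = 0 ∧ (h : Q) = y) ?_ ?_ ?_ ?_ ?_ hy
      · exact ⟨0, map_zero _, rfl⟩
      · rintro x y ⟨a, ha, rfl⟩ ⟨b, hb, rfl⟩
        exact ⟨a + b, by rw [map_add, ha, hb, add_zero], rfl⟩
      · intro h hh; exact ⟨h, hh, rfl⟩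
      · rintro c x ⟨a, ha, rfl⟩
        exact ⟨c • a, by rw [map_smul, ha, smul_zero], rfl⟩
      · intro h m hm
        rw [Submodule.mem_bot] at hm
        exact ⟨0, map_zero _, by rw [hm]; simp⟩
    obtain ⟨h, hh, he⟩ := key 1 h1
    have : h = 1 := Subtype.ext he
    rw [this, map_one] at hh
    exact one_ne_zero hh

theorem exists_maximal : ∃ M : Submodule k Z, Good H φ M ∧ ∀ M', Good H φ M' → M ≤ M' → M' = M := by
  obtain ⟨M, hM⟩ := zorn_le_nonempty₀ {M : Submodule k Z | Good H φ M} (by
    intro c hc hchain y hy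
    have hne : c.Nonempty := ⟨y, hy⟩
    have hdir : DirectedOn (· ≤ ·) c := hchain.directedOn
    refine ⟨sSup c, ⟨?_, ?_⟩, fun z hz => le_sSup hz⟩
    · intro a ha b hb
      rw [Submodule.mem_sSup_of_directed hne hdir] at ha hb ⊢
      obtain ⟨A, hA, ha⟩ := ha
      obtain ⟨B, hB, hb⟩ := hb
      obtain ⟨C, hC, hAC, hBC⟩ := hdir A hA B hB
      exact ⟨C, hC, (hc hC).1 a (hAC ha) b (hBC hb)⟩
    · intro h1
      have key : ∃ A ∈ c, (1 : Q) ∈ II H φ A := by
        refine II_induction (P := fun x => ∃ A ∈ c, x ∈ II H φ A) ?_ ?_ ?_ ?_ ?_ h1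
        · exact ⟨y, hy, zero_mem _⟩
        · rintro a b ⟨A, hA, ha⟩ ⟨B, hB, hb⟩
          obtain ⟨C, hC, hAC, hBC⟩ := hdir A hA B hB
          exact ⟨C, hC, add_mem (II_mono hAC ha) (II_mono hBC hb)⟩
        · intro h hh; exact ⟨y, hy, mem_II_of_ker hh⟩
        · rintro a x ⟨A, hA, hx⟩
          exact ⟨A, hA, Submodule.smul_mem _ _ hx⟩
        · intro h m hm
          rw [Submodule.mem_sSup_of_directed hne hdir] at hm
          obtain ⟨A, hA, hm⟩ := hm
          exact ⟨A, hA, mem_II_of_mem h hm⟩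
      obtain ⟨A, hA, h⟩ := key
      exact (hc hA).2 h) ⊥ good_bot
  refine ⟨M, hM.2.prop, fun M' hM' hle => le_antisymm ?_ hle⟩
  exact hM.2.le_of_ge hM' hle

/-- step 1: an element with `1 ∉ 𝔍[x]` lies in `k + M` -/
theorem step1 [IsAlgClosed k] {M : Submodule k Z} (hM : Good H φ M)
    (hmax : ∀ M', Good H φ M' → M ≤ M' → M' = M) {x : Z}
    (hx : (1 : Q) ∉ IX (II H φ M) (algebraMap Z Q x)) : ∃ c : k, x - algebraMap k Z c ∈ M := by
  obtain ⟨c, hc⟩ := exists_value hx
  have hgood : Good H φ (MM M x c) := by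
    refine ⟨MM_mul hM.1, fun h1 => ?_⟩
    obtain ⟨p, hp, hp'⟩ := II_MM h1
    have := hc (1 - p) (by rw [map_sub, map_one]; exact hp')
    rw [eval_sub, eval_one, hp, sub_zero] at this
    exact one_ne_zero this
  have he := hmax _ hgood le_MM
  refine ⟨c, ?_⟩
  rw [← he, mem_MM]
  exact ⟨0, zero_mem _, X - C c, by simp, by simp⟩

end PlaceM

open PlaceM in
/-- **the place at the counit** -/
theorem exists_place {k Z Q : Type*} [Field k] [IsAlgClosed k] [Field Z] [Ring Q] [Algebra k Z]
    [Algebra Z Q] [Algebra k Q] [IsScalarTower k Z Q] (H : Subalgebra k Q) (φ : H →ₐ[k] k) :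
    ∃ (V : ValuationSubring Z) (α : V →+* k),
      (∀ c : k, ∃ h : algebraMap k Z c ∈ V, α ⟨_, h⟩ = c) ∧
      (∀ v : V, α v = 0 ↔ ¬ IsUnit v) ∧
      ∀ (ι : Type) (s : Finset ι) (h : ι → H) (v : ι → V),
        ∑ i ∈ s, (h i : Q) * algebraMap Z Q (v i) = 0 → ∑ i ∈ s, φ (h i) * α (v i) = 0 := by
  classical
  obtain ⟨M, hM, hmax⟩ := exists_maximal (k := k) (Z := Z) (Q := Q) (H := H) (φ := φ)
  set S := II H φ M with hS
  have h1S : (1 : Q) ∉ S := hM.2
  have hSS : ∀ a ∈ S, ∀ b ∈ S, a * b ∈ S := fun a ha b hb => mul_mem_II hM.1 ha hb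
  have hcomm : ∀ (z : Z) (y : Q), Commute (algebraMap Z Q z) y := fun z y => Algebra.commutes z y
  have hkS : ∀ c : k, algebraMap k Q c ∈ S → c = 0 := by
    intro c hc
    by_contra hne
    apply h1S
    have := S.smul_mem c⁻¹ hc
    rwa [Algebra.smul_def, ← map_mul, inv_mul_cancel₀ hne, map_one] at this
  have hkM : ∀ c : k, algebraMap k Z c ∈ M → c = 0 := by
    intro c hc
    apply hkS
    rw [IsScalarTower.algebraMap_apply k Z Q]
    exact mem_II_of_M hc
  have huniq : ∀ (z : Z) (c c' : k), z - algebraMap k Z c ∈ M → z - algebraMap k Z c' ∈ M →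
      c = c' := by
    intro z c c' h h'
    have := sub_mem h' h
    rw [sub_sub_sub_cancel_left, ← map_sub] at this
    exact sub_eq_zero.1 (hkM _ this)
  -- multiplication by `k + M` preserves `S`
  have hSV : ∀ (z : Z), (∃ c : k, z - algebraMap k Z c ∈ M) → ∀ s ∈ S, s * algebraMap Z Q z ∈ S := by
    rintro z ⟨c, hc⟩ s hs
    have e : s * algebraMap Z Q z = s * algebraMap Z Q (z - algebraMap k Z c) + c • s := by
      rw [map_sub, mul_sub, ← IsScalarTower.algebraMap_apply k Z Q, Algebra.smul_def,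
        ← Algebra.commutes c s]
      abel
    rw [e]
    exact add_mem (mul_M_mem hM.1 hc hs) (S.smul_mem _ hs)
  have hstep2 : ∀ x : Z, x ≠ 0 → (∃ c : k, x - algebraMap k Z c ∈ M) ∨
      (∃ c : k, x⁻¹ - algebraMap k Z c ∈ M) := by
    intro x hx0
    by_contra hcon
    rw [not_or] at hcon
    obtain ⟨hc1, hc2⟩ := hcon
    have h1 : (1 : Q) ∈ IX S (algebraMap Z Q x) := by
      by_contra h; exact hc1 (step1 hM hmax h)
    have h2 : (1 : Q) ∈ IX S (algebraMap Z Q x⁻¹) := by
      by_contra h; exact hc2 (step1 hM hmax h)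
    have conv : ∀ y : Q, (1 : Q) ∈ IX S y → ∃ p, ∃ u, u - 1 ∈ S ∧ u ∈ Pol S y 1 (p + 1) := by
      intro y hy
      obtain ⟨n, f, hf, he⟩ := IX_Pol hy
      rcases Nat.eq_zero_or_pos n with hn | hn
      · subst hn
        exfalso
        apply h1S
        rw [he]; simp
      · refine ⟨n - 1, 1 - f 0, ?_, f, hf, ?_⟩
        · have : (1 : Q) - f 0 - 1 = - f 0 := by abel
          rw [this]; exact neg_mem (hf 0)
        · rw [he, Finset.sum_eq_sum_Ico_succ_bot hn, show n - 1 + 1 = n by omega]
          simp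
    obtain ⟨p, hp⟩ := conv _ h1
    obtain ⟨q, hq⟩ := conv _ h2
    refine no_both h1S hSS (p + q) p q le_rfl (algebraMap Z Q x) (algebraMap Z Q x⁻¹) ?_ ?_
      (hcomm x) (hcomm x⁻¹) hp hq
    · rw [← map_mul, mul_inv_cancel₀ hx0, map_one]
    · rw [← map_mul, inv_mul_cancel₀ hx0, map_one]
  let V : ValuationSubring Z :=
    { carrier := {z | ∃ c : k, z - algebraMap k Z c ∈ M}
      mul_mem' := by
        rintro a b ⟨c, hc⟩ ⟨d, hd⟩
        refine ⟨c * d, ?_⟩
        have : a * b - algebraMap k Z (c * d) = (a - algebraMap k Z c) * (b - algebraMap k Z d)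
            + (c • (b - algebraMap k Z d) + d • (a - algebraMap k Z c)) := by
          rw [Algebra.smul_def, Algebra.smul_def, map_mul]; ring
        rw [this]
        exact add_mem (hM.1 _ hc _ hd) (add_mem (M.smul_mem _ hd) (M.smul_mem _ hc))
      one_mem' := ⟨1, by simp⟩
      add_mem' := by
        rintro a b ⟨c, hc⟩ ⟨d, hd⟩
        refine ⟨c + d, ?_⟩
        rw [map_add, add_sub_add_comm]
        exact add_mem hc hd
      zero_mem' := ⟨0, by simp⟩
      neg_mem' := by
        rintro a ⟨c, hc⟩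
        refine ⟨-c, ?_⟩
        rw [map_neg, ← neg_sub', ]
        exact neg_mem hc
      mem_or_inv_mem' := by
        intro x
        rcases eq_or_ne x 0 with rfl | hx0
        · left; exact ⟨0, by simp⟩
        · exact hstep2 x hx0 }
  have hV : ∀ z : Z, z ∈ V ↔ ∃ c : k, z - algebraMap k Z c ∈ M := fun z => Iff.rfl
  let α : V →+* k :=
    { toFun := fun v => Classical.choose v.2
      map_one' := by
        refine huniq 1 _ _ (Classical.choose_spec (1 : V).2) (by simp)
      map_zero' := by
        refine huniq 0 _ _ (Classical.choose_spec (0 : V).2) (by simp)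
      map_mul' := by
        intro a b
        have ha := Classical.choose_spec a.2
        have hb := Classical.choose_spec b.2
        refine huniq (a * b : V) _ _ (Classical.choose_spec (a * b).2) ?_
        have : ((a * b : V) : Z) - algebraMap k Z (Classical.choose a.2 * Classical.choose b.2)
            = ((a : Z) - algebraMap k Z (Classical.choose a.2))
                * ((b : Z) - algebraMap k Z (Classical.choose b.2))
            + (Classical.choose a.2 • ((b : Z) - algebraMap k Z (Classical.choose b.2))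
              + Classical.choose b.2 • ((a : Z) - algebraMap k Z (Classical.choose a.2))) := by
          rw [Algebra.smul_def, Algebra.smul_def, map_mul]
          push_cast
          ring
        rw [this]
        exact add_mem (hM.1 _ ha _ hb) (add_mem (M.smul_mem _ hb) (M.smul_mem _ ha))
      map_add' := by
        intro a b
        have ha := Classical.choose_spec a.2
        have hb := Classical.choose_spec b.2
        refine huniq (a + b : V) _ _ (Classical.choose_spec (a + b).2) ?_
        have : ((a + b : V) : Z) - algebraMap k Z (Classical.choose a.2 + Classical.choose b.2)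
            = ((a : Z) - algebraMap k Z (Classical.choose a.2))
              + ((b : Z) - algebraMap k Z (Classical.choose b.2)) := by
          rw [map_add]
          push_cast
          ring
        rw [this]
        exact add_mem ha hb }
  have hα : ∀ v : V, (v : Z) - algebraMap k Z (α v) ∈ M := fun v => Classical.choose_spec v.2
  refine ⟨V, α, ?_, ?_, ?_⟩
  · intro c
    have h : algebraMap k Z c ∈ V := ⟨c, by simp⟩
    exact ⟨h, huniq _ _ _ (hα ⟨_, h⟩) (by simp)⟩
  · intro v
    constructor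
    · intro h0 hu
      have hv := hα v
      rw [h0, map_zero, sub_zero] at hv
      obtain ⟨w, hw⟩ := hu.exists_right_inv
      have hw' := hSV w w.2 _ (mem_II_of_M (H := H) (φ := φ) hv)
      apply h1S
      rw [← map_mul] at hw'
      have e : (v : Z) * (w : Z) = 1 := by exact_mod_cast congrArg (Subtype.val) hw
      rwa [e, map_one] at hw'
    · intro hu
      by_contra h0
      apply hu
      have hv0 : (v : Z) ≠ 0 := by
        intro h
        have h' : v = 0 := Subtype.ext h
        rw [h', map_zero] at h0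
        exact h0 rfl
      have hinv : (v : Z)⁻¹ ∈ V := by
        rw [hV]
        apply step1 hM hmax
        intro h1
        obtain ⟨n, f, hf, he⟩ := IX_Pol h1
        -- multiply by `v ^ n`
        have hpow : ∀ m : ℕ, ∀ s ∈ S, s * algebraMap Z Q (v : Z) ^ m ∈ S := by
          intro m
          induction m with
          | zero => intro s hs; simpa using hs
          | succ m ih =>
            intro s hs
            rw [pow_succ, ← mul_assoc]
            exact hSV _ v.2 _ (ih s hs)
        have h2 : algebraMap Z Q (v : Z) ^ n ∈ S := by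
          have : algebraMap Z Q (v : Z) ^ n
              = ∑ i ∈ Ico 0 n, f i * algebraMap Z Q (v : Z) ^ (n - i) := by
            calc algebraMap Z Q (v : Z) ^ n = 1 * algebraMap Z Q (v : Z) ^ n := by rw [one_mul]
              _ = ∑ i ∈ Ico 0 n, f i * algebraMap Z Q (v : Z)⁻¹ ^ i * algebraMap Z Q (v : Z) ^ n := by
                rw [he, Finset.sum_mul]
              _ = _ := by
                refine Finset.sum_congr rfl fun i hi => ?_
                rw [Finset.mem_Ico] at hi
                have e1 : algebraMap Z Q (v : Z) ^ n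
                    = algebraMap Z Q (v : Z) ^ i * algebraMap Z Q (v : Z) ^ (n - i) := by
                  rw [← pow_add]; congr 1; omega
                rw [e1, mul_assoc, ← mul_assoc (algebraMap Z Q (v : Z)⁻¹ ^ i), ← map_pow, ← map_pow,
                  ← map_mul, ← mul_pow, inv_mul_cancel₀ hv0, one_pow, map_one, one_mul]
          rw [this]
          exact Submodule.sum_mem _ fun i _ => hpow _ _ (hf i)
        -- `v ^ n ≡ α v ^ n`
        have h3 : (v ^ n : V) - algebraMap k Z (α v ^ n) ∈ M := by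
          have := hα (v ^ n)
          rwa [map_pow] at this
        have h4 := sub_mem h2 (mem_II_of_M (H := H) (φ := φ) h3)
        have h5 : algebraMap k Q (α v ^ n) ∈ S := by
          have e : algebraMap Z Q (v : Z) ^ n
              - algebraMap Z Q (((v ^ n : V) : Z) - algebraMap k Z (α v ^ n))
              = algebraMap k Q (α v ^ n) := by
            have e1 : ((v ^ n : V) : Z) = (v : Z) ^ n := by push_cast; rfl
            rw [map_sub, ← IsScalarTower.algebraMap_apply k Z Q, e1, map_pow (algebraMap Z Q)]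
            abel
          rwa [e] at h4
        have h6 := hkS _ h5
        exact h0 (eq_zero_of_pow_eq_zero h6)
      refine IsUnit.of_mul_eq_one ⟨(v : Z)⁻¹, hinv⟩ ?_
      apply Subtype.ext
      show (v : Z) * (v : Z)⁻¹ = 1
      exact mul_inv_cancel₀ hv0
  · intro ι s h v hsum
    apply hkS
    have key : ∀ i ∈ s, (h i : Q) * algebraMap Z Q (v i) - algebraMap k Q (φ (h i) * α (v i)) ∈ S := by
      intro i _
      have e : (h i : Q) * algebraMap Z Q (v i) - algebraMap k Q (φ (h i) * α (v i))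
          = ((h i : Q) - algebraMap k Q (φ (h i))) * algebraMap Z Q (v i)
            + φ (h i) • algebraMap Z Q ((v i : Z) - algebraMap k Z (α (v i))) := by
        rw [map_sub, Algebra.smul_def, ← IsScalarTower.algebraMap_apply k Z Q, map_mul]
        noncomm_ring
      rw [e]
      exact add_mem (hSV _ (v i).2 _ (sub_mem_II (h i))) (S.smul_mem _ (mem_II_of_M (hα (v i))))
    have := Submodule.sum_mem S key
    rw [Finset.sum_sub_distrib, hsum, zero_sub, ← map_sum] at this
    simpa using neg_mem this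

end Pool.Agent.Lib.MP_c37a72_al
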