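import Pool.Agent.Lib.MP_c37a72_al.Defs

/-!
# MP_c37a72_al, block PI: the central quotient division ring of a PI domain

Everything is proved from scratch (no Posner, no Kaplansky, no central polynomials in Mathlib).
File `Pool/Agent/Lib/MP_c37a72_al/XXX.lean`, theorem `specXXX (hYYY : SpecYYY) .. : SpecXXX`, own
lemmas in the namespace `Pool.Agent.Lib.MP_c37a72_al.XXXM`.
-/

set_option autoImplicit false

namespace Pool.Agent.Lib.MP_c37a72_al

universe u v w

/-- **ML** (200 lines). A PI algebra satisfies a multilinear identity with coefficient `1` at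
`a₁ ⋯ a_N`.

PROOF. Write `f = ∑ f_w w` (`FreeAlgebra.equivMonoidAlgebraFreeMonoid`, words `w` in the letters
`Fin n`), let `w₀` be a word of maximal length `N` with `f_{w₀} ≠ 0`, `w₀ = x_{c 0} ⋯ x_{c (N-1)}`,
`c : Fin N → Fin n`. For `a : Fin N → H` and `T : Finset (Fin N)` substitute
`x_i ↦ ∑_{j ∈ T, c j = i} a_j`. The value is `0`. Hence
`0 = ∑_T (-1)^{N-|T|} ∑_w f_w ∏_p (∑_{j ∈ T, c j = w_p} a_j)
   = ∑_w f_w ∑_{j : Fin |w| → Fin N, c ∘ j = w} a_{j 0} ⋯ a_{j (|w|-1)} ∑_{T ⊇ range j} (-1)^{N-|T|}`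
and the inner sum is `1` if `range j` is everything and `0` otherwise. As `|w| ≤ N` this happens only
for `|w| = N` and `j` a permutation `σ`, with `w = c ∘ σ`. So `∑_σ f_{c ∘ σ} a_{σ 0} ⋯ a_{σ (N-1)} = 0`
for all `a`; divide by `f_c = f_{w₀}`. (`N = 0` is allowed; then the identity says `1 = 0`.) -/
def SpecML : Prop :=
  ∀ (k : Type u) (H : Type v) [Field k] [Ring H] [Algebra k H], IsPI k H → ∃ N : ℕ, MLI k H N

/-- **ORE** (150 lines). A domain with a multilinear identity satisfies both Ore conditions.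

PROOF. Right: suppose `a H ∩ b H = 0`, `a, b ≠ 0`. Put `y_i = a^i b`, `i < N`. (1) `∑ y_i g_i = 0`
implies all `g_i = 0`: `b g_0 = - a (∑_{i ≥ 1} a^{i-1} b g_i) ∈ aH ∩ bH`, so `g_0 = 0`, cancel `a`,
induct. (2) By induction on `n`: if `c : (Fin n → Fin N) → k` and
`∑_w c_w y_{w 0} ⋯ y_{w (n-1)} = 0` then `c = 0` (split off the first letter, `Fin.consEquiv`, and use
(1)). Apply (2) to `n = N`, `c_σ = α_σ` for permutations and `0` otherwise: `α_1 = 0`, a contradiction.
Left: the opposite ring satisfies the identity with `β_τ = α_{rev τ rev}`, `β_1 = 1` (substitute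
`a ∘ rev`), or repeat the argument with `y_i = b a^i` (split off the last letter). -/
def SpecORE : Prop :=
  ∀ (k : Type u) (H : Type v) [Field k] [Ring H] [IsDomain H] [Algebra k H], (∃ N : ℕ, MLI k H N) →
    ∀ a b : H, a ≠ 0 → b ≠ 0 →
      (∃ x y : H, a * x = b * y ∧ a * x ≠ 0) ∧ ∃ x y : H, x * a = y * b ∧ x * a ≠ 0

/-- **FRC** (120 lines). The Ore division ring of fractions.

PROOF. Mathlib: `OreLocalization.OreSet (nonZeroDivisors H)` from the left Ore condition (Mathlib
localisations have left denominators), `H[(nonZeroDivisors H)⁻¹]` is a division ring and a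
`k`-algebra (Mathlib.RingTheory.OreLocalization.Ring). The right fractions: `q = s⁻¹ h`; if `h ≠ 0`
choose `x, y` with `s x = h y ≠ 0`; then `q y = s⁻¹ h y = x`. -/
def SpecFRC : Prop :=
  ∀ (k : Type u) (H : Type v) [Field k] [Ring H] [IsDomain H] [Algebra k H],
    (∀ a b : H, a ≠ 0 → b ≠ 0 →
      (∃ x y : H, a * x = b * y ∧ a * x ≠ 0) ∧ ∃ x y : H, x * a = y * b ∧ x * a ≠ 0) →
    ∃ (Q : Type v) (_ : DivisionRing Q) (_ : Algebra k Q) (ι : H →ₐ[k] Q), IsFr k H Q ι

/-- **AWL** (100 lines). `X` a subring of the division ring `Q` whose centraliser is the centre,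
`x_j` linearly independent over the centre, `g_j ∈ X`, `∑ x_j y g_j = 0` for all `y ∈ X`. Then all
`g_j = 0`.

PROOF. Otherwise take a counterexample with the smallest number of nonzero `g_j`, `g_i ≠ 0`. For `u` in
`X`: replace `y` by `y g_i u`, and multiply the relation on the right by `u g_i`; the difference
`∑ x_j y (g_i u g_j - g_j u g_i) = 0` is shorter (the `i`-th coefficient is `0`, zero coefficients
stay zero). So `g_i u g_j = g_j u g_i` for all `j`, `u ∈ X`. `u = 1`: `c_j := g_i⁻¹ g_j = g_j g_i⁻¹`,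
and `u c_j = c_j u` for `u ∈ X`, so `c_j` is central, `g_j = c_j g_i`. `y = 1`:
`(∑ c_j x_j) g_i = 0`, so `∑ c_j x_j = 0` with `c_i = 1`, a contradiction. -/
def SpecAWL : Prop :=
  ∀ (Q : Type v) [DivisionRing Q] (X : Subring Q),
    (∀ c : Q, (∀ x ∈ X, x * c = c * x) → c ∈ Subring.center Q) →
    ∀ (n : ℕ) (x g : Fin n → Q), LinearIndependent (Subring.center Q) x → (∀ j, g j ∈ X) →
      (∀ y ∈ X, ∑ j, x j * y * g j = 0) → ∀ j, g j = 0

/-- **KAP** (350 lines). Kaplansky for a domain: `[Q : Z(Q)] < ∞`.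

PROOF. Let `L` be a maximal commutative subring of `Q` containing `k` (Zorn); `L` is its own
centraliser, so a field. `Q` is a RIGHT `L`-vector space. Operators on `Q`:
`𝒜 = {x ↦ ∑ q_i x l_i}`, `𝒜_H = {x ↦ ∑ ι(h_i) x l_i}`, `q_i ∈ Q, h_i ∈ H, l_i ∈ L`; `𝒜` is a ring
of `L`-linear maps, the subring `𝒜_H` satisfies the SAME multilinear identity (`L` is commutative and
commutes with the left multiplications), and for `T ∈ 𝒜` there is `0 ≠ s ∈ H` with `s T ∈ 𝒜_H`
(common left denominators, from `IsFr.left`).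
(1) DENSITY. `W` a finite-dimensional `L`-subspace, `y ∉ W` implies: there is `T ∈ 𝒜`, `T W = 0`,
`T y ≠ 0`. Induct on `dim W`: `W = W₀ + w L`, `w ∉ W₀`, `J = {T ∈ 𝒜 : T W₀ = 0}`; `J w ≠ 0`, so
`J w = Q` (`Q J ⊆ J`). If `T w = 0 ⇒ T y = 0` for all `T ∈ J`, then `φ : T w ↦ T y` is well defined
on `Q`, commutes with left multiplications, so `φ x = x c` with `c = φ 1`, and with right
multiplications by `L` (`J L ⊆ J`), so `c` centralises `L`, `c ∈ L`. Then `T (y - w c) = 0` for all
`T ∈ J`, by induction `y - w c ∈ W₀`, so `y ∈ W`.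
(2) If `W` is a finite-dimensional `L`-subspace, `0 ≠ y'` and `ι(h) y' ∈ W` for all `h ∈ H`, then
`W = Q`: `W' = span_L (H y')` is stable under `H`, every `0 ≠ s ∈ H` is injective, so bijective on
`W'`, so `W'` is stable under `Q`.
(3) Suppose `dim_L Q ≥ N`. Choose `y_N ≠ 0` and downwards, for `j = N, .., 2`, `A_j ∈ 𝒜_H` with
`A_j y_i = 0` for `i > j` and `y_{j-1} := A_j y_j ∉ span_L(y_j, .., y_N)`: by (1) `T` kills `y_i`,
`i > j`, and `T y_j ≠ 0`, then `s T ∈ 𝒜_H`, then multiply by a suitable `h ∈ H` with (2). Finally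
`A_1 ∈ 𝒜_H` kills `y_i`, `i > 1`, `y_0 := A_1 y_1 ≠ 0`. Apply the identity to `A_1, .., A_N` and
evaluate at `y_N`: `A_{σ 1} ⋯ A_{σ N} y_N = 0` unless `σ = 1` (`A_j` kills `y_i` for `i > j`, so
`σ N = N`, then `σ (N-1) = N-1`, ...), so `α_1 y_0 = 0`, a contradiction. (`N ≥ 1` as `H ≠ 0`.) So
`dim_L Q < N`.
(4) `Z`-independent `q_1, .., q_r` give right `L`-independent elements of `End_L(Q)` (`x ↦ q_i x`):
`∑ q_i x l_i = 0` for all `x` implies `l_i = 0` by AWL with `X = Q`. So `r ≤ (dim_L Q)²`. -/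
def SpecKAP : Prop :=
  ∀ (k : Type u) (H Q : Type v) [Field k] [Ring H] [IsDomain H] [Algebra k H] [DivisionRing Q]
    [Algebra k Q] (ι : H →ₐ[k] Q), IsFr k H Q ι → (∃ N : ℕ, MLI k H N) →
      Module.Finite (Subring.center Q) Q

/-- The Capelli sum `∑_σ sgn σ • x_{σ 0} y_0 x_{σ 1} y_1 ⋯ x_{σ (n-1)} y_{n-1}`. -/
noncomputable def capelli {Q : Type v} [Ring Q] (n : ℕ) (x y : Fin n → Q) : Q :=
  ∑ σ : Equiv.Perm (Fin n), ((Equiv.Perm.sign σ : ℤ)) • (List.ofFn fun i => x (σ i) * y i).prod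

/-- **CAP** (200 lines). The Capelli sum (a) does not vanish on `H` and (b) absorbs determinants of
left multiplications.

(a) PROOF. For every `n` and `Z`-independent `x : Fin n → X` there are `y : Fin n → X` with
`capelli n x y ≠ 0`. Induct on `n` (`n = 0`: the value is `1`): expand along the first letter,
`capelli (n+1) x (Fin.cons y0 y) = ∑_j ± x_j y0 capelli n (x without j) y` (`Fin.decomposeOption`
or `Equiv.Perm.decomposeFin`; only the form `∑_j x_j y0 g_j` with `g_j = ± capelli n (x ∘ j.succAbove) y`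
is needed). If it vanishes for all `y0 ∈ X` then `g_j = 0` by AWL (the `g_j` are in `X`), for all
`y`, which contradicts the induction hypothesis.
(b) PROOF. For fixed `y` the map `x ↦ capelli n x y` is `Z`-multilinear and alternating in
`n = dim_Z Q` arguments, so for a `Z`-linear `φ : Q → Q`, `capelli n (φ ∘ x) y = det φ • capelli n x y`
(for `AlternatingMap`: `Basis.det`, or `LinearMap.det` of `φ` through a basis; if `x` is dependent
both sides are `0`). -/
def SpecCAP : Prop :=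
  (∀ (Q : Type v) [DivisionRing Q] (X : Subring Q),
    (∀ c : Q, (∀ x ∈ X, x * c = c * x) → c ∈ Subring.center Q) →
    ∀ (n : ℕ) (x : Fin n → Q), LinearIndependent (Subring.center Q) x → (∀ j, x j ∈ X) →
      ∃ y : Fin n → Q, (∀ j, y j ∈ X) ∧ capelli n x y ≠ 0) ∧
  (∀ (Q : Type v) [DivisionRing Q] [Module.Finite (Subring.center Q) Q]
    (φ : Q →ₗ[Subring.center Q] Q) (x y : Fin (Module.finrank (Subring.center Q) Q) → Q),
    capelli (Module.finrank (Subring.center Q) Q) (fun i => φ (x i)) y =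
      LinearMap.det φ • capelli (Module.finrank (Subring.center Q) Q) x y)

/-- **CEN** (250 lines). `k` infinite. Every nonzero element of `H` divides a nonzero central element.

PROOF. `n = [Q : Z]`, `Z = center Q`. `𝔤 ⊆ ι(H)` the set of finite sums `∑ u c(x;y) v` with
`u, v, x_i, y_i ∈ ι(H)`, `c = capelli n`. `𝔤 ≠ 0`: there are `n` elements of `ι(H)` which form a
`Z`-basis of `Q` (take a `Z`-basis of `Q` and multiply by a common left denominator `s`; left
multiplication by `s ≠ 0` is `Z`-linear and bijective), and CAP (a) with `X = ι(H)` (an element which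
commutes with `ι(H)` commutes with `Q`, by fractions).
(1) For `a ∈ ι(H)` let `χ_a(T) = det(T - λ_a) = ∑ s_i T^i` be the characteristic polynomial of
`λ_a : Q → Q, x ↦ a x` over `Z`. Then `s_i 𝔤 ⊆ 𝔤`: for `t ∈ k`, CAP (b) gives
`χ_a(t) c(x;y) = c((t - a) x_1, .., (t - a) x_n; y) ∈ 𝔤`; take `n + 1` different `t ∈ k` and invert the
Vandermonde matrix over `k`; and `s_i` is central.
(2) Let `0 ≠ a ∈ H`, `0 ≠ u ∈ 𝔤`, `w = a u ∈ 𝔤`, `w ≠ 0`. Cayley–Hamilton for `λ_w` at `1`:
`∑_{i ≤ n} s_i w^i = 0`, so `-s_0 = ∑_{i ≥ 1} s_i w^i = a ∑_{i ≥ 1} (s_i u) w^{i-1}` and `s_i u ∈ 𝔤`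
by (1), so `-s_0 = a b` with `b ∈ ι(H)`; `s_0 = ± det λ_w ≠ 0` lies in `Z ∩ ι(H)`. -/
def SpecCEN : Prop :=
  ∀ (k : Type u) (H Q : Type v) [Field k] [Infinite k] [Ring H] [IsDomain H] [Algebra k H]
    [DivisionRing Q] [Algebra k Q] (ι : H →ₐ[k] Q), IsFr k H Q ι →
    Module.Finite (Subring.center Q) Q →
      ∀ a : H, a ≠ 0 → ∃ b c : H, a * b = c ∧ c ≠ 0 ∧ Cent c

/-- **CFR** (80 lines). Assembly of the block: a PI domain over an infinite field has a central
quotient division ring.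

PROOF. ML, ORE, FRC give `Q`; KAP gives finiteness; `Z := Subring.center Q` (a field; `k → Z` is an
algebra since `algebraMap k Q` lands in the centre); CEN: `q = s⁻¹ h`, `s b = c` central, also
`b s = c` (domain), so `c q = b s q = b h`. -/
def SpecCFR : Prop :=
  ∀ (k : Type u) (H : Type v) [Field k] [Infinite k] [Ring H] [IsDomain H] [Algebra k H],
    IsPI k H →
    ∃ (Z Q : Type v) (_ : Field Z) (_ : Algebra k Z) (_ : DivisionRing Q) (_ : Algebra k Q)
      (_ : Algebra Z Q) (_ : IsScalarTower k Z Q) (ι : H →ₐ[k] Q), IsCQ k H Z Q ι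

end Pool.Agent.Lib.MP_c37a72_al
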